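import Pool.Agent.Sturm82.MeasEsc

set_option autoImplicit false
open MeasureTheory Set Filter Topology
open scoped ENNReal NNReal

namespace Pool.Agent.Sturm82.Meas

/-- The sum of the `s`-th powers of the lengths of a finite family of rational intervals. -/
noncomputable def fsum (s : ℝ) (F : Finset (ℚ × ℚ)) : ℝ≥0∞ :=
  ∑ p ∈ F, (ENNReal.ofReal ((p.2:ℝ) - (p.1:ℝ))) ^ s

/-- The union of a finite family of open rational intervals. -/
def funion (F : Finset (ℚ × ℚ)) : Set ℝ := ⋃ p ∈ F, Ioo (p.1:ℝ) (p.2:ℝ)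

lemma funion_isOpen (F : Finset (ℚ × ℚ)) : IsOpen (funion F) :=
  isOpen_biUnion (fun _ _ => isOpen_Ioo)

lemma exists_rat_Ioo {S : Set ℝ} {s : ℝ} (hs : 0 < s) {c : ℝ≥0∞}
    (hc : (Metric.ediam S) ^ s < c) :
    ∃ p : ℚ × ℚ, S ⊆ Ioo (p.1:ℝ) (p.2:ℝ) ∧ (ENNReal.ofReal ((p.2:ℝ) - (p.1:ℝ))) ^ s < c := by
  have hfin : Metric.ediam S ≠ ⊤ := by
    intro h
    rw [h, ENNReal.top_rpow_of_pos hs] at hc
    exact not_top_lt hc
  have hb : Bornology.IsBounded S := Metric.isBounded_iff_ediam_ne_top.2 hfin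
  rw [Real.ediam_eq hb] at hc
  have hcont : Continuous (fun δ : ℝ => (ENNReal.ofReal ((sSup S - sInf S) + 2*δ)) ^ s) :=
    ENNReal.continuous_rpow_const.comp (ENNReal.continuous_ofReal.comp (by fun_prop))
  have hev : ∀ᶠ δ in 𝓝 (0:ℝ), (ENNReal.ofReal ((sSup S - sInf S) + 2*δ)) ^ s < c := by
    apply hcont.continuousAt.eventually_lt continuousAt_const
    simpa using hc
  obtain ⟨δ, hδ, hδ0⟩ : ∃ δ : ℝ, (ENNReal.ofReal ((sSup S - sInf S) + 2*δ)) ^ s < c ∧ 0 < δ :=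
    ((hev.filter_mono nhdsWithin_le_nhds : ∀ᶠ δ in 𝓝[>] (0:ℝ), _).and
      self_mem_nhdsWithin).exists
  obtain ⟨a, ha1, ha2⟩ := exists_rat_btwn (show sInf S - δ < sInf S by linarith)
  obtain ⟨b, hb1, hb2⟩ := exists_rat_btwn (show sSup S < sSup S + δ by linarith)
  refine ⟨(a, b), fun x hx => ⟨lt_of_lt_of_le ha2 (csInf_le hb.bddBelow hx),
    lt_of_le_of_lt (le_csSup hb.bddAbove hx) hb1⟩, lt_of_le_of_lt ?_ hδ⟩
  apply ENNReal.rpow_le_rpow _ hs.le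
  apply ENNReal.ofReal_le_ofReal
  simp only
  linarith

lemma exists_cover_of_hausdorff_zero {K : Set ℝ} (hK : IsCompact K) {s : ℝ} (hs : 0 < s)
    (h0 : Measure.hausdorffMeasure s K = 0) {ε : ℝ≥0∞} (hε : 0 < ε) (hεt : ε ≠ ⊤) :
    ∃ F : Finset (ℚ × ℚ), K ⊆ funion F ∧ fsum s F < ε := by
  have hε2 : 0 < ε / 2 := ENNReal.half_pos hε.ne'
  have h1 : (⨅ (t : ℕ → Set ℝ) (_ : K ⊆ ⋃ n, t n) (_ : ∀ n, Metric.ediam (t n) ≤ 1),
      ∑' n, ⨆ _ : (t n).Nonempty, Metric.ediam (t n) ^ s) < ε / 2 := by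
    refine lt_of_le_of_lt ?_ hε2
    rw [← h0, Measure.hausdorffMeasure_apply]
    exact le_iSup₂_of_le (1:ℝ≥0∞) one_pos le_rfl
  simp only [iInf_lt_iff] at h1
  obtain ⟨t, hcov, -, hsum⟩ := h1
  obtain ⟨ε', hε'0, hε's⟩ := ENNReal.exists_pos_sum_of_countable hε2.ne' ℕ
  have hterm : ∀ n, (⨆ _ : (t n).Nonempty, Metric.ediam (t n) ^ s) ≠ ⊤ := by
    intro n
    have := ENNReal.le_tsum (f := fun n => ⨆ _ : (t n).Nonempty, Metric.ediam (t n) ^ s) n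
    have h2 : ε / 2 ≠ ⊤ := (ENNReal.div_lt_top hεt (by norm_num)).ne
    exact (lt_of_le_of_lt this (hsum.trans h2.lt_top)).ne
  have hp : ∀ n, ∃ p : ℚ × ℚ, t n ⊆ Ioo (p.1:ℝ) (p.2:ℝ) ∧
      (ENNReal.ofReal ((p.2:ℝ) - (p.1:ℝ))) ^ s ≤
        (⨆ _ : (t n).Nonempty, Metric.ediam (t n) ^ s) + ε' n := by
    intro n
    rcases (t n).eq_empty_or_nonempty with he | hne
    · refine ⟨(0, 0), by simp [he], ?_⟩
      simp [ENNReal.zero_rpow_of_pos hs]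
    · have hval : (⨆ _ : (t n).Nonempty, Metric.ediam (t n) ^ s) = Metric.ediam (t n) ^ s := by
        simp [hne]
      have hlt : Metric.ediam (t n) ^ s <
          (⨆ _ : (t n).Nonempty, Metric.ediam (t n) ^ s) + ε' n := by
        have h3 := hterm n
        rw [hval] at h3 ⊢
        exact ENNReal.lt_add_right h3 (by exact_mod_cast (hε'0 n).ne')
      obtain ⟨p, hp1, hp2⟩ := exists_rat_Ioo hs hlt
      exact ⟨p, hp1, hp2.le⟩
  choose p hp1 hp2 using hp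
  obtain ⟨I, hI⟩ := hK.elim_finite_subcover (fun n => Ioo ((p n).1:ℝ) ((p n).2:ℝ))
    (fun n => isOpen_Ioo) (hcov.trans (iUnion_mono hp1))
  classical
  refine ⟨I.image p, ?_, ?_⟩
  · intro x hx
    obtain ⟨n, hn, hxn⟩ := mem_iUnion₂.1 (hI hx)
    exact mem_iUnion₂.2 ⟨p n, Finset.mem_image_of_mem p hn, hxn⟩
  · have e1 : fsum s (I.image p) ≤ ∑ n ∈ I, (ENNReal.ofReal (((p n).2:ℝ) - ((p n).1:ℝ))) ^ s :=
      Finset.sum_image_le_of_nonneg (g := p)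
        (f := fun p : ℚ × ℚ => (ENNReal.ofReal ((p.2:ℝ) - (p.1:ℝ))) ^ s) (fun _ _ => zero_le)
    have e2 : ∑ n ∈ I, (ENNReal.ofReal (((p n).2:ℝ) - ((p n).1:ℝ))) ^ s ≤
        ∑ n ∈ I, ((⨆ _ : (t n).Nonempty, Metric.ediam (t n) ^ s) + (ε' n : ℝ≥0∞)) :=
      Finset.sum_le_sum (fun n _ => hp2 n)
    have e3 : ∑ n ∈ I, ((⨆ _ : (t n).Nonempty, Metric.ediam (t n) ^ s) + (ε' n : ℝ≥0∞)) ≤
        ∑' n, ((⨆ _ : (t n).Nonempty, Metric.ediam (t n) ^ s) + (ε' n : ℝ≥0∞)) :=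
      ENNReal.sum_le_tsum I
    have e4 : ∑' n, ((⨆ _ : (t n).Nonempty, Metric.ediam (t n) ^ s) + (ε' n : ℝ≥0∞)) < ε := by
      rw [ENNReal.tsum_add, ← ENNReal.add_halves ε]
      exact ENNReal.add_lt_add hsum hε's
    exact lt_of_le_of_lt (e1.trans (e2.trans e3)) e4

lemma hausdorff_zero_of_covers {K : Set ℝ} {s : ℝ} (hs : 0 < s)
    (h : ∀ k : ℕ, ∃ F : Finset (ℚ × ℚ), K ⊆ funion F ∧ fsum s F < ((k:ℝ≥0∞) + 1)⁻¹) :
    Measure.hausdorffMeasure s K = 0 := by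
  choose F hF1 hF2 using h
  have hlim : Tendsto (fun k : ℕ => ((k:ℝ≥0∞) + 1)⁻¹) atTop (𝓝 0) := by
    have := ENNReal.tendsto_inv_nat_nhds_zero.comp (tendsto_add_atTop_nat 1)
    refine this.congr (fun k => ?_)
    simp
  have hr : Tendsto (fun k : ℕ => (((k:ℝ≥0∞) + 1)⁻¹) ^ (s⁻¹)) atTop (𝓝 0) := by
    have h1 := (ENNReal.continuous_rpow_const (y := s⁻¹)).tendsto 0
    rw [ENNReal.zero_rpow_of_pos (inv_pos.2 hs)] at h1
    exact h1.comp hlim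
  have key := Measure.hausdorffMeasure_le_liminf_sum (β := ℕ) (ι := fun k => {p // p ∈ F k}) s K
    (l := atTop) (fun k : ℕ => (((k:ℝ≥0∞) + 1)⁻¹) ^ (s⁻¹)) hr
    (fun k i => Ioo ((i.1.1 : ℚ) : ℝ) ((i.1.2 : ℚ):ℝ))
    (Eventually.of_forall (fun k i => ?_)) (Eventually.of_forall (fun k => ?_))
  · have hsumeq : ∀ k : ℕ, ∑ i : {p // p ∈ F k},
        Metric.ediam (Ioo ((i.1.1 : ℚ) : ℝ) ((i.1.2 : ℚ):ℝ)) ^ s = fsum s (F k) := by
      intro k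
      unfold fsum
      rw [← Finset.sum_coe_sort (F k)
        (fun p : ℚ × ℚ => (ENNReal.ofReal ((p.2:ℝ) - (p.1:ℝ))) ^ s)]
      apply Finset.sum_congr rfl
      intro i _
      rw [Real.ediam_Ioo]
    simp only [hsumeq] at key
    have h2 : liminf (fun k => fsum s (F k)) atTop ≤ 0 := by
      have h3 : Tendsto (fun k => fsum s (F k)) atTop (𝓝 0) :=
        tendsto_of_tendsto_of_tendsto_of_le_of_le tendsto_const_nhds hlim
          (fun k => zero_le) (fun k => (hF2 k).le)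
      exact h3.liminf_eq.le
    exact le_antisymm (key.trans h2) zero_le
  · rw [Real.ediam_Ioo]
    have h4 : (ENNReal.ofReal (((i.1.2 : ℚ):ℝ) - ((i.1.1 : ℚ) : ℝ))) ^ s ≤ ((k:ℝ≥0∞) + 1)⁻¹ := by
      refine le_trans ?_ (hF2 k).le
      unfold fsum
      exact Finset.single_le_sum (f := fun p : ℚ × ℚ => (ENNReal.ofReal ((p.2:ℝ) - (p.1:ℝ))) ^ s)
        (fun _ _ => zero_le) i.2
    exact (ENNReal.le_rpow_inv_iff hs).2 h4
  · intro x hx
    obtain ⟨p, hp, hxp⟩ := mem_iUnion₂.1 (hF1 k hx)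
    exact mem_iUnion.2 ⟨⟨p, hp⟩, hxp⟩

lemma dimH_le_iff_rat {K : Set ℝ} (t : ℝ≥0∞) :
    dimH K ≤ t ↔ ∀ q : ℚ, 0 < q → t < ENNReal.ofReal q →
      Measure.hausdorffMeasure (q:ℝ) K = 0 := by
  constructor
  · intro h q hq htq
    have hq' : ((Real.toNNReal (q:ℝ) : ℝ≥0) : ℝ) = (q:ℝ) :=
      Real.coe_toNNReal _ (by exact_mod_cast hq.le)
    have := hausdorffMeasure_of_dimH_lt (s := K) (d := Real.toNNReal (q:ℝ))
      (lt_of_le_of_lt h htq)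
    rwa [hq'] at this
  · intro h
    by_contra hc
    push Not at hc
    obtain ⟨q, hq0, hq1, hq2⟩ := ENNReal.lt_iff_exists_rat_btwn.1 hc
    have hqpos : 0 < q := by
      rcases lt_or_eq_of_le hq0 with h | h
      · exact h
      · exfalso
        rw [← h] at hq1
        simp at hq1
    have h1 := h q hqpos hq1
    have h2 := hausdorffMeasure_of_lt_dimH hq2
    have hq' : ((Real.toNNReal (q:ℝ) : ℝ≥0) : ℝ) = (q:ℝ) :=
      Real.coe_toNNReal _ (by exact_mod_cast hq0)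
    rw [hq', h1] at h2
    exact absurd h2 (by simp)

lemma dimH_Sig_le_iff {lam : ℝ} (hlam : 0 < lam) {a : ℕ → ℕ} (ha : ∀ n, 1 ≤ a n) (t : ℝ≥0∞) :
    dimH (Sig lam a) ≤ t ↔ ∀ q : ℚ, 0 < q → t < ENNReal.ofReal q → ∀ k : ℕ,
      ∃ F : Finset (ℚ × ℚ), fsum (q:ℝ) F < ((k:ℝ≥0∞) + 1)⁻¹ ∧ ∃ n, BS lam a n ⊆ funion F := by
  rw [dimH_le_iff_rat]
  refine forall_congr' fun q => forall_congr' fun hq => forall_congr' fun htq => ?_
  have hq' : (0:ℝ) < q := by exact_mod_cast hq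
  constructor
  · intro h k
    obtain ⟨F, hF1, hF2⟩ := exists_cover_of_hausdorff_zero (Sig_isCompact hlam ha) hq' h
      (ε := ((k:ℝ≥0∞) + 1)⁻¹) (by simp) (by simp)
    exact ⟨F, hF2, (Sig_subset_open_iff hlam ha (funion_isOpen F)).1 hF1⟩
  · intro h
    apply hausdorff_zero_of_covers hq'
    intro k
    obtain ⟨F, hF2, hF1⟩ := h k
    exact ⟨F, (Sig_subset_open_iff hlam ha (funion_isOpen F)).2 hF1, hF2⟩

/-- PACKAGE C. The set of `α` with `dimH (Sig lam (dig α)) ≤ t` is measurable. -/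
theorem measurableSet_dimH_le (lam : ℝ) (hlam : 0 < lam) (t : ENNReal) :
    MeasurableSet {α : ℝ | α ∈ Ioo (0:ℝ) 1 ∧ Irrational α ∧ dimH (Sig lam (dig α)) ≤ t} := by
  have hirr : MeasurableSet {α : ℝ | Irrational α} :=
    (Set.countable_range ((↑) : ℚ → ℝ)).measurableSet.compl
  have hT : MeasurableSet (⋂ q : ℚ, ⋂ _ : 0 < q, ⋂ _ : t < ENNReal.ofReal q, ⋂ k : ℕ,
      ⋃ F : Finset (ℚ × ℚ), ⋃ _ : fsum (q:ℝ) F < ((k:ℝ≥0∞) + 1)⁻¹, ⋃ n : ℕ,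
        {α : ℝ | BS lam (dig α) n ⊆ funion F}) := by
    refine MeasurableSet.iInter fun q => MeasurableSet.iInter fun _ => MeasurableSet.iInter
      fun _ => MeasurableSet.iInter fun k => MeasurableSet.iUnion fun F =>
      MeasurableSet.iUnion fun _ => MeasurableSet.iUnion fun n => ?_
    exact measurableSet_BS_subset lam n _
  have heq : {α : ℝ | α ∈ Ioo (0:ℝ) 1 ∧ Irrational α ∧ dimH (Sig lam (dig α)) ≤ t} =
      Ioo (0:ℝ) 1 ∩ ({α : ℝ | Irrational α} ∩ (⋂ q : ℚ, ⋂ _ : 0 < q,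
        ⋂ _ : t < ENNReal.ofReal q, ⋂ k : ℕ,
        ⋃ F : Finset (ℚ × ℚ), ⋃ _ : fsum (q:ℝ) F < ((k:ℝ≥0∞) + 1)⁻¹, ⋃ n : ℕ,
        {α : ℝ | BS lam (dig α) n ⊆ funion F})) := by
    ext α
    simp only [mem_ofPred_eq, mem_inter_iff]
    refine and_congr_right fun h1 => and_congr_right fun h2 => ?_
    rw [dimH_Sig_le_iff hlam (one_le_dig h1 h2)]
    simp only [mem_iInter, mem_iUnion, mem_ofPred_eq, exists_prop]
  rw [heq]
  exact measurableSet_Ioo.inter (hirr.inter hT)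

end Pool.Agent.Sturm82.Meas
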