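import Pool.Agent.Sturm82.SpecApprox

set_option autoImplicit false

namespace Pool.Agent.Sturm82.Spec

/-- PACKAGE A. For irrational `α` the Sturmian spectrum is the trace-map set. -/
theorem spectrum_eq_Sig (lam : ℝ) (hlam : 0 < lam) (α : ℝ) (h0 : 0 < α) (h1 : α < 1)
    (hα : Irrational α) (T : lp (fun _ : ℤ => ℂ) 2 →L[ℂ] lp (fun _ : ℤ => ℂ) 2)
    (hT : ∀ (u : lp (fun _ : ℤ => ℂ) 2) (n : ℤ),
      (T u) n = u (n + 1) + u (n - 1)
        + ((lam * ((⌊((n:ℝ) + 1) * α⌋ - ⌊(n:ℝ) * α⌋ : ℤ) : ℝ) : ℝ) : ℂ) * u n) :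
    {E : ℝ | (E : ℂ) ∈ spectrum ℂ T} = Sig lam (dig α) := by
  have _ := hlam
  have hT' : ∀ (u : L2) (n : ℤ), (T u) n = u (n + 1) + u (n - 1)
      + ((lam * (sv α n : ℝ) : ℝ) : ℂ) * u n := hT
  ext E
  constructor
  · intro hE
    by_contra hc
    exact not_mem_spectrum lam α h0 h1 hα T hT' E hc hE
  · intro hE
    exact mem_spectrum lam α h0 h1 hα T hT' E hE

end Pool.Agent.Sturm82.Spec
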