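import Pool.Agent.Sturm82.Defs

set_option autoImplicit false
open MeasureTheory Set Filter Topology

namespace Pool.Agent.Sturm82

lemma fract_nat_add' (k : ℕ) {z : ℝ} (h0 : 0 < z) (h1 : z < 1) : Int.fract ((k:ℝ) + z) = z := by
  rw [Int.fract_natCast_add, Int.fract_eq_self]
  exact ⟨h0.le, h1⟩

lemma inv_lt_half {k : ℕ} (hk : 2 ≤ k) {z : ℝ} (h0 : 0 < z) :
    0 < ((k:ℝ) + z)⁻¹ ∧ ((k:ℝ) + z)⁻¹ < 1/2 := by
  have h2 : (2:ℝ) ≤ k := by exact_mod_cast hk
  refine ⟨by positivity, ?_⟩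
  rw [one_div]
  apply inv_strictAnti₀ (by norm_num)
  linarith

lemma smap_left {k : ℕ} (hk : 2 ≤ k) {z : ℝ} (h0 : 0 < z) (h1 : z < 1) :
    smap (((k:ℝ) + z)⁻¹) = z := by
  obtain ⟨ha, hb⟩ := inv_lt_half hk h0
  unfold smap
  rw [min_eq_left (by linarith), inv_inv, fract_nat_add' k h0 h1]

lemma smap_right {k : ℕ} (hk : 2 ≤ k) {z : ℝ} (h0 : 0 < z) (h1 : z < 1) :
    smap (1 - ((k:ℝ) + z)⁻¹) = z := by
  obtain ⟨ha, hb⟩ := inv_lt_half hk h0
  unfold smap
  rw [min_eq_right (by linarith), sub_sub_cancel, inv_inv, fract_nat_add' k h0 h1]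

/-- inverse branch structure at one point -/
lemma branch {x : ℝ} (h0 : 0 < x) (h1 : x < 1) (hx : Irrational x) :
    0 < smap x ∧ smap x < 1 ∧ Irrational (smap x) ∧ ∃ k : ℕ, 2 ≤ k ∧
      (x = ((k:ℝ) + smap x)⁻¹ ∨ x = 1 - ((k:ℝ) + smap x)⁻¹) := by
  set w := min x (1 - x) with hw
  have hxh : x ≠ 1 / 2 := by
    intro h
    apply hx
    exact ⟨1/2, by rw [h]; norm_num⟩
  have hw0 : 0 < w := lt_min h0 (by linarith)
  have hwh : w < 1 / 2 := by
    rcases lt_or_gt_of_ne hxh with h | h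
    · exact (min_le_left _ _).trans_lt h
    · exact (min_le_right _ _).trans_lt (by linarith)
  have hwirr : Irrational w := by
    rcases min_choice x (1 - x) with h | h
    · rw [hw, h]; exact hx
    · rw [hw, h]
      have := hx.ratCast_sub 1
      simpa using this
  have hs : smap x = Int.fract w⁻¹ := rfl
  have hinv : Irrational w⁻¹ := hwirr.inv
  have h2 : 2 < w⁻¹ := by
    have := inv_strictAnti₀ hw0 hwh
    rwa [one_div, inv_inv] at this
  have hfirr : Irrational (Int.fract w⁻¹) := by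
    have := hinv.sub_intCast ⌊w⁻¹⌋
    exact this
  have hf0 : 0 < Int.fract w⁻¹ := by
    rcases (Int.fract_nonneg w⁻¹).lt_or_eq with h | h
    · exact h
    · exfalso; apply hfirr; exact ⟨0, by rw [← h]; norm_num⟩
  rw [hs]
  refine ⟨hf0, Int.fract_lt_one _, hfirr, ⌊w⁻¹⌋.toNat, ?_, ?_⟩
  · have : (2:ℤ) ≤ ⌊w⁻¹⌋ := Int.le_floor.2 (by exact_mod_cast h2.le)
    omega
  · have h3 : (0:ℤ) ≤ ⌊w⁻¹⌋ := Int.floor_nonneg.2 (by positivity)
    have h4 : ((⌊w⁻¹⌋.toNat : ℕ) : ℝ) = (⌊w⁻¹⌋ : ℝ) := by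
      have : ((⌊w⁻¹⌋.toNat : ℕ) : ℤ) = ⌊w⁻¹⌋ := Int.toNat_of_nonneg h3
      exact_mod_cast this
    rw [h4, Int.floor_add_fract, inv_inv]
    rcases min_choice x (1 - x) with h | h
    · left; rw [hw, h]
    · right; rw [hw, h]; ring

lemma mob_step {n : ℕ} {A B C D : ℝ} (k : ℕ) (hk : 2 ≤ k) (hA : 0 ≤ A) (hB : 0 ≤ B)
    (hC : 0 ≤ C) (hCD : C ≤ D) (hs : A + C ≤ B + D) (hD : 2 ^ n ≤ D) :
    0 ≤ k * C + A ∧ k * C + A ≤ k * D + B ∧ C + (k * C + A) ≤ D + (k * D + B) ∧
    ((k-1) * C + A) + (k * C + A) ≤ ((k-1) * D + B) + (k * D + B) ∧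
    2 ^ (n+1) ≤ k * D + B := by
  have h2 : (2:ℝ) ≤ k := by exact_mod_cast hk
  have hD0 : 0 ≤ D := hC.trans hCD
  have hCD' : 0 ≤ D - C := by linarith
  refine ⟨by positivity, ?_, ?_, ?_, ?_⟩
  · nlinarith
  · nlinarith
  · nlinarith
  · rw [pow_succ]; nlinarith

theorem exists_mob (n : ℕ) : ∀ (x : ℝ), 0 < x → x < 1 → Irrational x →
    ∃ A B C D : ℝ, 0 ≤ A ∧ 0 ≤ B ∧ 0 ≤ C ∧ C ≤ D ∧ A + C ≤ B + D ∧ 2 ^ n ≤ D ∧
      |A * D - B * C| = 1 ∧
      (∃ y : ℝ, 0 < y ∧ y < 1 ∧ (A * y + B) / (C * y + D) = x) ∧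
      ∀ y : ℝ, 0 < y → y < 1 → Irrational y →
        0 < (A * y + B) / (C * y + D) ∧ (A * y + B) / (C * y + D) < 1 ∧
        Irrational ((A * y + B) / (C * y + D)) ∧ smap^[n] ((A * y + B) / (C * y + D)) = y := by
  induction n with
  | zero =>
    intro x h0 h1 hx
    refine ⟨1, 0, 0, 1, by norm_num, by norm_num, by norm_num, by norm_num, by norm_num,
      by norm_num, by norm_num, ⟨x, h0, h1, by simp⟩, fun y hy0 hy1 hy => ?_⟩
    simp only [one_mul, add_zero, zero_mul, zero_add, div_one, Function.iterate_zero, id]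
    exact ⟨hy0, hy1, hy, trivial⟩
  | succ n ih =>
    intro x h0 h1 hx
    obtain ⟨hb0, hb1, hbi, k, hk, hxk⟩ := branch h0 h1 hx
    obtain ⟨A, B, C, D, hA, hB, hC, hCD, hs, hD, hdet, ⟨y, hy0, hy1, hy⟩, H⟩ := ih _ hb0 hb1 hbi
    obtain ⟨m1, m2, m3, m4, m5⟩ := mob_step k hk hA hB hC hCD hs hD
    have h2 : (2:ℝ) ≤ k := by exact_mod_cast hk
    have hDpos : 0 < D := lt_of_lt_of_le (by positivity) hD
    have key : ∀ y : ℝ, 0 < y → ((k:ℝ) + (A * y + B) / (C * y + D))⁻¹ =
        (C * y + D) / ((k * C + A) * y + (k * D + B)) := by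
      intro y hy
      have hp : 0 < C * y + D := by positivity
      have e : (k:ℝ) + (A * y + B) / (C * y + D) =
          ((k * C + A) * y + (k * D + B)) / (C * y + D) := by
        field_simp
        ring
      rw [e, inv_div]
    have key2 : ∀ y : ℝ, 0 < y → 1 - ((k:ℝ) + (A * y + B) / (C * y + D))⁻¹ =
        (((k-1) * C + A) * y + ((k-1) * D + B)) / ((k * C + A) * y + (k * D + B)) := by
      intro y hy
      rw [key y hy]
      have hp : 0 < (k * C + A) * y + (k * D + B) := by positivity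
      field_simp
      ring
    rcases hxk with hxk | hxk
    · refine ⟨C, D, k * C + A, k * D + B, hC, hDpos.le, m1, m2, m3, m5, ?_, ⟨y, hy0, hy1, ?_⟩, ?_⟩
      · rw [← hdet, ← abs_neg]; congr 1; ring
      · rw [← key y hy0, hy, ← hxk]
      · intro y hy0 hy1 hyi
        obtain ⟨p0, p1, pi, pn⟩ := H y hy0 hy1 hyi
        rw [← key y hy0]
        obtain ⟨q0, q1⟩ := inv_lt_half hk p0
        refine ⟨q0, by linarith, ?_, ?_⟩
        · exact (pi.natCast_add k).inv
        · rw [Function.iterate_succ_apply, smap_left hk p0 p1, pn]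
    · refine ⟨(k-1) * C + A, (k-1) * D + B, k * C + A, k * D + B, ?_, ?_, m1, m2, m4, m5, ?_,
        ⟨y, hy0, hy1, ?_⟩, ?_⟩
      · have : (0:ℝ) ≤ k - 1 := by linarith
        positivity
      · have : (0:ℝ) ≤ k - 1 := by linarith
        positivity
      · have e : ((k-1) * C + A) * (k * D + B) - ((k-1) * D + B) * (k * C + A) = A * D - B * C := by
          ring
        rw [e]; exact hdet
      · rw [← key2 y hy0, hy, ← hxk]
      · intro y hy0 hy1 hyi
        obtain ⟨p0, p1, pi, pn⟩ := H y hy0 hy1 hyi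
        rw [← key2 y hy0]
        obtain ⟨q0, q1⟩ := inv_lt_half hk p0
        refine ⟨by linarith, by linarith, ?_, ?_⟩
        · have := (pi.natCast_add k).inv.ratCast_sub 1
          simpa using this
        · rw [Function.iterate_succ_apply, smap_right hk p0 p1, pn]

/-- forward invariance along iterates -/
lemma iter_inv {A : Set ℝ} (hinv : ∀ x ∈ A, x ∈ Ioo (0:ℝ) 1 → Irrational x → smap x ∈ A) (n : ℕ) :
    ∀ x ∈ A, x ∈ Ioo (0:ℝ) 1 → Irrational x → smap^[n] x ∈ A := by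
  induction n with
  | zero => intro x hx _ _; exact hx
  | succ n ih =>
    intro x hx h01 hirr
    obtain ⟨hb0, hb1, hbi, -⟩ := branch h01.1 h01.2 hirr
    rw [Function.iterate_succ_apply]
    exact ih _ (hinv x hx h01 hirr) ⟨hb0, hb1⟩ hbi

lemma small_ball (A : Set ℝ)
    (hinv : ∀ x ∈ A, x ∈ Ioo (0:ℝ) 1 → Irrational x → smap x ∈ A) (n : ℕ) {x : ℝ}
    (h0 : 0 < x) (h1 : x < 1) (hx : Irrational x) :
    ∃ r : ℝ, 0 < r ∧ r ≤ (1/4)^n ∧
      volume ((Ioo (0:ℝ) 1 \ A) ∩ {y | Irrational y}) / 8 * volume (Metric.closedBall x r) ≤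
        volume ((Ioo (0:ℝ) 1 \ A) ∩ Metric.closedBall x r) := by
  obtain ⟨a, b, c, d, ha, hb, hc, hcd, hs, hd, hdet, ⟨y0, hy00, hy01, hy0⟩, H⟩ := exists_mob n x h0 h1 hx
  set S := (Ioo (0:ℝ) 1 \ A) ∩ {y | Irrational y} with hS
  set φ : ℝ → ℝ := fun y => (a * y + b) / (c * y + d) with hφ
  have hdpos : 0 < d := lt_of_lt_of_le (by positivity) hd
  have hdiff : ∀ y z : ℝ, 0 < y → 0 < z → |φ y - φ z| = |y - z| / ((c * y + d) * (c * z + d)) := by
    intro y z hy hz
    have hp : 0 < c * y + d := by positivity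
    have hq : 0 < c * z + d := by positivity
    have e : φ y - φ z = (a * d - b * c) * (y - z) / ((c * y + d) * (c * z + d)) := by
      simp only [hφ]
      field_simp
      ring
    rw [e, abs_div, abs_mul, hdet, one_mul, abs_of_pos (mul_pos hp hq)]
  refine ⟨1 / d ^ 2, by positivity, ?_, ?_⟩
  · have e1 : (1/4 : ℝ)^n = 1 / (2^n)^2 := by
      rw [← pow_mul, mul_comm, pow_mul, one_div_pow]; norm_num
    rw [e1]
    apply one_div_le_one_div_of_le (by positivity)
    exact pow_le_pow_left₀ (by positivity) hd 2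
  · have himg : φ '' S ⊆ (Ioo (0:ℝ) 1 \ A) ∩ Metric.closedBall x (1 / d ^ 2) := by
      rintro _ ⟨y, ⟨⟨⟨hy0', hy1'⟩, hyA⟩, hyi⟩, rfl⟩
      obtain ⟨p0, p1, pi, pn⟩ := H y hy0' hy1' hyi
      refine ⟨⟨⟨p0, p1⟩, fun hA => hyA ?_⟩, ?_⟩
      · have := iter_inv hinv n _ hA ⟨p0, p1⟩ pi
        rwa [pn] at this
      · rw [Metric.mem_closedBall, Real.dist_eq, ← hy0]
        show |φ y - φ y0| ≤ _
        rw [hdiff y y0 hy0' hy00]
        have hyy : |y - y0| ≤ 1 := by rw [abs_le]; constructor <;> linarith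
        apply div_le_div₀ (by norm_num) hyy (by positivity)
        have h1' : d ≤ c * y + d := by nlinarith
        have h2' : d ≤ c * y0 + d := by nlinarith
        nlinarith
    have hlip : LipschitzOnWith (Real.toNNReal (4 * d ^ 2)) (smap^[n]) (φ '' S) := by
      apply LipschitzOnWith.of_dist_le_mul
      rintro _ ⟨y, ⟨⟨⟨hy0', hy1'⟩, -⟩, hyi⟩, rfl⟩ _ ⟨z, ⟨⟨⟨hz0', hz1'⟩, -⟩, hzi⟩, rfl⟩
      have e1 : smap^[n] (φ y) = y := (H y hy0' hy1' hyi).2.2.2
      have e2 : smap^[n] (φ z) = z := (H z hz0' hz1' hzi).2.2.2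
      rw [e1, e2, Real.coe_toNNReal _ (by positivity), Real.dist_eq, Real.dist_eq,
        hdiff y z hy0' hz0']
      have hp : 0 < c * y + d := by positivity
      have hq : 0 < c * z + d := by positivity
      rw [mul_div_assoc', le_div_iff₀ (mul_pos hp hq), mul_comm]
      apply mul_le_mul_of_nonneg_right _ (abs_nonneg _)
      have h1' : c * y + d ≤ 2 * d := by nlinarith
      have h2' : c * z + d ≤ 2 * d := by nlinarith
      nlinarith
    have himg2 : smap^[n] '' (φ '' S) = S := by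
      ext y
      constructor
      · rintro ⟨_, ⟨y, hy, rfl⟩, rfl⟩
        have e1 : smap^[n] (φ y) = y := (H y hy.1.1.1 hy.1.1.2 hy.2).2.2.2
        rwa [e1]
      · intro hy
        exact ⟨φ y, ⟨y, hy, rfl⟩, (H y hy.1.1.1 hy.1.1.2 hy.2).2.2.2⟩
    have hH := hlip.hausdorffMeasure_image_le (d := 1) (by norm_num)
    rw [himg2] at hH
    have hv : (Measure.hausdorffMeasure (1:ℝ) : Measure ℝ) = volume := MeasureTheory.hausdorffMeasure_real
    rw [hv] at hH
    rw [Real.volume_closedBall]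
    have hmono := measure_mono (μ := (volume : Measure ℝ)) himg
    refine le_trans ?_ hmono
    have e3 : ((Real.toNNReal (4 * d ^ 2) : NNReal) : ENNReal) ^ (1:ℝ) = ENNReal.ofReal (4 * d ^ 2) := by
      rw [ENNReal.rpow_one]; rfl
    rw [e3] at hH
    calc volume S / 8 * ENNReal.ofReal (2 * (1 / d ^ 2))
        ≤ (ENNReal.ofReal (4 * d ^ 2) * volume (φ '' S)) / 8 * ENNReal.ofReal (2 * (1 / d ^ 2)) := by
          gcongr
      _ = volume (φ '' S) := by
          rw [ENNReal.div_eq_inv_mul]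
          have e8 : (8:ENNReal)⁻¹ = ENNReal.ofReal (1/8) := by
            rw [one_div, ENNReal.ofReal_inv_of_pos (by norm_num)]; norm_num
          rw [e8]
          have : ENNReal.ofReal (1/8) * (ENNReal.ofReal (4 * d ^ 2) * volume (φ '' S)) *
              ENNReal.ofReal (2 * (1 / d ^ 2)) = (ENNReal.ofReal (1/8) * ENNReal.ofReal (4 * d ^ 2) *
              ENNReal.ofReal (2 * (1 / d ^ 2))) * volume (φ '' S) := by ring
          rw [this, ← ENNReal.ofReal_mul (by norm_num), ← ENNReal.ofReal_mul (by positivity)]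
          have : (1/8 : ℝ) * (4 * d ^ 2) * (2 * (1 / d ^ 2)) = 1 := by field_simp; norm_num
          rw [this]; simp

lemma ae_irrational : ∀ᵐ x : ℝ ∂volume, Irrational x := by
  have h : volume (range ((↑) : ℚ → ℝ)) = 0 := (countable_range _).measure_zero _
  rw [ae_iff]
  refine measure_mono_null (fun x hx => ?_) h
  by_contra hc
  exact hx hc

/-- PACKAGE B. Zero-one law for the full-branch expanding map `smap`. -/
theorem zero_one_smap (A : Set ℝ) (hA : MeasurableSet A)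
    (hinv : ∀ x ∈ A, x ∈ Ioo (0:ℝ) 1 → Irrational x → smap x ∈ A) :
    volume (A ∩ Ioo (0:ℝ) 1) = 0 ∨ ∀ᵐ x ∂(volume.restrict (Ioo (0:ℝ) 1)), x ∈ A := by
  by_cases hB : volume (Ioo (0:ℝ) 1 \ A) = 0
  · right
    rw [ae_restrict_iff' measurableSet_Ioo, ae_iff]
    refine measure_mono_null (fun x hx => ?_) hB
    by_contra hc
    apply hx
    intro hx1
    by_contra hc2
    exact hc ⟨hx1, hc2⟩
  left
  set B := Ioo (0:ℝ) 1 \ A with hBdef
  set m := volume (B ∩ {y | Irrational y}) with hm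
  have hmB : m = volume B := by
    apply measure_congr
    filter_upwards [ae_irrational] with x hx
    exact propext ⟨fun h => h.1, fun h => ⟨h, hx⟩⟩
  have hm0 : m ≠ 0 := by rw [hmB]; exact hB
  have hm1 : m ≤ 1 := by
    rw [hmB]
    calc volume B ≤ volume (Ioo (0:ℝ) 1) := measure_mono sdiff_subset
      _ = 1 := by simp
  have hBmeas : MeasurableSet B := measurableSet_Ioo.diff hA
  have hdens := Besicovitch.ae_tendsto_measure_inter_div (volume : Measure ℝ) (A ∩ Ioo (0:ℝ) 1)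
  have hAmeas : MeasurableSet (A ∩ Ioo (0:ℝ) 1) := hA.inter measurableSet_Ioo
  rw [ae_restrict_iff' hAmeas] at hdens
  have : ∀ᵐ x : ℝ ∂volume, x ∉ A ∩ Ioo (0:ℝ) 1 := by
    filter_upwards [hdens, ae_irrational] with x hx hirr hxA
    have ht := hx hxA
    have hlt : 1 - m / 8 < 1 := by
      apply ENNReal.sub_lt_self ENNReal.one_ne_top one_ne_zero
      exact (ENNReal.div_pos hm0 (by norm_num)).ne'
    have hev := ht.eventually (lt_mem_nhds hlt)
    rw [eventually_nhdsWithin_iff, Metric.eventually_nhds_iff] at hev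
    obtain ⟨ε, hε, hev⟩ := hev
    obtain ⟨n, hn⟩ := exists_pow_lt_of_lt_one hε (show (1/4 : ℝ) < 1 by norm_num)
    obtain ⟨r, hr0, hr1, hr2⟩ := small_ball A hinv n hxA.2.1 hxA.2.2 hirr
    have h3 := hev (y := r) (by rw [Real.dist_eq, sub_zero, abs_of_pos hr0]; linarith) hr0
    rw [← hBdef, ← hm] at hr2
    have hV0 : volume (Metric.closedBall x r) ≠ 0 := by
      rw [Real.volume_closedBall]
      exact (ENNReal.ofReal_pos.2 (by linarith)).ne'
    have hVt : volume (Metric.closedBall x r) ≠ ⊤ := by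
      rw [Real.volume_closedBall]; exact ENNReal.ofReal_ne_top
    have hsum : volume ((A ∩ Ioo (0:ℝ) 1) ∩ Metric.closedBall x r) +
        volume (B ∩ Metric.closedBall x r) ≤ volume (Metric.closedBall x r) := by
      rw [← measure_union]
      · apply measure_mono
        rintro z (hz | hz)
        · exact hz.2
        · exact hz.2
      · rw [Set.disjoint_left]
        rintro z hz1 hz2
        exact hz2.1.2 hz1.1.1
      · exact hBmeas.inter measurableSet_closedBall
    have h4 : volume ((A ∩ Ioo (0:ℝ) 1) ∩ Metric.closedBall x r) / volume (Metric.closedBall x r)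
        + m / 8 ≤ 1 := by
      rw [← ENNReal.div_self hV0 hVt]
      calc _ = (volume ((A ∩ Ioo (0:ℝ) 1) ∩ Metric.closedBall x r) +
            m / 8 * volume (Metric.closedBall x r)) / volume (Metric.closedBall x r) := by
            rw [ENNReal.add_div, ENNReal.mul_div_cancel_right hV0 hVt]
        _ ≤ _ := by
            gcongr
            exact (add_le_add le_rfl hr2).trans hsum
    have h5 : volume ((A ∩ Ioo (0:ℝ) 1) ∩ Metric.closedBall x r) / volume (Metric.closedBall x r)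
        ≤ 1 - m / 8 := ENNReal.le_sub_of_add_le_right (by
          exact (ENNReal.div_lt_top (ne_top_of_le_ne_top ENNReal.one_ne_top hm1) (by norm_num)).ne) h4
    exact absurd h3 (not_lt.2 h5)
  rw [ae_iff] at this
  refine measure_mono_null (fun x hx => ?_) this
  intro hc
  exact hc hx

end Pool.Agent.Sturm82
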