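import Pool.Agent.Sturm82.TraceMap
import Pool.Agent.Sturm82.PkgSpectrum
import Pool.Agent.Sturm82.PkgMeas
import Pool.Agent.Sturm82.PkgZeroOne

set_option autoImplicit false
open MeasureTheory

namespace Pool.Agent.Sturm82

namespace Fin

/-! ### Reflection -/

lemma tseq_reflect (lam E : ℝ) (k : ℕ) :
    tseq 2 (lam - E) (-E) (k + 1) =
      (-1) ^ (k + 1) * tseq E (E - lam) (E * (E - lam) - 2) k := by
  induction k using Nat.twoStepInduction with
  | zero => simp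
  | one =>
    rw [tseq_succ_succ]
    simp only [zero_add, tseq_one, tseq_zero]
    ring
  | more k ih1 ih2 =>
    rw [tseq_succ_succ, ih1, ih2, tseq_succ_succ]
    ring

lemma sg_reflect {a b : ℕ → ℕ} (lam E : ℝ) (ha0 : a 0 = 1) (hb0 : b 0 = 1 + a 1) :
    Sg (orb a (2, E, E - lam) 2) (orb b (2, lam - E, lam - E - lam) 1) := by
  refine ⟨-1, (-1) ^ (a 1 + 1), by simp, by simp [abs_pow], ?_⟩
  have e1 : lam - E - lam = -E := by ring
  have h1 : orb a ((2:ℝ), E, E - lam) 2 =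
      (E - lam, tseq E (E - lam) (E * (E - lam) - 2) (a 1),
        tseq E (E - lam) (E * (E - lam) - 2) (a 1 + 1)) := by
    simp only [orb, step, ha0, tseq_one, tseq_succ_succ, tseq_zero, zero_add]
  have h2 : orb b ((2:ℝ), lam - E, lam - E - lam) 1 =
      (lam - E, tseq 2 (lam - E) (-E) (a 1 + 1), tseq 2 (lam - E) (-E) (a 1 + 1 + 1)) := by
    simp only [orb, step, hb0, e1]
    rw [add_comm 1 (a 1)]
  rw [h1, h2]
  simp only
  rw [tseq_reflect, tseq_reflect]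
  refine Prod.ext (by ring) (Prod.ext rfl ?_)
  simp only
  rw [pow_succ]
  ring

lemma abs_X_reflect {a b : ℕ → ℕ} (lam E : ℝ) (ha0 : a 0 = 1) (hb0 : b 0 = 1 + a 1)
    (hb : ∀ n, b (n + 1) = a (n + 2)) (j : ℕ) :
    |X lam b (lam - E) j| = |X lam a E (j + 1)| := by
  cases j with
  | zero =>
    simp only [X, orb, step, ha0, tseq_one]
    rw [abs_sub_comm]
  | succ j =>
    unfold X
    have e1 : j + 1 = 1 + j := by ring
    have e2 : j + 1 + 1 = 2 + j := by ring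
    rw [e1, orb_add b, show 1 + j + 1 = 2 + j by ring, orb_add a]
    have e3 : (fun i => b (1 + i)) = (fun i => a (2 + i)) := by
      funext i
      rw [add_comm 1 i, hb, add_comm]
    rw [e3]
    exact (sg_reflect lam E ha0 hb0).abs_orb _ _

lemma Sig_reflect {a b : ℕ → ℕ} (lam : ℝ) (ha : ∀ n, 1 ≤ a n) (ha0 : a 0 = 1)
    (hb0 : b 0 = 1 + a 1) (hb : ∀ n, b (n + 1) = a (n + 2)) :
    Sig lam b = (IsometryEquiv.subLeft lam) '' Sig lam a := by
  ext E'
  constructor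
  · intro h
    refine ⟨lam - E', ?_, by simp⟩
    have h' : ∀ n, |X lam a (lam - E') (n + 1)| ≤ 2 ∨ |X lam a (lam - E') (n + 1 + 1)| ≤ 2 := by
      intro n
      have := h n
      have e : E' = lam - (lam - E') := by ring
      rw [e, abs_X_reflect lam _ ha0 hb0 hb, abs_X_reflect lam _ ha0 hb0 hb] at this
      exact this
    intro n
    cases n with
    | zero =>
      rcases h' 0 with h1 | h1
      · exact Or.inr h1
      · exact nest ha (v := ((2:ℝ), lam - E', lam - E' - lam)) (Or.inl (by simp)) h1 (by omega)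
    | succ n => exact h' n
  · rintro ⟨E, hE, rfl⟩
    intro n
    simp only [IsometryEquiv.subLeft_apply]
    rw [abs_X_reflect lam _ ha0 hb0 hb, abs_X_reflect lam _ ha0 hb0 hb]
    exact hE (n + 1)

lemma dimH_reflect {a b : ℕ → ℕ} (lam : ℝ) (ha : ∀ n, 1 ≤ a n) (ha0 : a 0 = 1)
    (hb0 : b 0 = 1 + a 1) (hb : ∀ n, b (n + 1) = a (n + 2)) :
    dimH (Sig lam b) = dimH (Sig lam a) := by
  rw [Sig_reflect lam ha ha0 hb0 hb, IsometryEquiv.dimH_image]

/-! ### Digits -/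

lemma dig_succ (x : ℝ) (n : ℕ) : dig x (n + 1) = dig (gauss x) n := by
  unfold dig
  rw [Function.iterate_succ_apply]

lemma two_le_dig {x : ℝ} (h0 : 0 < x) (h1 : x < 1 / 2) : 2 ≤ dig x 0 := by
  unfold dig
  rw [Nat.le_floor_iff (by positivity)]
  simp only [Function.iterate_zero, id_eq]
  rw [le_inv_comm₀ (by norm_num) h0]
  norm_num
  linarith

lemma smap_of_lt {x : ℝ} (h : x < 1 / 2) : smap x = gauss x := by
  unfold smap gauss
  rw [min_eq_left (by linarith)]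

lemma smap_of_gt {x : ℝ} (h : 1 / 2 < x) : smap x = gauss (1 - x) := by
  unfold smap gauss
  rw [min_eq_right (by linarith)]

lemma gauss_of_gt {x : ℝ} (h : 1 / 2 < x) (h1 : x < 1) : gauss x = x⁻¹ - 1 := by
  unfold gauss
  rw [Int.fract_eq_iff]
  have hx : 0 < x := by linarith
  have h2 : 1 < x⁻¹ := (one_lt_inv₀ hx).mpr h1
  have h3 : x⁻¹ < 2 := by rw [inv_lt_comm₀ hx (by norm_num)]; linarith
  refine ⟨by linarith, by linarith, 1, by push_cast; ring⟩

lemma inv_gauss_of_gt {x : ℝ} (h : 1 / 2 < x) (h1 : x < 1) :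
    (gauss x)⁻¹ = (1 - x)⁻¹ - 1 := by
  rw [gauss_of_gt h h1]
  have hx : x ≠ 0 := by linarith
  have hx1 : 1 - x ≠ 0 := by linarith
  field_simp
  ring

lemma dig_zero_of_gt {x : ℝ} (h : 1 / 2 < x) (h1 : x < 1) : dig x 0 = 1 := by
  unfold dig
  simp only [Function.iterate_zero, id_eq]
  have hx : 0 < x := by linarith
  rw [Nat.floor_eq_iff (by positivity)]
  have h2 : 1 < x⁻¹ := (one_lt_inv₀ hx).mpr h1
  have h3 : x⁻¹ < 2 := by rw [inv_lt_comm₀ hx (by norm_num)]; linarith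
  constructor
  · push_cast; linarith
  · push_cast; linarith

lemma dig_reflect_zero {x : ℝ} (h : 1 / 2 < x) (h1 : x < 1) :
    dig (1 - x) 0 = 1 + dig x 1 := by
  have e : dig x 1 = ⌊(gauss x)⁻¹⌋₊ := rfl
  have e2 : dig (1 - x) 0 = ⌊(1 - x)⁻¹⌋₊ := rfl
  rw [e, e2, inv_gauss_of_gt h h1]
  have hx1 : 0 < 1 - x := by linarith
  have h2 : 1 ≤ (1 - x)⁻¹ := (one_le_inv₀ hx1).mpr (by linarith)
  rw [Nat.floor_sub_one]
  have : 1 ≤ ⌊(1 - x)⁻¹⌋₊ := by rwa [Nat.one_le_floor_iff]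
  omega

lemma gauss_reflect {x : ℝ} (h : 1 / 2 < x) (h1 : x < 1) :
    gauss (1 - x) = gauss (gauss x) := by
  have e1 : gauss (gauss x) = Int.fract ((gauss x)⁻¹) := rfl
  rw [e1, inv_gauss_of_gt h h1, Int.fract_sub_one]
  rfl

lemma dig_reflect_succ {x : ℝ} (h : 1 / 2 < x) (h1 : x < 1) (n : ℕ) :
    dig (1 - x) (n + 1) = dig x (n + 2) := by
  rw [dig_succ, gauss_reflect h h1, dig_succ, dig_succ]

/-- The pattern: arbitrarily large consecutive pairs of digits. -/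
def Pat (a : ℕ → ℕ) : Prop := ∀ m : ℕ, ∃ n, m ≤ a n ∧ m ≤ a (n + 1)

lemma Pat.tail {a : ℕ → ℕ} (h : Pat a) : Pat (fun n => a (n + 1)) := by
  intro m
  obtain ⟨n, h1, h2⟩ := h (max m (a 0 + 1))
  have hn : n ≠ 0 := by
    rintro rfl
    have := (le_max_right m (a 0 + 1)).trans h1
    omega
  obtain ⟨k, rfl⟩ := Nat.exists_eq_succ_of_ne_zero hn
  exact ⟨k, (le_max_left _ _).trans h1, (le_max_left _ _).trans h2⟩

lemma Pat.of_tail {a : ℕ → ℕ} (h : Pat (fun n => a (n + 1))) : Pat a := by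
  intro m
  obtain ⟨n, h1, h2⟩ := h m
  exact ⟨n + 1, h1, h2⟩

lemma irr_half {x : ℝ} (hi : Irrational x) : x < 1 / 2 ∨ 1 / 2 < x := by
  rcases lt_trichotomy x (1 / 2) with h | h | h
  · exact Or.inl h
  · exfalso
    apply hi
    exact ⟨1 / 2, by rw [h]; norm_num⟩
  · exact Or.inr h

lemma smap_mem {x : ℝ} (hi : Irrational x) :
    smap x ∈ Set.Ioo (0:ℝ) 1 ∧ Irrational (smap x) := by
  rcases irr_half hi with h | h
  · rw [smap_of_lt h]
    exact Meas.gauss_mem hi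
  · rw [smap_of_gt h]
    refine Meas.gauss_mem ?_
    have : Irrational (((1:ℕ):ℝ) - x) := hi.natCast_sub 1
    simpa using this

lemma irr_one_sub {x : ℝ} (hi : Irrational x) : Irrational (1 - x) := by
  have : Irrational (((1:ℕ):ℝ) - x) := hi.natCast_sub 1
  simpa using this

/-- the digits of `smap x` form a tail of the digits of `x` -/
lemma dig_smap {x : ℝ} (hx : x ∈ Set.Ioo (0:ℝ) 1) (hi : Irrational x) :
    dig (smap x) = (fun n => dig x (n + 1)) ∨ dig (smap x) = (fun n => dig x (n + 2)) := by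
  rcases irr_half hi with h | h
  · left
    rw [smap_of_lt h]
    funext n
    rw [dig_succ]
  · right
    rw [smap_of_gt h, gauss_reflect h hx.2]
    funext n
    rw [dig_succ, dig_succ]

lemma Pat_smap {x : ℝ} (hx : x ∈ Set.Ioo (0:ℝ) 1) (hi : Irrational x) (h : Pat (dig x)) :
    Pat (dig (smap x)) := by
  rcases dig_smap hx hi with h1 | h1
  · rw [h1]; exact h.tail
  · rw [h1]; exact h.tail.tail

lemma dim_smap_le
    (hB : ∀ (lam : ℝ), 0 < lam → ∀ (a : ℕ → ℕ), (∀ n, 1 ≤ a n) → 2 ≤ a 0 →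
      (∀ m : ℕ, ∃ n, m ≤ a n ∧ m ≤ a (n + 1)) →
      dimH (Sig lam (fun n => a (n + 1))) ≤ dimH (Sig lam a))
    {lam : ℝ} (hlam : 0 < lam) {x : ℝ} (hx : x ∈ Set.Ioo (0:ℝ) 1) (hi : Irrational x)
    (hP : Pat (dig x)) : dimH (Sig lam (dig (smap x))) ≤ dimH (Sig lam (dig x)) := by
  rcases irr_half hi with h | h
  · have e : dig (smap x) = fun n => dig x (n + 1) := by
      rw [smap_of_lt h]
      funext n
      rw [dig_succ]
    rw [e]
    exact hB lam hlam (dig x) (Meas.one_le_dig hx hi) (two_le_dig hx.1 h) hP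
  · have hy : 1 - x ∈ Set.Ioo (0:ℝ) 1 := ⟨by linarith [hx.2], by linarith [hx.1]⟩
    have hyi := irr_one_sub hi
    have e : dig (smap x) = fun n => dig (1 - x) (n + 1) := by
      rw [smap_of_gt h]
      funext n
      rw [dig_succ]
    have e2 : dimH (Sig lam (dig (1 - x))) = dimH (Sig lam (dig x)) :=
      dimH_reflect lam (Meas.one_le_dig hx hi) (dig_zero_of_gt h hx.2)
        (dig_reflect_zero h hx.2) (dig_reflect_succ h hx.2)
    rw [e, ← e2]
    refine hB lam hlam (dig (1 - x)) (Meas.one_le_dig hy hyi)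
      (two_le_dig hy.1 (by linarith)) ?_
    apply Pat.of_tail
    have : (fun n => dig (1 - x) (n + 1)) = fun n => dig x (n + 2) := by
      funext n
      exact dig_reflect_succ h hx.2 n
    rw [this]
    exact hP.tail.tail

/-! ### Genericity -/

/-- no index `n` with `m ≤ a_n, a_{n+1}` -/
def Bad (m : ℕ) : Set ℝ :=
  {x | ∀ n, ¬ (m ≤ dig x n ∧ m ≤ dig x (n + 1))}

lemma measurableSet_pair (m n : ℕ) :
    MeasurableSet {x : ℝ | m ≤ dig x n ∧ m ≤ dig x (n + 1)} := by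
  apply MeasurableSet.inter
  · exact (Meas.measurable_dig n) (measurableSet_Ici (a := m))
  · exact (Meas.measurable_dig (n + 1)) (measurableSet_Ici (a := m))

lemma measurableSet_Bad (m : ℕ) : MeasurableSet (Bad m) := by
  have : Bad m = ⋂ n, {x : ℝ | m ≤ dig x n ∧ m ≤ dig x (n + 1)}ᶜ := by
    ext x
    simp [Bad]
  rw [this]
  exact MeasurableSet.iInter fun n => (measurableSet_pair m n).compl

lemma measurableSet_Pat : MeasurableSet {x : ℝ | Pat (dig x)} := by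
  have : {x : ℝ | Pat (dig x)} = ⋂ m : ℕ, (Bad m)ᶜ := by
    ext x
    simp only [Pat, Bad, Set.mem_ofPred_eq, Set.mem_iInter, Set.mem_compl_iff, not_forall, not_not]
  rw [this]
  exact MeasurableSet.iInter fun m => (measurableSet_Bad m).compl

lemma good_interval (M : ℕ) (hM : 1 ≤ M) {x : ℝ} (hx : x ∈ Set.Ioo (((M:ℝ) + (M:ℝ)⁻¹)⁻¹) ((M:ℝ)⁻¹)) :
    M ≤ dig x 0 ∧ M ≤ dig x 1 := by
  have hM0 : (0:ℝ) < M := by exact_mod_cast hM
  have hM1 : (1:ℝ) ≤ M := by exact_mod_cast hM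
  have hx0 : 0 < x := lt_trans (by positivity) hx.1
  have h1 : (M:ℝ) < x⁻¹ := by
    rw [lt_inv_comm₀ hM0 hx0]; exact hx.2
  have h2 : x⁻¹ < (M:ℝ) + (M:ℝ)⁻¹ := by
    rw [inv_lt_comm₀ hx0 (by positivity)]; exact hx.1
  have h3 : (M:ℝ)⁻¹ ≤ 1 := inv_le_one_of_one_le₀ hM1
  have hg : gauss x = x⁻¹ - M := by
    unfold gauss
    rw [Int.fract_eq_iff]
    refine ⟨by linarith, by linarith, M, by push_cast; ring⟩
  constructor
  · unfold dig
    rw [Nat.le_floor_iff (by positivity)]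
    exact h1.le
  · have e : dig x 1 = ⌊(gauss x)⁻¹⌋₊ := rfl
    rw [e, Nat.le_floor_iff (by rw [hg]; exact inv_nonneg.mpr (by linarith)), hg]
    rw [le_inv_comm₀ hM0 (by linarith)]
    linarith

lemma Bad_null (m : ℕ) : volume (Bad m ∩ Set.Ioo (0:ℝ) 1) = 0 := by
  have hinv : ∀ x ∈ Bad m, x ∈ Set.Ioo (0:ℝ) 1 → Irrational x → smap x ∈ Bad m := by
    intro x hx hx01 hi n hn
    rcases dig_smap hx01 hi with h1 | h1
    · rw [h1] at hn
      exact hx (n + 1) hn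
    · rw [h1] at hn
      exact hx (n + 2) hn
  rcases zero_one_smap (Bad m) (measurableSet_Bad m) hinv with h | h
  · exact h
  · exfalso
    set M := max m 2 with hM
    have hM2 : 2 ≤ M := le_max_right _ _
    have hM0 : (2:ℝ) ≤ M := by exact_mod_cast hM2
    have hMinv : (0:ℝ) < (M:ℝ)⁻¹ := by positivity
    have hsub : Set.Ioo (((M:ℝ) + (M:ℝ)⁻¹)⁻¹) ((M:ℝ)⁻¹) ⊆ Set.Ioo (0:ℝ) 1 := by
      intro x hx
      refine ⟨lt_trans (by positivity) hx.1, lt_of_lt_of_le hx.2 ?_⟩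
      exact inv_le_one_of_one_le₀ (by linarith)
    have hnull : volume (Set.Ioo (((M:ℝ) + (M:ℝ)⁻¹)⁻¹) ((M:ℝ)⁻¹)) = 0 := by
      rw [ae_restrict_iff' measurableSet_Ioo] at h
      have h' : ∀ᵐ x : ℝ, x ∉ Set.Ioo (((M:ℝ) + (M:ℝ)⁻¹)⁻¹) ((M:ℝ)⁻¹) := by
        filter_upwards [h] with x hx hxI
        have h1 := hx (hsub hxI)
        have h2 := good_interval M (by omega) hxI
        exact h1 0 ⟨(le_max_left _ _).trans h2.1, (le_max_left _ _).trans h2.2⟩
      exact (measure_eq_zero_iff_ae_notMem).mpr h'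
    rw [Real.volume_Ioo, ENNReal.ofReal_eq_zero] at hnull
    have : ((M:ℝ) + (M:ℝ)⁻¹)⁻¹ < (M:ℝ)⁻¹ := by
      apply inv_strictAnti₀ (by linarith)
      linarith
    linarith

lemma ae_pat : ∀ᵐ x ∂(volume.restrict (Set.Ioo (0:ℝ) 1)),
    x ∈ Set.Ioo (0:ℝ) 1 ∧ Irrational x ∧ Pat (dig x) := by
  have h1 : ∀ m : ℕ, ∀ᵐ x ∂(volume.restrict (Set.Ioo (0:ℝ) 1)), x ∉ Bad m := by
    intro m
    rw [ae_restrict_iff' measurableSet_Ioo]
    have := Bad_null m
    rw [measure_eq_zero_iff_ae_notMem] at this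
    filter_upwards [this] with x hx h01 hb
    exact hx ⟨hb, h01⟩
  have h2 : ∀ᵐ x ∂(volume.restrict (Set.Ioo (0:ℝ) 1)), x ∈ Set.Ioo (0:ℝ) 1 :=
    ae_restrict_mem measurableSet_Ioo
  have h3 : ∀ᵐ x ∂(volume.restrict (Set.Ioo (0:ℝ) 1)), Irrational x :=
    ae_restrict_of_ae ae_irrational
  filter_upwards [ae_all_iff.mpr h1, h2, h3] with x hx1 hx2 hx3
  refine ⟨hx2, hx3, fun m => ?_⟩
  have := hx1 m
  simp only [Bad, Set.mem_ofPred_eq, not_forall, not_not] at this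
  exact this

end Fin

open Pool.Agent.Sturm82.Fin in
/-- PACKAGE D. Final assembly from Theorem B (hypothesis `hB`). -/
theorem final_of_thmB
    (hB : ∀ (lam : ℝ), 0 < lam → ∀ (a : ℕ → ℕ), (∀ n, 1 ≤ a n) → 2 ≤ a 0 →
      (∀ m : ℕ, ∃ n, m ≤ a n ∧ m ≤ a (n + 1)) →
      dimH (Sig lam (fun n => a (n + 1))) ≤ dimH (Sig lam a)) :
    ∀ lam : ℝ, 0 < lam →
      ∃ d : ENNReal,
        ∀ᵐ α ∂(volume.restrict (Set.Ioo (0:ℝ) 1)),
          ∀ T : lp (fun _ : ℤ => ℂ) 2 →L[ℂ] lp (fun _ : ℤ => ℂ) 2,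
            (∀ (u : lp (fun _ : ℤ => ℂ) 2) (n : ℤ),
              (T u) n = u (n + 1) + u (n - 1)
                + ((lam * ((⌊((n:ℝ) + 1) * α⌋ - ⌊(n:ℝ) * α⌋ : ℤ) : ℝ) : ℝ) : ℂ) * u n) →
            dimH {E : ℝ | (E : ℂ) ∈ spectrum ℂ T} = d := by
  intro lam hlam
  set A : ENNReal → Set ℝ := fun t =>
    {x : ℝ | x ∈ Set.Ioo (0:ℝ) 1 ∧ Irrational x ∧ dimH (Sig lam (dig x)) ≤ t} ∩
      {x : ℝ | Pat (dig x)} with hA
  have hmeas : ∀ t, MeasurableSet (A t) := fun t =>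
    (Meas.measurableSet_dimH_le lam hlam t).inter measurableSet_Pat
  have hzo : ∀ t, volume (A t ∩ Set.Ioo (0:ℝ) 1) = 0 ∨
      ∀ᵐ x ∂(volume.restrict (Set.Ioo (0:ℝ) 1)), x ∈ A t := by
    intro t
    refine zero_one_smap (A t) (hmeas t) ?_
    rintro x ⟨⟨-, -, hd⟩, hP⟩ hx01 hi
    refine ⟨⟨(smap_mem hi).1, (smap_mem hi).2, ?_⟩, Pat_smap hx01 hi hP⟩
    exact (dim_smap_le hB hlam hx01 hi hP).trans hd
  set F : Set ENNReal := {t | ∀ᵐ x ∂(volume.restrict (Set.Ioo (0:ℝ) 1)), x ∈ A t} with hF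
  have htop : ⊤ ∈ F := by
    simp only [hF, Set.mem_ofPred_eq]
    filter_upwards [ae_pat] with x hx
    exact ⟨⟨hx.1, hx.2.1, le_top⟩, hx.2.2⟩
  have hle : ∀ᵐ x ∂(volume.restrict (Set.Ioo (0:ℝ) 1)), dimH (Sig lam (dig x)) ≤ sInf F := by
    obtain ⟨u, -, hu, huF⟩ := exists_seq_tendsto_sInf (S := F) ⟨⊤, htop⟩ (OrderBot.bddBelow F)
    have : ∀ᵐ x ∂(volume.restrict (Set.Ioo (0:ℝ) 1)), ∀ n, x ∈ A (u n) :=
      ae_all_iff.mpr fun n => huF n
    filter_upwards [this] with x hx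
    exact ge_of_tendsto' hu fun n => (hx n).1.2.2
  have hge : ∀ᵐ x ∂(volume.restrict (Set.Ioo (0:ℝ) 1)), sInf F ≤ dimH (Sig lam (dig x)) := by
    rcases eq_or_ne (sInf F) 0 with h0 | h0
    · rw [h0]; exact Filter.Eventually.of_forall fun _ => bot_le
    · obtain ⟨u, -, hu1, hu⟩ := exists_seq_strictMono_tendsto' (bot_lt_iff_ne_bot.mpr h0)
      have : ∀ᵐ x ∂(volume.restrict (Set.Ioo (0:ℝ) 1)), ∀ n, x ∉ A (u n) := by
        refine ae_all_iff.mpr fun n => ?_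
        have hn : u n ∉ F := fun hmem => absurd (sInf_le hmem) (not_le.mpr (hu1 n).2)
        rcases hzo (u n) with h | h
        · rw [ae_restrict_iff' measurableSet_Ioo]
          rw [measure_eq_zero_iff_ae_notMem] at h
          filter_upwards [h] with x hx h01 hb
          exact hx ⟨hb, h01⟩
        · exact absurd h hn
      filter_upwards [this, ae_pat] with x hx hx2
      refine le_of_tendsto' hu fun n => ?_
      by_contra hc
      exact hx n ⟨⟨hx2.1, hx2.2.1, (not_le.mp hc).le⟩, hx2.2.2⟩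
  refine ⟨sInf F, ?_⟩
  filter_upwards [hle, hge, ae_pat] with x h1 h2 h3 T hT
  rw [Spec.spectrum_eq_Sig lam hlam x h3.1.1 h3.1.2 h3.2.1 T hT]
  exact le_antisymm h1 h2

end Pool.Agent.Sturm82
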