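import Pool.Agent.Sturm82.KeyThm

set_option autoImplicit false

namespace Pool.Agent.Sturm82

open Set Topology Filter

/-! ### the generic set -/

lemma X_gt {lam : ℝ} (hlam : 0 < lam) {b : ℕ → ℕ} (hb : ∀ n, 1 ≤ b n) {e : ℝ} (he : lam + 2 < e)
    (n : ℕ) : 2 < |X lam b e n| := by
  have he0 : |e| = e := abs_of_pos (by linarith)
  have he1 : |e - lam| = e - lam := abs_of_pos (by linarith)
  have h1 : 2 < |(orb b (2, e, e - lam) 0).2.1| := by
    simp only [orb]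
    rw [he0]; linarith
  have h2 : 2 < |(orb b (2, e, e - lam) (0 + 1)).2.1| := by
    simp only [orb, step]
    have hg : |tseq 2 e (e - lam) 0| < |tseq 2 e (e - lam) (0 + 1)| := by
      simp only [tseq_zero, zero_add, tseq_one]
      rw [he1, abs_two]; linarith
    have h5 := tseq_mono (x := 2) (y := e) (z := e - lam) (by rw [he0]; linarith) hg
      (Nat.zero_le 1) (hb 0)
    rw [tseq_one, he1] at h5
    linarith
  exact escape hb (Or.inl (by simp)) h1 h2 (Nat.zero_le n)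

lemma finite_abs_eq_two {lam : ℝ} (hlam : 0 < lam) {b : ℕ → ℕ} (hb : ∀ n, 1 ≤ b n) (n : ℕ) :
    {e : ℝ | |X lam b e n| = 2}.Finite := by
  set P : Polynomial ℝ := (orb b (Polynomial.C 2, Polynomial.X,
    Polynomial.X - Polynomial.C lam) n).2.1 with hPdef
  have hP : ∀ e, P.eval e = X lam b e n := by
    intro e
    have := orb_map (Polynomial.evalRingHom e) b (Polynomial.C 2, Polynomial.X,
      Polynomial.X - Polynomial.C lam) n
    have h2 := congrArg (fun v => v.2.1) this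
    simp only [tmap, Polynomial.coe_evalRingHom, Polynomial.eval_C, Polynomial.eval_X,
      Polynomial.eval_sub] at h2
    exact h2
  have hgt := X_gt hlam hb (e := lam + 3) (by linarith) n
  have hne : ∀ s : ℝ, |s| = 2 → P - Polynomial.C s ≠ 0 := by
    intro s hs h
    have h3 := hP (lam + 3)
    rw [sub_eq_zero.mp h, Polynomial.eval_C] at h3
    rw [← h3, hs] at hgt
    exact lt_irrefl _ hgt
  refine ((Polynomial.finite_setOfPred_isRoot (hne 2 (by simp))).union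
    (Polynomial.finite_setOfPred_isRoot (hne (-2) (by simp)))).subset ?_
  intro e he
  simp only [mem_ofPred_eq] at he
  rcases eq_or_eq_neg_of_abs_eq he with h | h
  · left
    simp only [mem_ofPred_eq, Polynomial.IsRoot, Polynomial.eval_sub, Polynomial.eval_C, hP, h]
    ring
  · right
    simp only [mem_ofPred_eq, Polynomial.IsRoot, Polynomial.eval_sub, Polynomial.eval_C, hP, h]
    ring

/-! ### Hoelder inverse -/

lemma dimH_le_of_inv_holder {T : Set ℝ} {h : ℝ → ℝ} {c : ℝ} {κ : NNReal} (hc : 0 < c)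
    (hκ : 0 < κ)
    (H : ∀ e1 ∈ T, ∀ e2 ∈ T, c * |e1 - e2| ^ (κ : ℝ) ≤ |h e1 - h e2|) :
    dimH T ≤ κ * dimH (h '' T) := by
  have hκ' : (0 : ℝ) < κ := hκ
  have hinj : InjOn h T := by
    intro x hx y hy hxy
    have h1 := H x hx y hy
    rw [hxy, sub_self, abs_zero] at h1
    by_contra hne
    have h2 : 0 < |x - y| := abs_pos.mpr (sub_ne_zero.mpr hne)
    have h3 : 0 < c * |x - y| ^ (κ : ℝ) := by positivity
    linarith
  have himg : Function.invFunOn h T '' (h '' T) = T := hinj.invFunOn_image Subset.rfl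
  have hH : HolderOnWith (Real.toNNReal ((1 / c) ^ (κ : ℝ)⁻¹)) κ⁻¹ (Function.invFunOn h T)
      (h '' T) := by
    rintro _ ⟨x, hx, rfl⟩ _ ⟨y, hy, rfl⟩
    rw [hinj.leftInvOn_invFunOn hx, hinj.leftInvOn_invFunOn hy]
    rw [edist_dist, edist_dist, Real.dist_eq, Real.dist_eq]
    have h1 := H x hx y hy
    have h2 : |x - y| ≤ (1 / c) ^ (κ : ℝ)⁻¹ * |h x - h y| ^ (κ : ℝ)⁻¹ := by
      rw [← Real.mul_rpow (by positivity) (abs_nonneg _)]
      have h3 : |x - y| = (|x - y| ^ (κ : ℝ)) ^ (κ : ℝ)⁻¹ :=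
        (Real.rpow_rpow_inv (abs_nonneg _) hκ'.ne').symm
      rw [h3]
      apply Real.rpow_le_rpow (by positivity) _ (by positivity)
      rw [one_div, ← div_eq_inv_mul, le_div_iff₀ hc]
      linarith
    have h4 : (NNReal.toReal κ⁻¹) = (κ : ℝ)⁻¹ := by simp
    rw [h4, ENNReal.ofReal_rpow_of_nonneg (abs_nonneg _) (by positivity)]
    have h5 : ((Real.toNNReal ((1 / c) ^ (κ : ℝ)⁻¹) : NNReal) : ENNReal) =
        ENNReal.ofReal ((1 / c) ^ (κ : ℝ)⁻¹) := rfl
    rw [h5, ← ENNReal.ofReal_mul (by positivity)]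
    exact ENNReal.ofReal_le_ofReal h2
  have h6 := hH.dimH_image_le (inv_pos.mpr hκ)
  rw [himg] at h6
  refine h6.trans (le_of_eq ?_)
  rw [ENNReal.coe_inv hκ.ne', div_eq_mul_inv, inv_inv, mul_comm]

/-! ### one sign type -/

lemma type_dim {lam : ℝ} {a : ℕ → ℕ} {c : ℝ} {κ : NNReal} (hc : 0 < c)
    (hκ : 0 < κ) {s t : ℝ} (hs : |s| = 1) (ht : |t| = 1) {T : Set ℝ} {g : ℝ → ℝ × ℝ × ℝ}
    (h1 : ∀ e ∈ T, g e = (2 * s, (g e).2.1, s * (g e).2.1 + t * lam))
    (h2 : ∀ e ∈ T, ∀ N, |(orb a (g e) N).2.1| ≤ 2 ∨ |(orb a (g e) (N + 1)).2.1| ≤ 2)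
    (h3 : ∀ e1 ∈ T, ∀ e2 ∈ T, c * |e1 - e2| ^ (κ : ℝ) ≤ dist (g e1) (g e2)) :
    dimH T ≤ κ * dimH (Sig lam a) := by
  have hs2 : s * s = 1 := by rw [← abs_mul_abs_self, hs]; norm_num
  have ht2 : t * t = 1 := by rw [← abs_mul_abs_self, ht]; norm_num
  set h : ℝ → ℝ := fun e => -(s * t) * (g e).2.1 with hh
  have habs : |-(s * t)| = 1 := by rw [abs_neg, abs_mul, hs, ht, one_mul]
  have hd : ∀ e1 ∈ T, ∀ e2 ∈ T, dist (g e1) (g e2) = |h e1 - h e2| := by
    intro e1 he1 e2 he2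
    have h5 : |h e1 - h e2| = |(g e1).2.1 - (g e2).2.1| := by
      simp only [hh]
      rw [← mul_sub, abs_mul, habs, one_mul]
    rw [h5, h1 e1 he1, h1 e2 he2, Prod.dist_eq, Prod.dist_eq]
    simp only [dist_self, Real.dist_eq]
    have h6 : s * (g e1).2.1 + t * lam - (s * (g e2).2.1 + t * lam) =
        s * ((g e1).2.1 - (g e2).2.1) := by ring
    rw [h6, abs_mul, hs, one_mul, max_self]
    exact max_eq_right (abs_nonneg _)
  have hsub : h '' T ⊆ Sig lam a := by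
    rintro _ ⟨e, he, rfl⟩
    have hSg : Sg (2, h e, h e - lam) (g e) := by
      refine ⟨s, -(s * t), hs, habs, ?_⟩
      rw [h1 e he]
      refine Prod.ext (by simp [mul_comm]) (Prod.ext ?_ ?_)
      · simp only [hh]
        have : -(s * t) * (-(s * t) * (g e).2.1) = (s * s) * (t * t) * (g e).2.1 := by ring
        rw [this, hs2, ht2]; ring
      · simp only [hh]
        have : s * -(s * t) * (-(s * t) * (g e).2.1 - lam) =
          (s * s) * (t * t) * s * (g e).2.1 + (s * s) * t * lam := by ring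
        rw [this, hs2, ht2]; ring
    intro N
    have h7 := hSg.abs_orb a N
    have h8 := hSg.abs_orb a (N + 1)
    have h9 := h2 e he N
    rw [h7, h8] at h9
    exact h9
  refine (dimH_le_of_inv_holder hc hκ (h := h) ?_).trans ?_
  · intro e1 he1 e2 he2
    rw [← hd e1 he1 e2 he2]
    exact h3 e1 he1 e2 he2
  · gcongr

lemma isClosed_level (a : ℕ → ℕ) (N : ℕ) :
    IsClosed {v : ℝ × ℝ × ℝ | |(orb a v N).2.1| ≤ 2} := by
  have h1 : Continuous fun v : ℝ × ℝ × ℝ => orb a v N := (contDiff_orb (n := 0) a N).continuous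
  exact isClosed_le (h1.snd.fst.abs) continuous_const

/-! ### limit along an ultrafilter -/

lemma class_dim {lam : ℝ} (hlam : 0 < lam) {a : ℕ → ℕ} (ha : ∀ n, 1 ≤ a n) {c : ℝ} {κ : NNReal}
    (hc : 0 < c) (hκ : 0 < κ) {T : Set ℝ} {G : ℕ → ℝ → ℝ × ℝ × ℝ} {M : ℕ → ℕ}
    (hM : ∀ K, K ≤ M K)
    (hG : ∀ e ∈ T, ∀ᶠ K in (hyperfilter ℕ : Filter ℕ), |(G K e).1| = 2 ∧
      surf (G K e) = 4 + lam ^ 2 ∧ 0 ≤ (G K e).2.1 ∧ (G K e).2.1 < 2 ∧
      |(orb a (G K e) (M K)).2.1| < 2)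
    (hineq : ∀ e1 ∈ T, ∀ e2 ∈ T, ∀ᶠ K in (hyperfilter ℕ : Filter ℕ),
      c * |e1 - e2| ^ (κ : ℝ) ≤ dist (G K e1) (G K e2)) :
    dimH T ≤ κ * dimH (Sig lam a) := by
  have hlim : ∀ e ∈ T, ∃ v, Tendsto (fun K => G K e) (hyperfilter ℕ : Filter ℕ) (𝓝 v) := by
    intro e he
    have hcomp : IsCompact (Metric.closedBall (0 : ℝ × ℝ × ℝ) (lam + 4)) := isCompact_closedBall _ _
    obtain ⟨v, -, hv⟩ := hcomp.ultrafilter_le_nhds ((hyperfilter ℕ).map (fun K => G K e)) (by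
      rw [Ultrafilter.coe_map, le_principal_iff, mem_map]
      filter_upwards [hG e he] with K hK
      obtain ⟨h1, h2, h3, h4, -⟩ := hK
      have := norm_cross hlam h1 h2 h3 h4
      simpa using this)
    exact ⟨v, hv⟩
  choose! g hg using hlim
  have hg1 : ∀ e ∈ T, |(g e).1| = 2 := by
    intro e he
    have hcl : IsClosed {v : ℝ × ℝ × ℝ | |v.1| = 2} :=
      isClosed_eq (continuous_fst.abs) continuous_const
    exact hcl.mem_of_tendsto (hg e he) ((hG e he).mono fun K hK => hK.1)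
  have hg2 : ∀ e ∈ T, surf (g e) = 4 + lam ^ 2 := by
    intro e he
    have hcl : IsClosed {v : ℝ × ℝ × ℝ | surf v = 4 + lam ^ 2} := by
      refine isClosed_eq ?_ continuous_const
      unfold surf
      fun_prop
    exact hcl.mem_of_tendsto (hg e he) ((hG e he).mono fun K hK => hK.2.1)
  have hg3 : ∀ e ∈ T, ∀ N, |(orb a (g e) N).2.1| ≤ 2 ∨ |(orb a (g e) (N + 1)).2.1| ≤ 2 := by
    intro e he N
    have hge : ∀ᶠ K in (hyperfilter ℕ : Filter ℕ), N ≤ K := by
      have h1 : ∀ᶠ K in (cofinite : Filter ℕ), N ≤ K := by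
        rw [Nat.cofinite_eq_atTop]
        exact eventually_ge_atTop N
      exact hyperfilter_le_cofinite h1
    have hor : ∀ᶠ K in (hyperfilter ℕ : Filter ℕ), |(orb a (G K e) N).2.1| ≤ 2 ∨
        |(orb a (G K e) (N + 1)).2.1| ≤ 2 := by
      filter_upwards [hG e he, hge] with K hK hNK
      exact nest ha (Or.inl hK.1.le) (hK.2.2.2.2).le (hNK.trans (hM K))
    rw [Ultrafilter.eventually_or] at hor
    rcases hor with h | h
    · left
      exact (isClosed_level a N).mem_of_tendsto (hg e he) h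
    · right
      exact (isClosed_level a (N + 1)).mem_of_tendsto (hg e he) h
  have hg4 : ∀ e1 ∈ T, ∀ e2 ∈ T, c * |e1 - e2| ^ (κ : ℝ) ≤ dist (g e1) (g e2) := by
    intro e1 he1 e2 he2
    exact ge_of_tendsto ((hg e1 he1).dist (hg e2 he2)) (hineq e1 he1 e2 he2)
  -- the sign types
  have htype : ∀ s t : ℝ, |s| = 1 → |t| = 1 →
      dimH {e ∈ T | g e = (2 * s, (g e).2.1, s * (g e).2.1 + t * lam)} ≤ κ * dimH (Sig lam a) := by
    intro s t hs ht
    refine type_dim hc hκ hs ht (g := g) (fun e he => he.2) (fun e he => hg3 e he.1)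
      (fun e1 he1 e2 he2 => hg4 e1 he1.1 e2 he2.1)
  set A : ℝ → ℝ → Set ℝ := fun s t =>
    {e ∈ T | g e = (2 * s, (g e).2.1, s * (g e).2.1 + t * lam)} with hA
  have hcov : T ⊆ (A 1 1 ∪ A 1 (-1)) ∪ (A (-1) 1 ∪ A (-1) (-1)) := by
    intro e he
    have h1 := hg1 e he
    have h2 := hg2 e he
    have key : ∀ x y w : ℝ, |x| = 2 → x ^ 2 + y ^ 2 + w ^ 2 - x * y * w = 4 + lam ^ 2 →
        ((x = 2 * 1 ∧ w = 1 * y + 1 * lam) ∨ (x = 2 * 1 ∧ w = 1 * y + (-1) * lam)) ∨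
        ((x = 2 * (-1) ∧ w = (-1) * y + 1 * lam) ∨ (x = 2 * (-1) ∧ w = (-1) * y + (-1) * lam)) := by
      intro x y w hx hs
      rcases eq_or_eq_neg_of_abs_eq hx with rfl | rfl
      · left
        have h3 : (w - y - lam) * (w - y + lam) = 0 := by linarith
        rcases mul_eq_zero.mp h3 with h | h
        · left; exact ⟨by norm_num, by linarith⟩
        · right; exact ⟨by norm_num, by linarith⟩
      · right
        have h3 : (w + y - lam) * (w + y + lam) = 0 := by linarith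
        rcases mul_eq_zero.mp h3 with h | h
        · left; exact ⟨by norm_num, by linarith⟩
        · right; exact ⟨by norm_num, by linarith⟩
    rcases key (g e).1 (g e).2.1 (g e).2.2 h1 h2 with (⟨h3, h4⟩ | ⟨h3, h4⟩) | (⟨h3, h4⟩ | ⟨h3, h4⟩)
    · exact Or.inl (Or.inl ⟨he, Prod.ext h3 (Prod.ext rfl h4)⟩)
    · exact Or.inl (Or.inr ⟨he, Prod.ext h3 (Prod.ext rfl h4)⟩)
    · exact Or.inr (Or.inl ⟨he, Prod.ext h3 (Prod.ext rfl h4)⟩)
    · exact Or.inr (Or.inr ⟨he, Prod.ext h3 (Prod.ext rfl h4)⟩)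
  refine (dimH_mono hcov).trans ?_
  rw [dimH_union, dimH_union, dimH_union]
  refine max_le (max_le ?_ ?_) (max_le ?_ ?_)
  · exact htype 1 1 (by simp) (by simp)
  · exact htype 1 (-1) (by simp) (by simp)
  · exact htype (-1) 1 (by simp) (by simp)
  · exact htype (-1) (-1) (by simp) (by simp)

/-- the exponent -/
noncomputable def kap (η : ℝ) : NNReal := Real.toNNReal (((1 + η) / (1 - η)) ^ 2)

lemma kap_pos {η : ℝ} (hη0 : 0 < η) (hη1 : η < 1) : 0 < kap η := by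
  unfold kap
  rw [Real.toNNReal_pos]
  have : 0 < 1 - η := by linarith
  positivity

lemma coe_kap {η : ℝ} (hη1 : η < 1) : (kap η : ℝ) = ((1 + η) / (1 - η)) ^ 2 := by
  unfold kap
  exact Real.coe_toNNReal _ (sq_nonneg _)

/-- local estimate -/
lemma local_dim {lam : ℝ} (hlam : 0 < lam) {a : ℕ → ℕ} (ha : ∀ n, 1 ≤ a n) (h2 : 2 ≤ a 0)
    (hinf : ∀ m : ℕ, ∃ n, m ≤ a n ∧ m ≤ a (n + 1)) {η : ℝ} (hη0 : 0 < η) (hη1 : η < 1)
    {S : Set ℝ} (hS : S ⊆ Sig lam (fun n => a (n + 1)))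
    (hgen : ∀ e ∈ S, ∀ n, |X lam (fun n => a (n + 1)) e n| ≠ 2) {e0 : ℝ} (he0 : e0 ∈ S) :
    ∃ δ > 0, dimH (S ∩ Metric.ball e0 δ) ≤ kap η * dimH (Sig lam a) := by
  -- choice of level
  obtain ⟨m, hm⟩ := exists_nat_ge ((6 * Real.pi / η + 4) / lam)
  have hm' : ∀ k : ℕ, m ≤ k → 6 * Real.pi ≤ η * (lam * k - 4) := by
    intro k hk
    have hk' : (m : ℝ) ≤ k := by exact_mod_cast hk
    have h3 : (6 * Real.pi / η + 4) / lam ≤ k := hm.trans hk'
    rw [div_le_iff₀ hlam] at h3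
    have h4 : 6 * Real.pi / η ≤ lam * k - 4 := by linarith
    rw [div_le_iff₀ hη0] at h4
    linarith
  obtain ⟨n, hn1, hn2⟩ := hinf (max m (a 0 + 1))
  obtain ⟨p0, rfl⟩ : ∃ p0, n = p0 + 1 := by
    cases n with
    | zero => exact absurd hn1 (by omega)
    | succ k => exact ⟨k, rfl⟩
  have hlt : ∀ e ∈ S, ∀ k, |X lam (fun n => a (n + 1)) e k| ≤ 2 →
      |X lam (fun n => a (n + 1)) e k| < 2 := fun e he k hk => lt_of_le_of_ne hk (hgen e he k)
  obtain ⟨p, hpm, hpx⟩ : ∃ p, m ≤ a (p + 1) ∧ |X lam (fun n => a (n + 1)) e0 p| < 2 := by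
    rcases hS he0 p0 with h | h
    · exact ⟨p0, le_trans (le_max_left _ _) hn1, hlt e0 he0 _ h⟩
    · exact ⟨p0 + 1, le_trans (le_max_left _ _) hn2, hlt e0 he0 _ h⟩
  obtain ⟨δ, hδ, c, hc, hkey⟩ := key_ineq hlam ha h2 p hη0 hη1 (hm' _ hpm) (e0 := e0) hpx
  choose G hG1 hG2 using hkey
  refine ⟨δ, hδ, ?_⟩
  -- two classes
  set T : ℕ → Set ℝ := fun i => {e ∈ S ∩ Metric.ball e0 δ | ∀ᶠ K in (hyperfilter ℕ : Filter ℕ),
    |(orb (fun j => a (j + 1)) (2, e, e - lam) (p + (K + i) + 1)).2.1| < 2} with hT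
  have hcov : S ∩ Metric.ball e0 δ ⊆ T 0 ∪ T 1 := by
    intro e he
    have hor : ∀ᶠ K in (hyperfilter ℕ : Filter ℕ),
        |(orb (fun j => a (j + 1)) (2, e, e - lam) (p + (K + 0) + 1)).2.1| < 2 ∨
        |(orb (fun j => a (j + 1)) (2, e, e - lam) (p + (K + 1) + 1)).2.1| < 2 := by
      refine Eventually.of_forall fun K => ?_
      rcases hS he.1 (p + K + 1) with h | h
      · left; exact hlt e he.1 _ h
      · right
        have := hlt e he.1 _ h
        have e1 : p + K + 1 + 1 = p + (K + 1) + 1 := by ring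
        rw [e1] at this
        exact this
    rw [Ultrafilter.eventually_or] at hor
    rcases hor with h | h
    · exact Or.inl ⟨he, h⟩
    · exact Or.inr ⟨he, h⟩
  have hcl : ∀ i, dimH (T i) ≤ kap η * dimH (Sig lam a) := by
    intro i
    refine class_dim hlam ha hc (kap_pos hη0 hη1) (G := fun K => G (K + i))
      (M := fun K => p + (K + i) + 2) (fun K => by omega) ?_ ?_
    · intro e he
      have hb : |e - e0| < δ := by
        have := he.1.2
        rwa [Metric.mem_ball, Real.dist_eq] at this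
      filter_upwards [he.2] with K hK
      exact hG1 (K + i) e hb hK
    · intro e1 he1 e2 he2
      have hb1 : |e1 - e0| < δ := by
        have := he1.1.2
        rwa [Metric.mem_ball, Real.dist_eq] at this
      have hb2 : |e2 - e0| < δ := by
        have := he2.1.2
        rwa [Metric.mem_ball, Real.dist_eq] at this
      filter_upwards [he1.2, he2.2] with K hK1 hK2
      rw [coe_kap hη1]
      exact hG2 (K + i) e1 e2 hb1 hb2 hK1 hK2
  refine (dimH_mono hcov).trans ?_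
  rw [dimH_union]
  exact max_le (hcl 0) (hcl 1)

/-- **Theorem B.** -/
theorem dimH_shift_le {lam : ℝ} (hlam : 0 < lam) (a : ℕ → ℕ) (ha : ∀ n, 1 ≤ a n) (h2 : 2 ≤ a 0)
    (hinf : ∀ m : ℕ, ∃ n, m ≤ a n ∧ m ≤ a (n + 1)) :
    dimH (Sig lam (fun n => a (n + 1))) ≤ dimH (Sig lam a) := by
  set D : Set ℝ := ⋃ n, {e : ℝ | |X lam (fun n => a (n + 1)) e n| = 2} with hD
  have hDc : D.Countable := countable_iUnion fun n =>
    (finite_abs_eq_two hlam (fun n => ha _) n).countable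
  set S : Set ℝ := Sig lam (fun n => a (n + 1)) \ D with hS
  have hgen : ∀ e ∈ S, ∀ n, |X lam (fun n => a (n + 1)) e n| ≠ 2 := by
    intro e he n h
    exact he.2 (mem_iUnion.mpr ⟨n, h⟩)
  have hSub : Sig lam (fun n => a (n + 1)) ⊆ S ∪ D := by
    intro e he
    by_cases h : e ∈ D
    · exact Or.inr h
    · exact Or.inl ⟨he, h⟩
  have hdim : dimH (Sig lam (fun n => a (n + 1))) ≤ dimH S := by
    refine (dimH_mono hSub).trans ?_
    rw [dimH_union, hDc.dimH_zero]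
    exact max_le le_rfl bot_le
  refine hdim.trans ?_
  have hκ : ∀ η : ℝ, 0 < η → η < 1 → dimH S ≤ kap η * dimH (Sig lam a) := by
    intro η hη0 hη1
    by_contra hcon
    push Not at hcon
    obtain ⟨e0, he0, hlt⟩ := exists_mem_nhdsWithin_lt_dimH_of_lt_dimH hcon
    obtain ⟨δ, hδ, hle⟩ := local_dim hlam ha h2 hinf hη0 hη1 (sdiff_subset) hgen he0
    have := hlt (S ∩ Metric.ball e0 δ) (inter_mem self_mem_nhdsWithin
      (mem_nhdsWithin_of_mem_nhds (Metric.ball_mem_nhds e0 hδ)))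
    exact absurd this (not_lt.mpr hle)
  have hcont : Tendsto (fun η : ℝ => (kap η : ENNReal) * dimH (Sig lam a)) (𝓝[>] 0)
      (𝓝 (1 * dimH (Sig lam a))) := by
    refine ENNReal.Tendsto.mul_const ?_ (Or.inl one_ne_zero)
    have h1 : Tendsto (fun η : ℝ => ((1 + η) / (1 - η)) ^ 2) (𝓝[>] 0) (𝓝 1) := by
      have h3 : ContinuousAt (fun η : ℝ => ((1 + η) / (1 - η)) ^ 2) 0 := by
        refine ContinuousAt.pow (ContinuousAt.div (by fun_prop) (by fun_prop) (by norm_num)) 2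
      have h4 := h3.tendsto
      simp only [add_zero, sub_zero, div_one, one_pow] at h4
      exact h4.mono_left nhdsWithin_le_nhds
    have h5 := ENNReal.tendsto_ofReal h1
    rw [ENNReal.ofReal_one] at h5
    exact h5
  rw [one_mul] at hcont
  refine ge_of_tendsto hcont ?_
  have hev : ∀ᶠ η : ℝ in 𝓝[>] 0, η ∈ Ioo (0 : ℝ) 1 := Ioo_mem_nhdsGT one_pos
  filter_upwards [hev] with η hη
  exact hκ η hη.1 hη.2

end Pool.Agent.Sturm82
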