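import Mathlib

set_option autoImplicit false

namespace Pool.Agent.Sturm82.Har

open Metric Complex

/-- A zero-free holomorphic function on a disc has a holomorphic logarithm. -/
lemma exists_log_ball {c : ℂ} {ρ : ℝ} (hρ : 0 < ρ) {f : ℂ → ℂ}
    (hf : DifferentiableOn ℂ f (ball c ρ)) (hne : ∀ z ∈ ball c ρ, f z ≠ 0) :
    ∃ g : ℂ → ℂ, DifferentiableOn ℂ g (ball c ρ) ∧ ∀ z ∈ ball c ρ, exp (g z) = f z := by
  have hdiv : DifferentiableOn ℂ (fun z => deriv f z / f z) (ball c ρ) :=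
    (hf.deriv isOpen_ball).div hf hne
  have hcm : c ∈ ball c ρ := mem_ball_self hρ
  obtain ⟨g, hgc, hg⟩ := hdiv.isExactOn_ball.with_val_at c (log (f c))
  have hgd : DifferentiableOn ℂ g (ball c ρ) := fun z hz =>
    (hg z hz).differentiableAt.differentiableWithinAt
  refine ⟨g, hgd, ?_⟩
  have hF : ∀ z ∈ ball c ρ, HasDerivAt (fun z => f z * exp (-g z)) 0 z := by
    intro z hz
    have h1 : HasDerivAt f (deriv f z) z :=
      ((hf z hz).differentiableAt (isOpen_ball.mem_nhds hz)).hasDerivAt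
    have h2 : HasDerivAt (fun z => exp (-g z)) (exp (-g z) * (-(deriv f z / f z))) z :=
      (hg z hz).neg.cexp
    have h3 := h1.mul h2
    have h4 : deriv f z * exp (-g z) + f z * (exp (-g z) * (-(deriv f z / f z))) = 0 := by
      have := hne z hz
      field_simp
      ring
    rw [h4] at h3
    exact h3
  have hconst : ∀ z ∈ ball c ρ, f z * exp (-g z) = f c * exp (-g c) := by
    intro z hz
    refine isOpen_ball.is_const_of_deriv_eq_zero (convex_ball c ρ).isPreconnected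
      (fun y hy => (hF y hy).differentiableAt.differentiableWithinAt)
      (fun y hy => (hF y hy).deriv) hz hcm
  intro z hz
  have h1 := hconst z hz
  have h2 : f c * exp (-g c) = 1 := by
    rw [hgc, exp_neg, exp_log (hne c hcm), mul_inv_cancel₀ (hne c hcm)]
  rw [h2, exp_neg] at h1
  have h3 : exp (g z) ≠ 0 := exp_ne_zero _
  field_simp at h1
  exact h1.symm

/-- Harnack's inequality, comparison with the centre. -/
lemma harnack_centre {c : ℂ} {ρ r : ℝ} (hr : 0 ≤ r) (hrρ : r < ρ) {h : ℂ → ℂ}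
    (hh : DifferentiableOn ℂ h (ball c ρ)) (hpos : ∀ z ∈ ball c ρ, 0 < (h z).re) {z : ℂ}
    (hz : z ∈ closedBall c r) :
    (h z).re * (ρ - r) ≤ (h c).re * (ρ + r) ∧ (h c).re * (ρ - r) ≤ (h z).re * (ρ + r) := by
  have hρ : 0 < ρ := hr.trans_lt hrρ
  have hcm : c ∈ ball c ρ := mem_ball_self hρ
  have hzb : z ∈ ball c ρ := closedBall_subset_ball hrρ hz
  set u := (h c).re with hu
  have hu0 : 0 < u := hpos c hcm
  let ψ : ℂ → ℂ := fun z => (h z - h c) / (h z + (starRingEnd ℂ) (h c))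
  have hden : ∀ y ∈ ball c ρ, h y + (starRingEnd ℂ) (h c) ≠ 0 := by
    intro y hy h0
    have h1 := congrArg Complex.re h0
    have h2 := hpos y hy
    simp at h1
    linarith
  have hψd : DifferentiableOn ℂ ψ (ball c ρ) :=
    (hh.sub (differentiableOn_const _)).div (hh.add (differentiableOn_const _)) hden
  have hψc : ψ c = 0 := by simp [ψ]
  have hle : ∀ y ∈ ball c ρ, ‖h y - h c‖ ≤ ‖h y + (starRingEnd ℂ) (h c)‖ := by
    intro y hy
    have h2 := hpos y hy
    apply le_of_sq_le_sq _ (norm_nonneg _)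
    rw [Complex.sq_norm, Complex.sq_norm, Complex.normSq_apply, Complex.normSq_apply]
    simp only [sub_re, sub_im, add_re, add_im, conj_re, conj_im]
    nlinarith
  have hmaps : Set.MapsTo ψ (ball c ρ) (closedBall (ψ c) 1) := by
    intro y hy
    rw [hψc, mem_closedBall_zero_iff]
    simp only [ψ, norm_div]
    exact div_le_one_of_le₀ (hle y hy) (norm_nonneg _)
  have hs := dist_le_div_mul_dist_of_mapsTo_ball hψd hmaps hzb
  rw [hψc, dist_zero_right] at hs
  have hs2 : ‖ψ z‖ ≤ r / ρ := by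
    refine hs.trans ?_
    rw [mem_closedBall] at hz
    rw [div_mul_eq_mul_div, one_mul]
    gcongr
  have hs3 : ‖h z - h c‖ * ρ ≤ r * ‖h z + (starRingEnd ℂ) (h c)‖ := by
    have h4 : 0 < ‖h z + (starRingEnd ℂ) (h c)‖ := norm_pos_iff.2 (hden z hzb)
    simp only [ψ, norm_div] at hs2
    rw [div_le_div_iff₀ h4 hρ] at hs2
    exact hs2
  have hs4 : (‖h z - h c‖ * ρ) ^ 2 ≤ (r * ‖h z + (starRingEnd ℂ) (h c)‖) ^ 2 := by
    gcongr
  rw [mul_pow, mul_pow, Complex.sq_norm, Complex.sq_norm, Complex.normSq_apply,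
    Complex.normSq_apply] at hs4
  simp only [sub_re, sub_im, add_re, add_im, conj_re, conj_im, ← hu] at hs4
  set x := (h z).re with hx
  set y := (h z).im - (h c).im with hy
  have hx0 : 0 < x := hpos z hzb
  have hy2 : (h z).im + -(h c).im = y := by rw [hy]; ring
  rw [hy2] at hs4
  have h5 : ((x - u) * ρ) ^ 2 ≤ (r * (x + u)) ^ 2 := by
    have h6 : 0 ≤ (ρ ^ 2 - r ^ 2) * (y * y) := by
      apply mul_nonneg _ (mul_self_nonneg y)
      nlinarith
    nlinarith
  have h6 := abs_le_of_sq_le_sq' h5 (by positivity)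
  constructor <;> nlinarith [h6.1, h6.2]

/-- PACKAGE E. Two-point Harnack inequality for bounded zero-free holomorphic functions. -/
theorem harnack_pow {c : ℂ} {ρ r M κ : ℝ} (hr : 0 ≤ r) (hrρ : r < ρ) (hM0 : 0 < M) {f : ℂ → ℂ}
    (hf : DifferentiableOn ℂ f (Metric.ball c ρ)) (hne : ∀ z ∈ Metric.ball c ρ, f z ≠ 0)
    (hM : ∀ z ∈ Metric.ball c ρ, ‖f z‖ ≤ M) (hκ : κ = ((ρ + r) / (ρ - r)) ^ 2) {z w : ℂ}
    (hz : z ∈ Metric.closedBall c r) (hw : w ∈ Metric.closedBall c r) :
    M * (‖f w‖ / M) ^ κ ≤ ‖f z‖ := by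
  have hρ : 0 < ρ := hr.trans_lt hrρ
  have hzb : z ∈ ball c ρ := closedBall_subset_ball hrρ hz
  have hwb : w ∈ ball c ρ := closedBall_subset_ball hrρ hw
  obtain ⟨g, hg, hexp⟩ := exists_log_ball hρ hf hne
  have hre : ∀ y ∈ ball c ρ, (g y).re = Real.log ‖f y‖ := by
    intro y hy
    rw [← hexp y hy, Complex.norm_exp, Real.log_exp]
  have hfz : 0 < ‖f z‖ := norm_pos_iff.2 (hne z hzb)
  have hfw : 0 < ‖f w‖ := norm_pos_iff.2 (hne w hwb)
  have hκ0 : 0 ≤ κ := by rw [hκ]; positivity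
  have key : ∀ ε > 0, Real.log M + ε - Real.log ‖f z‖ ≤
      κ * (Real.log M + ε - Real.log ‖f w‖) := by
    intro ε hε
    let h : ℂ → ℂ := fun y => ((Real.log M + ε : ℝ) : ℂ) - g y
    have hh : DifferentiableOn ℂ h (ball c ρ) := (differentiableOn_const _).sub hg
    have hhre : ∀ y ∈ ball c ρ, (h y).re = Real.log M + ε - Real.log ‖f y‖ := by
      intro y hy
      simp only [h, sub_re, ofReal_re, hre y hy]
    have hpos : ∀ y ∈ ball c ρ, 0 < (h y).re := by
      intro y hy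
      rw [hhre y hy]
      have h1 : Real.log ‖f y‖ ≤ Real.log M :=
        Real.log_le_log (norm_pos_iff.2 (hne y hy)) (hM y hy)
      linarith
    have h1 := (harnack_centre hr hrρ hh hpos hz).1
    have h2 := (harnack_centre hr hrρ hh hpos hw).2
    rw [hhre z hzb] at h1
    rw [hhre w hwb] at h2
    have hd : 0 < ρ - r := by linarith
    have hq : 0 ≤ (ρ + r) / (ρ - r) := by positivity
    rw [← le_div_iff₀ hd, mul_div_assoc] at h1 h2
    rw [hκ]
    calc Real.log M + ε - Real.log ‖f z‖ ≤ (h c).re * ((ρ + r) / (ρ - r)) := h1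
      _ ≤ ((Real.log M + ε - Real.log ‖f w‖) * ((ρ + r) / (ρ - r))) * ((ρ + r) / (ρ - r)) := by
          gcongr
      _ = ((ρ + r) / (ρ - r)) ^ 2 * (Real.log M + ε - Real.log ‖f w‖) := by ring
  have key0 : Real.log M - Real.log ‖f z‖ ≤ κ * (Real.log M - Real.log ‖f w‖) := by
    by_contra hcon
    push Not at hcon
    set δ := (Real.log M - Real.log ‖f z‖) - κ * (Real.log M - Real.log ‖f w‖) with hδ
    have hδ0 : 0 < δ := by linarith
    have h1 := key (δ / (κ + 1)) (by positivity)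
    have h2 : κ * (δ / (κ + 1)) < δ := by
      rw [mul_div_assoc', div_lt_iff₀ (by positivity)]
      nlinarith
    have h3 : 0 < δ / (κ + 1) := by positivity
    nlinarith
  have h1 : Real.log (M * (‖f w‖ / M) ^ κ) ≤ Real.log ‖f z‖ := by
    rw [Real.log_mul hM0.ne' (by positivity), Real.log_rpow (by positivity),
      Real.log_div hfw.ne' hM0.ne']
    linarith
  exact (Real.log_le_log_iff (by positivity) hfz).1 h1

end Pool.Agent.Sturm82.Har
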