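import Pool.Agent.Sturm82.SpecIncl

/-!
The trace set is contained in the spectrum (approximate eigenvectors).
-/

set_option autoImplicit false

namespace Pool.Agent.Sturm82.Spec

open Matrix

/-- eigenvector with unimodular eigenvalue -/
theorem exists_unimodular (M : Matrix (Fin 2) (Fin 2) ℂ) (hdet : M.det = 1) (x : ℝ)
    (htr : M.trace = (x : ℂ)) (hx : |x| ≤ 2) :
    ∃ μ : ℂ, ‖μ‖ = 1 ∧ ∃ z : Fin 2 → ℂ, z ≠ 0 ∧ M *ᵥ z = μ • z := by
  set y : ℝ := Real.sqrt (4 - x ^ 2) with hy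
  have hxx : x ^ 2 ≤ 4 := by
    have := pow_le_pow_left₀ (abs_nonneg x) hx 2
    rw [sq_abs] at this
    linarith
  have hyy : y ^ 2 = 4 - x ^ 2 := Real.sq_sqrt (by linarith)
  set μ : ℂ := ⟨x / 2, y / 2⟩ with hμ
  refine ⟨μ, ?_, ?_⟩
  · have : ‖μ‖ ^ 2 = 1 := by
      rw [Complex.sq_norm, Complex.normSq_apply, hμ]
      dsimp only
      nlinarith
    have h2 : ‖μ‖ = Real.sqrt 1 := by rw [← this, Real.sqrt_sq (norm_nonneg _)]
    rw [h2, Real.sqrt_one]
  · have hchar : μ ^ 2 - x * μ + 1 = 0 := by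
      apply Complex.ext
      · simp [hμ, pow_two]; nlinarith
      · simp [hμ, pow_two]; ring
    have hd : (M - μ • (1 : Matrix (Fin 2) (Fin 2) ℂ)).det = 0 := by
      rw [Matrix.det_fin_two] at hdet ⊢
      rw [Matrix.trace_fin_two] at htr
      simp
      linear_combination hdet - μ * htr + hchar
    obtain ⟨z, hz, hz2⟩ := Matrix.exists_mulVec_eq_zero_iff.mpr hd
    refine ⟨z, hz, ?_⟩
    rw [Matrix.sub_mulVec, Matrix.smul_mulVec, Matrix.one_mulVec, sub_eq_zero] at hz2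
    exact hz2

/-- the tent function -/
noncomputable def tent (q : ℕ) (n : ℤ) : ℝ := max 0 ((q : ℝ) - |(n : ℝ) - q|)

theorem tent_nonneg (q : ℕ) (n : ℤ) : 0 ≤ tent q n := le_max_left _ _

theorem tent_out (q : ℕ) (n : ℤ) (h : n ≤ 0 ∨ 2 * (q : ℤ) ≤ n) : tent q n = 0 := by
  rw [tent]
  apply max_eq_left
  rcases h with h | h
  · have h' : (n : ℝ) ≤ 0 := by exact_mod_cast h
    have := neg_abs_le ((n : ℝ) - q)
    linarith
  · have h' : 2 * (q : ℝ) ≤ n := by exact_mod_cast h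
    have := le_abs_self ((n : ℝ) - q)
    linarith

theorem tent_lip (q : ℕ) (n m : ℤ) (h : |n - m| ≤ 1) : |tent q n - tent q m| ≤ 1 := by
  have h' : |(n : ℝ) - m| ≤ 1 := by exact_mod_cast h
  rw [tent, tent, max_comm 0, max_comm 0]
  refine (abs_max_sub_max_le_abs _ _ _).trans ?_ |>.trans h'
  rw [show (q : ℝ) - |(n : ℝ) - q| - (q - |(m : ℝ) - q|) = |(m : ℝ) - q| - |(n : ℝ) - q| by ring]
  refine (abs_abs_sub_abs_le_abs_sub _ _).trans ?_
  rw [show (m : ℝ) - q - (n - q) = -((n : ℝ) - m) by ring, abs_neg]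

theorem tent_left (q k : ℕ) (h : k ≤ q) : tent q (k : ℤ) = k := by
  have h' : (k : ℝ) ≤ q := by exact_mod_cast h
  rw [tent]
  push_cast
  rw [abs_of_nonpos (by linarith)]
  rw [show (q : ℝ) - -((k : ℝ) - q) = k by ring]
  exact max_eq_right (Nat.cast_nonneg k)

theorem tent_right (q k : ℕ) (h : k ≤ q) : tent q ((q + k : ℕ) : ℤ) = (q : ℝ) - k := by
  have h' : (k : ℝ) ≤ q := by exact_mod_cast h
  rw [tent]
  push_cast
  rw [show (q : ℝ) + k - q = k by ring, abs_of_nonneg (Nat.cast_nonneg k)]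
  exact max_eq_right (by linarith)

/-- The approximate eigenvector estimate. -/
theorem approx_vector (T : L2 →L[ℂ] L2) (V : ℤ → ℝ)
    (hT : ∀ (u : L2) (n : ℤ), (T u) n = u (n + 1) + u (n - 1) + (V n : ℂ) * u n)
    (E : ℝ) (q : ℕ) (hq : 2 ≤ q) (U : ℕ → ℂ)
    (hU : ∀ k, U (k + 2) + U k + (V ((k : ℤ) + 1) : ℂ) * U (k + 1) = E * U (k + 1))
    (hper : ∀ k, k ≤ q → ‖U (q + k)‖ = ‖U k‖) (hne : U 0 ≠ 0 ∨ U 1 ≠ 0) :
    ∃ u : L2, u ≠ 0 ∧ ‖T u - (E : ℂ) • u‖ ≤ 4 / q * ‖u‖ := by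
  have hq0 : (0 : ℝ) < q := by exact_mod_cast (by omega : 0 < q)
  set ψ : ℤ → ℂ := fun n => (tent q n : ℂ) * U n.toNat with hψ
  have hψout : ∀ n : ℤ, (n ≤ 0 ∨ 2 * (q : ℤ) ≤ n) → ψ n = 0 := by
    intro n hn
    simp only [hψ]
    rw [tent_out q n hn]; simp
  obtain ⟨u, hu⟩ := L2_exists_of_finite ψ (by
    apply (Set.finite_Icc (0 : ℤ) (2 * q)).subset
    intro n hn
    by_contra hc
    apply hn
    apply hψout
    rw [Set.mem_Icc] at hc
    omega)
  -- values of (T - E) u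
  set F : ℤ → ℂ := fun n => (T u - (E : ℂ) • u) n with hF
  have hFv : ∀ n, F n = ψ (n + 1) + ψ (n - 1) + (V n : ℂ) * ψ n - E * ψ n := by
    intro n
    show (T u) n - (E : ℂ) * u n = _
    rw [hT, hu, hu, hu]
  have hFout : ∀ n : ℤ, (n < 0 ∨ 2 * (q : ℤ) < n) → F n = 0 := by
    intro n hn
    rw [hFv, hψout (n + 1) (by omega), hψout (n - 1) (by omega), hψout n (by omega)]
    simp
  have hFmid : ∀ k : ℕ, k + 1 < 2 * q → ‖F ((k + 1 : ℕ) : ℤ)‖ ≤ ‖U (k + 2)‖ + ‖U k‖ := by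
    intro k hk
    have e : F ((k + 1 : ℕ) : ℤ) = ((tent q ((k : ℤ) + 1 + 1) - tent q ((k : ℤ) + 1) : ℝ) : ℂ) * U (k + 2)
        + ((tent q (k : ℤ) - tent q ((k : ℤ) + 1) : ℝ) : ℂ) * U k := by
      rw [hFv]
      simp only [hψ]
      have t1 : (((k + 1 : ℕ) : ℤ) + 1).toNat = k + 2 := by omega
      have t2 : (((k + 1 : ℕ) : ℤ) - 1).toNat = k := by omega
      have t3 : (((k + 1 : ℕ) : ℤ)).toNat = k + 1 := by omega
      rw [t1, t2, t3]
      have hk' := hU k
      push_cast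
      rw [show (k : ℤ) + 1 - 1 = k by ring]
      linear_combination (tent q ((k : ℤ) + 1) : ℂ) * hk'
    rw [e]
    refine (norm_add_le _ _).trans ?_
    rw [norm_mul, norm_mul, Complex.norm_real, Complex.norm_real, Real.norm_eq_abs,
      Real.norm_eq_abs]
    have l1 := tent_lip q ((k : ℤ) + 1 + 1) ((k : ℤ) + 1) (by rw [abs_le]; constructor <;> omega)
    have l2 := tent_lip q (k : ℤ) ((k : ℤ) + 1) (by rw [abs_le]; constructor <;> omega)
    have m1 := mul_le_mul_of_nonneg_right l1 (norm_nonneg (U (k + 2)))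
    have m2 := mul_le_mul_of_nonneg_right l2 (norm_nonneg (U k))
    linarith
  have hF0 : ‖F 0‖ ≤ ‖U 1‖ := by
    rw [hFv, hψout (0 - 1) (by omega), hψout 0 (by omega)]
    simp only [hψ]
    have l1 := tent_lip q (0 + 1) 0 (by norm_num)
    rw [tent_out q 0 (by omega), sub_zero] at l1
    rw [mul_zero, mul_zero, add_zero, add_zero, sub_zero, norm_mul, Complex.norm_real,
      Real.norm_eq_abs]
    have := mul_le_mul_of_nonneg_right l1 (norm_nonneg (U 1))
    have t1 : ((0 : ℤ) + 1).toNat = 1 := rfl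
    rw [t1]
    linarith
  have hF2q : ‖F ((2 * q : ℕ) : ℤ)‖ ≤ ‖U (2 * q - 1)‖ := by
    rw [hFv, hψout _ (by right; push_cast; omega), hψout ((2 * q : ℕ) : ℤ) (by right; push_cast; omega)]
    simp only [hψ]
    have l1 := tent_lip q (((2 * q : ℕ) : ℤ) - 1) ((2 * q : ℕ) : ℤ) (by
      rw [abs_le]; constructor <;> omega)
    rw [tent_out q ((2 * q : ℕ) : ℤ) (by right; push_cast; omega), sub_zero] at l1
    rw [mul_zero, mul_zero, add_zero, zero_add, sub_zero, norm_mul, Complex.norm_real,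
      Real.norm_eq_abs]
    have t1 : (((2 * q : ℕ) : ℤ) - 1).toNat = 2 * q - 1 := by omega
    rw [t1]
    have := mul_le_mul_of_nonneg_right l1 (norm_nonneg (U (2 * q - 1)))
    linarith
  -- the sum S
  set S : ℝ := ∑ k ∈ Finset.range q, ‖U k‖ ^ 2 with hS
  have hS0 : 0 < S := by
    rcases hne with h | h
    · refine Finset.sum_pos' (fun i _ => by positivity) ⟨0, ?_, ?_⟩
      · rw [Finset.mem_range]; omega
      · have := norm_pos_iff.mpr h; positivity
    · refine Finset.sum_pos' (fun i _ => by positivity) ⟨1, ?_, ?_⟩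
      · rw [Finset.mem_range]; omega
      · have := norm_pos_iff.mpr h; positivity
  have hS2 : ∑ k ∈ Finset.range (2 * q), ‖U k‖ ^ 2 = 2 * S := by
    rw [two_mul, Finset.sum_range_add, two_mul]
    congr 1
    apply Finset.sum_congr rfl
    intro k hk
    rw [hper k (Finset.mem_range.mp hk).le]
  have hS3 : ∑ k ∈ Finset.range (2 * q), ‖U (k + 1)‖ ^ 2 = 2 * S := by
    have a1 := Finset.sum_range_succ (fun k => ‖U k‖ ^ 2) (2 * q)
    have a2 := Finset.sum_range_succ' (fun k => ‖U k‖ ^ 2) (2 * q)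
    have a3 : ‖U (2 * q)‖ = ‖U 0‖ := by
      rw [two_mul, hper q (le_refl _)]
      have := hper 0 (by omega)
      rw [add_zero] at this
      exact this
    rw [a3] at a1
    linarith
  -- upper bound
  have hup : ‖T u - (E : ℂ) • u‖ ^ 2 ≤ 8 * S := by
    rw [L2_norm_sq]
    set e : ℕ ↪ ℤ := ⟨fun k => (k : ℤ), fun a b h => by simpa using h⟩ with he
    rw [tsum_eq_sum (s := (Finset.range (2 * q + 1)).map e), Finset.sum_map]
    · have hle : ∀ k ∈ Finset.range (2 * q + 1), ‖F (k : ℤ)‖ ^ 2 ≤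
          2 * ((if k < 2 * q then ‖U (k + 1)‖ ^ 2 else 0) + (if 1 ≤ k then ‖U (k - 1)‖ ^ 2 else 0)) := by
        intro k hk
        rw [Finset.mem_range] at hk
        rcases Nat.eq_zero_or_pos k with rfl | hk0
        · rw [if_pos (by omega), if_neg (by omega)]
          have := pow_le_pow_left₀ (norm_nonneg _) hF0 2
          have h5 : (0 : ℝ) ≤ ‖U 1‖ ^ 2 := by positivity
          simp only [Nat.cast_zero, zero_add]
          linarith
        · obtain ⟨m, rfl⟩ : ∃ m, k = m + 1 := ⟨k - 1, by omega⟩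
          by_cases hm : m + 1 < 2 * q
          · rw [if_pos hm, if_pos (by omega)]
            have h6 := pow_le_pow_left₀ (norm_nonneg _) (hFmid m hm) 2
            have h7 : (‖U (m + 2)‖ + ‖U m‖) ^ 2 ≤ 2 * (‖U (m + 2)‖ ^ 2 + ‖U m‖ ^ 2) := by
              nlinarith [sq_nonneg (‖U (m + 2)‖ - ‖U m‖)]
            exact h6.trans h7
          · have hm2 : m + 1 = 2 * q := by omega
            rw [if_neg hm, if_pos (by omega)]
            have h6 := pow_le_pow_left₀ (norm_nonneg _) hF2q 2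
            rw [← hm2] at h6
            have h5 : (0 : ℝ) ≤ ‖U (m + 1 - 1)‖ ^ 2 := by positivity
            linarith
      refine (Finset.sum_le_sum hle).trans ?_
      rw [← Finset.mul_sum, Finset.sum_add_distrib]
      have b1 : ∑ k ∈ Finset.range (2 * q + 1), (if k < 2 * q then ‖U (k + 1)‖ ^ 2 else 0) = 2 * S := by
        rw [Finset.sum_range_succ, if_neg (lt_irrefl _), add_zero, ← hS3]
        apply Finset.sum_congr rfl
        intro k hk
        rw [if_pos (Finset.mem_range.mp hk)]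
      have b2 : ∑ k ∈ Finset.range (2 * q + 1), (if 1 ≤ k then ‖U (k - 1)‖ ^ 2 else 0) = 2 * S := by
        rw [Finset.sum_range_succ', if_neg (by omega), add_zero, ← hS2]
        apply Finset.sum_congr rfl
        intro k hk
        rw [if_pos (by omega), Nat.add_sub_cancel]
      rw [b1, b2]
      linarith
    · intro n hn
      have : F n = 0 := by
        apply hFout
        by_contra hc
        apply hn
        rw [Finset.mem_map]
        refine ⟨n.toNat, ?_, ?_⟩
        · rw [Finset.mem_range]; omega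
        · show ((n.toNat : ℕ) : ℤ) = n
          omega
      show ‖F n‖ ^ 2 = 0
      rw [this]; simp
  -- lower bound
  have hlow : (q : ℝ) ^ 2 / 2 * S ≤ ‖u‖ ^ 2 := by
    set e : ℕ ↪ ℤ := ⟨fun k => (k : ℤ), fun a b h => by simpa using h⟩ with he
    have h8 := sum_le_hasSum ((Finset.range (2 * q)).map e) (fun i _ => by positivity)
      (L2_hasSum_sq u)
    rw [Finset.sum_map] at h8
    refine le_trans ?_ h8
    have h9 : ∀ k : ℕ, ‖u (e k)‖ ^ 2 = (tent q (k : ℤ)) ^ 2 * ‖U k‖ ^ 2 := by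
      intro k
      show ‖u (k : ℤ)‖ ^ 2 = _
      rw [hu]
      simp only [hψ]
      rw [norm_mul, Complex.norm_real, Real.norm_eq_abs, mul_pow, sq_abs, Int.toNat_natCast]
    rw [Finset.sum_congr rfl (fun k _ => h9 k), two_mul, Finset.sum_range_add,
      ← Finset.sum_add_distrib, hS, Finset.mul_sum]
    apply Finset.sum_le_sum
    intro k hk
    have hk' := (Finset.mem_range.mp hk).le
    rw [tent_left q k hk', tent_right q k hk', hper k hk', ← add_mul]
    apply mul_le_mul_of_nonneg_right _ (by positivity)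
    nlinarith [sq_nonneg ((q : ℝ) - 2 * k)]
  have hu2 : 0 < ‖u‖ ^ 2 := by
    have : 0 < (q : ℝ) ^ 2 / 2 * S := by positivity
    linarith
  refine ⟨u, ?_, ?_⟩
  · intro h
    rw [h, norm_zero] at hu2
    norm_num at hu2
  · have h10 : ‖T u - (E : ℂ) • u‖ ^ 2 ≤ (4 / q * ‖u‖) ^ 2 := by
      have e1 : (4 / (q : ℝ) * ‖u‖) ^ 2 = 16 / (q : ℝ) ^ 2 * ‖u‖ ^ 2 := by
        field_simp; ring
      rw [e1]
      have h11 : 16 / (q : ℝ) ^ 2 * ((q : ℝ) ^ 2 / 2 * S) ≤ 16 / (q : ℝ) ^ 2 * ‖u‖ ^ 2 :=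
        mul_le_mul_of_nonneg_left hlow (by positivity)
      have h12 : 16 / (q : ℝ) ^ 2 * ((q : ℝ) ^ 2 / 2 * S) = 8 * S := by
        field_simp; ring
      linarith
    exact (pow_le_pow_iff_left₀ (norm_nonneg _) (by positivity) two_ne_zero).mp h10

theorem mem_spectrum (lam : ℝ) (α : ℝ) (h0 : 0 < α) (h1 : α < 1)
    (hα : Irrational α) (T : L2 →L[ℂ] L2)
    (hT : ∀ (u : L2) (n : ℤ), (T u) n = u (n + 1) + u (n - 1) + ((lam * (sv α n : ℝ) : ℝ) : ℂ) * u n)
    (E : ℝ) (hE : E ∈ Sig lam (dig α)) : (E : ℂ) ∈ spectrum ℂ T := by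
  have ha := one_le_dig h0 h1 hα
  apply mem_spectrum_of_approx
  intro δ hδ
  obtain ⟨K, hK⟩ := exists_nat_gt (4 / δ)
  obtain ⟨n, hn, hxn⟩ := exists_small_trace lam (dig α) E hE (K + 5)
  obtain ⟨N, rfl⟩ : ∃ N, n = N + 1 := ⟨n - 1, by omega⟩
  set q := Q (dig α) (N + 2) with hq
  have hqK : N + 1 ≤ q := (Q_ge ha (N + 1)).1
  have hq1 : q + 1 ≤ Q (dig α) (N + 3) := by
    have e : Q (dig α) (N + 3) = dig α (N + 1) * Q (dig α) (N + 2) + Q (dig α) (N + 1) := rfl
    have h2 : Q (dig α) (N + 2) ≤ dig α (N + 1) * Q (dig α) (N + 2) :=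
      Nat.le_mul_of_pos_left _ (ha _)
    have h3 := Q_pos ha N
    omega
  have hp := prod_formula h0 h1 hα (lam : ℂ) (E : ℂ) N
  have htr := trace_MM_complex lam (dig α) E (N + 1)
  obtain ⟨μ, hμ, z0, hz0, hz⟩ := exists_unimodular _ (det_MM (lam : ℂ) (E : ℂ) (dig α) (N + 2)) _ htr hxn
  rw [← hp] at hz
  set z : ℕ → (Fin 2 → ℂ) := fun k => W (gS (lam : ℂ) (E : ℂ) α) 0 k *ᵥ z0 with hzdef
  set U : ℕ → ℂ := fun k => z k 1 with hU
  have hz1 : ∀ k, z (k + 1) = gS (lam : ℂ) (E : ℂ) α k *ᵥ z k := by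
    intro k
    simp only [hzdef]
    rw [W, ← Matrix.mulVec_mulVec, zero_add]
  have hz10 : ∀ k, z (k + 1) 1 = z k 0 := by
    intro k
    rw [hz1, gS, Tm]
    simp [Matrix.mulVec, dotProduct, Fin.sum_univ_two]
  have hz00 : ∀ k, z (k + 1) 0 = ((E : ℂ) - lam * ((sv α ((k : ℤ) + 1) : ℤ) : ℂ)) * z k 0 - z k 1 := by
    intro k
    rw [hz1, gS, Tm]
    simp [Matrix.mulVec, dotProduct, Fin.sum_univ_two]
    ring
  have hzper : ∀ k, k < q → z (q + k) = μ • z k := by
    intro k hk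
    simp only [hzdef]
    rw [W_add, zero_add, ← Matrix.mulVec_mulVec, hz, Matrix.mulVec_smul]
    congr 2
    apply W_congr
    intro i hi
    have := gS_add_Q h0 h1 hα (lam : ℂ) (E : ℂ) (N + 2) i (by
      show i < Q (dig α) (N + 3) - 2
      omega)
    rw [zero_add, add_comm q i]
    exact this
  obtain ⟨u, hu0, hu⟩ := approx_vector T (fun n => lam * (sv α n : ℝ)) hT E q (by omega) U
    (by
      intro k
      have e1 : U (k + 2) = z (k + 1) 0 := hz10 (k + 1)
      have e2 : U (k + 1) = z k 0 := hz10 k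
      rw [e1, e2, hz00 k]
      simp only [hU]
      push_cast
      ring)
    (by
      intro k hk
      rcases Nat.eq_zero_or_pos k with rfl | hk0
      · have := hzper 0 (by omega)
        simp only [hU]
        rw [this, Pi.smul_apply, norm_smul, hμ, one_mul]
      · obtain ⟨m, rfl⟩ : ∃ m, k = m + 1 := ⟨k - 1, by omega⟩
        have := hzper m (by omega)
        have e1 : U (q + (m + 1)) = z (q + m) 0 := hz10 (q + m)
        have e2 : U (m + 1) = z m 0 := hz10 m
        rw [e1, e2, this, Pi.smul_apply, norm_smul, hμ, one_mul])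
    (by
      by_contra hc
      push Not at hc
      apply hz0
      have e0 : z 0 = z0 := Matrix.one_mulVec z0
      funext i
      fin_cases i
      · have e2 : U 1 = z 0 0 := hz10 0
        rw [e0] at e2
        show z0 0 = 0
        rw [← e2]
        exact hc.2
      · have := hc.1
        simp only [hU] at this
        rw [e0] at this
        exact this)
  refine ⟨u, hu0, hu.trans ?_⟩
  apply mul_le_mul_of_nonneg_right _ (norm_nonneg _)
  have hqpos : (0 : ℝ) < q := by exact_mod_cast (by omega : 0 < q)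
  rw [div_le_iff₀ hqpos]
  rw [div_lt_iff₀ hδ] at hK
  have : (K : ℝ) ≤ q := by exact_mod_cast (by omega : K ≤ q)
  nlinarith

end Pool.Agent.Sturm82.Spec
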