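import Pool.Agent.Sturm82.Slopes

set_option autoImplicit false

namespace Pool.Agent.Sturm82

open Complex Topology

/-- derivative of a continuous logarithm -/
lemma hasDerivAt_log {𝕜 : Type*} [NontriviallyNormedField 𝕜] [NormedAlgebra 𝕜 ℂ] {f g : 𝕜 → ℂ}
    {x : 𝕜} {g' : ℂ} (hf : ContinuousAt f x) (hfg : ∀ᶠ t in 𝓝 x, exp (f t) = g t)
    (hg : HasDerivAt g g' x) : HasDerivAt f (g' / g x) x := by
  have hx : exp (f x) = g x := hfg.self_of_nhds
  have hst : HasStrictDerivAt exp (exp (f x)) (f x) := Complex.hasStrictDerivAt_exp _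
  have hne : exp (f x) ≠ 0 := exp_ne_zero _
  obtain ⟨L, hL1, hL2⟩ : ∃ L : ℂ → ℂ, (∀ᶠ y in 𝓝 (f x), L (exp y) = y) ∧
      HasDerivAt L (exp (f x))⁻¹ (exp (f x)) :=
    ⟨_, hst.eventually_left_inverse hne, (hst.to_localInverse hne).hasDerivAt⟩
  have h3 : ∀ᶠ t in 𝓝 x, L (exp (f t)) = f t := hf.eventually hL1
  have h4 : ∀ᶠ t in 𝓝 x, f t = (L ∘ g) t := by
    filter_upwards [h3, hfg] with t ht ht2
    rw [Function.comp, ← ht2, ht]
  rw [hx] at hL2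
  have h6 := hL2.scomp x hg
  have h7 := h6.congr_of_eventuallyEq h4
  refine h7.congr_deriv ?_
  rw [smul_eq_mul]
  rfl

lemma simplyConnected_of_convex {E : Type*} [NormedAddCommGroup E] [NormedSpace ℝ E] {s : Set E}
    (hs : Convex ℝ s) (hne : s.Nonempty) : IsSimplyConnected s := by
  have := hs.contractibleSpace hne
  unfold IsSimplyConnected
  infer_instance

/-- holomorphic logarithm on a disc -/
lemma exists_log_ball {c : ℂ} {r : ℝ} (hr : 0 < r) {g : ℂ → ℂ}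
    (hg : DifferentiableOn ℂ g (Metric.ball c r)) (hne : ∀ z ∈ Metric.ball c r, g z ≠ 0) :
    ∃ f : ℂ → ℂ, (∀ z ∈ Metric.ball c r, exp (f z) = g z) ∧
      ∀ z ∈ Metric.ball c r, HasDerivAt f (deriv g z / g z) z := by
  obtain ⟨f, hf1, hf2⟩ := Complex.exists_continuousOn_eqOn_exp_comp
    (simplyConnected_of_convex (convex_ball c r) ⟨c, Metric.mem_ball_self hr⟩) Metric.isOpen_ball
    hg.continuousOn (by rintro ⟨z, hz, hz0⟩; exact hne z hz hz0)
  refine ⟨f, fun z hz => hf2 hz, fun z hz => ?_⟩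
  have hnh : Metric.ball c r ∈ 𝓝 z := Metric.isOpen_ball.mem_nhds hz
  refine hasDerivAt_log (hf1.continuousAt hnh) ?_ ((hg z hz).differentiableAt hnh).hasDerivAt
  filter_upwards [hnh] with t ht
  exact hf2 ht

/-- continuous logarithm along an open interval -/
lemma exists_log_Ioo {x y : ℝ} (hxy : x < y) {g : ℝ → ℂ}
    (hg : ∀ t ∈ Set.Ioo x y, DifferentiableAt ℝ g t) (hne : ∀ t ∈ Set.Ioo x y, g t ≠ 0) :
    ∃ f : ℝ → ℂ, (∀ t ∈ Set.Ioo x y, exp (f t) = g t) ∧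
      ∀ t ∈ Set.Ioo x y, HasDerivAt f (deriv g t / g t) t := by
  obtain ⟨f, hf1, hf2⟩ := Complex.exists_continuousOn_eqOn_exp_comp
    (simplyConnected_of_convex (convex_Ioo x y) (Set.nonempty_Ioo.mpr hxy)) isOpen_Ioo
    (fun t ht => (hg t ht).continuousAt.continuousWithinAt)
    (by rintro ⟨z, hz, hz0⟩; exact hne z hz hz0)
  refine ⟨f, fun z hz => hf2 hz, fun z hz => ?_⟩
  have hnh : Set.Ioo x y ∈ 𝓝 z := isOpen_Ioo.mem_nhds hz
  refine hasDerivAt_log (hf1.continuousAt hnh) ?_ (hg z hz).hasDerivAt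
  filter_upwards [hnh] with t ht
  exact hf2 ht

/-- a nonvanishing path with prescribed modulus has a differentiable angle -/
lemma exists_angle_Ioo {x y : ℝ} (hxy : x < y) {g : ℝ → ℂ} {C : ℝ → ℝ}
    (hg : ∀ t ∈ Set.Ioo x y, DifferentiableAt ℝ g t)
    (hC : ∀ t ∈ Set.Ioo x y, 0 < C t ∧ normSq (g t) = C t ^ 2) :
    ∃ ψ : ℝ → ℝ, ∀ t ∈ Set.Ioo x y, g t = C t * exp (ψ t * I) ∧
      HasDerivAt ψ (deriv g t / g t).im t := by
  have hne : ∀ t ∈ Set.Ioo x y, g t ≠ 0 := by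
    intro t ht h0
    have := (hC t ht).2
    rw [h0, map_zero] at this
    have h1 := (hC t ht).1
    nlinarith
  obtain ⟨f, hf1, hf2⟩ := exists_log_Ioo hxy hg hne
  refine ⟨fun t => (f t).im, fun t ht => ⟨?_, ?_⟩⟩
  · have h1 : ‖g t‖ = C t := by
      have := (hC t ht).2
      rw [normSq_eq_norm_sq] at this
      exact (sq_eq_sq₀ (norm_nonneg _) (hC t ht).1.le).mp this
    have h2 : Real.exp (f t).re = C t := by
      rw [← h1, ← hf1 t ht, Complex.norm_exp]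
    rw [← h2, ← hf1 t ht]
    conv_lhs => rw [← re_add_im (f t)]
    rw [exp_add, ofReal_exp]
  · have h3 := (Complex.imCLM.hasFDerivAt (x := f t)).comp_hasDerivAt t (hf2 t ht)
    exact h3

/-- the real angle of a leaf -/
lemma exists_angle_leaf {lam : ℝ} {c0 r : ℝ} (hr : 0 < r) {σ : ℂ → ℂ}
    (hσ : DifferentiableOn ℂ σ (Metric.ball (c0 : ℂ) r))
    (hσr : ∀ θ : ℝ, |θ - c0| < r → normSq (σ θ) = 1 + Sf lam θ ^ 2) :
    ∃ ψ : ℝ → ℝ, ∀ θ : ℝ, |θ - c0| < r → σ θ = Cf lam θ * exp (ψ θ * I) ∧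
      HasDerivAt ψ (deriv σ θ / σ θ).im θ := by
  have hIoo : ∀ θ : ℝ, |θ - c0| < r ↔ θ ∈ Set.Ioo (c0 - r) (c0 + r) := by
    intro θ
    rw [abs_lt, Set.mem_Ioo]
    constructor <;> rintro ⟨h1, h2⟩ <;> constructor <;> linarith
  have hder : ∀ θ ∈ Set.Ioo (c0 - r) (c0 + r),
      HasDerivAt (fun t : ℝ => σ t) (deriv σ θ) θ := by
    intro θ hθ
    have hb := ofReal_mem_ball ((hIoo θ).mpr hθ)
    have h1 : HasDerivAt σ (deriv σ θ) (θ : ℂ) :=
      ((hσ θ hb).differentiableAt (Metric.isOpen_ball.mem_nhds hb)).hasDerivAt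
    exact h1.comp_ofReal
  obtain ⟨ψ, hψ⟩ := exists_angle_Ioo (x := c0 - r) (y := c0 + r) (by linarith)
    (g := fun t : ℝ => σ t) (C := fun t => Cf lam t)
    (fun t ht => (hder t ht).differentiableAt)
    (fun t ht => ⟨Cf_pos lam t, by rw [Cf_sq]; exact hσr t ((hIoo t).mpr ht)⟩)
  refine ⟨ψ, fun θ hθ => ?_⟩
  obtain ⟨h1, h2⟩ := hψ θ ((hIoo θ).mp hθ)
  rw [(hder θ ((hIoo θ).mp hθ)).deriv] at h2
  exact ⟨h1, h2⟩

/-- on the reals the triple of a leaf is the real chart -/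
lemma Wc_real {lam θ ψ : ℝ} (hs : Real.sin θ ≠ 0) :
    Wc lam θ (Cf lam θ * exp (ψ * I)) = tmap ofRealHom (flip (tau lam θ ψ)) := by
  have hC : (Cf lam θ : ℂ) ≠ 0 := by exact_mod_cast (Cf_pos lam θ).ne'
  have h1 : (1 : ℂ) + (lam : ℂ) ^ 2 / (4 * sin θ ^ 2) = (Cf lam θ : ℂ) ^ 2 := by
    have h2 : 1 + lam ^ 2 / (4 * Real.sin θ ^ 2) = Cf lam θ ^ 2 := by
      rw [Cf_sq, Sf]; field_simp; ring
    rw [← ofReal_sin]
    exact_mod_cast h2
  have h3 : sgt lam θ (Cf lam θ * exp (ψ * I)) = Cf lam θ * exp (-(ψ * I)) := by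
    unfold sgt
    rw [h1, exp_neg]
    have := exp_ne_zero (ψ * I)
    field_simp
  rw [flip_tau]
  simp only [Wc, h3, tmap, ofRealHom_eq_coe, Prod.mk.injEq]
  push_cast
  refine ⟨?_, rfl, ?_⟩
  · rw [← mul_add, exp_add_exp]; ring
  · rw [mul_assoc, mul_assoc, ← exp_add, ← exp_add, ← mul_add, mul_comm 2, mul_assoc,
      ← exp_add_exp]
    ring_nf

end Pool.Agent.Sturm82
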