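import Pool.Agent.Sturm82.Cone

set_option autoImplicit false

namespace Pool.Agent.Sturm82

open Matrix Real

/-- `S(θ) = λ / (2 sin θ)` -/
noncomputable def Sf (lam θ : ℝ) : ℝ := lam / (2 * sin θ)

/-- `C(θ) = √(1 + S(θ)²)` -/
noncomputable def Cf (lam θ : ℝ) : ℝ := √(1 + Sf lam θ ^ 2)

/-- slope bound `σ₀(θ) = 2 λ |cos θ| / (4 sin² θ + λ²)` -/
noncomputable def sig0 (lam θ : ℝ) : ℝ := 2 * lam * |cos θ| / (4 * sin θ ^ 2 + lam ^ 2)

/-- the real chart: traces of `(R_θ, C R_ψ + S σ₃)` -/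
noncomputable def tau (lam θ ψ : ℝ) : ℝ × ℝ × ℝ :=
  (2 * cos θ, 2 * Cf lam θ * cos ψ, 2 * Cf lam θ * cos (ψ + θ))

lemma Cf_sq (lam θ : ℝ) : Cf lam θ ^ 2 = 1 + Sf lam θ ^ 2 := by
  rw [Cf, sq_sqrt (by positivity)]

lemma Cf_pos (lam θ : ℝ) : 0 < Cf lam θ := by
  unfold Cf; positivity

lemma one_le_Cf (lam θ : ℝ) : 1 ≤ Cf lam θ := by
  unfold Cf
  rw [one_le_sqrt]
  nlinarith [sq_nonneg (Sf lam θ)]

lemma abs_Sf_le_Cf (lam θ : ℝ) : |Sf lam θ| ≤ Cf lam θ := by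
  apply abs_le_of_sq_le_sq _ (Cf_pos lam θ).le
  rw [Cf_sq]; linarith

lemma sig0_nonneg {lam : ℝ} (hlam : 0 < lam) (θ : ℝ) : 0 ≤ sig0 lam θ := by
  unfold sig0; positivity

lemma sig0_le {lam : ℝ} (hlam : 0 < lam) (θ : ℝ) : sig0 lam θ ≤ 2 / lam := by
  unfold sig0
  rw [div_le_div_iff₀ (by positivity) hlam]
  have := abs_cos_le_one θ
  have h2 : 2 * lam * |cos θ| * lam ≤ 2 * lam * 1 * lam := by gcongr
  nlinarith [sq_nonneg (sin θ)]

lemma sig0_neg (lam θ : ℝ) : sig0 lam (-θ) = sig0 lam θ := by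
  simp [sig0]

lemma Cf_neg (lam θ : ℝ) : Cf lam (-θ) = Cf lam θ := by
  simp [Cf, Sf, div_neg]

/-- the rotation matrix -/
noncomputable def Rm (θ : ℝ) : Matrix (Fin 2) (Fin 2) ℝ := !![cos θ, -sin θ; sin θ, cos θ]

/-- the hyperbolic letter `C R_ψ + S σ₃` -/
noncomputable def Bm (C S ψ : ℝ) : Matrix (Fin 2) (Fin 2) ℝ :=
  !![C * cos ψ + S, -(C * sin ψ); C * sin ψ, C * cos ψ - S]

lemma det_Rm (θ : ℝ) : (Rm θ).det = 1 := by
  simp only [Rm, Matrix.det_fin_two_of]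
  nlinarith [sin_sq_add_cos_sq θ]

lemma det_Bm {C S : ℝ} (h : C ^ 2 = 1 + S ^ 2) (ψ : ℝ) : (Bm C S ψ).det = 1 := by
  simp only [Bm, Matrix.det_fin_two_of]
  linear_combination (sin ψ ^ 2 + cos ψ ^ 2) * h + (1 + S ^ 2) * (sin_sq_add_cos_sq ψ)

lemma MD.of {𝕜 : Type*} [NontriviallyNormedField 𝕜] {a b c d : 𝕜 → 𝕜} {a' b' c' d' t : 𝕜}
    (ha : HasDerivAt a a' t) (hb : HasDerivAt b b' t) (hc : HasDerivAt c c' t)
    (hd : HasDerivAt d d' t) : MD (fun s => !![a s, b s; c s, d s]) !![a', b'; c', d'] t := by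
  intro i j
  fin_cases i <;> fin_cases j
  · exact ha
  · exact hb
  · exact hc
  · exact hd

lemma MD.congr {𝕜 : Type*} [NontriviallyNormedField 𝕜] {P : 𝕜 → Matrix (Fin 2) (Fin 2) 𝕜}
    {P' Q' : Matrix (Fin 2) (Fin 2) 𝕜} {t : 𝕜} (h : MD P P' t) (e : P' = Q') : MD P Q' t := e ▸ h

lemma wrd_Rm {θ : ℝ → ℝ} {θ' t : ℝ} (hθ : HasDerivAt θ θ' t) (h0 : 0 ≤ θ') :
    Wrd (fun s => Rm (θ s)) t 0 := by
  refine ⟨det_Rm _, !![0, -θ'; θ', 0], ?_, ?_⟩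
  · refine (MD.of hθ.cos hθ.sin.fun_neg hθ.sin hθ.cos).congr ?_
    ext i j
    fin_cases i <;> fin_cases j <;>
      simp [Rm, Matrix.mul_apply, Fin.sum_univ_two, mul_comm]
  · constructor <;> simp [h0] <;> positivity

lemma hasDerivAt_Sf {lam : ℝ} {θ : ℝ → ℝ} {θ' t : ℝ} (hθ : HasDerivAt θ θ' t)
    (hs : sin (θ t) ≠ 0) :
    HasDerivAt (fun s => Sf lam (θ s)) (-(lam * cos (θ t) / (2 * sin (θ t) ^ 2)) * θ') t := by
  have h1 : HasDerivAt (fun s => 2 * sin (θ s)) (2 * (cos (θ t) * θ')) t := hθ.sin.const_mul 2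
  have h2 := (hasDerivAt_const t lam).fun_div h1 (by simpa using hs)
  refine h2.congr_deriv ?_
  field_simp
  ring

lemma hasDerivAt_Cf {lam : ℝ} {θ : ℝ → ℝ} {S' t : ℝ}
    (hS : HasDerivAt (fun s => Sf lam (θ s)) S' t) :
    HasDerivAt (fun s => Cf lam (θ s)) (Sf lam (θ t) * S' / Cf lam (θ t)) t := by
  have h1 : HasDerivAt (fun s => 1 + Sf lam (θ s) ^ 2) (2 * Sf lam (θ t) * S') t := by
    have := (hS.fun_pow 2).const_add 1
    refine this.congr_deriv ?_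
    simp
  have h2 := h1.sqrt (by positivity)
  refine h2.congr_deriv ?_
  unfold Cf
  field_simp

lemma wrd_Bm {lam : ℝ} {θ ψ : ℝ → ℝ} {θ' ψ' t : ℝ} (hθ : HasDerivAt θ θ' t)
    (hψ : HasDerivAt ψ ψ' t) (hs : sin (θ t) ≠ 0) (hlam : 0 < lam) (h0 : 0 ≤ θ')
    (h1 : sig0 lam (θ t) * θ' ≤ ψ') :
    Wrd (fun s => Bm (Cf lam (θ s)) (Sf lam (θ s)) (ψ s)) t
      (Cf lam (θ t) * (ψ' - sig0 lam (θ t) * θ')) := by
  set C := Cf lam (θ t) with hC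
  set S := Sf lam (θ t) with hSdef
  have hC0 : 0 < C := Cf_pos _ _
  have hCS : C ^ 2 = 1 + S ^ 2 := Cf_sq _ _
  have hS := hasDerivAt_Sf (lam := lam) hθ hs
  set S' := -(lam * cos (θ t) / (2 * sin (θ t) ^ 2)) * θ' with hS'
  have hCd := hasDerivAt_Cf hS
  have hs2 : 0 < sin (θ t) ^ 2 := by positivity
  -- (S')^2 = C^4 σ0^2 θ'^2
  have hsig : S' ^ 2 = C ^ 4 * (sig0 lam (θ t) * θ') ^ 2 := by
    have e1 : C ^ 4 = (1 + S ^ 2) ^ 2 := by rw [← hCS]; ring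
    rw [e1, hS', hSdef, Sf, sig0]
    have e2 : |cos (θ t)| ^ 2 = cos (θ t) ^ 2 := sq_abs _
    have e3 : (2 * lam * |cos (θ t)| / (4 * sin (θ t) ^ 2 + lam ^ 2) * θ') ^ 2 =
      4 * lam ^ 2 * cos (θ t) ^ 2 / (4 * sin (θ t) ^ 2 + lam ^ 2) ^ 2 * θ' ^ 2 := by
      rw [mul_pow, div_pow, mul_pow, mul_pow, e2]; ring
    rw [e3]
    have h4 : 4 * sin (θ t) ^ 2 + lam ^ 2 ≠ 0 := by positivity
    field_simp
    ring
  set τ := S' / C with hτ
  have hS'τ : S' = τ * C := by rw [hτ]; field_simp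
  have hpos : 0 ≤ ψ' - sig0 lam (θ t) * θ' := sub_nonneg.mpr h1
  have hsg : 0 ≤ sig0 lam (θ t) * θ' := mul_nonneg (sig0_nonneg hlam _) h0
  have hψ0 : 0 ≤ ψ' := hsg.trans h1
  have hsc := sin_sq_add_cos_sq (ψ t)
  set c := cos (ψ t) with hc
  set s := sin (ψ t) with hs'
  -- bound on the off-diagonal perturbation
  have hoff : (τ * s - C * S * ψ' * c) ^ 2 + (τ * c + C * S * ψ' * s) ^ 2 =
      τ ^ 2 + (C * S * ψ') ^ 2 := by
    linear_combination (τ ^ 2 + (C * S * ψ') ^ 2) * hsc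
  have hS'C : τ ^ 2 = C ^ 2 * (sig0 lam (θ t) * θ') ^ 2 := by
    rw [hτ, div_pow, hsig]; field_simp
  have hmain : (C * (ψ' - sig0 lam (θ t) * θ')) ^ 2 + (τ ^ 2 + (C * S * ψ') ^ 2) ≤
      (C ^ 2 * ψ') ^ 2 := by
    rw [hS'C]
    have e5 : (C ^ 2 * ψ') ^ 2 = C ^ 2 * ψ' ^ 2 + (C * S * ψ') ^ 2 := by
      linear_combination (C ^ 2 * ψ' ^ 2) * hCS
    rw [e5]
    have : (ψ' - sig0 lam (θ t) * θ') ^ 2 + (sig0 lam (θ t) * θ') ^ 2 ≤ ψ' ^ 2 := by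
      nlinarith
    have hC2 : 0 ≤ C ^ 2 := by positivity
    nlinarith [mul_le_mul_of_nonneg_left this hC2]
  have hD : 0 ≤ C ^ 2 * ψ' := by positivity
  have habs : |τ * s - C * S * ψ' * c| ≤ C ^ 2 * ψ' := by
    apply abs_le_of_sq_le_sq _ hD
    nlinarith [sq_nonneg (τ * c + C * S * ψ' * s), sq_nonneg (C * (ψ' - sig0 lam (θ t) * θ'))]
  have habs' := abs_le.mp habs
  refine ⟨det_Bm hCS _, !![τ * c + C * S * ψ' * s, -(C ^ 2 * ψ') + (τ * s - C * S * ψ' * c);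
       C ^ 2 * ψ' + (τ * s - C * S * ψ' * c), -(τ * c + C * S * ψ' * s)], ?_, ?_⟩
  · have hc1 := hCd.fun_mul hψ.cos
    have hsn := hCd.fun_mul hψ.sin
    have hC1 : C ≠ 0 := hC0.ne'
    refine (MD.of (hc1.fun_add hS) hsn.fun_neg hsn (hc1.fun_sub hS)).congr ?_
    have e6 : S * S' / C = S * τ := by rw [hτ]; ring
    rw [← hC, ← hSdef, e6, ← hc, ← hs', hS'τ]
    ext i j
    fin_cases i <;> fin_cases j <;>
      simp only [Bm, Matrix.mul_apply, Fin.sum_univ_two, Matrix.of_apply, Matrix.cons_val', 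
          Matrix.cons_val_zero, Matrix.cons_val_one, Fin.zero_eta, Fin.isValue, Fin.mk_one,
          Matrix.cons_val_fin_one, ← hC, ← hSdef, ← hc, ← hs']
    · linear_combination -(τ * C) * hsc + (C * ψ' * s) * hCS
    · linear_combination (C ^ 2 * S * ψ') * hsc + (C * ψ' * c) * hCS
    · linear_combination (C ^ 2 * S * ψ') * hsc - (C * ψ' * c) * hCS
    · linear_combination (τ * C) * hsc + (C * ψ' * s) * hCS
  · constructor
    · simp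
    · positivity
    · simp only [Matrix.of_apply, Matrix.cons_val', Matrix.cons_val_zero, Matrix.cons_val_one,
        Matrix.cons_val_fin_one]
      linarith
    · simp only [Matrix.of_apply, Matrix.cons_val', Matrix.cons_val_zero, Matrix.cons_val_one,
        Matrix.cons_val_fin_one]
      linarith
    · simp only [Matrix.of_apply, Matrix.cons_val', Matrix.cons_val_zero, Matrix.cons_val_one,
        Matrix.cons_val_fin_one]
      nlinarith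


lemma tau_eq {lam θ ψ : ℝ} :
    tau lam θ ψ = ((Rm θ).trace, (Bm (Cf lam θ) (Sf lam θ) ψ).trace,
      (Rm θ * Bm (Cf lam θ) (Sf lam θ) ψ).trace) := by
  simp only [tau, Rm, Bm, Matrix.trace_fin_two, Matrix.mul_apply, Fin.sum_univ_two,
    Matrix.of_apply, Matrix.cons_val', Matrix.cons_val_zero, Matrix.cons_val_one,
    Matrix.cons_val_fin_one, cos_add, Prod.mk.injEq]
  refine ⟨by ring, by ring, by ring⟩

lemma surf_tau {lam θ : ℝ} (hs : sin θ ≠ 0) (ψ : ℝ) : surf (tau lam θ ψ) = 4 + lam ^ 2 := by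
  have h1 := Cf_sq lam θ
  have h2 : Sf lam θ ^ 2 * (4 * sin θ ^ 2) = lam ^ 2 := by
    unfold Sf; field_simp; ring
  have h3 := sin_sq_add_cos_sq θ
  have h4 := sin_sq_add_cos_sq ψ
  simp only [surf, tau, cos_add]
  have e : (2 * cos θ) ^ 2 + (2 * Cf lam θ * cos ψ) ^ 2 +
      (2 * Cf lam θ * (cos ψ * cos θ - sin ψ * sin θ)) ^ 2 -
      2 * cos θ * (2 * Cf lam θ * cos ψ) * (2 * Cf lam θ * (cos ψ * cos θ - sin ψ * sin θ)) =
      4 * cos θ ^ 2 + Cf lam θ ^ 2 * (4 * cos ψ ^ 2 * (1 - cos θ ^ 2) 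
        + 4 * sin ψ ^ 2 * sin θ ^ 2) := by ring
  rw [e, h1]
  have h5 : 1 - cos θ ^ 2 = sin θ ^ 2 := by linarith
  rw [h5]
  linear_combination (4 * sin θ ^ 2 * (1 + Sf lam θ ^ 2)) * h4 + 4 * h3 + h2

/-- **Lemma D.** Transversality of all traces in the positive cone of directions. -/
theorem lemmaD {lam : ℝ} (hlam : 0 < lam) {θ ψ : ℝ → ℝ} {θ' ψ' t : ℝ}
    (hθ : HasDerivAt θ θ' t) (hψ : HasDerivAt ψ ψ' t) (hs : sin (θ t) ≠ 0) (h0 : 0 ≤ θ')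
    (h1 : sig0 lam (θ t) * θ' < ψ') {a : ℕ → ℕ} (ha : ∀ n, 1 ≤ a n) (k : ℕ) :
    ∃ F', HasDerivAt (fun s => (orb a (tau lam (θ s) (ψ s)) k).2.1) F' t ∧
      (|(orb a (tau lam (θ t) (ψ t)) k).2.1| < 2 →
        √(4 - (orb a (tau lam (θ t) (ψ t)) k).2.1 ^ 2) *
          (Cf lam (θ t) * (ψ' - sig0 lam (θ t) * θ')) ≤ |F'|) ∧
      (|(orb a (tau lam (θ t) (ψ t)) k).2.1| = 2 → F' ≠ 0) := by
  have hW := (Wrd.wd (wrd_Rm hθ h0) (wrd_Bm hθ hψ hs hlam h0 h1.le) ha k).2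
  have hor : ∀ s, (orb a (tau lam (θ s) (ψ s)) k) =
      ((wd (Rm (θ s)) (Bm (Cf lam (θ s)) (Sf lam (θ s)) (ψ s)) a k).trace,
      (wd (Rm (θ s)) (Bm (Cf lam (θ s)) (Sf lam (θ s)) (ψ s)) a (k + 1)).trace,
      (wd (Rm (θ s)) (Bm (Cf lam (θ s)) (Sf lam (θ s)) (ψ s)) a k *
        wd (Rm (θ s)) (Bm (Cf lam (θ s)) (Sf lam (θ s)) (ψ s)) a (k + 1)).trace) := by
    intro s
    rw [tau_eq]
    exact orb_wd (det_Rm _) (det_Bm (Cf_sq _ _) _) a k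
  obtain ⟨F', hF, hF1, hF2⟩ := hW.trace_deriv
  refine ⟨F', ?_, ?_, ?_⟩
  · simpa only [hor] using hF
  · simpa only [hor] using hF1
  · intro habs
    have hpos : 0 < Cf lam (θ t) * (ψ' - sig0 lam (θ t) * θ') :=
      mul_pos (Cf_pos _ _) (sub_pos.mpr h1)
    have hsf : surf (orb a (tau lam (θ t) (ψ t)) k) = 4 + lam ^ 2 := by
      rw [surf_orb, surf_tau hs]
    have habs2 := habs
    rw [hor] at habs2 hsf
    refine hF2 habs2 hpos ?_ ?_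
    · intro h
      have h' : wd (Rm (θ t)) (Bm (Cf lam (θ t)) (Sf lam (θ t)) (ψ t)) a (k + 1) = 1 := h
      rw [h'] at hsf
      simp only [surf, mul_one, Matrix.trace_one, Fintype.card_fin] at hsf
      push_cast at hsf
      nlinarith
    · intro h
      have h' : wd (Rm (θ t)) (Bm (Cf lam (θ t)) (Sf lam (θ t)) (ψ t)) a (k + 1) = -1 := h
      rw [h'] at hsf
      simp only [surf, mul_neg, mul_one, Matrix.trace_neg, Matrix.trace_one, 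
        Fintype.card_fin] at hsf
      push_cast at hsf
      nlinarith

end Pool.Agent.Sturm82
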