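import Pool.Agent.Sturm82.TraceMap

set_option autoImplicit false

namespace Pool.Agent.Sturm82

open Matrix

/-- entrywise derivative of a matrix function -/
def MD {𝕜 : Type*} [NontriviallyNormedField 𝕜] (P : 𝕜 → Matrix (Fin 2) (Fin 2) 𝕜)
    (P' : Matrix (Fin 2) (Fin 2) 𝕜) (t : 𝕜) : Prop :=
  ∀ i j, HasDerivAt (fun s => P s i j) (P' i j) t

section MD
variable {𝕜 : Type*} [NontriviallyNormedField 𝕜] {P Q : 𝕜 → Matrix (Fin 2) (Fin 2) 𝕜}
  {P' Q' : Matrix (Fin 2) (Fin 2) 𝕜} {t : 𝕜}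

lemma MD.mul (hP : MD P P' t) (hQ : MD Q Q' t) :
    MD (fun s => P s * Q s) (P' * Q t + P t * Q') t := by
  intro i j
  have h := ((hP i 0).mul (hQ 0 j)).add ((hP i 1).mul (hQ 1 j))
  have e1 : (fun s => (P s * Q s) i j) =
      (fun s => P s i 0 * Q s 0 j) + fun s => P s i 1 * Q s 1 j := by
    funext s
    simp [Matrix.mul_apply, Fin.sum_univ_two]
  rw [e1]
  refine h.congr_deriv ?_
  simp only [Matrix.add_apply, Matrix.mul_apply, Fin.sum_univ_two]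
  ring

lemma MD.trace (hP : MD P P' t) : HasDerivAt (fun s => (P s).trace) P'.trace t := by
  have h := (hP 0 0).add (hP 1 1)
  have e1 : (fun s => (P s).trace) = (fun s => P s 0 0) + fun s => P s 1 1 := by
    funext s
    simp [Matrix.trace_fin_two]
  rw [e1]
  refine h.congr_deriv ?_
  simp [Matrix.trace_fin_two]

lemma MD.one : MD (fun _ : 𝕜 => (1 : Matrix (Fin 2) (Fin 2) 𝕜)) 0 t := by
  intro i j
  exact hasDerivAt_const t _

end MD

/-- cone condition for a traceless matrix: the quadratic form `v × Y v` is positive semidefinite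
with determinant at least `d²` -/
structure Cone (Y : Matrix (Fin 2) (Fin 2) ℝ) (d : ℝ) : Prop where
  tr : Y 1 1 = - Y 0 0
  d0 : 0 ≤ d
  g1 : 0 ≤ Y 1 0
  g3 : Y 0 1 ≤ 0
  det : d ^ 2 + (Y 0 0) ^ 2 ≤ - (Y 1 0 * Y 0 1)

lemma mixed_ineq {g1 g2 g3 h1 h2 h3 d e : ℝ} (hg1 : 0 ≤ g1) (hg3 : 0 ≤ g3) (hh1 : 0 ≤ h1)
    (hh3 : 0 ≤ h3) (hd : 0 ≤ d) (he : 0 ≤ e) (hg : d ^ 2 + g2 ^ 2 ≤ g1 * g3)
    (hh : e ^ 2 + h2 ^ 2 ≤ h1 * h3) : 2 * (d * e) + 2 * (g2 * h2) ≤ g1 * h3 + g3 * h1 := by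
  have hA : 0 ≤ g1 * h3 + g3 * h1 := by positivity
  have h4 : (2 * (d * e + g2 * h2)) ^ 2 ≤ (g1 * h3 + g3 * h1) ^ 2 := by
    have h5 : (d * e + g2 * h2) ^ 2 ≤ (d ^ 2 + g2 ^ 2) * (e ^ 2 + h2 ^ 2) := by
      nlinarith [sq_nonneg (d * h2 - g2 * e)]
    have h6 : (d ^ 2 + g2 ^ 2) * (e ^ 2 + h2 ^ 2) ≤ (g1 * g3) * (h1 * h3) := by
      apply mul_le_mul hg hh (by positivity) (by positivity)
    nlinarith [sq_nonneg (g1 * h3 - g3 * h1)]
  have h7 := abs_le_of_sq_le_sq h4 hA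
  have := le_trans (le_abs_self _) h7
  linarith

lemma Cone.add {Y Z : Matrix (Fin 2) (Fin 2) ℝ} {d e : ℝ} (hY : Cone Y d) (hZ : Cone Z e) :
    Cone (Y + Z) (d + e) where
  tr := by simp [hY.tr, hZ.tr]; ring
  d0 := add_nonneg hY.d0 hZ.d0
  g1 := by simpa using add_nonneg hY.g1 hZ.g1
  g3 := by simpa using add_nonpos hY.g3 hZ.g3
  det := by
    have h := mixed_ineq (g1 := Y 1 0) (g2 := Y 0 0) (g3 := - Y 0 1) (h1 := Z 1 0) (h2 := Z 0 0)
      (h3 := - Z 0 1) hY.g1 (by linarith [hY.g3]) hZ.g1 (by linarith [hZ.g3]) hY.d0 hZ.d0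
      (by linarith [hY.det]) (by linarith [hZ.det])
    simp only [Matrix.add_apply]
    nlinarith [hY.det, hZ.det]

lemma psd_form {g1 g2 g3 : ℝ} (h1 : 0 ≤ g1) (h3 : 0 ≤ g3) (h : g2 ^ 2 ≤ g1 * g3) (x y : ℝ) :
    0 ≤ g1 * x ^ 2 + 2 * g2 * x * y + g3 * y ^ 2 := by
  rcases eq_or_lt_of_le h1 with h0 | h0
  · have : g2 = 0 := by
      have : g2 ^ 2 ≤ 0 := by rw [← h0] at h; simpa using h
      nlinarith [sq_nonneg g2]
    rw [← h0, this]
    have := mul_nonneg h3 (sq_nonneg y)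
    linarith
  · have h5 : 0 ≤ g1 * (g1 * x ^ 2 + 2 * g2 * x * y + g3 * y ^ 2) := by
      have : g1 * (g1 * x ^ 2 + 2 * g2 * x * y + g3 * y ^ 2) =
        (g1 * x + g2 * y) ^ 2 + (g1 * g3 - g2 ^ 2) * y ^ 2 := by ring
      rw [this]
      have := mul_nonneg (sub_nonneg.mpr h) (sq_nonneg y)
      positivity
    exact nonneg_of_mul_nonneg_right h5 h0

lemma Cone.conj {Y : Matrix (Fin 2) (Fin 2) ℝ} {d : ℝ} (hY : Cone Y d)
    {P : Matrix (Fin 2) (Fin 2) ℝ} (hP : P.det = 1) : Cone (P * Y * P.adjugate) d := by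
  have hd : P 0 0 * P 1 1 - P 0 1 * P 1 0 = 1 := by rw [← Matrix.det_fin_two]; exact hP
  have hf := psd_form (g1 := Y 1 0) (g2 := - Y 0 0) (g3 := - Y 0 1) hY.g1 (by linarith [hY.g3])
    (by have := hY.det; nlinarith [sq_nonneg d])
  have e00 : (P * Y * P.adjugate) 0 0 = (P 0 0 * Y 0 0 + P 0 1 * Y 1 0) * P 1 1
      - (P 0 0 * Y 0 1 - P 0 1 * Y 0 0) * P 1 0 := by
    simp [Matrix.mul_apply, Fin.sum_univ_two, Matrix.adjugate_fin_two, hY.tr]; ring
  have e01 : (P * Y * P.adjugate) 0 1 = -(P 0 0 * Y 0 0 + P 0 1 * Y 1 0) * P 0 1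
      + (P 0 0 * Y 0 1 - P 0 1 * Y 0 0) * P 0 0 := by
    simp [Matrix.mul_apply, Fin.sum_univ_two, Matrix.adjugate_fin_two, hY.tr]; ring
  have e10 : (P * Y * P.adjugate) 1 0 = (P 1 0 * Y 0 0 + P 1 1 * Y 1 0) * P 1 1
      - (P 1 0 * Y 0 1 - P 1 1 * Y 0 0) * P 1 0 := by
    simp [Matrix.mul_apply, Fin.sum_univ_two, Matrix.adjugate_fin_two, hY.tr]; ring
  have e11 : (P * Y * P.adjugate) 1 1 = -(P 1 0 * Y 0 0 + P 1 1 * Y 1 0) * P 0 1
      + (P 1 0 * Y 0 1 - P 1 1 * Y 0 0) * P 0 0 := by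
    simp [Matrix.mul_apply, Fin.sum_univ_two, Matrix.adjugate_fin_two, hY.tr]; ring
  refine ⟨?_, hY.d0, ?_, ?_, ?_⟩
  · rw [e00, e11]; ring
  · rw [e10]
    have := hf (P 1 1) (- P 1 0)
    nlinarith
  · rw [e01]
    have := hf (- P 0 1) (P 0 0)
    nlinarith
  · rw [e00, e01, e10]
    have key : -(((P 1 0 * Y 0 0 + P 1 1 * Y 1 0) * P 1 1 - (P 1 0 * Y 0 1 - P 1 1 * Y 0 0) * P 1 0)
        * (-(P 0 0 * Y 0 0 + P 0 1 * Y 1 0) * P 0 1 + (P 0 0 * Y 0 1 - P 0 1 * Y 0 0) * P 0 0))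
        - ((P 0 0 * Y 0 0 + P 0 1 * Y 1 0) * P 1 1 - (P 0 0 * Y 0 1 - P 0 1 * Y 0 0) * P 1 0) ^ 2
        = (P 0 0 * P 1 1 - P 0 1 * P 1 0) ^ 2 * (-(Y 1 0 * Y 0 1) - (Y 0 0) ^ 2) := by ring
    rw [hd] at key
    have := hY.det
    linarith

/-- a matrix function with determinant one whose logarithmic derivative is in the cone -/
structure Wrd (P : ℝ → Matrix (Fin 2) (Fin 2) ℝ) (t d : ℝ) : Prop where
  det1 : (P t).det = 1
  ex : ∃ Y, MD P (Y * P t) t ∧ Cone Y d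

lemma Cone.mono {Y : Matrix (Fin 2) (Fin 2) ℝ} {d e : ℝ} (hY : Cone Y d) (he : 0 ≤ e)
    (hed : e ≤ d) : Cone Y e :=
  ⟨hY.tr, he, hY.g1, hY.g3, by have := hY.det; nlinarith⟩

lemma Cone.zero : Cone 0 0 := by constructor <;> simp

lemma Wrd.mul {P Q : ℝ → Matrix (Fin 2) (Fin 2) ℝ} {t d e : ℝ} (hP : Wrd P t d)
    (hQ : Wrd Q t e) : Wrd (fun s => P s * Q s) t (d + e) := by
  obtain ⟨hdP, Y, hY, hcY⟩ := hP
  obtain ⟨hdQ, Z, hZ, hcZ⟩ := hQ
  refine ⟨by rw [det_mul, hdP, hdQ, mul_one], Y + P t * Z * (P t).adjugate, ?_, 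
    hcY.add (hcZ.conj hdP)⟩
  have := hY.mul hZ
  have e1 : (Y + P t * Z * (P t).adjugate) * (P t * Q t) = Y * P t * Q t + P t * (Z * Q t) := by
    have e2 : (P t).adjugate * (P t * Q t) = Q t := by
      rw [← mul_assoc, adjugate_mul, hdP, one_smul, one_mul]
    rw [add_mul, mul_assoc (P t * Z), e2, mul_assoc, mul_assoc]
  rw [e1]
  exact this

lemma Wrd.one (t : ℝ) : Wrd (fun _ => 1) t 0 := by
  refine ⟨by simp, 0, ?_, Cone.zero⟩
  simpa using (MD.one (𝕜 := ℝ) (t := t))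

lemma Wrd.mono {P : ℝ → Matrix (Fin 2) (Fin 2) ℝ} {t d e : ℝ} (hP : Wrd P t d) (he : 0 ≤ e)
    (hed : e ≤ d) : Wrd P t e := by
  obtain ⟨h1, Y, h2, h3⟩ := hP
  exact ⟨h1, Y, h2, h3.mono he hed⟩

lemma Wrd.nonneg {P : ℝ → Matrix (Fin 2) (Fin 2) ℝ} {t d : ℝ} (hP : Wrd P t d) : 0 ≤ d := by
  obtain ⟨h1, Y, h2, h3⟩ := hP
  exact h3.d0

lemma Wrd.pow {P : ℝ → Matrix (Fin 2) (Fin 2) ℝ} {t d : ℝ} (hP : Wrd P t d) (n : ℕ) :
    Wrd (fun s => P s ^ n) t 0 := by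
  induction n with
  | zero => simpa using Wrd.one t
  | succ n ih => 
    simp only [pow_succ]
    exact (ih.mul hP).mono le_rfl (by simpa using hP.nonneg)

lemma Wrd.pow_pos {P : ℝ → Matrix (Fin 2) (Fin 2) ℝ} {t d : ℝ} (hP : Wrd P t d) {n : ℕ}
    (hn : 1 ≤ n) : Wrd (fun s => P s ^ n) t d := by
  obtain ⟨m, rfl⟩ : ∃ m, n = m + 1 := ⟨n - 1, by omega⟩
  simp only [pow_succ]
  simpa using (hP.pow m).mul hP

lemma Wrd.wd {A B : ℝ → Matrix (Fin 2) (Fin 2) ℝ} {t d : ℝ} (hA : Wrd A t 0) (hB : Wrd B t d)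
    {a : ℕ → ℕ} (ha : ∀ n, 1 ≤ a n) (k : ℕ) :
    Wrd (fun s => wd (A s) (B s) a k) t 0 ∧ Wrd (fun s => wd (A s) (B s) a (k + 1)) t d := by
  induction k with
  | zero => exact ⟨hA, hB⟩
  | succ k ih =>
    refine ⟨ih.2.mono le_rfl hB.nonneg, ?_⟩
    simp only [wd_succ_succ]
    simpa using ih.1.mul (ih.2.pow_pos (ha k))

/-- elliptic trace: quantitative transversality -/
lemma Wrd.trace_deriv {P : ℝ → Matrix (Fin 2) (Fin 2) ℝ} {t d : ℝ} (hP : Wrd P t d) :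
    ∃ F', HasDerivAt (fun s => (P s).trace) F' t ∧
      (|(P t).trace| < 2 → Real.sqrt (4 - (P t).trace ^ 2) * d ≤ |F'|) ∧
      (|(P t).trace| = 2 → 0 < d → P t ≠ 1 → P t ≠ -1 → F' ≠ 0) := by
  obtain ⟨h1, Y, h2, h3⟩ := hP
  have hd : P t 0 0 * P t 1 1 - P t 0 1 * P t 1 0 = 1 := by rw [← Matrix.det_fin_two]; exact h1
  refine ⟨_, h2.trace, ?_, ?_⟩
  · intro hlt
    rw [Matrix.trace_fin_two] at hlt ⊢
    have hsq : (P t 0 0 + P t 1 1) ^ 2 < 4 := by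
      have := sq_lt_sq' (abs_lt.mp hlt).1 (abs_lt.mp hlt).2
      linarith
    set e := Real.sqrt (4 - (P t 0 0 + P t 1 1) ^ 2) / 2 with he
    have he2 : e ^ 2 = (4 - (P t 0 0 + P t 1 1) ^ 2) / 4 := by
      rw [he, div_pow, Real.sq_sqrt (by linarith)]; norm_num
    have he0 : 0 ≤ e := by positivity
    have hform : e ^ 2 + ((P t 1 1 - P t 0 0) / 2) ^ 2 = P t 1 0 * (- P t 0 1) := by
      rw [he2]; linear_combination (-1 : ℝ) * hd
    have hpos : 0 < P t 1 0 * (- P t 0 1) := by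
      rw [← hform, he2]; nlinarith [sq_nonneg ((P t 1 1 - P t 0 0) / 2)]
    have htr : (Y * P t).trace = -(Y 1 0 * (- P t 0 1) + (- Y 0 1) * P t 1 0
        - 2 * (-Y 0 0) * ((P t 1 1 - P t 0 0) / 2)) := by
      simp only [Matrix.trace_fin_two, Matrix.mul_apply, Fin.sum_univ_two, h3.tr]
      ring
    have hes : Real.sqrt (4 - (P t 0 0 + P t 1 1) ^ 2) = 2 * e := by rw [he]; ring
    rw [hes, htr, abs_neg]
    rcases le_or_gt 0 (P t 1 0) with hc | hc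
    · have hb : 0 ≤ - P t 0 1 := by
        by_contra hcon
        push Not at hcon
        nlinarith
      have := mixed_ineq (g1 := Y 1 0) (g2 := -Y 0 0) (g3 := - Y 0 1) (h1 := P t 1 0)
        (h2 := (P t 1 1 - P t 0 0) / 2) (h3 := - P t 0 1) h3.g1 (by linarith [h3.g3]) hc hb h3.d0
        he0 (by have := h3.det; linarith [neg_sq (Y 0 0)]) hform.le
      refine le_trans ?_ (le_abs_self _)
      linarith
    · have hb : 0 ≤ P t 0 1 := by
        by_contra hcon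
        push Not at hcon
        nlinarith
      have := mixed_ineq (g1 := Y 1 0) (g2 := -Y 0 0) (g3 := - Y 0 1) (h1 := - P t 1 0)
        (h2 := -((P t 1 1 - P t 0 0) / 2)) (h3 := P t 0 1) h3.g1 (by linarith [h3.g3])
        (by linarith) hb h3.d0
        he0 (by have := h3.det; linarith [neg_sq (Y 0 0)])
        (by linarith [hform, neg_sq ((P t 1 1 - P t 0 0) / 2)])
      refine le_trans ?_ (neg_le_abs _)
      linarith
  · intro heq hdpos hne1 hne2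
    rw [Matrix.trace_fin_two] at heq
    have hsq : (P t 0 0 + P t 1 1) ^ 2 = 4 := by
      rw [← sq_abs, heq]; norm_num
    have hform : ((P t 1 1 - P t 0 0) / 2) ^ 2 = P t 1 0 * (- P t 0 1) := by
      linear_combination hsq / 4 - hd
    have htr : (Y * P t).trace = -(Y 1 0 * (- P t 0 1) + (- Y 0 1) * P t 1 0
        - 2 * (-Y 0 0) * ((P t 1 1 - P t 0 0) / 2)) := by
      simp only [Matrix.trace_fin_two, Matrix.mul_apply, Fin.sum_univ_two, h3.tr]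
      ring
    rw [htr]
    intro h0
    have h0' : Y 1 0 * (- P t 0 1) + (- Y 0 1) * P t 1 0 =
        2 * ((-Y 0 0) * ((P t 1 1 - P t 0 0) / 2)) := by linarith
    -- square: (g1 p3 + g3 p1)^2 = 4 g2^2 p1 p3 ≤ 4 (g1 g3 - d^2) p1 p3
    have hg : d ^ 2 + (Y 0 0) ^ 2 ≤ Y 1 0 * (- Y 0 1) := by have := h3.det; linarith
    have hsq2 : (Y 1 0 * (- P t 0 1) + (- Y 0 1) * P t 1 0) ^ 2 =
        4 * ((Y 0 0) ^ 2 * (P t 1 0 * (- P t 0 1))) := by
      rw [h0', ← hform]; ring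
    have hpp : 0 ≤ P t 1 0 * (- P t 0 1) := by rw [← hform]; positivity
    have h5 : (Y 1 0 * (- P t 0 1) - (- Y 0 1) * P t 1 0) ^ 2
        + 4 * d ^ 2 * (P t 1 0 * (- P t 0 1)) ≤ 0 := by
      have := mul_le_mul_of_nonneg_right hg hpp
      nlinarith
    have h6 : P t 1 0 * (- P t 0 1) = 0 := by
      have h7 : 0 ≤ (Y 1 0 * (- P t 0 1) - (- Y 0 1) * P t 1 0) ^ 2 := sq_nonneg _
      have h8 : 4 * d ^ 2 * (P t 1 0 * (- P t 0 1)) ≤ 0 := by linarith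
      have h9 : 0 < 4 * d ^ 2 := by positivity
      exact le_antisymm (by nlinarith) hpp
    have hg1 : 0 < Y 1 0 * (- Y 0 1) := by nlinarith [sq_nonneg (Y 0 0), sq_pos_of_pos hdpos]
    have hg1' : 0 < Y 1 0 := by
      rcases eq_or_lt_of_le h3.g1 with h | h
      · rw [← h] at hg1; simp at hg1
      · exact h
    have hg3' : 0 < - Y 0 1 := by
      rcases eq_or_lt_of_le h3.g3 with h | h
      · rw [h] at hg1; simp at hg1
      · linarith
    have h10 : P t 1 1 - P t 0 0 = 0 := by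
      rw [h6] at hform
      have : (P t 1 1 - P t 0 0) / 2 = 0 := by
        exact pow_eq_zero_iff (two_ne_zero) |>.mp hform
      linarith
    rw [h10] at h0'
    have hP10 : P t 1 0 = 0 ∧ P t 0 1 = 0 := by
      rcases mul_eq_zero.mp h6 with h | h
      · rw [h] at h0'
        refine ⟨h, ?_⟩
        have : Y 1 0 * (- P t 0 1) = 0 := by linarith
        rcases mul_eq_zero.mp this with h' | h'
        · exact absurd h' hg1'.ne'
        · linarith
      · rw [h] at h0'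
        refine ⟨?_, by linarith⟩
        have : (- Y 0 1) * P t 1 0 = 0 := by linarith
        rcases mul_eq_zero.mp this with h' | h'
        · exact absurd h' hg3'.ne'
        · exact h'
    have h11 : P t 1 1 = P t 0 0 := by linarith
    rw [hP10.1, hP10.2, h11] at hd
    have h12 : (P t 0 0 - 1) * (P t 0 0 + 1) = 0 := by linear_combination hd
    rcases mul_eq_zero.mp h12 with h | h
    · apply hne1
      ext i j
      fin_cases i <;> fin_cases j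
      · simp; linarith
      · simpa using hP10.2
      · simpa using hP10.1
      · simp; linarith
    · apply hne2
      ext i j
      fin_cases i <;> fin_cases j
      · simp; linarith
      · simpa using hP10.2
      · simpa using hP10.1
      · simp; linarith

end Pool.Agent.Sturm82
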