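import Pool.Agent.Sturm82.Angle

set_option autoImplicit false

namespace Pool.Agent.Sturm82

open Set Real Topology

/-- If `y` starts at `2` decreasing and cannot be critical while `|y| ≤ 2`, it stays decreasing as
long as it is nonnegative. -/
lemma stay_decreasing {y y' : ℝ → ℝ} {T : ℝ} (hT : 0 < T)
    (hy : ∀ t ∈ Icc 0 T, HasDerivAt y (y' t) t) (hy' : ContinuousOn y' (Icc 0 T))
    (h0 : y 0 = 2) (h0' : y' 0 < 0) (hpos : ∀ t ∈ Ico 0 T, 0 ≤ y t)
    (hne : ∀ t ∈ Icc 0 T, |y t| ≤ 2 → y' t ≠ 0) : ∀ t ∈ Icc 0 T, y' t < 0 := by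
  by_contra hcon
  push Not at hcon
  obtain ⟨t1, ht1, ht1'⟩ := hcon
  -- the set where y' ≥ 0
  set S : Set ℝ := {t | t ∈ Icc 0 T ∧ 0 ≤ y' t} with hS
  have hSclosed : IsClosed S := by
    have := hy'.preimage_isClosed_of_isClosed isClosed_Icc (isClosed_Ici (a := (0 : ℝ)))
    exact this
  have hSne : S.Nonempty := ⟨t1, ht1, ht1'⟩
  have hSbdd : BddBelow S := ⟨0, fun t ht => ht.1.1⟩
  set s := sInf S with hs
  have hsS : s ∈ S := hSclosed.csInf_mem hSne hSbdd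
  have hs0 : 0 < s := by
    rcases eq_or_lt_of_le hsS.1.1 with h | h
    · have := hsS.2
      rw [← h] at this
      linarith
    · exact h
  have hlt : ∀ t ∈ Ico 0 s, y' t < 0 := by
    intro t ht
    by_contra hc
    push Not at hc
    have : t ∈ S := ⟨⟨ht.1, ht.2.le.trans hsS.1.2⟩, hc⟩
    exact absurd (csInf_le hSbdd this) (not_le.mpr ht.2)
  have hcont : ContinuousOn y (Icc 0 s) := fun t ht =>
    (hy t ⟨ht.1, ht.2.trans hsS.1.2⟩).continuousAt.continuousWithinAt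
  have hanti : StrictAntiOn y (Icc 0 s) := by
    apply strictAntiOn_of_deriv_neg (convex_Icc 0 s) hcont
    intro t ht
    rw [interior_Icc] at ht
    rw [(hy t ⟨ht.1.le, ht.2.le.trans hsS.1.2⟩).deriv]
    exact hlt t ⟨ht.1.le, ht.2⟩
  have hys : y s ≤ 2 := by
    rw [← h0]
    exact hanti.antitoneOn ⟨le_rfl, hs0.le⟩ ⟨hs0.le, le_rfl⟩ hs0.le
  have hys0 : 0 ≤ y s := by
    -- limit of nonneg values
    have h1 : Filter.Tendsto y (𝓝[<] s) (𝓝 (y s)) :=
      ((hy s hsS.1).continuousAt.tendsto).mono_left nhdsWithin_le_nhds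
    refine ge_of_tendsto h1 ?_
    filter_upwards [Ioo_mem_nhdsLT hs0] with t ht
    exact hpos t ⟨ht.1.le, ht.2.trans_le hsS.1.2⟩
  have hle0 : y' s ≤ 0 := by
    have h1 : Filter.Tendsto y' (𝓝[Icc 0 T ∩ Iio s] s) (𝓝 (y' s)) :=
      ((hy' s hsS.1).tendsto).mono_left (nhdsWithin_mono _ inter_subset_left)
    have hnb : (𝓝[Icc 0 T ∩ Iio s] s).NeBot := by
      have : 𝓝[Icc 0 T ∩ Iio s] s = 𝓝[<] s := by
        rw [inter_comm]
        apply nhdsWithin_inter_of_mem'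
        refine Filter.mem_of_superset (Ioo_mem_nhdsLT hs0) ?_
        rintro t ht
        exact ⟨ht.1.le, ht.2.le.trans hsS.1.2⟩
      rw [this]
      infer_instance
    refine le_of_tendsto h1 ?_
    have : Icc 0 T ∩ Iio s ∈ 𝓝[Icc 0 T ∩ Iio s] s := self_mem_nhdsWithin
    filter_upwards [this] with t ht
    exact (hlt t ⟨ht.1.1, ht.2⟩).le
  have hzero : y' s = 0 := le_antisymm hle0 hsS.2
  exact hne s hsS.1 (abs_le.mpr ⟨by linarith, hys⟩) hzero

lemma hasDerivAt_arccos_half {y : ℝ → ℝ} {y' t : ℝ} (hy : HasDerivAt y y' t) (h : |y t| < 2) :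
    HasDerivAt (fun s => arccos (y s / 2)) (-y' / √(4 - y t ^ 2)) t := by
  have h1 := abs_lt.mp h
  have h2 : HasDerivAt (fun s => y s / 2) (y' / 2) t := hy.div_const 2
  have h3 := (Real.hasDerivAt_arccos (x := y t / 2) (by linarith) (by linarith)).comp t h2
  refine h3.congr_deriv ?_
  have h4 : √(1 - (y t / 2) ^ 2) = √(4 - y t ^ 2) / 2 := by
    have : 1 - (y t / 2) ^ 2 = (4 - y t ^ 2) / 2 ^ 2 := by ring
    rw [this, Real.sqrt_div' _ (by norm_num), Real.sqrt_sq (by norm_num)]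
  rw [h4]
  have h5 : 0 < √(4 - y t ^ 2) := Real.sqrt_pos.mpr (by nlinarith)
  field_simp

/-- reaching `0` in time `L` -/
lemma reach_zero {y y' : ℝ → ℝ} {L κ : ℝ} (hL : 0 < L) (hκ : 0 < κ) (hκL : π / 2 ≤ κ * L)
    (hy : ∀ t ∈ Icc 0 L, HasDerivAt y (y' t) t) (hy' : ContinuousOn y' (Icc 0 L))
    (h0 : y 0 = 2) (h0' : y' 0 < 0)
    (hne : ∀ t ∈ Icc 0 L, |y t| = 2 → y' t ≠ 0)
    (hq : ∀ t ∈ Icc 0 L, |y t| < 2 → κ * √(4 - y t ^ 2) ≤ |y' t|) :
    ∃ T ∈ Ioc 0 L, y T = 0 ∧ (∀ t ∈ Icc 0 T, y' t < 0) ∧ (∀ t ∈ Ioc 0 T, 0 ≤ y t ∧ y t < 2) := by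
  have hne2 : ∀ t ∈ Icc 0 L, |y t| ≤ 2 → y' t ≠ 0 := by
    intro t ht hle
    rcases eq_or_lt_of_le hle with h | h
    · exact hne t ht h
    · intro h3
      have h4 := hq t ht h
      rw [h3, abs_zero] at h4
      have h5 : 0 < √(4 - y t ^ 2) := by
        apply Real.sqrt_pos.mpr
        have := abs_lt.mp h
        nlinarith
      nlinarith
  have hcont : ContinuousOn y (Icc 0 L) := fun t ht => (hy t ht).continuousAt.continuousWithinAt
  -- existence of a point with y ≤ 0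
  have hex : ∃ t ∈ Icc 0 L, y t ≤ 0 := by
    by_contra hcon
    push Not at hcon
    have hdec := stay_decreasing hL hy hy' h0 h0' (fun t ht => (hcon t ⟨ht.1, ht.2.le⟩).le) hne2
    have hanti : StrictAntiOn y (Icc 0 L) := by
      apply strictAntiOn_of_deriv_neg (convex_Icc 0 L) hcont
      intro t ht
      rw [interior_Icc] at ht
      rw [(hy t ⟨ht.1.le, ht.2.le⟩).deriv]
      exact hdec t ⟨ht.1.le, ht.2.le⟩
    have hlt2 : ∀ t ∈ Ioo 0 L, |y t| < 2 := by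
      intro t ht
      have h1 := hcon t ⟨ht.1.le, ht.2.le⟩
      have h2 := hanti ⟨le_rfl, hL.le⟩ ⟨ht.1.le, ht.2.le⟩ ht.1
      rw [h0] at h2
      rw [abs_lt]; constructor <;> linarith
    have hmvt := (convex_Icc (0 : ℝ) L).mul_sub_le_image_sub_of_le_deriv
      (f := fun t => arccos (y t / 2)) (C := κ) ?_ ?_ ?_ 0 ⟨le_rfl, hL.le⟩ L ⟨hL.le, le_rfl⟩ hL.le
    · simp only [h0] at hmvt
      norm_num at hmvt
      have h3 : π / 2 ≤ arccos (y L / 2) := by linarith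
      have h4 := hcon L ⟨hL.le, le_rfl⟩
      have h5 : arccos (y L / 2) < π / 2 := Real.arccos_lt_pi_div_two.mpr (by linarith)
      linarith
    · exact Real.continuous_arccos.comp_continuousOn (hcont.div_const 2)
    · intro t ht
      rw [interior_Icc] at ht
      exact (hasDerivAt_arccos_half (hy t ⟨ht.1.le, ht.2.le⟩) (hlt2 t ht)).differentiableAt.differentiableWithinAt
    · intro t ht
      rw [interior_Icc] at ht
      rw [(hasDerivAt_arccos_half (hy t ⟨ht.1.le, ht.2.le⟩) (hlt2 t ht)).deriv]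
      have h1 := hq t ⟨ht.1.le, ht.2.le⟩ (hlt2 t ht)
      rw [abs_of_neg (hdec t ⟨ht.1.le, ht.2.le⟩)] at h1
      have h5 : 0 < √(4 - y t ^ 2) := by
        apply Real.sqrt_pos.mpr
        have := abs_lt.mp (hlt2 t ht)
        nlinarith
      rw [le_div_iff₀ h5]
      exact h1
  -- first such point
  set S : Set ℝ := {t | t ∈ Icc 0 L ∧ y t ≤ 0} with hS
  have hSclosed : IsClosed S := hcont.preimage_isClosed_of_isClosed isClosed_Icc (isClosed_Iic (a := (0 : ℝ)))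
  have hSne : S.Nonempty := hex
  have hSbdd : BddBelow S := ⟨0, fun t ht => ht.1.1⟩
  set T := sInf S with hTdef
  have hTS : T ∈ S := hSclosed.csInf_mem hSne hSbdd
  have hT0 : 0 < T := by
    rcases eq_or_lt_of_le hTS.1.1 with h | h
    · have := hTS.2
      rw [← h, h0] at this
      linarith
    · exact h
  have hpos : ∀ t ∈ Ico 0 T, 0 < y t := by
    intro t ht
    by_contra hc
    push Not at hc
    have : t ∈ S := ⟨⟨ht.1, ht.2.le.trans hTS.1.2⟩, hc⟩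
    exact absurd (csInf_le hSbdd this) (not_le.mpr ht.2)
  have hyT : y T = 0 := by
    refine le_antisymm hTS.2 ?_
    have h1 : Filter.Tendsto y (𝓝[<] T) (𝓝 (y T)) :=
      ((hy T hTS.1).continuousAt.tendsto).mono_left nhdsWithin_le_nhds
    refine ge_of_tendsto h1 ?_
    filter_upwards [Ioo_mem_nhdsLT hT0] with t ht
    exact (hpos t ⟨ht.1.le, ht.2⟩).le
  have hsub : Icc 0 T ⊆ Icc 0 L := Icc_subset_Icc le_rfl hTS.1.2
  have hdec := stay_decreasing hT0 (fun t ht => hy t (hsub ht)) (hy'.mono hsub) h0 h0'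
    (fun t ht => (hpos t ht).le) (fun t ht => hne2 t (hsub ht))
  have hanti : StrictAntiOn y (Icc 0 T) := by
    apply strictAntiOn_of_deriv_neg (convex_Icc 0 T) (hcont.mono hsub)
    intro t ht
    rw [interior_Icc] at ht
    rw [(hy t (hsub ⟨ht.1.le, ht.2.le⟩)).deriv]
    exact hdec t ⟨ht.1.le, ht.2.le⟩
  refine ⟨T, ⟨hT0, hTS.1.2⟩, hyT, hdec, ?_⟩
  intro t ht
  constructor
  · rcases eq_or_lt_of_le ht.2 with h | h
    · rw [h, hyT]
    · exact (hpos t ⟨ht.1.le, h⟩).le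
  · have := hanti ⟨le_rfl, hT0.le⟩ ⟨ht.1.le, ht.2⟩ ht.1
    rwa [h0] at this


lemma tmap_inj {u v : ℝ × ℝ × ℝ} (h : tmap Complex.ofRealHom u = tmap Complex.ofRealHom v) :
    u = v := by
  obtain ⟨x, y, z⟩ := u
  obtain ⟨x', y', z'⟩ := v
  simp only [tmap, Complex.ofRealHom_eq_coe, Prod.mk.injEq, Complex.ofReal_inj] at h
  simp only [Prod.mk.injEq]
  exact h

lemma hd_fst {v : ℝ → ℝ × ℝ × ℝ} {v' : ℝ × ℝ × ℝ} {t : ℝ} (h : HasDerivAt v v' t) :
    HasDerivAt (fun t => (v t).1) v'.1 t := by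
  have := (ContinuousLinearMap.fst ℝ ℝ (ℝ × ℝ)).hasFDerivAt.comp_hasDerivAt t h
  exact this

lemma hd_snd_fst {v : ℝ → ℝ × ℝ × ℝ} {v' : ℝ × ℝ × ℝ} {t : ℝ} (h : HasDerivAt v v' t) :
    HasDerivAt (fun t => (v t).2.1) v'.2.1 t := by
  have := (ContinuousLinearMap.fst ℝ ℝ ℝ).hasFDerivAt.comp_hasDerivAt t
    ((ContinuousLinearMap.snd ℝ ℝ (ℝ × ℝ)).hasFDerivAt.comp_hasDerivAt t h)
  exact this

lemma hd_snd_snd {v : ℝ → ℝ × ℝ × ℝ} {v' : ℝ × ℝ × ℝ} {t : ℝ} (h : HasDerivAt v v' t) :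
    HasDerivAt (fun t => (v t).2.2) v'.2.2 t := by
  have := (ContinuousLinearMap.snd ℝ ℝ ℝ).hasFDerivAt.comp_hasDerivAt t
    ((ContinuousLinearMap.snd ℝ ℝ (ℝ × ℝ)).hasFDerivAt.comp_hasDerivAt t h)
  exact this

/-- angle function along a differentiable path of triples with `|y| < 2` -/
lemma exists_angle_path {lam : ℝ} (hlam : 0 < lam) {s e : ℝ} (hse : s < e) {v v' : ℝ → ℝ × ℝ × ℝ}
    (hv : ∀ t ∈ Ioo s e, HasDerivAt v (v' t) t)
    (hsf : ∀ t ∈ Ioo s e, surf (v t) = 4 + lam ^ 2)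
    (hy : ∀ t ∈ Ioo s e, |(v t).2.1| < 2) :
    ∃ ψ : ℝ → ℝ, ∀ t ∈ Ioo s e, v t = flip (tau lam (arccos ((v t).2.1 / 2)) (ψ t)) ∧
      DifferentiableAt ℝ ψ t := by
  set Θ : ℝ → ℝ := fun t => arccos ((v t).2.1 / 2) with hΘ
  have h1 : ∀ t ∈ Ioo s e, HasDerivAt (fun t => (v t).1) (v' t).1 t := fun t ht =>
    hd_fst (hv t ht)
  have h2 : ∀ t ∈ Ioo s e, HasDerivAt (fun t => (v t).2.1) (v' t).2.1 t := fun t ht =>
    hd_snd_fst (hv t ht)
  have h3 : ∀ t ∈ Ioo s e, HasDerivAt (fun t => (v t).2.2) (v' t).2.2 t := fun t ht =>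
    hd_snd_snd (hv t ht)
  have hΘd : ∀ t ∈ Ioo s e, DifferentiableAt ℝ Θ t := fun t ht =>
    (hasDerivAt_arccos_half (h2 t ht) (hy t ht)).differentiableAt
  have hcos : ∀ t ∈ Ioo s e, cos (Θ t) = (v t).2.1 / 2 := by
    intro t ht
    have := abs_lt.mp (hy t ht)
    exact Real.cos_arccos (by linarith) (by linarith)
  have hsin : ∀ t ∈ Ioo s e, 0 < sin (Θ t) := by
    intro t ht
    rw [hΘ]
    simp only
    rw [Real.sin_arccos]
    apply Real.sqrt_pos.mpr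
    have := abs_lt.mp (hy t ht)
    nlinarith
  set g : ℝ → ℂ := fun t => sgo (Θ t) (tmap Complex.ofRealHom (v t)) with hg
  have hgd : ∀ t ∈ Ioo s e, DifferentiableAt ℝ g t := by
    intro t ht
    have e1 : DifferentiableAt ℝ (fun t => (((v t).1 : ℝ) : ℂ)) t :=
      (h1 t ht).ofReal_comp.differentiableAt
    have e2 : DifferentiableAt ℝ (fun t => (((v t).2.2 : ℝ) : ℂ)) t :=
      (h3 t ht).ofReal_comp.differentiableAt
    have e3 : DifferentiableAt ℝ (fun t => ((Θ t : ℝ) : ℂ)) t :=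
      (hΘd t ht).hasDerivAt.ofReal_comp.differentiableAt
    have e4 : DifferentiableAt ℝ (fun t => Complex.exp ((Θ t : ℝ) * Complex.I)) t :=
      (e3.mul_const Complex.I).cexp
    have e5 : DifferentiableAt ℝ (fun t => Complex.sin ((Θ t : ℝ) : ℂ)) t := by
      have := (hΘd t ht).hasDerivAt.sin.ofReal_comp.differentiableAt
      simpa only [Complex.ofReal_sin] using this
    have hne : 2 * Complex.I * Complex.sin ((Θ t : ℝ) : ℂ) ≠ 0 := by
      refine mul_ne_zero (mul_ne_zero two_ne_zero Complex.I_ne_zero) ?_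
      rw [← Complex.ofReal_sin]
      exact_mod_cast (hsin t ht).ne'
    have := ((e1.mul e4).sub e2).fun_div (e5.const_mul (2 * Complex.I)) hne
    exact this
  have hgn : ∀ t ∈ Ioo s e, 0 < Cf lam (Θ t) ∧ Complex.normSq (g t) = Cf lam (Θ t) ^ 2 := by
    intro t ht
    refine ⟨Cf_pos _ _, ?_⟩
    rw [Cf_sq]
    exact normSq_sgo_real (hsin t ht).ne' (by rw [hcos t ht]; ring) (hsf t ht)
  obtain ⟨ψ, hψ⟩ := exists_angle_Ioo hse hgd hgn
  refine ⟨ψ, fun t ht => ⟨?_, (hψ t ht).2.differentiableAt⟩⟩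
  apply tmap_inj
  rw [← Wc_real (hsin t ht).ne', ← (hψ t ht).1]
  have hΘre : 0 < ((Θ t : ℝ) : ℂ).re ∧ ((Θ t : ℝ) : ℂ).re < π := by
    rw [Complex.ofReal_re]
    constructor
    · by_contra hc
      push Not at hc
      have h4 : 0 ≤ Θ t := Real.arccos_nonneg _
      have h5 : Θ t = 0 := le_antisymm hc h4
      have := hsin t ht
      rw [h5, Real.sin_zero] at this
      exact lt_irrefl _ this
    · by_contra hc
      push Not at hc
      have h4 : Θ t ≤ π := Real.arccos_le_pi _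
      have h5 : Θ t = π := le_antisymm h4 hc
      have := hsin t ht
      rw [h5, Real.sin_pi] at this
      exact lt_irrefl _ this
  refine ((Wc_sgo (sin_ne_of_re hΘre.1 hΘre.2) ?_ ?_ (prod_ne hlam hΘre.1 hΘre.2)).2).symm
  · simp only [tmap, Complex.ofRealHom_eq_coe]
    rw [← Complex.ofReal_cos, hcos t ht]
    push_cast
    ring
  · rw [← surf_map, hsf t ht]
    simp

/-- **Crossing theorem.** -/
theorem crossing {lam : ℝ} (hlam : 0 < lam) {a : ℕ → ℕ} (ha : ∀ n, 1 ≤ a n) (h2 : 2 ≤ a 0)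
    (K : ℕ) {L δ κ c' : ℝ} (hL : 0 < L) (hδ : 0 < δ) (hκ : 0 < κ) (hκL : π / 2 ≤ κ * L)
    {v v' : ℝ → ℝ × ℝ × ℝ} (hv : ∀ t ∈ Ioo (-δ) (L + δ), HasDerivAt v (v' t) t)
    (hv' : ContinuousOn v' (Ioo (-δ) (L + δ)))
    (hsf : ∀ t ∈ Ioo (-δ) (L + δ), surf (v t) = 4 + lam ^ 2)
    (hc : ∀ t ∈ Ioo (-δ) (L + δ), (orb a (v t) (K + 1)).2.1 = c') (hc' : |c'| < 2)
    (h0 : (v 0).2.1 = 2) (h0' : (v' 0).2.1 < 0)
    (hne : ∀ t ∈ Icc 0 L, |(v t).2.1| = 2 → (v' t).2.1 ≠ 0)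
    (hq : ∀ t ∈ Icc 0 L, |(v t).2.1| < 2 → κ * √(4 - (v t).2.1 ^ 2) ≤ |(v' t).2.1|) :
    ∃ q ∈ Icc 0 L, |(v q).1| = 2 ∧ 0 ≤ (v q).2.1 ∧ (v q).2.1 < 2 := by
  have hsub : Icc 0 L ⊆ Ioo (-δ) (L + δ) := by
    intro t ht
    exact ⟨by linarith [ht.1], by linarith [ht.2]⟩
  have hyd : ∀ t ∈ Ioo (-δ) (L + δ), HasDerivAt (fun t => (v t).2.1) (v' t).2.1 t := fun t ht =>
    hd_snd_fst (hv t ht)
  have hy'c : ContinuousOn (fun t => (v' t).2.1) (Icc 0 L) :=
    (continuous_fst.comp continuous_snd).comp_continuousOn (hv'.mono hsub)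
  obtain ⟨T, hT, hyT, hdec, hran⟩ := reach_zero hL hκ hκL (fun t ht => hyd t (hsub ht)) hy'c h0 h0'
    hne hq
  have hTI : T ∈ Ioo (-δ) (L + δ) := hsub ⟨hT.1.le, hT.2⟩
  -- extend a bit beyond T
  obtain ⟨tc, hTtc, htc, hlt⟩ : ∃ tc, T < tc ∧ tc ≤ L + δ ∧ ∀ t ∈ Ioo 0 tc, |(v t).2.1| < 2 := by
    have hcT : ContinuousAt (fun t => |(v t).2.1|) T := (hyd T hTI).continuousAt.abs
    have hev : ∀ᶠ t in 𝓝 T, |(v t).2.1| < 2 := by
      refine hcT.eventually_lt continuousAt_const ?_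
      simp only [hyT, abs_zero]
      norm_num
    obtain ⟨ε, hε, hball⟩ := Metric.eventually_nhds_iff.mp hev
    refine ⟨min (T + ε) (L + δ), ?_, min_le_right _ _, ?_⟩
    · rw [lt_min_iff]
      exact ⟨by linarith, hTI.2⟩
    · intro t ht
      rcases le_or_gt t T with h | h
      · have := hran t ⟨ht.1, h⟩
        rw [abs_lt]; constructor <;> linarith
      · apply hball
        rw [Real.dist_eq, abs_lt]
        have := lt_of_lt_of_le ht.2 (min_le_left _ _)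
        constructor <;> linarith
  have hJ : Ioo 0 tc ⊆ Ioo (-δ) (L + δ) := fun t ht => ⟨by linarith [ht.1], by linarith [ht.2]⟩
  obtain ⟨ψ, hψ⟩ := exists_angle_path hlam (hT.1.trans hTtc) (fun t ht => hv t (hJ ht))
    (fun t ht => hsf t (hJ ht)) hlt
  set Θ : ℝ → ℝ := fun t => arccos ((v t).2.1 / 2) with hΘ
  set Θ' : ℝ → ℝ := fun t => -(v' t).2.1 / √(4 - (v t).2.1 ^ 2) with hΘ'
  have hΘd : ∀ t ∈ Ioo 0 tc, HasDerivAt Θ (Θ' t) t := fun t ht =>
    hasDerivAt_arccos_half (hyd t (hJ ht)) (hlt t ht)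
  have hJT : Ioc 0 T ⊆ Ioo 0 tc := fun t ht => ⟨ht.1, ht.2.trans_lt hTtc⟩
  have hsq : ∀ t ∈ Ioo 0 tc, 0 < √(4 - (v t).2.1 ^ 2) := by
    intro t ht
    apply Real.sqrt_pos.mpr
    have := abs_lt.mp (hlt t ht)
    nlinarith
  have hΘpos : ∀ t ∈ Ioc 0 T, 0 < Θ' t := by
    intro t ht
    apply div_pos
    · have := hdec t ⟨ht.1.le, ht.2⟩
      linarith
    · exact hsq t (hJT ht)
  have hcos : ∀ t ∈ Ioo 0 tc, cos (Θ t) = (v t).2.1 / 2 := by
    intro t ht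
    have := abs_lt.mp (hlt t ht)
    exact Real.cos_arccos (by linarith) (by linarith)
  have hsin : ∀ t ∈ Ioo 0 tc, 0 < sin (Θ t) := by
    intro t ht
    rw [hΘ]
    simp only
    rw [Real.sin_arccos]
    apply Real.sqrt_pos.mpr
    have := abs_lt.mp (hlt t ht)
    nlinarith
  -- slope at level 0
  have hslope : ∀ t ∈ Ioc 0 T, (a 0 - sig0 lam (Θ t)) * Θ' t ≤ deriv ψ t := by
    intro t ht
    have ht' := hJT ht
    have hnear : ∀ᶠ s in 𝓝 t, s ∈ Ioo 0 tc := isOpen_Ioo.mem_nhds ht'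
    have hF : HasDerivAt (fun s => (orb a (flip (tau lam (Θ s) (ψ s))) (K + 1)).2.1) 0 t := by
      refine (hasDerivAt_const t c').congr_of_eventuallyEq ?_
      filter_upwards [hnear] with s hs
      rw [← (hψ s hs).1]
      exact hc s (hJ hs)
    refine slope_future hlam (hΘd t ht') (hψ t ht').2.hasDerivAt (hsin t ht').ne' (hΘpos t ht).le
      ha K hF ?_
    rw [← (hψ t ht').1, hc t (hJ ht')]
    exact hc'
  -- the function Φ
  set Φ : ℝ → ℝ := fun t => ψ t - arctan (Sf lam (Θ t)) with hΦ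
  have hΦd : ∀ t ∈ Ioo 0 tc, HasDerivAt Φ (deriv ψ t - 1 / (1 + Sf lam (Θ t) ^ 2) *
      (-(lam * cos (Θ t) / (2 * sin (Θ t) ^ 2)) * Θ' t)) t := by
    intro t ht
    exact (hψ t ht).2.hasDerivAt.sub ((hasDerivAt_Sf (hΘd t ht) (hsin t ht).ne').arctan)
  have hΦge : ∀ t ∈ Ioc 0 T, 2 * Θ' t ≤ deriv ψ t - 1 / (1 + Sf lam (Θ t) ^ 2) *
      (-(lam * cos (Θ t) / (2 * sin (Θ t) ^ 2)) * Θ' t) := by
    intro t ht
    have ht' := hJT ht
    have hcos0 : 0 ≤ cos (Θ t) := by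
      rw [hcos t ht']
      have := (hran t ht).1
      linarith
    have e1 : 1 / (1 + Sf lam (Θ t) ^ 2) * (-(lam * cos (Θ t) / (2 * sin (Θ t) ^ 2)) * Θ' t) =
        -(sig0 lam (Θ t) * Θ' t) := by
      unfold Sf sig0
      rw [abs_of_nonneg hcos0]
      have := hsin t ht'
      field_simp
      ring
    rw [e1]
    have h3 := hslope t ht
    have h4 : (2 : ℝ) ≤ a 0 := by exact_mod_cast h2
    have h5 := hΘpos t ht
    nlinarith
  have hmono : ∀ t ∈ Ioc 0 T, Φ t - 2 * Θ t ≤ Φ T - 2 * Θ T := by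
    intro t ht
    have hm : MonotoneOn (fun t => Φ t - 2 * Θ t) (Icc t T) := by
      apply monotoneOn_of_deriv_nonneg (convex_Icc t T)
      · intro s hs
        have hs' : s ∈ Ioo 0 tc := ⟨lt_of_lt_of_le ht.1 hs.1, hs.2.trans_lt hTtc⟩
        exact (((hΦd s hs').sub ((hΘd s hs').const_mul 2)).continuousAt).continuousWithinAt
      · intro s hs
        rw [interior_Icc] at hs
        have hs' : s ∈ Ioo 0 tc := ⟨lt_trans ht.1 hs.1, hs.2.trans hTtc⟩
        exact ((hΦd s hs').sub ((hΘd s hs').const_mul 2)).differentiableAt.differentiableWithinAt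
      · intro s hs
        rw [interior_Icc] at hs
        have hs' : s ∈ Ioo 0 tc := ⟨lt_trans ht.1 hs.1, hs.2.trans hTtc⟩
        have hd := ((hΦd s hs').sub ((hΘd s hs').const_mul 2)).deriv
        have e : (fun t => Φ t - 2 * Θ t) = Φ - fun t => 2 * Θ t := rfl
        rw [e, hd]
        have := hΦge s ⟨lt_trans ht.1 hs.1, hs.2.le⟩
        linarith
    exact hm ⟨le_rfl, ht.2⟩ ⟨ht.2, le_rfl⟩ ht.2
  have hΘT : Θ T = π / 2 := by
    simp only [hΘ, hyT, zero_div, Real.arccos_zero]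
  -- the crossing point
  obtain ⟨q, hq0, k, hk⟩ : ∃ q ∈ Ioc 0 T, ∃ k : ℤ, Φ q = k * π := by
    set k : ℤ := ⌊Φ T / π⌋ with hk
    have hpi := Real.pi_pos
    have h5 : k * π ≤ Φ T := by
      have := Int.floor_le (Φ T / π)
      rwa [le_div_iff₀ hpi] at this
    have h6 : Φ T < (k + 1) * π := by
      have := Int.lt_floor_add_one (Φ T / π)
      rwa [div_lt_iff₀ hpi] at this
    rcases eq_or_lt_of_le h5 with h7 | h7
    · exact ⟨T, ⟨hT.1, le_rfl⟩, k, h7.symm⟩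
    · -- small t
      have hΘ0 : Filter.Tendsto Θ (𝓝[>] 0) (𝓝 0) := by
        have hc0 : ContinuousAt Θ 0 := by
          apply Real.continuous_arccos.continuousAt.comp
          exact (hyd 0 (hsub ⟨le_rfl, hL.le⟩)).continuousAt.div_const 2
        have : Θ 0 = 0 := by
          simp only [hΘ, h0]
          norm_num
        have h8 := hc0.tendsto
        rw [this] at h8
        exact h8.mono_left nhdsWithin_le_nhds
      have hev : ∀ᶠ t in 𝓝[>] (0 : ℝ), Θ t < ((k + 1) * π - Φ T) / 2 :=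
        hΘ0.eventually_lt_const (by linarith)
      have hev2 : ∀ᶠ t in 𝓝[>] (0 : ℝ), t ∈ Ioo 0 T := Ioo_mem_nhdsGT hT.1
      obtain ⟨t1, ht1, ht1'⟩ := (hev.and hev2).exists
      have h9 := hmono t1 ⟨ht1'.1, ht1'.2.le⟩
      rw [hΘT] at h9
      have h10 : Φ t1 ≤ k * π := by linarith
      have hcΦ : ContinuousOn Φ (Icc t1 T) := by
        intro s hs
        have hs' : s ∈ Ioo 0 tc := ⟨lt_of_lt_of_le ht1'.1 hs.1, hs.2.trans_lt hTtc⟩
        exact (hΦd s hs').continuousAt.continuousWithinAt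
      obtain ⟨q, hq1, hq2⟩ := intermediate_value_Icc ht1'.2.le hcΦ ⟨h10, h7.le⟩
      exact ⟨q, ⟨lt_of_lt_of_le ht1'.1 hq1.1, hq1.2⟩, k, hq2⟩
  have hq' := hJT hq0
  refine ⟨q, ⟨hq0.1.le, hq0.2.trans hT.2⟩, ?_, (hran q hq0).1, (hran q hq0).2⟩
  have hvq := (hψ q hq').1
  rw [flip_tau] at hvq
  rw [hvq]
  simp only
  have hψq : ψ q = arctan (Sf lam (Θ q)) + k * π := by
    simp only [hΦ] at hk
    linarith
  have hcosq : |cos (ψ q)| = 1 / Cf lam (Θ q) := by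
    rw [hψq, Real.cos_add_int_mul_pi, abs_mul]
    have : |(-1 : ℝ) ^ k| = 1 := by
      rw [abs_zpow]; simp
    rw [this, one_mul, Real.cos_arctan, abs_of_pos (by positivity)]
    rfl
  rw [abs_mul, hcosq, abs_of_pos (by have := Cf_pos lam (arccos ((v q).2.1 / 2)); positivity)]
  have := Cf_pos lam (Θ q)
  field_simp
  rfl

end Pool.Agent.Sturm82
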