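import Mathlib

/-!
Trace map bookkeeping for Sturmian operators.
-/

set_option autoImplicit false

namespace Pool.Agent.Sturm82

/-- `t_0 = x`, `t_1 = z`, `t_{k+2} = y t_{k+1} - t_k`.
If `A, B` are in `SL_2` with `tr A = x`, `tr B = y`, `tr (A B) = z` then `t_k = tr (A B ^ k)`. -/
def tseq {R : Type*} [CommRing R] (x y z : R) : ℕ → R
  | 0 => x
  | 1 => z
  | (k + 2) => y * tseq x y z (k + 1) - tseq x y z k

/-- One step of the trace map, `(tr A, tr B, tr AB) ↦ (tr B, tr A B^a, tr B A B^a)`. -/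
def step {R : Type*} [CommRing R] (a : ℕ) (v : R × R × R) : R × R × R :=
  (v.2.1, tseq v.1 v.2.1 v.2.2 a, tseq v.1 v.2.1 v.2.2 (a + 1))

/-- The orbit of a triple under the steps with digits `a 0, a 1, ...`. -/
def orb {R : Type*} [CommRing R] (a : ℕ → ℕ) (v : R × R × R) : ℕ → R × R × R
  | 0 => v
  | (n + 1) => step (a n) (orb a v n)

/-- The `n`-th trace `x_n(E)`, with `x_0 = E`, started from `(x_{-1}, x_0, w_0) = (2, E, E - lam)`. -/
def X (lam : ℝ) (a : ℕ → ℕ) (E : ℝ) (n : ℕ) : ℝ := (orb a (2, E, E - lam) n).2.1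

/-- The set `Σ_a` of all `E` with `|x_n| ≤ 2` or `|x_{n+1}| ≤ 2` for every `n ≥ 0`. -/
def Sig (lam : ℝ) (a : ℕ → ℕ) : Set ℝ :=
  {E | ∀ n, |X lam a E n| ≤ 2 ∨ |X lam a E (n + 1)| ≤ 2}

/-- The Gauss map. -/
noncomputable def gauss (x : ℝ) : ℝ := Int.fract x⁻¹

/-- The continued fraction digits, `dig x 0 = a_1 = ⌊1/x⌋`. -/
noncomputable def dig (x : ℝ) (n : ℕ) : ℕ := ⌊(gauss^[n] x)⁻¹⌋₊

/-- The Farey-type map used for the zero-one law. -/
noncomputable def smap (x : ℝ) : ℝ := Int.fract (min x (1 - x))⁻¹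

end Pool.Agent.Sturm82
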