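import Pool.Agent.Sturm82.Expand

set_option autoImplicit false

namespace Pool.Agent.Sturm82

open Matrix

/-- domination by the first coordinate -/
def Dm (L : ℝ) (P : Matrix (Fin 2) (Fin 2) ℂ) : Prop :=
  ∀ x y : ℂ, ‖y‖ ≤ ‖x‖ → ‖P 1 0 * x + P 1 1 * y‖ ≤ ‖P 0 0 * x + P 0 1 * y‖ ∧
    L * ‖x‖ ≤ ‖P 0 0 * x + P 0 1 * y‖

lemma Dm.mul {L L' : ℝ} {P Q : Matrix (Fin 2) (Fin 2) ℂ} (hL : 0 ≤ L) (hP : Dm L P)
    (hQ : Dm L' Q) : Dm (L * L') (P * Q) := by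
  intro x y hxy
  obtain ⟨h1, h2⟩ := hQ x y hxy
  obtain ⟨h3, h4⟩ := hP _ _ h1
  simp only [Matrix.mul_apply, Fin.sum_univ_two]
  have e1 : (P 1 0 * Q 0 0 + P 1 1 * Q 1 0) * x + (P 1 0 * Q 0 1 + P 1 1 * Q 1 1) * y =
      P 1 0 * (Q 0 0 * x + Q 0 1 * y) + P 1 1 * (Q 1 0 * x + Q 1 1 * y) := by ring
  have e2 : (P 0 0 * Q 0 0 + P 0 1 * Q 1 0) * x + (P 0 0 * Q 0 1 + P 0 1 * Q 1 1) * y =
      P 0 0 * (Q 0 0 * x + Q 0 1 * y) + P 0 1 * (Q 1 0 * x + Q 1 1 * y) := by ring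
  rw [e1, e2]
  refine ⟨h3, le_trans ?_ h4⟩
  rw [mul_assoc]
  exact mul_le_mul_of_nonneg_left h2 hL

lemma Dm.mono {L L' : ℝ} {P : Matrix (Fin 2) (Fin 2) ℂ} (hP : Dm L P) (h : L' ≤ L) : Dm L' P := by
  intro x y hxy
  obtain ⟨h1, h2⟩ := hP x y hxy
  exact ⟨h1, le_trans (mul_le_mul_of_nonneg_right h (norm_nonneg _)) h2⟩

lemma Dm.one : Dm 1 1 := by
  intro x y hxy
  simp [hxy]

lemma Dm.pow {L : ℝ} {P : Matrix (Fin 2) (Fin 2) ℂ} (hL : 1 ≤ L) (hP : Dm L P) (n : ℕ) :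
    Dm 1 (P ^ n) := by
  induction n with
  | zero => simpa using Dm.one
  | succ n ih =>
    rw [pow_succ]
    have := ih.mul zero_le_one hP
    rw [one_mul] at this
    exact this.mono hL

lemma Dm.wd {L : ℝ} {A B : Matrix (Fin 2) (Fin 2) ℂ} (hL : 1 ≤ L) (hB : Dm L B)
    (hAB : Dm L (A * B)) {a : ℕ → ℕ} (ha : ∀ n, 1 ≤ a n) (k : ℕ) :
    Dm L (wd A B a (k + 1)) ∧ Dm L (wd A B a (k + 2)) := by
  have h0 : 0 ≤ L := le_trans zero_le_one hL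
  induction k with
  | zero =>
    refine ⟨hB, ?_⟩
    rw [wd_succ_succ]
    obtain ⟨m, hm⟩ : ∃ m, a 0 = m + 1 := ⟨a 0 - 1, by have := ha 0; omega⟩
    have e : Sturm82.wd A B a 0 * Sturm82.wd A B a (0 + 1) ^ a 0 = (A * B) * B ^ m := by
      rw [hm, pow_succ', ← mul_assoc]
      rfl
    rw [e]
    simpa using hAB.mul h0 (hB.pow hL m)
  | succ k ih =>
    refine ⟨ih.2, ?_⟩
    rw [wd_succ_succ]
    simpa using ih.1.mul h0 (ih.2.pow hL (a (k + 1)))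

lemma Dm.trace {L : ℝ} {P : Matrix (Fin 2) (Fin 2) ℂ} (hL : 1 ≤ L) (hP : Dm L P)
    (hd : P.det = 1) : L - 1 ≤ ‖P.trace‖ := by
  rw [Matrix.det_fin_two] at hd
  rw [Matrix.trace_fin_two]
  obtain ⟨h1, h2⟩ := hP 1 0 (by simp)
  simp only [mul_one, mul_zero, add_zero, norm_one] at h1 h2
  obtain ⟨h3, h4⟩ := hP _ _ h1
  have e : P 0 0 * P 0 0 + P 0 1 * P 1 0 = (P 0 0 + P 1 1) * P 0 0 - 1 := by
    linear_combination - hd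
  rw [e] at h4
  have h5 : ‖(P 0 0 + P 1 1) * P 0 0 - 1‖ ≤ ‖P 0 0 + P 1 1‖ * ‖P 0 0‖ + 1 := by
    refine (norm_sub_le _ _).trans ?_
    rw [norm_mul, norm_one]
  have h6 : 1 ≤ ‖P 0 0‖ := hL.trans h2
  have h7 : (L - 1) * ‖P 0 0‖ ≤ ‖P 0 0 + P 1 1‖ * ‖P 0 0‖ := by nlinarith
  exact le_of_mul_le_mul_right h7 (by linarith)

lemma dm_of {L : ℝ} {p b c d : ℂ} (h1 : L + ‖b‖ ≤ ‖p‖) (h2 : ‖c‖ + ‖d‖ + ‖b‖ ≤ ‖p‖) :
    Dm L !![p, b; c, d] := by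
  intro x y hxy
  simp only [Matrix.of_apply, Matrix.cons_val', Matrix.cons_val_zero, Matrix.cons_val_one,
    Matrix.cons_val_fin_one]
  have h3 : ‖p‖ * ‖x‖ - ‖b‖ * ‖x‖ ≤ ‖p * x + b * y‖ := by
    have h := norm_sub_norm_le (p * x) (-(b * y))
    rw [norm_neg, norm_mul, norm_mul, sub_neg_eq_add] at h
    have : ‖b‖ * ‖y‖ ≤ ‖b‖ * ‖x‖ := mul_le_mul_of_nonneg_left hxy (norm_nonneg _)
    linarith
  have h4 : ‖c * x + d * y‖ ≤ ‖c‖ * ‖x‖ + ‖d‖ * ‖x‖ := by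
    refine (norm_add_le _ _).trans ?_
    rw [norm_mul, norm_mul]
    have : ‖d‖ * ‖y‖ ≤ ‖d‖ * ‖x‖ := mul_le_mul_of_nonneg_left hxy (norm_nonneg _)
    linarith
  have hx := norm_nonneg x
  constructor
  · refine h4.trans (le_trans ?_ h3)
    nlinarith
  · refine le_trans ?_ h3
    nlinarith

/-- if `‖p‖` dominates then all traces are large -/
lemma dom_large {L : ℝ} (hL : 1 ≤ L) {α p d s : ℂ} (hα : α ≠ 0) (hdet : p * d = 1 + s ^ 2)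
    (h1 : L + ‖s‖ ≤ ‖p‖) (h2 : ‖s‖ + ‖d‖ + ‖s‖ ≤ ‖p‖)
    (h3 : L + ‖α‖ * ‖s‖ ≤ ‖α‖ * ‖p‖) 
    (h4 : ‖α‖⁻¹ * ‖s‖ + ‖α‖⁻¹ * ‖d‖ + ‖α‖ * ‖s‖ ≤ ‖α‖ * ‖p‖)
    {a : ℕ → ℕ} (ha : ∀ n, 1 ≤ a n) (k : ℕ) :
    L - 1 ≤ ‖(orb a (α + α⁻¹, p + d, α * p + α⁻¹ * d) k).2.1‖ := by
  have hdA : (Az α).det = 1 := det_Az hα
  have hdB : (!![p, s; s, d] : Matrix (Fin 2) (Fin 2) ℂ).det = 1 := by
    simp only [Matrix.det_fin_two_of]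
    linear_combination hdet
  have hB : Dm L !![p, s; s, d] := dm_of h1 h2
  have hAB : Dm L (Az α * !![p, s; s, d]) := by
    have e : Az α * !![p, s; s, d] = !![α * p, α * s; α⁻¹ * s, α⁻¹ * d] := by
      ext i j
      fin_cases i <;> fin_cases j <;> simp [Az, Matrix.mul_apply, Fin.sum_univ_two]
    rw [e]
    refine dm_of ?_ ?_
    · rw [norm_mul, norm_mul]; exact h3
    · rw [norm_mul, norm_mul, norm_mul, norm_mul, norm_inv]; exact h4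
  have hW := (Dm.wd hL hB hAB ha k).1
  have htr := hW.trace hL (det_wd hdA hdB a (k + 1))
  have hor : orb a (α + α⁻¹, p + d, α * p + α⁻¹ * d) k =
      orb a ((Az α).trace, (!![p, s; s, d] : Matrix (Fin 2) (Fin 2) ℂ).trace,
        (Az α * !![p, s; s, d]).trace) k := by
    congr 1
    simp [Az, Matrix.trace_fin_two, Matrix.mul_apply, Fin.sum_univ_two]
  rw [hor, orb_wd hdA hdB]
  exact htr

/-- explicit bound -/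
noncomputable def Tb (K s1 R : ℝ) : ℝ := s1 + K ^ 2 * (s1 + 1 + s1 ^ 2 + R + 2)

lemma dom_bound_left {K s1 R : ℝ} (hK : 1 ≤ K) (hs1 : 0 ≤ s1) (hR : 0 ≤ R) {α p d s : ℂ}
    (hα : α ≠ 0) (hα1 : ‖α‖ ≤ K) (hα2 : ‖α‖⁻¹ ≤ K) (hdet : p * d = 1 + s ^ 2) (hs : ‖s‖ ≤ s1)
    {a : ℕ → ℕ} (ha : ∀ n, 1 ≤ a n) (k : ℕ)
    (hk : ‖(orb a (α + α⁻¹, p + d, α * p + α⁻¹ * d) k).2.1‖ ≤ R) : ‖p‖ ≤ Tb K s1 R := by
  by_contra hcon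
  push Not at hcon
  have hK2 : 1 ≤ K ^ 2 := one_le_pow₀ hK
  have hM : 0 ≤ s1 + 1 + s1 ^ 2 + R + 2 := by positivity
  have hMK : s1 + 1 + s1 ^ 2 + R + 2 ≤ K ^ 2 * (s1 + 1 + s1 ^ 2 + R + 2) :=
    le_mul_of_one_le_left hM hK2
  have hp1 : 1 ≤ ‖p‖ := by
    unfold Tb at hcon
    nlinarith [sq_nonneg s1]
  have hd : ‖d‖ ≤ 1 + s1 ^ 2 := by
    have h1 : ‖p‖ * ‖d‖ ≤ 1 + s1 ^ 2 := by
      rw [← norm_mul, hdet]
      refine (norm_add_le _ _).trans ?_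
      rw [norm_one, norm_pow]
      have := pow_le_pow_left₀ (norm_nonneg s) hs 2
      linarith
    have h2 : ‖d‖ ≤ ‖p‖ * ‖d‖ := le_mul_of_one_le_left (norm_nonneg _) hp1
    linarith
  have hαpos : 0 < ‖α‖ := norm_pos_iff.mpr hα
  have hps : K ^ 2 * (s1 + 1 + s1 ^ 2 + R + 2) ≤ ‖p‖ - ‖s‖ := by
    unfold Tb at hcon; linarith
  have hKα : 1 ≤ K * ‖α‖ := by
    have := mul_le_mul_of_nonneg_right hα2 hαpos.le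
    rwa [inv_mul_cancel₀ hαpos.ne'] at this
  have hmain : K * (s1 + 1 + s1 ^ 2 + R + 2) ≤ ‖α‖ * (‖p‖ - ‖s‖) := by
    have h1 : ‖α‖ * (K ^ 2 * (s1 + 1 + s1 ^ 2 + R + 2)) ≤ ‖α‖ * (‖p‖ - ‖s‖) :=
      mul_le_mul_of_nonneg_left hps hαpos.le
    have h2 : K * (s1 + 1 + s1 ^ 2 + R + 2) * 1 ≤ K * (s1 + 1 + s1 ^ 2 + R + 2) * (K * ‖α‖) :=
      mul_le_mul_of_nonneg_left hKα (by positivity)
    nlinarith
  have hKM : s1 + 1 + s1 ^ 2 + R + 2 ≤ K * (s1 + 1 + s1 ^ 2 + R + 2) :=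
    le_mul_of_one_le_left hM hK
  have := dom_large (L := R + 2) (by linarith) hα hdet (by nlinarith [sq_nonneg s1])
    (by nlinarith [sq_nonneg s1]) (by nlinarith [sq_nonneg s1]) ?_ ha k
  · linarith
  · have h5 : ‖α‖⁻¹ * (‖s‖ + ‖d‖) ≤ K * (s1 + (1 + s1 ^ 2)) :=
      mul_le_mul hα2 (by linarith) (by positivity) (by linarith)
    nlinarith [sq_nonneg s1]

/-- bounded trace implies bounded diagonal entries -/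
theorem dom_bound {K s1 R : ℝ} (hK : 1 ≤ K) (hs1 : 0 ≤ s1) (hR : 0 ≤ R) {α p d s : ℂ}
    (hα : α ≠ 0) (hα1 : ‖α‖ ≤ K) (hα2 : ‖α‖⁻¹ ≤ K) (hdet : p * d = 1 + s ^ 2) (hs : ‖s‖ ≤ s1)
    {a : ℕ → ℕ} (ha : ∀ n, 1 ≤ a n) (k : ℕ)
    (hk : ‖(orb a (α + α⁻¹, p + d, α * p + α⁻¹ * d) k).2.1‖ ≤ R) :
    ‖p‖ ≤ Tb K s1 R ∧ ‖d‖ ≤ Tb K s1 R := by
  refine ⟨dom_bound_left hK hs1 hR hα hα1 hα2 hdet hs ha k hk, ?_⟩
  refine dom_bound_left (α := α⁻¹) (p := d) (d := p) hK hs1 hR (inv_ne_zero hα) ?_ ?_ 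
    (by rw [mul_comm]; exact hdet) hs ha k ?_
  · rwa [norm_inv]
  · rwa [norm_inv, inv_inv]
  · rw [inv_inv, add_comm α⁻¹ α, add_comm d p, add_comm (α⁻¹ * d)]
    exact hk

end Pool.Agent.Sturm82
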