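import Pool.Agent.Sturm82.Chart

set_option autoImplicit false

namespace Pool.Agent.Sturm82

open Matrix Complex

/-- the indefinite form -/
noncomputable def qf (x y : ℂ) : ℝ := normSq y - normSq x

lemma qf_smul (m x y : ℂ) : qf (m * x) (m * y) = normSq m * qf x y := by
  simp only [qf, normSq_mul]; ring

/-- weakly expanding pair (matrix, logarithmic derivative) -/
structure WExp (P Q : Matrix (Fin 2) (Fin 2) ℂ) : Prop where
  det1 : P 0 0 * P 1 1 - P 0 1 * P 1 0 = 1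
  tr0 : P 1 1 * Q 0 0 - P 0 1 * Q 1 0 - P 1 0 * Q 0 1 + P 0 0 * Q 1 1 = 0
  ex : ∀ x y, qf x y ≤ qf (P 0 0 * x + P 0 1 * y) (P 1 0 * x + P 1 1 * y)
  good : ∀ x y u v, 0 < qf x y → qf u v < 0 → ∃ r : ℂ, r.re ≤ 0 ∧
    (Q 0 0 * x + Q 0 1 * y) * v - (Q 1 0 * x + Q 1 1 * y) * u =
      r * ((P 0 0 * x + P 0 1 * y) * v - (P 1 0 * x + P 1 1 * y) * u)

/-- strictly expanding pair -/
structure SExp (P Q : Matrix (Fin 2) (Fin 2) ℂ) : Prop where
  det1 : P 0 0 * P 1 1 - P 0 1 * P 1 0 = 1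
  tr0 : P 1 1 * Q 0 0 - P 0 1 * Q 1 0 - P 1 0 * Q 0 1 + P 0 0 * Q 1 1 = 0
  ex : ∀ x y, (x ≠ 0 ∨ y ≠ 0) → qf x y < qf (P 0 0 * x + P 0 1 * y) (P 1 0 * x + P 1 1 * y)
  good : ∀ x y u v, 0 < qf x y → qf u v < 0 → ∃ r : ℂ, r.re < 0 ∧
    (Q 0 0 * x + Q 0 1 * y) * v - (Q 1 0 * x + Q 1 1 * y) * u =
      r * ((P 0 0 * x + P 0 1 * y) * v - (P 1 0 * x + P 1 1 * y) * u)

variable {P Q P' Q' : Matrix (Fin 2) (Fin 2) ℂ}

lemma SExp.weak (h : SExp P Q) : WExp P Q where
  det1 := h.det1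
  tr0 := h.tr0
  ex := by
    intro x y
    by_cases hxy : x ≠ 0 ∨ y ≠ 0
    · exact (h.ex x y hxy).le
    · push Not at hxy
      simp [hxy.1, hxy.2]
  good := by
    intro x y u v h1 h2
    obtain ⟨r, hr, h3⟩ := h.good x y u v h1 h2
    exact ⟨r, hr.le, h3⟩

/-- inverse of a weakly expanding matrix preserves negative vectors -/
lemma WExp.inv_neg (h : WExp P Q) {u v : ℂ} (huv : qf u v < 0) :
    qf (P 1 1 * u - P 0 1 * v) (- P 1 0 * u + P 0 0 * v) < 0 := by
  have h1 := h.ex (P 1 1 * u - P 0 1 * v) (- P 1 0 * u + P 0 0 * v)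
  have e1 : P 0 0 * (P 1 1 * u - P 0 1 * v) + P 0 1 * (- P 1 0 * u + P 0 0 * v) = u := by
    linear_combination u * h.det1
  have e2 : P 1 0 * (P 1 1 * u - P 0 1 * v) + P 1 1 * (- P 1 0 * u + P 0 0 * v) = v := by
    linear_combination v * h.det1
  rw [e1, e2] at h1
  linarith

lemma tr0_mul (h1 : P 0 0 * P 1 1 - P 0 1 * P 1 0 = 1) (h2 : P' 0 0 * P' 1 1 - P' 0 1 * P' 1 0 = 1)
    (h3 : P 1 1 * Q 0 0 - P 0 1 * Q 1 0 - P 1 0 * Q 0 1 + P 0 0 * Q 1 1 = 0)
    (h4 : P' 1 1 * Q' 0 0 - P' 0 1 * Q' 1 0 - P' 1 0 * Q' 0 1 + P' 0 0 * Q' 1 1 = 0) :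
    (P * P') 1 1 * (Q * P' + P * Q') 0 0 - (P * P') 0 1 * (Q * P' + P * Q') 1 0 -
      (P * P') 1 0 * (Q * P' + P * Q') 0 1 + (P * P') 0 0 * (Q * P' + P * Q') 1 1 = 0 := by
  simp only [Matrix.add_apply, Matrix.mul_apply, Fin.sum_univ_two]
  linear_combination (P' 0 0 * P' 1 1 - P' 0 1 * P' 1 0) * h3
    + (P 0 0 * P 1 1 - P 0 1 * P 1 0) * h4

lemma det1_mul (h1 : P 0 0 * P 1 1 - P 0 1 * P 1 0 = 1)
    (h2 : P' 0 0 * P' 1 1 - P' 0 1 * P' 1 0 = 1) :
    (P * P') 0 0 * (P * P') 1 1 - (P * P') 0 1 * (P * P') 1 0 = 1 := by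
  simp only [Matrix.mul_apply, Fin.sum_univ_two]
  linear_combination (P' 0 0 * P' 1 1 - P' 0 1 * P' 1 0) * h1 + h2

/-- the key computation for the `good` property of products -/
lemma good_mul (h : WExp P Q) (h' : WExp P' Q') (x y u v : ℂ) (r1 r2 : ℂ)
    (e1 : (Q 0 0 * (P' 0 0 * x + P' 0 1 * y) + Q 0 1 * (P' 1 0 * x + P' 1 1 * y)) * v -
      (Q 1 0 * (P' 0 0 * x + P' 0 1 * y) + Q 1 1 * (P' 1 0 * x + P' 1 1 * y)) * u =
      r1 * ((P 0 0 * (P' 0 0 * x + P' 0 1 * y) + P 0 1 * (P' 1 0 * x + P' 1 1 * y)) * v -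
        (P 1 0 * (P' 0 0 * x + P' 0 1 * y) + P 1 1 * (P' 1 0 * x + P' 1 1 * y)) * u))
    (e2 : (Q' 0 0 * x + Q' 0 1 * y) * (- P 1 0 * u + P 0 0 * v) -
      (Q' 1 0 * x + Q' 1 1 * y) * (P 1 1 * u - P 0 1 * v) =
      r2 * ((P' 0 0 * x + P' 0 1 * y) * (- P 1 0 * u + P 0 0 * v) -
        (P' 1 0 * x + P' 1 1 * y) * (P 1 1 * u - P 0 1 * v))) :
    ((Q * P' + P * Q') 0 0 * x + (Q * P' + P * Q') 0 1 * y) * v -
      ((Q * P' + P * Q') 1 0 * x + (Q * P' + P * Q') 1 1 * y) * u =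
      (r1 + r2) * (((P * P') 0 0 * x + (P * P') 0 1 * y) * v -
        ((P * P') 1 0 * x + (P * P') 1 1 * y) * u) := by
  simp only [Matrix.add_apply, Matrix.mul_apply, Fin.sum_univ_two]
  linear_combination e1 + e2

lemma WExp.mul (h : WExp P Q) (h' : WExp P' Q') : WExp (P * P') (Q * P' + P * Q') where
  det1 := det1_mul h.det1 h'.det1
  tr0 := tr0_mul h.det1 h'.det1 h.tr0 h'.tr0
  ex := by
    intro x y
    have e1 := h.ex (P' 0 0 * x + P' 0 1 * y) (P' 1 0 * x + P' 1 1 * y)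
    have e2 := h'.ex x y
    simp only [Matrix.mul_apply, Fin.sum_univ_two]
    refine (e2.trans e1).trans (le_of_eq ?_)
    congr 1 <;> ring
  good := by
    intro x y u v hxy huv
    obtain ⟨r1, hr1, e1⟩ := h.good _ _ u v (lt_of_lt_of_le hxy (h'.ex x y)) huv
    obtain ⟨r2, hr2, e2⟩ := h'.good x y _ _ hxy (h.inv_neg huv)
    refine ⟨r1 + r2, by simp only [add_re]; linarith, good_mul h h' x y u v r1 r2 e1 e2⟩

lemma WExp.mul_strict (h : WExp P Q) (h' : SExp P' Q') : SExp (P * P') (Q * P' + P * Q') where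
  det1 := det1_mul h.det1 h'.det1
  tr0 := tr0_mul h.det1 h'.det1 h.tr0 h'.tr0
  ex := by
    intro x y hne
    have e1 := h.ex (P' 0 0 * x + P' 0 1 * y) (P' 1 0 * x + P' 1 1 * y)
    have e2 := h'.ex x y hne
    simp only [Matrix.mul_apply, Fin.sum_univ_two]
    refine (e2.trans_le e1).trans_le (le_of_eq ?_)
    congr 1 <;> ring
  good := by
    intro x y u v hxy huv
    obtain ⟨r1, hr1, e1⟩ := h.good _ _ u v (lt_of_lt_of_le hxy (h'.weak.ex x y)) huv
    obtain ⟨r2, hr2, e2⟩ := h'.good x y _ _ hxy (h.inv_neg huv)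
    refine ⟨r1 + r2, by simp only [add_re]; linarith, good_mul h h'.weak x y u v r1 r2 e1 e2⟩

/-- eigenvectors -/
lemma exists_eigvec {m : ℂ} (hd : P 0 0 * P 1 1 - P 0 1 * P 1 0 = 1)
    (hm : m ^ 2 - (P 0 0 + P 1 1) * m + 1 = 0) :
    ∃ x y : ℂ, (x ≠ 0 ∨ y ≠ 0) ∧ P 0 0 * x + P 0 1 * y = m * x ∧ P 1 0 * x + P 1 1 * y = m * y := by
  by_cases h1 : P 0 1 ≠ 0 ∨ m - P 0 0 ≠ 0
  · refine ⟨P 0 1, m - P 0 0, h1, by ring, ?_⟩
    linear_combination - hm - hd
  · push Not at h1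
    by_cases h2 : m - P 1 1 ≠ 0 ∨ P 1 0 ≠ 0
    · refine ⟨m - P 1 1, P 1 0, h2, ?_, by ring⟩
      linear_combination - hm - hd
    · push Not at h2
      refine ⟨1, 0, Or.inl one_ne_zero, ?_, ?_⟩
      · linear_combination - h1.2
      · simp [h2.2]

lemma SExp.not_unit (h : SExp P Q) {m : ℂ} (hm : m ^ 2 - (P 0 0 + P 1 1) * m + 1 = 0) :
    normSq m ≠ 1 := by
  intro h1
  obtain ⟨x, y, hne, e1, e2⟩ := exists_eigvec h.det1 hm
  have := h.ex x y hne
  rw [e1, e2, qf_smul, h1, one_mul] at this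
  exact lt_irrefl _ this

/-- the trace is not in `[-2,2]` -/
lemma SExp.trace_ne (h : SExp P Q) {t : ℝ} (ht : |t| ≤ 2) : P.trace ≠ (t : ℂ) := by
  intro htr
  rw [Matrix.trace_fin_two] at htr
  have h4 : 0 ≤ 4 - t ^ 2 := by
    have := abs_le.mp ht
    nlinarith
  obtain ⟨s, hs⟩ : ∃ s : ℝ, s * s = 4 - t ^ 2 := ⟨_, Real.mul_self_sqrt h4⟩
  refine h.not_unit (m := ⟨t / 2, s / 2⟩) ?_ ?_
  · rw [htr]
    apply Complex.ext
    · simp [pow_two]
      nlinarith
    · simp [pow_two]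
      ring
  · rw [normSq_mk]
    nlinarith

/-- the trace of the derivative does not vanish -/
lemma SExp.trace_deriv_ne (h : SExp P Q) : Q.trace ≠ 0 := by
  -- a root of the characteristic polynomial
  obtain ⟨s, hs⟩ : ∃ s : ℂ, s ^ 2 = (P 0 0 + P 1 1) ^ 2 - 4 := by
    exact IsAlgClosed.exists_pow_nat_eq _ (by norm_num)
  have hroot : ∃ m : ℂ, m ^ 2 - (P 0 0 + P 1 1) * m + 1 = 0 := by
    refine ⟨(P 0 0 + P 1 1 + s) / 2, ?_⟩
    linear_combination hs / 4
  obtain ⟨m0, hm0⟩ := hroot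
  have hm0ne : m0 ≠ 0 := by
    rintro rfl
    simp at hm0
  -- wlog |m| > 1
  obtain ⟨m, hm, hm1⟩ : ∃ m : ℂ, m ^ 2 - (P 0 0 + P 1 1) * m + 1 = 0 ∧ 1 < normSq m := by
    rcases lt_or_gt_of_ne (h.not_unit hm0) with h1 | h1
    · refine ⟨m0⁻¹, ?_, ?_⟩
      · have := congrArg (· * (m0⁻¹) ^ 2) hm0
        simp only [zero_mul] at this
        rw [← this]
        field_simp
        ring
      · rw [normSq_inv]
        exact (one_lt_inv₀ (normSq_pos.mpr hm0ne)).mpr h1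
    · exact ⟨m0, hm0, h1⟩
  have hmne : m ≠ 0 := by
    rintro rfl
    simp at hm
  have hm' : (m⁻¹) ^ 2 - (P 0 0 + P 1 1) * m⁻¹ + 1 = 0 := by
    have := congrArg (· * (m⁻¹) ^ 2) hm
    simp only [zero_mul] at this
    rw [← this]
    field_simp
    ring
  obtain ⟨x, y, hne, e1, e2⟩ := exists_eigvec h.det1 hm
  obtain ⟨u, v, hne', e3, e4⟩ := exists_eigvec h.det1 hm'
  have hxy : 0 < qf x y := by
    have := h.ex x y hne
    rw [e1, e2, qf_smul] at this
    nlinarith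
  have hinv : normSq m⁻¹ < 1 := by
    rw [normSq_inv]
    exact inv_lt_one_of_one_lt₀ hm1
  have huv : qf u v < 0 := by
    have := h.ex u v hne'
    rw [e3, e4, qf_smul] at this
    nlinarith
  obtain ⟨r, hr, e5⟩ := h.good x y u v hxy huv
  rw [e1, e2] at e5
  -- D = x v - y u
  have hD : x * v - y * u ≠ 0 := by
    intro hD
    have h1 : x * v = y * u := sub_eq_zero.mp hD
    have h2 : normSq x * normSq v = normSq y * normSq u := by
      rw [← normSq_mul, ← normSq_mul, h1]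
    simp only [qf] at hxy huv
    have h3 : normSq v < normSq u := by linarith
    have h4 : normSq x < normSq y := by linarith
    have h5 := normSq_nonneg v
    have h6 := normSq_nonneg x
    nlinarith
  -- Q (u,v) part
  have e6 : m * (x * (Q 1 0 * u + Q 1 1 * v) - y * (Q 0 0 * u + Q 0 1 * v)) =
      - (m⁻¹ * ((Q 0 0 * x + Q 0 1 * y) * v - (Q 1 0 * x + Q 1 1 * y) * u)) := by
    have h1 : (m * x) * (Q 1 0 * u + Q 1 1 * v) - (m * y) * (Q 0 0 * u + Q 0 1 * v) +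
      ((Q 0 0 * x + Q 0 1 * y) * (m⁻¹ * v) - (Q 1 0 * x + Q 1 1 * y) * (m⁻¹ * u)) = 0 := by
      rw [← e1, ← e2, ← e3, ← e4]
      linear_combination (x * v - y * u) * h.tr0
    linear_combination h1
  intro hQ
  rw [Matrix.trace_fin_two] at hQ
  have e7 : ((Q 0 0 * x + Q 0 1 * y) * v - (Q 1 0 * x + Q 1 1 * y) * u) +
      (x * (Q 1 0 * u + Q 1 1 * v) - y * (Q 0 0 * u + Q 0 1 * v)) = 0 := by
    linear_combination (x * v - y * u) * hQ
  have e8 : x * (Q 1 0 * u + Q 1 1 * v) - y * (Q 0 0 * u + Q 0 1 * v) =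
      - (m⁻¹ * (r * (x * v - y * u))) := by
    have : m⁻¹ * (m * (x * (Q 1 0 * u + Q 1 1 * v) - y * (Q 0 0 * u + Q 0 1 * v))) =
      m⁻¹ * - (m⁻¹ * ((Q 0 0 * x + Q 0 1 * y) * v - (Q 1 0 * x + Q 1 1 * y) * u)) := by rw [e6]
    rw [← mul_assoc, inv_mul_cancel₀ hmne, one_mul, e5] at this
    rw [this]
    have h1 : r * (m * x * v - m * y * u) = m * (r * (x * v - y * u)) := by ring
    rw [h1]
    have h2 : m⁻¹ * (m * (r * (x * v - y * u))) = r * (x * v - y * u) := by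
      rw [← mul_assoc, inv_mul_cancel₀ hmne, one_mul]
    rw [h2]
    ring
  rw [e5, e8] at e7
  have e9 : (r * (x * v - y * u)) * (m - m⁻¹) = 0 := by linear_combination e7
  have hr0 : r ≠ 0 := by
    rintro rfl
    simp at hr
  rcases mul_eq_zero.mp e9 with h1 | h1
  · exact mul_ne_zero hr0 hD h1
  · have h2 : m = m⁻¹ := sub_eq_zero.mp h1
    have h3 : normSq m = (normSq m)⁻¹ := by
      conv_lhs => rw [h2]
      rw [normSq_inv]
    have h4 : (normSq m)⁻¹ < 1 := inv_lt_one_of_one_lt₀ hm1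
    linarith


/-- weakly expanding matrix function -/
def CW (P : ℂ → Matrix (Fin 2) (Fin 2) ℂ) (z : ℂ) : Prop :=
  ∃ Q, MD P (z⁻¹ • Q) z ∧ WExp (P z) Q

/-- strictly expanding matrix function -/
def SCW (P : ℂ → Matrix (Fin 2) (Fin 2) ℂ) (z : ℂ) : Prop :=
  ∃ Q, MD P (z⁻¹ • Q) z ∧ SExp (P z) Q

section CW
variable {P P' : ℂ → Matrix (Fin 2) (Fin 2) ℂ} {z : ℂ}

lemma SCW.weak (h : SCW P z) : CW P z := by
  obtain ⟨Q, h1, h2⟩ := h
  exact ⟨Q, h1, h2.weak⟩

lemma CW.mul (h : CW P z) (h' : CW P' z) : CW (fun s => P s * P' s) z := by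
  obtain ⟨Q, h1, h2⟩ := h
  obtain ⟨Q', h1', h2'⟩ := h'
  refine ⟨_, (h1.mul h1').congr ?_, h2.mul h2'⟩
  rw [smul_mul_assoc, mul_smul_comm, smul_add]

lemma CW.mul_strict (h : CW P z) (h' : SCW P' z) : SCW (fun s => P s * P' s) z := by
  obtain ⟨Q, h1, h2⟩ := h
  obtain ⟨Q', h1', h2'⟩ := h'
  refine ⟨_, (h1.mul h1').congr ?_, h2.mul_strict h2'⟩
  rw [smul_mul_assoc, mul_smul_comm, smul_add]

lemma CW.one (z : ℂ) : CW (fun _ => 1) z := by
  refine ⟨0, ?_, ?_⟩
  · simpa using (MD.one (𝕜 := ℂ) (t := z))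
  · constructor
    · simp
    · simp
    · intro x y; simp
    · intro x y u v _ _
      exact ⟨0, by simp, by simp⟩

lemma CW.pow (h : CW P z) (n : ℕ) : CW (fun s => P s ^ n) z := by
  induction n with
  | zero => simpa using CW.one z
  | succ n ih =>
    simp only [pow_succ]
    exact ih.mul h

lemma SCW.pow_pos (h : SCW P z) {n : ℕ} (hn : 1 ≤ n) : SCW (fun s => P s ^ n) z := by
  obtain ⟨m, rfl⟩ : ∃ m, n = m + 1 := ⟨n - 1, by omega⟩
  simp only [pow_succ]
  exact (h.weak.pow m).mul_strict h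

lemma SCW.wd {A B : ℂ → Matrix (Fin 2) (Fin 2) ℂ} (hA : CW A z) (hB : SCW B z)
    {a : ℕ → ℕ} (ha : ∀ n, 1 ≤ a n) (k : ℕ) :
    CW (fun s => wd (A s) (B s) a k) z ∧ SCW (fun s => wd (A s) (B s) a (k + 1)) z := by
  induction k with
  | zero => exact ⟨hA, hB⟩
  | succ k ih =>
    refine ⟨ih.2.weak, ?_⟩
    simp only [wd_succ_succ]
    exact ih.1.mul_strict (ih.2.pow_pos (ha k))

end CW

/-- diagonal letter -/
noncomputable def Az (α : ℂ) : Matrix (Fin 2) (Fin 2) ℂ := !![α, 0; 0, α⁻¹]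

/-- hyperbolic letter -/
noncomputable def Bz (C S z : ℂ) : Matrix (Fin 2) (Fin 2) ℂ := !![C * z, S * z⁻¹; S * z, C * z⁻¹]

lemma det_Az {α : ℂ} (hα : α ≠ 0) : (Az α).det = 1 := by
  simp [Az, Matrix.det_fin_two_of, hα]

lemma det_Bz {C S z : ℂ} (hCS : C ^ 2 = 1 + S ^ 2) (hz : z ≠ 0) : (Bz C S z).det = 1 := by
  simp only [Bz, Matrix.det_fin_two_of]
  field_simp
  linear_combination hCS

lemma cw_Az {α : ℂ} (hα : normSq α = 1) (z : ℂ) : CW (fun _ => Az α) z := by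
  have hα0 : α ≠ 0 := by rintro rfl; simp at hα
  refine ⟨0, ?_, ?_⟩
  · intro i j
    simpa using hasDerivAt_const z _
  · constructor
    · simp [Az, hα0]
    · simp
    · intro x y
      simp [Az, qf, normSq_mul, hα]
    · intro x y u v _ _
      exact ⟨0, by simp, by simp⟩

lemma scw_Bz {C S : ℝ} (hCS : C ^ 2 = 1 + S ^ 2) {z : ℂ} (hz : z ≠ 0) (hz1 : normSq z < 1) :
    SCW (fun s => Bz C S s) z := by
  have hCS' : (C : ℂ) ^ 2 = 1 + (S : ℂ) ^ 2 := by exact_mod_cast hCS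
  have hzpos : 0 < normSq z := normSq_pos.mpr hz
  refine ⟨!![C * z, -(S * z⁻¹); S * z, -(C * z⁻¹)], ?_, ?_⟩
  · have h1 : HasDerivAt (fun s : ℂ => (C : ℂ) * s) (C : ℂ) z := by
      simpa using (hasDerivAt_id z).const_mul (C : ℂ)
    have h2 : HasDerivAt (fun s : ℂ => (S : ℂ) * s⁻¹) ((S : ℂ) * (-(z ^ 2)⁻¹)) z :=
      (hasDerivAt_inv hz).const_mul (S : ℂ)
    have h3 : HasDerivAt (fun s : ℂ => (S : ℂ) * s) (S : ℂ) z := by
      simpa using (hasDerivAt_id z).const_mul (S : ℂ)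
    have h4 : HasDerivAt (fun s : ℂ => (C : ℂ) * s⁻¹) ((C : ℂ) * (-(z ^ 2)⁻¹)) z :=
      (hasDerivAt_inv hz).const_mul (C : ℂ)
    refine (MD.of h1 h2 h3 h4).congr ?_
    ext i j
    fin_cases i <;> fin_cases j <;> simp <;> field_simp
  · constructor
    · simp only [Bz, Matrix.of_apply, Matrix.cons_val', Matrix.cons_val_zero, Matrix.cons_val_one,
        Matrix.cons_val_fin_one]
      field_simp
      linear_combination hCS'
    · simp only [Bz, Matrix.of_apply, Matrix.cons_val', Matrix.cons_val_zero, Matrix.cons_val_one,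
        Matrix.cons_val_fin_one]
      ring
    · intro x y hne
      simp only [Bz, Matrix.of_apply, Matrix.cons_val', Matrix.cons_val_zero, Matrix.cons_val_one,
        Matrix.cons_val_fin_one]
      have e1 : qf ((C : ℂ) * z * x + S * z⁻¹ * y) (S * z * x + C * z⁻¹ * y) =
          (C ^ 2 - S ^ 2) * qf (z * x) (z⁻¹ * y) := by
        simp only [qf]
        generalize hX : z * x = X
        generalize hY : z⁻¹ * y = Y
        have e2 : (C : ℂ) * z * x + S * z⁻¹ * y = C * X + S * Y := by rw [← hX, ← hY]; ring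
        have e3 : (S : ℂ) * z * x + C * z⁻¹ * y = S * X + C * Y := by rw [← hX, ← hY]; ring
        rw [e2, e3]
        simp only [normSq_apply, add_re, add_im, mul_re, mul_im, ofReal_re, ofReal_im]
        ring
      rw [e1, hCS]
      simp only [qf, normSq_mul, normSq_inv]
      have h5 := normSq_nonneg x
      have h6 := normSq_nonneg y
      have h7 : normSq y ≤ (normSq z)⁻¹ * normSq y :=
        le_mul_of_one_le_left h6 ((one_le_inv₀ hzpos).mpr hz1.le)
      have h8 : normSq z * normSq x ≤ normSq x := mul_le_of_le_one_left h5 hz1.le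
      rcases hne with hx | hy
      · have h9 : 0 < normSq x := normSq_pos.mpr hx
        have h10 : normSq z * normSq x < normSq x := by nlinarith
        nlinarith
      · have h9 : 0 < normSq y := normSq_pos.mpr hy
        have h11 : 1 < (normSq z)⁻¹ := (one_lt_inv₀ hzpos).mpr hz1
        have h10 : normSq y < (normSq z)⁻¹ * normSq y := by nlinarith
        nlinarith
    · intro x y u v hxy huv
      simp only [Bz, Matrix.of_apply, Matrix.cons_val', Matrix.cons_val_zero, Matrix.cons_val_one,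
        Matrix.cons_val_fin_one]
      -- w' = B⁻¹ w
      set u' : ℂ := C * z⁻¹ * u - S * z⁻¹ * v with hu'
      set v' : ℂ := -(S * z) * u + C * z * v with hv'
      have hw : qf u' v' < 0 := by
        -- via expansion
        have e1 : qf u v = qf (z * u') (z⁻¹ * v') := by
          have e2 : z * u' = C * u - S * v := by rw [hu']; field_simp
          have e3 : z⁻¹ * v' = -(S * u) + C * v := by rw [hv']; field_simp
          rw [e2, e3]
          simp only [qf, normSq_apply, add_re, add_im, sub_re, sub_im, mul_re, mul_im, ofReal_re,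
            ofReal_im, neg_re, neg_im]
          linear_combination (-(v.re * v.re + v.im * v.im) + u.re * u.re + u.im * u.im) * hCS
        rw [e1] at huv
        simp only [qf, normSq_mul, normSq_inv] at huv ⊢
        have h5 := normSq_nonneg u'
        have h6 := normSq_nonneg v'
        have h7 : normSq v' ≤ (normSq z)⁻¹ * normSq v' :=
          le_mul_of_one_le_left h6 ((one_le_inv₀ hzpos).mpr hz1.le)
        have h8 : normSq z * normSq u' ≤ normSq u' := mul_le_of_le_one_left h5 hz1.le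
        linarith
      -- a = x v', b = y u'
      have hab : normSq (x * v') < normSq (y * u') := by
        rw [normSq_mul, normSq_mul]
        simp only [qf] at hxy hw
        have h5 := normSq_nonneg x
        have h6 := normSq_nonneg v'
        have h7 : normSq x < normSq y := by linarith
        have h8 : normSq v' < normSq u' := by linarith
        nlinarith
      have hne : x * v' - y * u' ≠ 0 := by
        intro h
        rw [sub_eq_zero.mp h] at hab
        exact lt_irrefl _ hab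
      refine ⟨(x * v' + y * u') / (x * v' - y * u'), ?_, ?_⟩
      · rw [div_re]
        have h5 : (x * v' + y * u').re * (x * v' - y * u').re +
            (x * v' + y * u').im * (x * v' - y * u').im = normSq (x * v') - normSq (y * u') := by
          simp only [normSq_apply, add_re, add_im, sub_re, sub_im]
          ring
        have h6 : 0 < normSq (x * v' - y * u') := normSq_pos.mpr hne
        rw [← add_div, h5]
        exact div_neg_of_neg_of_pos (by linarith) h6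
      · have e4 : (C * z * x + -(S * z⁻¹) * y) * v - (S * z * x + -(C * z⁻¹) * y) * u =
            x * v' + y * u' := by
          rw [hu', hv']; ring
        have e5 : (C * z * x + S * z⁻¹ * y) * v - (S * z * x + C * z⁻¹ * y) * u =
            x * v' - y * u' := by
          rw [hu', hv']; ring
        rw [e4, e5]
        field_simp

/-- complex chart of a leaf -/
noncomputable def Vz (α C z : ℂ) : ℂ × ℂ × ℂ :=
  (α + α⁻¹, C * (z + z⁻¹), C * (α * z + (α * z)⁻¹))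

lemma Vz_eq {α C S z : ℂ} :
    Vz α C z = ((Az α).trace, (Bz C S z).trace, (Az α * Bz C S z).trace) := by
  simp only [Vz, Az, Bz, Matrix.trace_fin_two, Matrix.mul_apply, Fin.sum_univ_two,
    Matrix.of_apply, Matrix.cons_val', Matrix.cons_val_zero, Matrix.cons_val_one,
    Matrix.cons_val_fin_one, Prod.mk.injEq, mul_inv]
  refine ⟨trivial, by ring, by ring⟩

lemma Vz_inv (α C z : ℂ) : Vz α⁻¹ C z⁻¹ = Vz α C z := by
  simp only [Vz, inv_inv, mul_inv, Prod.mk.injEq]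
  refine ⟨by ring, by ring, by ring⟩

lemma expand_lt {C S : ℝ} (hCS : C ^ 2 = 1 + S ^ 2) {α : ℂ} (hα : normSq α = 1)
    {a : ℕ → ℕ} (ha : ∀ n, 1 ≤ a n) (k : ℕ) {z : ℂ} (hz : z ≠ 0) (hz1 : normSq z < 1) :
    ∃ f', HasDerivAt (fun z => (orb a (Vz α C z) k).2.1) f' z ∧ f' ≠ 0 ∧
      ∀ t : ℝ, |t| ≤ 2 → (orb a (Vz α C z) k).2.1 ≠ (t : ℂ) := by
  have hCS' : (C : ℂ) ^ 2 = 1 + (S : ℂ) ^ 2 := by exact_mod_cast hCS
  have hα0 : α ≠ 0 := by rintro rfl; simp at hα
  obtain ⟨Q, h1, h2⟩ := (SCW.wd (cw_Az hα z) (scw_Bz hCS hz hz1) ha k).2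
  have hor : ∀ s : ℂ, s ≠ 0 → (orb a (Vz α C s) k).2.1 =
      (wd (Az α) (Bz C S s) a (k + 1)).trace := by
    intro s hs
    rw [Vz_eq (S := S), orb_wd (det_Az hα0) (det_Bz hCS' hs)]
  refine ⟨_, (h1.trace).congr_of_eventuallyEq ?_, ?_, ?_⟩
  · filter_upwards [isOpen_ne.mem_nhds hz] with s hs
    exact hor s hs
  · rw [Matrix.trace_smul, smul_eq_mul]
    exact mul_ne_zero (inv_ne_zero hz) h2.trace_deriv_ne
  · intro t ht
    rw [hor z hz]
    exact h2.trace_ne ht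

/-- off the unit circle: no critical points and no values in `[-2,2]` -/
theorem expand_ne {C S : ℝ} (hCS : C ^ 2 = 1 + S ^ 2) {α : ℂ} (hα : normSq α = 1)
    {a : ℕ → ℕ} (ha : ∀ n, 1 ≤ a n) (k : ℕ) {z : ℂ} (hz : z ≠ 0) (hz1 : normSq z ≠ 1) :
    ∃ f', HasDerivAt (fun z => (orb a (Vz α C z) k).2.1) f' z ∧ f' ≠ 0 ∧
      ∀ t : ℝ, |t| ≤ 2 → (orb a (Vz α C z) k).2.1 ≠ (t : ℂ) := by
  rcases lt_or_gt_of_ne hz1 with h | h
  · exact expand_lt hCS hα ha k hz h
  · have hα' : normSq α⁻¹ = 1 := by rw [normSq_inv, hα, inv_one]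
    have hz' : normSq z⁻¹ < 1 := by
      rw [normSq_inv]; exact inv_lt_one_of_one_lt₀ h
    obtain ⟨f', h1, h2, h3⟩ := expand_lt hCS hα' ha k (inv_ne_zero hz) hz'
    have h4 := h1.scomp_of_eq z (hasDerivAt_inv hz) rfl
    refine ⟨_, h4.congr_of_eventuallyEq ?_, ?_, ?_⟩
    · refine Filter.Eventually.of_forall fun s => ?_
      simp only [Function.comp, Vz_inv]
    · simp only [smul_eq_mul]
      exact mul_ne_zero (neg_ne_zero.mpr (inv_ne_zero (pow_ne_zero 2 hz))) h2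
    · intro t ht
      have := h3 t ht
      rwa [Vz_inv] at this

end Pool.Agent.Sturm82
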