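import Pool.Agent.Sturm82.PerE

set_option autoImplicit false

namespace Pool.Agent.Sturm82

open Set Complex Topology

/-- the level `p` triple (digits `b`) on the line `(2, e, e - lam)` -/
def Gv (lam : ℝ) (b : ℕ → ℕ) (p : ℕ) (e : ℝ) : ℝ × ℝ × ℝ := orb b (2, e, e - lam) p

lemma contDiff_Gv (lam : ℝ) (b : ℕ → ℕ) (p : ℕ) {n : WithTop ℕ∞} : ContDiff ℝ n (Gv lam b p) := by
  unfold Gv
  refine (contDiff_orb b p).comp ?_
  fun_prop

lemma surf_Gv (lam : ℝ) (b : ℕ → ℕ) (p : ℕ) (e : ℝ) : surf (Gv lam b p e) = 4 + lam ^ 2 := by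
  unfold Gv
  rw [surf_orb]
  simp only [surf]
  ring

/-- local chart data of the curve `Γ'` at `e0` -/
theorem gamma_data {lam : ℝ} (hlam : 0 < lam) {b : ℕ → ℕ} (hb : ∀ n, 1 ≤ b n) (p : ℕ) {e0 : ℝ}
    (he0 : |(Gv lam b p e0).2.1| < 2) :
    ∃ θ ψ : ℝ → ℝ, ∃ θ' ψ' : ℝ, HasStrictDerivAt θ θ' e0 ∧ HasStrictDerivAt ψ ψ' e0 ∧
      θ e0 = Real.arccos ((Gv lam b p e0).2.1 / 2) ∧
      (∀ᶠ e in 𝓝 e0, |(Gv lam b p e).2.1| < 2 ∧ θ e = Real.arccos ((Gv lam b p e).2.1 / 2) ∧
        Gv lam b p e = flip (tau lam (θ e) (ψ e))) ∧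
      θ' ≠ 0 ∧ (0 ≤ θ' → ψ' ≤ 2 / lam * θ') ∧ (θ' ≤ 0 → 2 / lam * θ' ≤ ψ') := by
  set v := Gv lam b p with hv
  set θ : ℝ → ℝ := fun e => Real.arccos ((v e).2.1 / 2) with hθ
  have hvc : ContDiff ℝ 1 v := contDiff_Gv lam b p
  have hv1 : ContDiff ℝ 1 (fun e => (v e).1) := contDiff_fst.comp hvc
  have hv2 : ContDiff ℝ 1 (fun e => (v e).2.1) := contDiff_fst.comp (contDiff_snd.comp hvc)
  have hv3 : ContDiff ℝ 1 (fun e => (v e).2.2) := contDiff_snd.comp (contDiff_snd.comp hvc)
  have hab := abs_lt.mp he0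
  have hθc : ContDiffAt ℝ 1 θ e0 := by
    have h1 : ContDiffAt ℝ 1 Real.arccos ((v e0).2.1 / 2) :=
      Real.contDiffAt_arccos (by intro h; linarith) (by intro h; linarith)
    exact ContDiffAt.comp (g := Real.arccos) (f := fun e => (v e).2.1 / 2) e0 h1
      (hv2.contDiffAt.div_const 2)
  have hsin0 : 0 < Real.sin (θ e0) := by
    simp only [hθ]
    rw [Real.sin_arccos]
    apply Real.sqrt_pos.mpr
    nlinarith
  set g : ℝ → ℂ := fun e => sgo (θ e) (tmap ofRealHom (v e)) with hg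
  have hgc : ContDiffAt ℝ 1 g e0 := by
    have e1 : ContDiffAt ℝ 1 (fun e => (((v e).1 : ℝ) : ℂ)) e0 :=
      ofRealCLM.contDiff.contDiffAt.comp e0 hv1.contDiffAt
    have e2 : ContDiffAt ℝ 1 (fun e => (((v e).2.2 : ℝ) : ℂ)) e0 :=
      ofRealCLM.contDiff.contDiffAt.comp e0 hv3.contDiffAt
    have e3 : ContDiffAt ℝ 1 (fun e => ((θ e : ℝ) : ℂ)) e0 :=
      ofRealCLM.contDiff.contDiffAt.comp e0 hθc
    have e4 : ContDiffAt ℝ 1 (fun e => exp ((θ e : ℝ) * I)) e0 := (e3.mul contDiffAt_const).cexp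
    have e5 : ContDiffAt ℝ 1 (fun e => sin ((θ e : ℝ) : ℂ)) e0 := by
      have : ContDiffAt ℝ 1 (fun e => ((Real.sin (θ e) : ℝ) : ℂ)) e0 :=
        ofRealCLM.contDiff.contDiffAt.comp e0 (hθc.sin)
      simpa only [ofReal_sin] using this
    have hne : 2 * I * sin ((θ e0 : ℝ) : ℂ) ≠ 0 := by
      refine mul_ne_zero (mul_ne_zero two_ne_zero I_ne_zero) ?_
      rw [← ofReal_sin]
      exact_mod_cast hsin0.ne'
    have e6 : ContDiffAt ℝ 1 (fun e => (2 * I * sin ((θ e : ℝ) : ℂ))⁻¹) e0 :=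
      ContDiffAt.inv (contDiffAt_const.mul e5) hne
    have e7 := ((e1.mul e4).sub e2).mul e6
    have e8 : g = fun e => ((((v e).1 : ℝ) : ℂ) * exp ((θ e : ℝ) * I) - (((v e).2.2 : ℝ) : ℂ)) *
        (2 * I * sin ((θ e : ℝ) : ℂ))⁻¹ := by
      funext e
      simp only [hg, sgo, tmap, ofRealHom_eq_coe, div_eq_mul_inv]
    rw [e8]
    exact e7
  have hnear : ∀ᶠ e in 𝓝 e0, |(v e).2.1| < 2 :=
    (hv2.continuous.abs).continuousAt.eventually_lt continuousAt_const he0
  have hfacts : ∀ e, |(v e).2.1| < 2 → 0 < Real.sin (θ e) ∧ Real.cos (θ e) = (v e).2.1 / 2 := by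
    intro e he
    have hab := abs_lt.mp he
    constructor
    · simp only [hθ]
      rw [Real.sin_arccos]
      apply Real.sqrt_pos.mpr
      nlinarith
    · exact Real.cos_arccos (by linarith) (by linarith)
  have hgn : ∀ e, |(v e).2.1| < 2 → normSq (g e) = Cf lam (θ e) ^ 2 := by
    intro e he
    obtain ⟨h1, h2⟩ := hfacts e he
    rw [Cf_sq]
    exact normSq_sgo_real h1.ne' (by rw [h2]; ring) (surf_Gv lam b p e)
  have hg0 : g e0 ≠ 0 := by
    intro h
    have := hgn e0 he0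
    rw [h, map_zero] at this
    have := Cf_pos lam (θ e0)
    nlinarith
  set ψ : ℝ → ℝ := fun e => arg (g e0) + (log (g e / g e0)).im with hψ
  have hslit : g e0 / g e0 ∈ slitPlane := by
    rw [div_self hg0]; exact one_mem_slitPlane
  have hψc : ContDiffAt ℝ 1 ψ e0 := by
    have h1 : ContDiffAt ℝ 1 log (g e0 / g e0) := (contDiffAt_log hslit).restrict_scalars ℝ
    have h2 : ContDiffAt ℝ 1 (fun e => log (g e / g e0)) e0 :=
      ContDiffAt.comp (g := log) (f := fun e => g e / g e0) e0 h1 (by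
        simp only [div_eq_mul_inv]
        exact hgc.mul contDiffAt_const)
    exact contDiffAt_const.add (imCLM.contDiff.contDiffAt.comp e0 h2)
  have hgexp : ∀ e, |(v e).2.1| < 2 → g e = Cf lam (θ e) * exp (ψ e * I) := by
    intro e he
    have hge : g e ≠ 0 := by
      intro h
      have := hgn e he
      rw [h, map_zero] at this
      have := Cf_pos lam (θ e)
      nlinarith
    have hn : ‖g e‖ = Cf lam (θ e) := by
      have := hgn e he
      rw [normSq_eq_norm_sq] at this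
      exact (sq_eq_sq₀ (norm_nonneg _) (Cf_pos _ _).le).mp this
    have h1 : exp (ψ e * I) = exp (arg (g e0) * I) * exp (arg (g e / g e0) * I) := by
      rw [← exp_add, hψ]
      simp only [log_im]
      push_cast
      ring_nf
    have h2 : g e = g e0 * (g e / g e0) := by field_simp
    have h3 := norm_mul_exp_arg_mul_I (g e0)
    have h4 := norm_mul_exp_arg_mul_I (g e / g e0)
    have h5 : (Cf lam (θ e) : ℂ) = ‖g e0‖ * ‖g e / g e0‖ := by
      rw [← hn]
      rw [norm_div]
      have : (‖g e0‖ : ℂ) ≠ 0 := by exact_mod_cast (norm_pos_iff.mpr hg0).ne'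
      push_cast
      field_simp
    rw [h1, h5]
    have h6 : g e = (‖g e0‖ * exp (arg (g e0) * I)) * (‖g e / g e0‖ * exp (arg (g e / g e0) * I)) := by
      rw [h3, h4]; exact h2
    have h7 : ∀ x y z w : ℂ, x * y * (z * w) = x * z * (y * w) := fun x y z w => by ring
    exact h6.trans (h7 _ _ _ _)
  have hchart : ∀ e, |(v e).2.1| < 2 → v e = flip (tau lam (θ e) (ψ e)) := by
    intro e he
    obtain ⟨hsin, hcos⟩ := hfacts e he
    apply tmap_inj
    rw [← Wc_real hsin.ne', ← hgexp e he]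
    have hΘre : 0 < ((θ e : ℝ) : ℂ).re ∧ ((θ e : ℝ) : ℂ).re < Real.pi := by
      rw [ofReal_re]
      constructor
      · by_contra hc
        push Not at hc
        have h5 : θ e = 0 := le_antisymm hc (Real.arccos_nonneg _)
        rw [h5, Real.sin_zero] at hsin
        exact lt_irrefl _ hsin
      · by_contra hc
        push Not at hc
        have h5 : θ e = Real.pi := le_antisymm (Real.arccos_le_pi _) hc
        rw [h5, Real.sin_pi] at hsin
        exact lt_irrefl _ hsin
    refine ((Wc_sgo (sin_ne_of_re hΘre.1 hΘre.2) ?_ ?_ (prod_ne hlam hΘre.1 hΘre.2)).2).symm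
    · simp only [tmap, ofRealHom_eq_coe]
      rw [← ofReal_cos, hcos]
      push_cast
      ring
    · rw [← surf_map, surf_Gv]
      simp
  have hθs := hθc.hasStrictDerivAt (by norm_num)
  have hψs := hψc.hasStrictDerivAt (by norm_num)
  have hθd := hθs.hasDerivAt
  have hψd := hψs.hasDerivAt
  -- the past trace is constantly 2
  have hback : ∀ e, |(v e).2.1| < 2 →
      orb (rdig b p) (tau lam (θ e) (ψ e)) p = (e, 2, 2 * e - (e - lam)) := by
    intro e he
    have h1 : tau lam (θ e) (ψ e) = flip (v e) := by rw [hchart e he, flip_flip]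
    rw [h1, hv]
    unfold Gv
    rw [orb_rev0]
    rfl
  have hF : HasDerivAt (fun s => (orb (rdig b p) (tau lam (θ s) (ψ s)) p).2.1) 0 e0 := by
    refine (hasDerivAt_const e0 (2 : ℝ)).congr_of_eventuallyEq ?_
    filter_upwards [hnear] with s hs
    rw [hback s hs]
  have hslope := slope_past hlam hθd hψd hsin0.ne' (a := rdig b p) (fun n => hb _) p hF
    (by rw [hback e0 he0]; norm_num)
  have hsig := sig0_le hlam (θ e0)
  refine ⟨θ, ψ, _, _, hθs, hψs, rfl, ?_, ?_, ?_, ?_⟩
  · filter_upwards [hnear] with e he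
    exact ⟨he, rfl, hchart e he⟩
  · intro hzero
    have hψ0 : deriv ψ e0 = 0 := by
      have h1 := hslope.1 hzero.ge
      have h2 := hslope.2 hzero.le
      rw [hzero, mul_zero] at h1 h2
      exact le_antisymm h1 h2
    rw [hzero] at hθd
    rw [hψ0] at hψd
    have hSd := hasDerivAt_Sf (lam := lam) hθd hsin0.ne'
    have hCd := hasDerivAt_Cf hSd
    have ht : HasDerivAt (fun e => tau lam (θ e) (ψ e)) (0 : ℝ × ℝ × ℝ) e0 := by
      unfold tau
      have hC0 : HasDerivAt (fun s => 2 * Cf lam (θ s)) 0 e0 := by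
        refine (hCd.const_mul 2).congr_deriv ?_
        ring
      have h1 : HasDerivAt (fun s => 2 * Real.cos (θ s)) 0 e0 := by
        refine (hθd.cos.const_mul 2).congr_deriv ?_
        ring
      have h2 : HasDerivAt (fun s => 2 * Cf lam (θ s) * Real.cos (ψ s)) 0 e0 := by
        refine (hC0.mul hψd.cos).congr_deriv ?_
        ring
      have h3 : HasDerivAt (fun s => 2 * Cf lam (θ s) * Real.cos (ψ s + θ s)) 0 e0 := by
        refine (hC0.mul ((hψd.add hθd).cos)).congr_deriv ?_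
        ring
      exact h1.prodMk (h2.prodMk h3)
    have hd : Differentiable ℝ (fun w : ℝ × ℝ × ℝ => orb (rdig b p) w p) :=
      (contDiff_orb (rdig b p) p (n := 1)).differentiable (by norm_num)
    have h4 := (hd (tau lam (θ e0) (ψ e0))).hasFDerivAt.comp_hasDerivAt e0 ht
    rw [map_zero] at h4
    have h5 := hd_fst h4
    have h6 : HasDerivAt (fun e : ℝ => e) 0 e0 := by
      refine h5.congr_of_eventuallyEq ?_
      filter_upwards [hnear] with s hs
      simp only [Function.comp]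
      rw [hback s hs]
    have h7 := h6.unique (hasDerivAt_id' e0)
    exact zero_ne_one h7
  · intro h
    refine (hslope.1 h).trans ?_
    exact mul_le_mul_of_nonneg_right hsig h
  · intro h
    refine le_trans ?_ (hslope.2 h)
    exact mul_le_mul_of_nonpos_right hsig h

end Pool.Agent.Sturm82
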