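import Pool.Agent.Sturm82.KeyLem

set_option autoImplicit false

namespace Pool.Agent.Sturm82

open Set Complex Topology

/-- pairwise estimate, after fixing all the data of two leaves -/
lemma pair_estimate {lam : ℝ} (hlam : 0 < lam) {a : ℕ → ℕ} (ha : ∀ n, 1 ≤ a n)
    {p K : ℕ} {c0 η : ℝ} (h0 : 0 < c0) (h1 : c0 < Real.pi) (hη0 : 0 < η) (hη1 : η < 1)
    {σ1 σ2 : ℂ → ℂ} {c1 c2 : ℝ} (hc1 : |c1| < 2)
    (hL1 : IsLeaf lam (fun j => a (j + 1)) p K c0 c1 σ1)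
    (hL2 : IsLeaf lam (fun j => a (j + 1)) p K c0 c2 σ2)
    {θ1 q1 q2 : ℝ} (hθ1 : |θ1 - c0| < η * (Real.sin c0 / 2))
    (hq1 : |q1 - c0| < η * (Real.sin c0 / 2)) (hq2 : |q2 - c0| < η * (Real.sin c0 / 2))
    {low : ℝ} (hlow : 0 < low) (hp : low ≤ ‖σ1 θ1 - σ2 θ1‖)
    {B CB : ℝ} {V1 V2 : ℝ × ℝ × ℝ} (hV1 : ‖V1‖ ≤ B) (hV2 : ‖V2‖ ≤ B)
    (hW1 : Wc lam q1 (σ1 q1) = tmap ofRealHom V1) (hW2 : Wc lam q2 (σ2 q2) = tmap ofRealHom V2)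
    (hCB : ∀ (q1 q2 : ℝ) (V1 V2 : ℝ × ℝ × ℝ), |q1 - c0| ≤ Real.sin c0 / 2 →
      |q2 - c0| ≤ Real.sin c0 / 2 → ‖V1‖ ≤ B → ‖V2‖ ≤ B → V1.2.1 = 2 * Real.cos q1 →
      V2.2.1 = 2 * Real.cos q2 →
      ‖sgo q1 (tmap ofRealHom V1) - sgo q2 (tmap ofRealHom V2)‖ ≤ CB * dist V1 V2 ∧
      |q1 - q2| ≤ CB * dist V1 V2) :
    2 * Bd lam c0 (a (p + 1)) * (low / (2 * Bd lam c0 (a (p + 1)))) ^ (((1 + η) / (1 - η)) ^ 2) ≤
      (CB + Bd lam c0 (a (p + 1)) / ((1 - η) * (Real.sin c0 / 2) / 2) * CB) * dist V1 V2 := by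
  obtain ⟨hb0, hb1, hb2⟩ := ball_facts h0 h1
  set ρ := Real.sin c0 / 2 with hρ
  have hηρ : η * ρ < ρ := by nlinarith
  have hBd := Bd_pos hlam h0 h1 (a (p + 1))
  set M := 2 * Bd lam c0 (a (p + 1)) with hM
  have hM0 : 0 < M := by positivity
  have hη1' : 0 < 1 - η := by linarith
  -- D does not vanish
  have hne : ∀ z ∈ Metric.ball (c0 : ℂ) ρ, σ1 z - σ2 z ≠ 0 := by
    intro z hz h
    have heq : σ1 z = σ2 z := sub_eq_zero.mp h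
    have hcc : c1 = c2 := by
      have e1 := hL1.lev z hz
      have e2 := hL2.lev z hz
      rw [heq, e2] at e1
      exact_mod_cast e1.symm
    subst hcc
    have hb : ∀ n, 1 ≤ (fun j => a (j + 1)) n := fun n => ha _
    have := leaf_unique hlam hb p K hb1 hb2 hL1.diff.continuousOn hL2.diff.continuousOn hc1
      (fun θ hθ => ⟨hL1.ne θ hθ, hL1.lev θ hθ⟩) (fun θ hθ => ⟨hL2.ne θ hθ, hL2.lev θ hθ⟩) hz heq
      θ1 (ofReal_mem_ball (hθ1.trans hηρ))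
    rw [this, sub_self, norm_zero] at hp
    linarith
  have hbound : ∀ z ∈ Metric.ball (c0 : ℂ) ρ, ‖σ1 z - σ2 z‖ ≤ M := by
    intro z hz
    have e1 : ‖σ1 z‖ ≤ Bd lam c0 (a (p + 1)) := hL1.bdd z hz
    have e2 : ‖σ2 z‖ ≤ Bd lam c0 (a (p + 1)) := hL2.bdd z hz
    refine (norm_sub_le _ _).trans ?_
    rw [hM]; linarith
  have hcb : ∀ t : ℝ, |t - c0| < η * ρ → (t : ℂ) ∈ Metric.closedBall (c0 : ℂ) (η * ρ) := fun t ht =>
    Metric.ball_subset_closedBall (ofReal_mem_ball ht)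
  have hH := Har.harnack_pow (c := (c0 : ℂ)) (ρ := ρ) (r := η * ρ) (M := M)
    (κ := ((1 + η) / (1 - η)) ^ 2) (f := fun z => σ1 z - σ2 z) (by positivity) hηρ hM0
    (hL1.diff.sub hL2.diff) hne hbound (by
      congr 1
      have : ρ + η * ρ = (1 + η) * ρ := by ring
      have h3 : ρ - η * ρ = (1 - η) * ρ := by ring
      rw [this, h3]
      field_simp) (hcb q1 hq1) (hcb θ1 hθ1)
  -- lower side
  have hκ0 : 0 ≤ ((1 + η) / (1 - η)) ^ 2 := by positivity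
  have hlow2 : M * (low / M) ^ (((1 + η) / (1 - η)) ^ 2) ≤
      M * (‖σ1 θ1 - σ2 θ1‖ / M) ^ (((1 + η) / (1 - η)) ^ 2) := by
    apply mul_le_mul_of_nonneg_left _ hM0.le
    apply Real.rpow_le_rpow (by positivity) _ hκ0
    gcongr
  refine hlow2.trans (hH.trans ?_)
  -- upper side
  have hs1 := sin_ne_of_re (ball_re hb1 hb2 (ofReal_mem_ball (hq1.trans hηρ))).1
    (ball_re hb1 hb2 (ofReal_mem_ball (hq1.trans hηρ))).2
  have hs2 := sin_ne_of_re (ball_re hb1 hb2 (ofReal_mem_ball (hq2.trans hηρ))).1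
    (ball_re hb1 hb2 (ofReal_mem_ball (hq2.trans hηρ))).2
  have hσ1 : σ1 q1 = sgo q1 (tmap ofRealHom V1) := by rw [← hW1, sgo_Wc hs1]
  have hσ2 : σ2 q2 = sgo q2 (tmap ofRealHom V2) := by rw [← hW2, sgo_Wc hs2]
  have hy1 : V1.2.1 = 2 * Real.cos q1 := by
    have := congrArg (fun x => x.2.1) hW1
    simp only [Wc, tmap, ofRealHom_eq_coe, ← ofReal_cos] at this
    exact_mod_cast this.symm
  have hy2 : V2.2.1 = 2 * Real.cos q2 := by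
    have := congrArg (fun x => x.2.1) hW2
    simp only [Wc, tmap, ofRealHom_eq_coe, ← ofReal_cos] at this
    exact_mod_cast this.symm
  obtain ⟨hd1, hd2⟩ := hCB q1 q2 V1 V2 (hq1.trans hηρ).le (hq2.trans hηρ).le hV1 hV2 hy1 hy2
  rw [← hσ1, ← hσ2] at hd1
  have hmv : ‖σ2 q2 - σ2 q1‖ ≤ Bd lam c0 (a (p + 1)) / ((1 - η) * ρ / 2) * ‖(q2 : ℂ) - q1‖ := by
    refine (convex_closedBall (c0 : ℂ) (η * ρ)).norm_image_sub_le_of_norm_deriv_le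
      (fun z hz => ?_) (fun z hz => ?_) (hcb q1 hq1) (hcb q2 hq2)
    · have hz' : z ∈ Metric.ball (c0 : ℂ) ρ := Metric.closedBall_subset_ball hηρ hz
      exact (hL2.diff z hz').differentiableAt (Metric.isOpen_ball.mem_nhds hz')
    · exact hL2.deriv_bound h0 h1 hη1 hz
  have hqn : ‖(q2 : ℂ) - q1‖ = |q1 - q2| := by
    rw [← ofReal_sub, Complex.norm_real, Real.norm_eq_abs, abs_sub_comm]
  rw [hqn] at hmv
  have hΛ : 0 ≤ Bd lam c0 (a (p + 1)) / ((1 - η) * ρ / 2) := by positivity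
  have htri : ‖σ1 q1 - σ2 q1‖ ≤ ‖σ1 q1 - σ2 q2‖ + ‖σ2 q2 - σ2 q1‖ := by
    have : σ1 q1 - σ2 q1 = (σ1 q1 - σ2 q2) + (σ2 q2 - σ2 q1) := by ring
    rw [this]; exact norm_add_le _ _
  have h5 : Bd lam c0 (a (p + 1)) / ((1 - η) * ρ / 2) * |q1 - q2| ≤
      Bd lam c0 (a (p + 1)) / ((1 - η) * ρ / 2) * (CB * dist V1 V2) :=
    mul_le_mul_of_nonneg_left hd2 hΛ
  refine htri.trans ?_
  rw [add_mul, mul_assoc (Bd lam c0 (a (p + 1)) / ((1 - η) * ρ / 2))]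
  linarith

/-- lower bound at the starting points -/
lemma lower_start {lam : ℝ} (hlam : 0 < lam) {a : ℕ → ℕ} (ha : ∀ n, 1 ≤ a n)
    {p K : ℕ} {c0 η : ℝ} (h0 : 0 < c0) (h1 : c0 < Real.pi) (hη0 : 0 < η) (hη1 : η < 1)
    (hm : 0 < lam * a (p + 1) - 4)
    {σ1 σ2 : ℂ → ℂ} {c2 : ℝ} (hc2 : |c2| < 2)
    (hL2 : IsLeaf lam (fun j => a (j + 1)) p K c0 c2 σ2)
    {θ1 θ2 ψ1 ψ2 : ℝ} (hθ1 : |θ1 - c0| < η * (Real.sin c0 / 2))
    (hθ2 : |θ2 - c0| < η * (Real.sin c0 / 2))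
    (hσ1 : σ1 θ1 = Cf lam θ1 * exp (ψ1 * I)) (hσ2 : σ2 θ2 = Cf lam θ2 * exp (ψ2 * I))
    {de θ' ψ' ε : ℝ} (h3 : |(θ1 - θ2) - θ' * de| ≤ ε * |de|)
    (h4 : |(ψ1 - ψ2) - ψ' * de| ≤ ε * |de|)
    (h5 : 0 ≤ θ' → ψ' ≤ 2 / lam * θ') (h6 : θ' ≤ 0 → 2 / lam * θ' ≤ ψ')
    (hε1 : ε ≤ |θ'|) (hε2 : ε * ((a (p + 1) : ℝ) + 1) ≤ (a (p + 1) - 4 / lam) * |θ'| / 2)
    (hsmall : (Bd lam c0 (a (p + 1)) / ((1 - η) * (Real.sin c0 / 2) / 2) * (|θ'| + ε) +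
      (|ψ'| + ε)) * |de| ≤ Real.pi) :
    2 / Real.pi * ((a (p + 1) - 4 / lam) * |θ'| / 2 * |de|) ≤ ‖σ1 θ1 - σ2 θ1‖ := by
  obtain ⟨hb0, hb1, hb2⟩ := ball_facts h0 h1
  set ρ := Real.sin c0 / 2 with hρ
  have hηρ : η * ρ < ρ := by nlinarith
  have hη1' : 0 < 1 - η := by linarith
  have hBd := Bd_pos hlam h0 h1 (a (p + 1))
  obtain ⟨ψ, hψ⟩ := hL2.angle hlam (fun n => ha _) h0 h1 hc2
  rw [← hρ] at hψ
  have hIn : ∀ t : ℝ, |t - c0| < η * ρ → |t - c0| < ρ := fun t ht => ht.trans hηρ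
  set s : Set ℝ := Ioo (c0 - η * ρ) (c0 + η * ρ) with hs
  have hmem : ∀ t : ℝ, |t - c0| < η * ρ ↔ t ∈ s := by
    intro t
    rw [hs, mem_Ioo, abs_lt]
    constructor <;> rintro ⟨h1, h2⟩ <;> constructor <;> linarith
  have hsconv : Convex ℝ s := convex_Ioo _ _
  have hd : ∀ t ∈ s, HasDerivAt ψ (deriv σ2 t / σ2 t).im t := fun t ht =>
    (hψ t (hIn t ((hmem t).mpr ht))).2.1
  have hcont : ContinuousOn ψ s := fun t ht => (hd t ht).continuousAt.continuousWithinAt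
  have hdiff : DifferentiableOn ℝ ψ (interior s) := by
    rw [isOpen_Ioo.interior_eq]
    exact fun t ht => (hd t ht).differentiableAt.differentiableWithinAt
  have hslope : ∀ t ∈ interior s, ((a (p + 1) : ℝ) - 2 / lam) ≤ deriv ψ t := by
    rw [isOpen_Ioo.interior_eq]
    intro t ht
    rw [(hd t ht).deriv]
    exact (hψ t (hIn t ((hmem t).mpr ht))).2.2.2.2
  have hmv1 := hsconv.mul_sub_le_image_sub_of_le_deriv hcont hdiff hslope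
  -- upper slope
  have hΛ : ∀ t ∈ s, ‖(deriv σ2 t / σ2 t).im‖ ≤ Bd lam c0 (a (p + 1)) / ((1 - η) * ρ / 2) := by
    intro t ht
    have ht' := (hmem t).mpr ht
    have h7 : ‖deriv σ2 t‖ ≤ Bd lam c0 (a (p + 1)) / ((1 - η) * ρ / 2) :=
      hL2.deriv_bound h0 h1 hη1 (Metric.ball_subset_closedBall (ofReal_mem_ball ht'))
    have h8 : 1 ≤ ‖σ2 t‖ := by
      rw [hL2.norm_real (hIn t ht')]
      exact one_le_Cf lam t
    rw [Real.norm_eq_abs]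
    refine (Complex.abs_im_le_norm _).trans ?_
    rw [norm_div]
    refine le_trans (div_le_self (norm_nonneg _) h8) h7
  have hmv2 : |ψ θ1 - ψ θ2| ≤ Bd lam c0 (a (p + 1)) / ((1 - η) * ρ / 2) * |θ1 - θ2| := by
    have := hsconv.norm_image_sub_le_of_norm_hasDerivWithin_le
      (f := ψ) (f' := fun t => (deriv σ2 t / σ2 t).im)
      (fun t ht => (hd t ht).hasDerivWithinAt) hΛ ((hmem θ2).mp hθ2) ((hmem θ1).mp hθ1)
    rwa [Real.norm_eq_abs, Real.norm_eq_abs] at this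
  -- the angle difference
  set D := ψ θ1 - ψ θ2 with hD
  have hD1 : 0 ≤ θ1 - θ2 → ((a (p + 1) : ℝ) - 2 / lam) * (θ1 - θ2) ≤ D := by
    intro h
    exact hmv1 θ2 ((hmem θ2).mp hθ2) θ1 ((hmem θ1).mp hθ1) (by linarith)
  have hD2 : θ1 - θ2 ≤ 0 → D ≤ ((a (p + 1) : ℝ) - 2 / lam) * (θ1 - θ2) := by
    intro h
    have := hmv1 θ1 ((hmem θ1).mp hθ1) θ2 ((hmem θ2).mp hθ2) (by linarith)
    rw [hD]
    linarith
  have hlower := lower_arith hlam hm hD1 hD2 h3 h4 h5 h6 hε1 hε2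
  have hupper : |D - (ψ1 - ψ2)| ≤ Real.pi := by
    refine le_trans ?_ hsmall
    have h9 : |D - (ψ1 - ψ2)| ≤ |D| + |ψ1 - ψ2| := abs_sub _ _
    have h10 : |θ1 - θ2| ≤ (|θ'| + ε) * |de| := by
      have : θ1 - θ2 = (θ1 - θ2 - θ' * de) + θ' * de := by ring
      rw [this]
      refine (abs_add_le _ _).trans ?_
      rw [abs_mul]
      linarith
    have h11 : |ψ1 - ψ2| ≤ (|ψ'| + ε) * |de| := by
      have : ψ1 - ψ2 = (ψ1 - ψ2 - ψ' * de) + ψ' * de := by ring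
      rw [this]
      refine (abs_add_le _ _).trans ?_
      rw [abs_mul]
      linarith
    have h12 : 0 ≤ Bd lam c0 (a (p + 1)) / ((1 - η) * ρ / 2) := by positivity
    have h13 := mul_le_mul_of_nonneg_left h10 h12
    calc |D - (ψ1 - ψ2)| ≤ |D| + |ψ1 - ψ2| := h9
      _ ≤ Bd lam c0 (a (p + 1)) / ((1 - η) * ρ / 2) * ((|θ'| + ε) * |de|) + (|ψ'| + ε) * |de| := by
          linarith
      _ = _ := by ring
  have hchord := chord_lower hupper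
  -- relate to σ
  have hσ2θ1 := (hψ θ1 (hIn θ1 hθ1)).1
  have hσ2θ2 := (hψ θ2 (hIn θ2 hθ2)).1
  have hexp2 : exp (ψ θ2 * I) = exp (ψ2 * I) := by
    have hC : (Cf lam θ2 : ℂ) ≠ 0 := by exact_mod_cast (Cf_pos lam θ2).ne'
    rw [hσ2θ2] at hσ2
    exact mul_left_cancel₀ hC hσ2
  have hkey : ‖σ1 θ1 - σ2 θ1‖ = Cf lam θ1 * ‖exp ((D - (ψ1 - ψ2) : ℝ) * I) - 1‖ := by
    rw [hσ1, hσ2θ1]
    have e1 : exp ((D - (ψ1 - ψ2) : ℝ) * I) = exp (ψ θ1 * I) * exp (-(ψ1 * I)) := by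
      have e2 : (((D - (ψ1 - ψ2) : ℝ) : ℂ) * I) =
          ψ θ1 * I + (-(ψ1 * I)) + (ψ2 * I + -(ψ θ2 * I)) := by
        rw [hD]; push_cast; ring
      rw [e2, exp_add, exp_add, exp_add (ψ2 * I), ← hexp2, ← exp_add (ψ θ2 * I)]
      simp
    have e3 : (Cf lam θ1 : ℂ) * exp (ψ1 * I) - Cf lam θ1 * exp (ψ θ1 * I) =
        -(Cf lam θ1 * exp (ψ1 * I) * (exp ((D - (ψ1 - ψ2) : ℝ) * I) - 1)) := by
      rw [e1]
      have e4 : exp (ψ1 * I) * exp (-(ψ1 * I)) = 1 := exp_mul_exp_neg _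
      linear_combination ((Cf lam θ1 : ℂ) * exp (ψ θ1 * I)) * e4
    rw [e3, norm_neg, norm_mul, norm_mul, Complex.norm_exp_ofReal_mul_I, mul_one,
      Complex.norm_real, Real.norm_eq_abs, abs_of_pos (Cf_pos _ _)]
  rw [hkey]
  have hC1 := one_le_Cf lam θ1
  have hpi := Real.pi_pos
  calc 2 / Real.pi * ((a (p + 1) - 4 / lam) * |θ'| / 2 * |de|)
      ≤ 2 / Real.pi * |D - (ψ1 - ψ2)| := mul_le_mul_of_nonneg_left hlower (by positivity)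
    _ ≤ ‖exp ((D - (ψ1 - ψ2) : ℝ) * I) - 1‖ := hchord
    _ ≤ Cf lam θ1 * ‖exp ((D - (ψ1 - ψ2) : ℝ) * I) - 1‖ :=
        le_mul_of_one_le_left (norm_nonneg _) hC1

end Pool.Agent.Sturm82
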