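import Pool.Agent.Sturm82.Gamma
import Pool.Agent.Sturm82.PkgHarnack

set_option autoImplicit false

namespace Pool.Agent.Sturm82

open Set Complex Topology

lemma Bd_pos {lam : ℝ} (hlam : 0 < lam) {c0 : ℝ} (h0 : 0 < c0) (h1 : c0 < Real.pi) (m : ℕ) :
    0 < Bd lam c0 m := by
  have := Real.sin_pos_of_pos_of_lt_pi h0 h1
  unfold Bd Tb
  positivity

/-- bound on the derivative of a leaf on a smaller disc -/
lemma IsLeaf.deriv_bound {lam : ℝ} {b : ℕ → ℕ} {p K : ℕ} {c0 c' : ℝ} (h0 : 0 < c0)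
    (h1 : c0 < Real.pi) {σ : ℂ → ℂ} (hL : IsLeaf lam b p K c0 c' σ) {η : ℝ} (hη1 : η < 1)
    {θ : ℂ} (hθ : θ ∈ Metric.closedBall (c0 : ℂ) (η * (Real.sin c0 / 2))) :
    ‖deriv σ θ‖ ≤ Bd lam c0 (b p) / ((1 - η) * (Real.sin c0 / 2) / 2) := by
  obtain ⟨hb0, hb1, hb2⟩ := ball_facts h0 h1
  set ρ := Real.sin c0 / 2 with hρ
  have hR : 0 < (1 - η) * ρ / 2 := by
    have : 0 < 1 - η := by linarith
    positivity
  have hsub : Metric.closedBall θ ((1 - η) * ρ / 2) ⊆ Metric.ball (c0 : ℂ) ρ := by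
    intro z hz
    rw [Metric.mem_closedBall] at hz hθ
    rw [Metric.mem_ball]
    have := dist_triangle z θ (c0 : ℂ)
    nlinarith
  apply norm_deriv_le_of_forall_mem_sphere_norm_le hR
  · refine ⟨fun z hz => ?_, fun z hz => ?_⟩
    · have hz' := hsub (Metric.ball_subset_closedBall hz)
      exact ((hL.diff z hz').differentiableAt (Metric.isOpen_ball.mem_nhds hz')).differentiableWithinAt
    · have hz' := hsub (Metric.closure_ball_subset_closedBall hz)
      exact ((hL.diff z hz').differentiableAt (Metric.isOpen_ball.mem_nhds hz')).continuousAt.continuousWithinAt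
  · intro z hz
    exact hL.bdd z (hsub (Metric.sphere_subset_closedBall hz))

lemma IsLeaf.norm_real {lam : ℝ} {b : ℕ → ℕ} {p K : ℕ} {c0 c' : ℝ} {σ : ℂ → ℂ}
    (hL : IsLeaf lam b p K c0 c' σ) {θ : ℝ} (hθ : |θ - c0| < Real.sin c0 / 2) :
    ‖σ θ‖ = Cf lam θ := by
  have := hL.real θ hθ
  rw [← Cf_sq, normSq_eq_norm_sq] at this
  exact (sq_eq_sq₀ (norm_nonneg _) (Cf_pos _ _).le).mp this

/-- arithmetic for the lower bound -/
lemma lower_arith {lam m D dθ dψ de θ' ψ' ε : ℝ} (hlam : 0 < lam) (hm : 0 < lam * m - 4)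
    (h1 : 0 ≤ dθ → (m - 2 / lam) * dθ ≤ D) (h2 : dθ ≤ 0 → D ≤ (m - 2 / lam) * dθ)
    (h3 : |dθ - θ' * de| ≤ ε * |de|) (h4 : |dψ - ψ' * de| ≤ ε * |de|)
    (h5 : 0 ≤ θ' → ψ' ≤ 2 / lam * θ') (h6 : θ' ≤ 0 → 2 / lam * θ' ≤ ψ')
    (hε1 : ε ≤ |θ'|) (hε2 : ε * (m + 1) ≤ (m - 4 / lam) * |θ'| / 2) :
    (m - 4 / lam) * |θ'| / 2 * |de| ≤ |D - dψ| := by
  have hl2 : 0 < 2 / lam := by positivity
  have hl4 : 4 / lam = 2 / lam + 2 / lam := by ring
  have hm4 : 0 < m - 4 / lam := by
    rw [sub_pos, div_lt_iff₀ hlam]; linarith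
  -- reduce to de ≥ 0
  wlog hde : 0 ≤ de generalizing D dθ dψ de
  · push Not at hde
    have := this (D := -D) (dθ := -dθ) (dψ := -dψ) (de := -de)
      (fun h => by have := h2 (by linarith); linarith) (fun h => by have := h1 (by linarith); linarith)
      (by rw [abs_neg]; have : -dθ - θ' * -de = -(dθ - θ' * de) := by ring
          rw [this, abs_neg]; exact h3)
      (by rw [abs_neg]; have : -dψ - ψ' * -de = -(dψ - ψ' * de) := by ring
          rw [this, abs_neg]; exact h4) (by linarith)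
    rw [abs_neg] at this
    have e : |-D - -dψ| = |D - dψ| := by
      rw [← abs_neg]; congr 1; ring
    rwa [e] at this
  rw [abs_of_nonneg hde] at h3 h4 ⊢
  have h3' := abs_le.mp h3
  have h4' := abs_le.mp h4
  rcases le_total 0 θ' with hθ | hθ
  · rw [abs_of_nonneg hθ] at hε1 hε2 ⊢
    have hdθ : (θ' - ε) * de ≤ dθ := by linarith
    have hdθ0 : 0 ≤ dθ := le_trans (mul_nonneg (by linarith) hde) hdθ
    have hD := h1 hdθ0
    have h7 : (m - 2 / lam) * ((θ' - ε) * de) ≤ (m - 2 / lam) * dθ :=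
      mul_le_mul_of_nonneg_left hdθ (by linarith)
    have h8 := h5 hθ
    have h9 : dψ ≤ (2 / lam * θ' + ε) * de := by nlinarith
    refine le_trans ?_ (le_abs_self _)
    have h10 : ε * (m + 1) * de ≤ (m - 4 / lam) * θ' / 2 * de :=
      mul_le_mul_of_nonneg_right hε2 hde
    have h11 : 0 ≤ 2 / lam * ε * de ∨ ε < 0 := by
      rcases lt_or_ge ε 0 with h | h
      · exact Or.inr h
      · left; positivity
    rcases h11 with h11 | h11
    · nlinarith
    · have : 0 ≤ -(ε * de) := by nlinarith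
      have h12 : ε * de ≤ 0 := by linarith
      have h13 : |dψ - ψ' * de| = 0 := le_antisymm (h4.trans h12) (abs_nonneg _)
      have h14 : |dθ - θ' * de| = 0 := le_antisymm (h3.trans h12) (abs_nonneg _)
      rw [abs_eq_zero] at h13 h14
      have h15 : dθ = θ' * de := by linarith
      have h16 : dψ = ψ' * de := by linarith
      rw [h15] at hD
      rw [h16]
      have h17 : ψ' * de ≤ 2 / lam * θ' * de := mul_le_mul_of_nonneg_right h8 hde
      have h18 : 0 ≤ (m - 4 / lam) * θ' * de := by positivity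
      nlinarith
  · rw [abs_of_nonpos hθ] at hε1 hε2 ⊢
    have hdθ : dθ ≤ (θ' + ε) * de := by linarith
    have hdθ0 : dθ ≤ 0 := le_trans hdθ (mul_nonpos_of_nonpos_of_nonneg (by linarith) hde)
    have hD := h2 hdθ0
    have h7 : (m - 2 / lam) * dθ ≤ (m - 2 / lam) * ((θ' + ε) * de) :=
      mul_le_mul_of_nonneg_left hdθ (by linarith)
    have h8 := h6 hθ
    have h9 : (2 / lam * θ' - ε) * de ≤ dψ := by nlinarith
    refine le_trans ?_ (neg_le_abs _)
    have h10 : ε * (m + 1) * de ≤ (m - 4 / lam) * -θ' / 2 * de :=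
      mul_le_mul_of_nonneg_right hε2 hde
    have h11 : 0 ≤ 2 / lam * ε * de ∨ ε < 0 := by
      rcases lt_or_ge ε 0 with h | h
      · exact Or.inr h
      · left; positivity
    rcases h11 with h11 | h11
    · nlinarith
    · have h12 : ε * de ≤ 0 := by nlinarith
      have h13 : |dψ - ψ' * de| = 0 := le_antisymm (h4.trans h12) (abs_nonneg _)
      have h14 : |dθ - θ' * de| = 0 := le_antisymm (h3.trans h12) (abs_nonneg _)
      rw [abs_eq_zero] at h13 h14
      have h15 : dθ = θ' * de := by linarith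
      have h16 : dψ = ψ' * de := by linarith
      rw [h15] at hD
      rw [h16]
      have h17 : 2 / lam * θ' * de ≤ ψ' * de := mul_le_mul_of_nonneg_right h8 hde
      have h18 : 0 ≤ (m - 4 / lam) * -θ' * de := by
        have : 0 ≤ -θ' := by linarith
        positivity
      nlinarith

/-- chord bound -/
lemma chord_lower {x : ℝ} (hx : |x| ≤ Real.pi) : 2 / Real.pi * |x| ≤ ‖exp (x * I) - 1‖ := by
  have h1 : ‖exp (x * I) - 1‖ = 2 * |Real.sin (x / 2)| := by
    have e1 : exp (x * I) - 1 = exp ((x / 2 : ℝ) * I) * (2 * I * sin ((x / 2 : ℝ) : ℂ)) := by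
      rw [← exp_sub_exp, mul_sub, ← exp_add, ← exp_add]
      push_cast
      ring_nf
      simp
      ring
    rw [e1, norm_mul, Complex.norm_exp_ofReal_mul_I, one_mul, norm_mul, norm_mul, norm_I, mul_one,
      ← ofReal_sin, Complex.norm_real, Real.norm_eq_abs]
    simp
  rw [h1]
  have hpi := Real.pi_pos
  have h2 : |Real.sin (x / 2)| = Real.sin (|x| / 2) := by
    rcases le_total 0 x with h | h
    · rw [abs_of_nonneg h] at hx ⊢
      exact abs_of_nonneg (Real.sin_nonneg_of_nonneg_of_le_pi (by linarith) (by linarith))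
    · rw [abs_of_nonpos h] at hx ⊢
      rw [neg_div, Real.sin_neg]
      have : 0 ≤ Real.sin (-x / 2) :=
        Real.sin_nonneg_of_nonneg_of_le_pi (by linarith) (by linarith)
      rw [neg_div, Real.sin_neg] at this
      exact abs_of_nonpos (by linarith)
  rw [h2]
  have h3 := Real.mul_le_sin (x := |x| / 2) (by positivity) (by linarith)
  have h4 : 2 / Real.pi * |x| = 2 * (2 / Real.pi * (|x| / 2)) := by ring
  rw [h4]
  linarith


lemma cos_antilip {c0 q1 q2 : ℝ} (h1 : |q1 - c0| ≤ Real.sin c0 / 2)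
    (h2 : |q2 - c0| ≤ Real.sin c0 / 2) :
    Real.sin c0 / 2 * |q1 - q2| ≤ |Real.cos q1 - Real.cos q2| := by
  wlog h : q1 ≤ q2 generalizing q1 q2
  · push Not at h
    have := this h2 h1 h.le
    rwa [abs_sub_comm q2, abs_sub_comm (Real.cos q2)] at this
  have hmvt := (convex_Icc (c0 - Real.sin c0 / 2) (c0 + Real.sin c0 / 2)).mul_sub_le_image_sub_of_le_deriv
    (f := fun t => -Real.cos t) (C := Real.sin c0 / 2) (by fun_prop) (by fun_prop) (by
      intro x hx
      rw [interior_Icc] at hx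
      have : |x - c0| ≤ Real.sin c0 / 2 := by
        rw [abs_le]; constructor <;> linarith [hx.1, hx.2]
      simpa using (sin_Icc_bound this).1) q1 (by
      have := abs_le.mp h1
      constructor <;> linarith) q2 (by
      have := abs_le.mp h2
      constructor <;> linarith) h
  rw [abs_sub_comm q1, abs_of_nonneg (by linarith : 0 ≤ q2 - q1)]
  refine hmvt.trans (le_trans (le_of_eq ?_) (le_abs_self _))
  ring

lemma exp_lip (q1 q2 : ℝ) : ‖exp (q1 * I) - exp (q2 * I)‖ ≤ |q1 - q2| := by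
  have e1 : exp (q1 * I) - exp (q2 * I) = exp (q2 * I) * (exp (I * ((q1 - q2 : ℝ) : ℂ)) - 1) := by
    rw [mul_sub, ← exp_add]
    push_cast
    ring_nf
  rw [e1, norm_mul, Complex.norm_exp_ofReal_mul_I, one_mul]
  have := Real.norm_exp_I_mul_ofReal_sub_one_le (x := q1 - q2)
  rwa [Real.norm_eq_abs] at this

/-- Lipschitz dependence of `σ` on the triple -/
lemma sgo_lip {c0 : ℝ} (h0 : 0 < c0) (h1 : c0 < Real.pi) {B : ℝ} (hB : 0 ≤ B) :
    ∃ C : ℝ, 0 < C ∧ ∀ (q1 q2 : ℝ) (V1 V2 : ℝ × ℝ × ℝ), |q1 - c0| ≤ Real.sin c0 / 2 →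
      |q2 - c0| ≤ Real.sin c0 / 2 → ‖V1‖ ≤ B → ‖V2‖ ≤ B → V1.2.1 = 2 * Real.cos q1 →
      V2.2.1 = 2 * Real.cos q2 →
      ‖sgo q1 (tmap ofRealHom V1) - sgo q2 (tmap ofRealHom V2)‖ ≤ C * dist V1 V2 ∧
      |q1 - q2| ≤ C * dist V1 V2 := by
  have hs := Real.sin_pos_of_pos_of_lt_pi h0 h1
  set sc := Real.sin c0 with hsc
  refine ⟨(2 + B / sc) / sc + 4 * B / sc ^ 3 + 1 / sc, by positivity, ?_⟩
  intro q1 q2 V1 V2 hq1 hq2 hV1 hV2 hy1 hy2
  set d := dist V1 V2 with hd
  have hd0 : 0 ≤ d := dist_nonneg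
  obtain ⟨x1, y1, w1⟩ := V1
  obtain ⟨x2, y2, w2⟩ := V2
  simp only at hy1 hy2
  have hdx : |x1 - x2| ≤ d := by
    rw [hd, Prod.dist_eq]
    exact le_max_left _ _
  have hdy : |y1 - y2| ≤ d := by
    rw [hd, Prod.dist_eq, Prod.dist_eq]
    exact le_trans (le_max_left _ _) (le_max_right _ _)
  have hdw : |w1 - w2| ≤ d := by
    rw [hd, Prod.dist_eq, Prod.dist_eq]
    exact le_trans (le_max_right _ _) (le_max_right _ _)
  have hx2 : |x2| ≤ B := le_trans (le_max_left _ _) hV2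
  have hw2 : |w2| ≤ B := le_trans (le_trans (le_max_right _ _) (le_max_right _ _)) hV2
  have hcos := cos_antilip hq1 hq2
  rw [← hsc] at hcos
  have hcosd : |Real.cos q1 - Real.cos q2| ≤ d / 2 := by
    have : Real.cos q1 - Real.cos q2 = (y1 - y2) / 2 := by rw [hy1, hy2]; ring
    rw [this, abs_div, abs_two]
    linarith
  have hq : |q1 - q2| ≤ d / sc := by
    rw [le_div_iff₀ hs]
    linarith
  have hs1 := (sin_Icc_bound hq1).1
  have hs2 := (sin_Icc_bound hq2).1
  rw [← hsc] at hs1 hs2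
  have hsd : |Real.sin q1 - Real.sin q2| ≤ d / sc := by
    have := Real.abs_sin_sub_sin_le q1 q2
    exact this.trans hq
  refine ⟨?_, ?_⟩
  · simp only [sgo, tmap, ofRealHom_eq_coe]
    set N1 : ℂ := x1 * exp (q1 * I) - w1 with hN1
    set N2 : ℂ := x2 * exp (q2 * I) - w2 with hN2
    have hsin1 : (Real.sin q1 : ℂ) ≠ 0 := by
      have : 0 < Real.sin q1 := by linarith
      exact_mod_cast this.ne'
    have hsin2 : (Real.sin q2 : ℂ) ≠ 0 := by
      have : 0 < Real.sin q2 := by linarith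
      exact_mod_cast this.ne'
    have e1 : N1 / (2 * I * sin (q1 : ℂ)) - N2 / (2 * I * sin (q2 : ℂ)) =
        (N1 - N2) / (2 * I * Real.sin q1) +
          N2 * ((Real.sin q2 - Real.sin q1 : ℝ) : ℂ) / (2 * I * (Real.sin q1 * Real.sin q2)) := by
      rw [← ofReal_sin, ← ofReal_sin]
      push_cast at hsin1 hsin2 ⊢
      field_simp
      ring
    have hNd : ‖N1 - N2‖ ≤ 2 * d + B * (d / sc) := by
      have e2 : N1 - N2 = ((x1 - x2 : ℝ) : ℂ) * exp (q1 * I) +
          x2 * (exp (q1 * I) - exp (q2 * I)) - ((w1 - w2 : ℝ) : ℂ) := by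
        rw [hN1, hN2]; push_cast; ring
      rw [e2]
      refine (norm_sub_le _ _).trans ?_
      refine (add_le_add_left (norm_add_le _ _) _).trans ?_
      rw [norm_mul, norm_mul, Complex.norm_exp_ofReal_mul_I, mul_one, Complex.norm_real,
        Complex.norm_real, Complex.norm_real, Real.norm_eq_abs, Real.norm_eq_abs, Real.norm_eq_abs]
      have h5 := exp_lip q1 q2
      have h6 : |x2| * ‖exp (q1 * I) - exp (q2 * I)‖ ≤ B * (d / sc) :=
        mul_le_mul hx2 (h5.trans hq) (norm_nonneg _) hB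
      linarith
    have hN2b : ‖N2‖ ≤ 2 * B := by
      rw [hN2]
      refine (norm_sub_le _ _).trans ?_
      rw [norm_mul, Complex.norm_exp_ofReal_mul_I, mul_one, Complex.norm_real, Complex.norm_real,
        Real.norm_eq_abs, Real.norm_eq_abs]
      linarith
    rw [e1]
    refine (norm_add_le _ _).trans ?_
    have hn2 : ‖(2 : ℂ)‖ = 2 := by simp
    have t1 : ‖(N1 - N2) / (2 * I * Real.sin q1)‖ ≤ (2 * d + B * (d / sc)) / sc := by
      rw [norm_div, norm_mul, norm_mul, norm_I, mul_one, hn2, Complex.norm_real, Real.norm_eq_abs,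
        abs_of_pos (by linarith : 0 < Real.sin q1)]
      apply div_le_div₀ (by positivity) hNd hs
      linarith
    have t2 : ‖N2 * ((Real.sin q2 - Real.sin q1 : ℝ) : ℂ) / (2 * I * (Real.sin q1 * Real.sin q2))‖ ≤
        4 * B * d / sc ^ 3 := by
      have e3 : (2 * I * ((Real.sin q1 : ℂ) * (Real.sin q2 : ℂ))) =
        2 * I * ((Real.sin q1 * Real.sin q2 : ℝ) : ℂ) := by push_cast; ring
      rw [e3, norm_div, norm_mul, norm_mul, norm_mul, norm_I, mul_one, hn2, Complex.norm_real,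
        Complex.norm_real, Real.norm_eq_abs, Real.norm_eq_abs]
      have h7 : sc / 2 * (sc / 2) ≤ Real.sin q1 * Real.sin q2 :=
        mul_le_mul hs1 hs2 (by positivity) (by linarith)
      rw [abs_of_pos (by nlinarith : 0 < Real.sin q1 * Real.sin q2)]
      have h8 : ‖N2‖ * |Real.sin q2 - Real.sin q1| ≤ 2 * B * (d / sc) := by
        rw [abs_sub_comm] at hsd
        exact mul_le_mul hN2b hsd (abs_nonneg _) (by positivity)
      have h9 : 2 * B * (d / sc) / (2 * (sc / 2 * (sc / 2))) = 4 * B * d / sc ^ 3 := by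
        field_simp
        ring
      rw [← h9]
      apply div_le_div₀ (by positivity) h8 (by positivity)
      linarith
    have t3 : (2 * d + B * (d / sc)) / sc + 4 * B * d / sc ^ 3 + 1 / sc * d =
        ((2 + B / sc) / sc + 4 * B / sc ^ 3 + 1 / sc) * d := by
      field_simp
    rw [← t3]
    have t4 : 0 ≤ 1 / sc * d := by positivity
    linarith
  · have t5 : d / sc = 1 / sc * d := by ring
    rw [t5] at hq
    refine hq.trans ?_
    have : 0 ≤ ((2 + B / sc) / sc + 4 * B / sc ^ 3) * d := by positivity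
    nlinarith

/-- `orb` is Lipschitz on bounded sets -/
lemma orb_lip (a : ℕ → ℕ) (k : ℕ) {R : ℝ} (hR : 0 ≤ R) :
    ∃ C B : ℝ, 0 < C ∧ 0 ≤ B ∧ ∀ g1 g2 : ℝ × ℝ × ℝ, ‖g1‖ ≤ R → ‖g2‖ ≤ R →
      dist (orb a g1 k) (orb a g2 k) ≤ C * dist g1 g2 ∧ ‖orb a g1 k‖ ≤ B := by
  have hc : ContDiff ℝ 1 (fun v : ℝ × ℝ × ℝ => orb a v k) := contDiff_orb a k
  have hcomp : IsCompact (Metric.closedBall (0 : ℝ × ℝ × ℝ) R) := isCompact_closedBall _ _
  obtain ⟨B, hB⟩ := hcomp.exists_bound_of_continuousOn hc.continuous.continuousOn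
  have hfd : Continuous (fderiv ℝ (fun v : ℝ × ℝ × ℝ => orb a v k)) := hc.continuous_fderiv (by norm_num)
  obtain ⟨C, hC⟩ := hcomp.exists_bound_of_continuousOn hfd.continuousOn
  refine ⟨max C 1, max B 0, by positivity, le_max_right _ _, fun g1 g2 hg1 hg2 => ?_⟩
  have hm1 : g1 ∈ Metric.closedBall (0 : ℝ × ℝ × ℝ) R := by simpa using hg1
  have hm2 : g2 ∈ Metric.closedBall (0 : ℝ × ℝ × ℝ) R := by simpa using hg2
  constructor
  · have := (convex_closedBall (0 : ℝ × ℝ × ℝ) R).norm_image_sub_le_of_norm_fderiv_le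
      (f := fun v : ℝ × ℝ × ℝ => orb a v k) (C := max C 1)
      (fun x _ => (hc.differentiable (by norm_num)).differentiableAt)
      (fun x hx => (hC x hx).trans (le_max_left _ _)) hm2 hm1
    rw [dist_eq_norm, dist_eq_norm]
    exact this
  · exact (hB g1 hm1).trans (le_max_left _ _)

end Pool.Agent.Sturm82
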