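import Pool.Agent.Sturm82.KeyIneq

set_option autoImplicit false

namespace Pool.Agent.Sturm82

open Set Complex Topology

lemma norm_cross {lam : ℝ} (hlam : 0 < lam) {g : ℝ × ℝ × ℝ} (h1 : |g.1| = 2)
    (hs : surf g = 4 + lam ^ 2) (h2 : 0 ≤ g.2.1) (h3 : g.2.1 < 2) : ‖g‖ ≤ lam + 4 := by
  obtain ⟨x, y, w⟩ := g
  simp only [surf] at h1 hs h2 h3
  have hx2 : x ^ 2 = 4 := by rw [← sq_abs, h1]; norm_num
  have hw : (w - x * y / 2) ^ 2 = lam ^ 2 := by nlinarith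
  have hw2 : |w - x * y / 2| = lam := by
    rw [← abs_of_pos hlam]
    exact (sq_eq_sq_iff_abs_eq_abs _ _).mp hw
  have hxy : |x * y / 2| ≤ 2 := by
    rw [abs_div, abs_mul, h1, abs_of_nonneg h2, abs_two]
    linarith
  have hw3 : |w| ≤ lam + 2 := by
    have : w = (w - x * y / 2) + x * y / 2 := by ring
    rw [this]
    refine (abs_add_le _ _).trans ?_
    linarith
  rw [Prod.norm_def, Prod.norm_def]
  simp only [Real.norm_eq_abs]
  refine max_le ?_ (max_le ?_ ?_)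
  · rw [h1]; linarith
  · rw [abs_of_nonneg h2]; linarith
  · linarith

lemma strict_pair {θ : ℝ → ℝ} {θ' e0 ε : ℝ} (h : HasStrictDerivAt θ θ' e0) (hε : 0 < ε) :
    ∃ δ > 0, ∀ e1 e2, |e1 - e0| < δ → |e2 - e0| < δ →
      |(θ e1 - θ e2) - θ' * (e1 - e2)| ≤ ε * |e1 - e2| := by
  have h1 := h.hasStrictFDerivAt.isLittleO.def hε
  rw [Metric.eventually_nhds_iff] at h1
  obtain ⟨δ, hδ, h2⟩ := h1
  refine ⟨δ, hδ, fun e1 e2 he1 he2 => ?_⟩
  have h3 := h2 (y := (e1, e2)) (by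
    rw [Prod.dist_eq]
    exact max_lt he1 he2)
  simp only [Real.norm_eq_abs, ContinuousLinearMap.toSpanSingleton_apply, smul_eq_mul] at h3
  rwa [mul_comm θ']

/-- **Key inequality.** -/
theorem key_ineq {lam : ℝ} (hlam : 0 < lam) {a : ℕ → ℕ} (ha : ∀ n, 1 ≤ a n) (h2 : 2 ≤ a 0) (p : ℕ)
    {η : ℝ} (hη0 : 0 < η) (hη1 : η < 1) (hm : 6 * Real.pi ≤ η * (lam * a (p + 1) - 4)) {e0 : ℝ}
    (he0 : |(Gv lam (fun j => a (j + 1)) p e0).2.1| < 2) :
    ∃ δ > 0, ∃ c > 0, ∀ K : ℕ, ∃ G : ℝ → ℝ × ℝ × ℝ,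
      (∀ e, |e - e0| < δ → |(orb (fun j => a (j + 1)) (2, e, e - lam) (p + K + 1)).2.1| < 2 →
        |(G e).1| = 2 ∧ surf (G e) = 4 + lam ^ 2 ∧ 0 ≤ (G e).2.1 ∧ (G e).2.1 < 2 ∧
        |(orb a (G e) (p + K + 2)).2.1| < 2) ∧
      (∀ e1 e2, |e1 - e0| < δ → |e2 - e0| < δ →
        |(orb (fun j => a (j + 1)) (2, e1, e1 - lam) (p + K + 1)).2.1| < 2 →
        |(orb (fun j => a (j + 1)) (2, e2, e2 - lam) (p + K + 1)).2.1| < 2 →
        c * |e1 - e2| ^ (((1 + η) / (1 - η)) ^ 2) ≤ dist (G e1) (G e2)) := by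
  set b : ℕ → ℕ := fun j => a (j + 1) with hbdef
  have hb : ∀ n, 1 ≤ b n := fun n => ha _
  obtain ⟨θ, ψ, θ', ψ', hθs, hψs, hθ0, hev, hθ'0, h5, h6⟩ := gamma_data hlam hb p he0
  set c0 := Real.arccos ((Gv lam b p e0).2.1 / 2) with hc0
  have hab := abs_lt.mp he0
  have h0 : 0 < c0 := by
    rw [hc0]
    exact Real.arccos_pos.mpr (by linarith)
  have h1 : c0 < Real.pi := by
    rw [hc0]
    have h7 : Real.arccos ((Gv lam b p e0).2.1 / 2) ≠ Real.pi := by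
      intro h
      rw [Real.arccos_eq_pi] at h
      linarith
    exact lt_of_le_of_ne (Real.arccos_le_pi _) h7
  obtain ⟨hb0, hb1, hb2⟩ := ball_facts h0 h1
  set ρ := Real.sin c0 / 2 with hρ
  have hpi := Real.pi_pos
  have hηρ2 : η * ρ / 2 < η * ρ := by
    have := mul_pos hη0 hb0
    linarith
  have hηρ1 : η * ρ < ρ := by nlinarith
  have hBd := Bd_pos hlam h0 h1 (a (p + 1))
  have hη1' : 0 < 1 - η := by linarith
  set m : ℝ := (a (p + 1) : ℝ) with hmdef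
  have hm1 : 0 < lam * m - 4 := by
    by_contra hcon
    push Not at hcon
    nlinarith
  have hm0 : 0 ≤ m := Nat.cast_nonneg _
  have hm4 : 0 < m - 4 / lam := by
    rw [sub_pos, div_lt_iff₀ hlam]; linarith
  have hθpos : 0 < |θ'| := abs_pos.mpr hθ'0
  set ε := min |θ'| ((m - 4 / lam) * |θ'| / 2 / (m + 1)) with hε
  have hε0 : 0 < ε := by
    rw [hε]; exact lt_min hθpos (by positivity)
  have hε1 : ε ≤ |θ'| := min_le_left _ _
  have hε2 : ε * (m + 1) ≤ (m - 4 / lam) * |θ'| / 2 := by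
    have : ε ≤ (m - 4 / lam) * |θ'| / 2 / (m + 1) := min_le_right _ _
    rwa [le_div_iff₀ (by positivity)] at this
  obtain ⟨δ1, hδ1, hpair1⟩ := strict_pair hθs hε0
  obtain ⟨δ2, hδ2, hpair2⟩ := strict_pair hψs hε0
  rw [Metric.eventually_nhds_iff] at hev
  obtain ⟨δ3, hδ3, hev⟩ := hev
  have hcont : ∀ᶠ e in 𝓝 e0, |θ e - c0| < η * ρ / 2 := by
    have hc : ContinuousAt θ e0 := hθs.hasDerivAt.continuousAt
    have hc2 : ContinuousAt (fun e => |θ e - c0|) e0 := (hc.sub continuousAt_const).abs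
    refine hc2.eventually_lt continuousAt_const ?_
    rw [hθ0, sub_self, abs_zero]
    positivity
  rw [Metric.eventually_nhds_iff] at hcont
  obtain ⟨δ4, hδ4, hcont⟩ := hcont
  set Λ := Bd lam c0 (a (p + 1)) / ((1 - η) * ρ / 2) with hΛ
  have hΛ0 : 0 < Λ := by positivity
  set Q := Λ * (|θ'| + ε) + (|ψ'| + ε) with hQ
  have hQ0 : 0 < Q := by positivity
  set δ := min (min δ1 δ2) (min (min δ3 δ4) (Real.pi / Q / 2)) with hδ
  have hδ0 : 0 < δ := by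
    rw [hδ]
    exact lt_min (lt_min hδ1 hδ2) (lt_min (lt_min hδ3 hδ4) (by positivity))
  have hl1 : δ ≤ δ1 := (min_le_left _ _).trans (min_le_left _ _)
  have hl2 : δ ≤ δ2 := (min_le_left _ _).trans (min_le_right _ _)
  have hl3 : δ ≤ δ3 := (min_le_right _ _).trans ((min_le_left _ _).trans (min_le_left _ _))
  have hl4 : δ ≤ δ4 := (min_le_right _ _).trans ((min_le_left _ _).trans (min_le_right _ _))
  have hl5 : δ ≤ Real.pi / Q / 2 := (min_le_right _ _).trans (min_le_right _ _)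
  -- constants
  obtain ⟨CL, BB, hCL, hBB, hlip⟩ := orb_lip a (p + 1) (R := lam + 4) (by positivity)
  obtain ⟨CB, hCB0, hCB⟩ := sgo_lip h0 h1 hBB
  set κ := ((1 + η) / (1 - η)) ^ 2 with hκ
  have hκ0 : 0 < κ := by positivity
  set A := 2 / Real.pi * ((m - 4 / lam) * |θ'| / 2) with hA
  have hA0 : 0 < A := by positivity
  set Ct := (CB + Λ * CB) * CL with hCt
  have hCt0 : 0 < Ct := by positivity
  set M := 2 * Bd lam c0 (a (p + 1)) with hM
  have hM0 : 0 < M := by positivity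
  refine ⟨δ, hδ0, M * (A / M) ^ κ / Ct, by positivity, fun K => ?_⟩
  have key : ∀ e, |e - e0| < δ → |(orb b (2, e, e - lam) (p + K + 1)).2.1| < 2 →
      ∃ (σ : ℂ → ℂ) (q : ℝ) (g : ℝ × ℝ × ℝ) (c' : ℝ), |c'| < 2 ∧ IsLeaf lam b p K c0 c' σ ∧
        σ (θ e) = Cf lam (θ e) * exp (ψ e * I) ∧ |q - c0| < η * ρ ∧
        Wc lam q (σ q) = tmap ofRealHom (orb a g (p + 1)) ∧ |g.1| = 2 ∧ surf g = 4 + lam ^ 2 ∧
        0 ≤ g.2.1 ∧ g.2.1 < 2 ∧ (orb a g (p + K + 2)).2.1 = c' := by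
    intro e he hN
    obtain ⟨h7, h8, h9⟩ := hev (y := e) (lt_of_lt_of_le he hl3)
    have h10 : |θ e - c0| < η * ρ / 2 := hcont (y := e) (lt_of_lt_of_le he hl4)
    have h11 : |θ e - c0| < ρ := h10.trans (hηρ2.trans hηρ1)
    have h12 : (Gv lam b p e).2.1 = 2 * Real.cos (θ e) := by
      have hab := abs_lt.mp h7
      rw [h8, Real.cos_arccos (by linarith) (by linarith)]
      ring
    have h13 : orb b (2, e, e - lam) (p + K + 1) = orb (fun j => b (p + j)) (Gv lam b p e) (K + 1) := by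
      rw [add_assoc, orb_add]
      rfl
    rw [h13] at hN
    obtain ⟨σ, hL, hW⟩ := exists_isLeaf hlam hb h0 h1 (surf_Gv lam b p e) h11 h12 hN
    obtain ⟨q, g, hq, hWq, hg1, hg2, hg3, hg4, hg5⟩ := exists_cross hlam ha h2 h0 h1 hη0 hη1 hm
      (e := e) h10 hN hL hW
    refine ⟨σ, q, g, _, hN, hL, ?_, hq, hWq, hg1, hg2, hg3, hg4, hg5⟩
    have hsin : Real.sin (θ e) ≠ 0 := by
      have := (sin_Icc_bound h11.le).1
      exact (by linarith : 0 < Real.sin (θ e)).ne'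
    have hsinc : sin ((θ e : ℝ) : ℂ) ≠ 0 := by
      rw [← ofReal_sin]; exact_mod_cast hsin
    have h14 : Wc lam (θ e) (σ (θ e)) = Wc lam (θ e) (Cf lam (θ e) * exp (ψ e * I)) := by
      rw [hW, Wc_real hsin, ← h9]
    have h15 := congrArg (sgo ((θ e : ℝ) : ℂ)) h14
    rwa [sgo_Wc hsinc, sgo_Wc hsinc] at h15
  choose! σ q g c' hkey using key
  refine ⟨g, fun e he hN => ?_, fun e1 e2 he1 he2 hN1 hN2 => ?_⟩
  · obtain ⟨k1, k2, k3, k4, k5, k6, k7, k8, k9, k10⟩ := hkey e he hN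
    exact ⟨k6, k7, k8, k9, by rw [k10]; exact k1⟩
  · rcases eq_or_ne e1 e2 with rfl | hne
    · simp [Real.zero_rpow hκ0.ne']
    obtain ⟨k1, k2, k3, k4, k5, k6, k7, k8, k9, k10⟩ := hkey e1 he1 hN1
    obtain ⟨l1, l2, l3, l4, l5, l6, l7, l8, l9, l10⟩ := hkey e2 he2 hN2
    have hde : 0 < |e1 - e2| := abs_pos.mpr (sub_ne_zero.mpr hne)
    have hde2 : |e1 - e2| ≤ 2 * δ := by
      have : e1 - e2 = (e1 - e0) - (e2 - e0) := by ring
      rw [this]
      refine (abs_sub _ _).trans ?_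
      linarith
    have hθ1 : |θ e1 - c0| < η * ρ :=
      lt_trans (hcont (y := e1) (lt_of_lt_of_le he1 hl4)) hηρ2
    have hθ2 : |θ e2 - c0| < η * ρ :=
      lt_trans (hcont (y := e2) (lt_of_lt_of_le he2 hl4)) hηρ2
    have hsmall : Q * |e1 - e2| ≤ Real.pi := by
      have h7 : Q * |e1 - e2| ≤ Q * (2 * (Real.pi / Q / 2)) :=
        mul_le_mul_of_nonneg_left (by linarith) hQ0.le
      have h8 : Q * (2 * (Real.pi / Q / 2)) = Real.pi := by field_simp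
      linarith
    have hlow := lower_start hlam ha (p := p) (K := K) h0 h1 hη0 hη1 hm1 l1 l2
      hθ1 hθ2 k3 l3
      (hpair1 e1 e2 (by linarith) (by linarith)) (hpair2 e1 e2 (by linarith) (by linarith))
      h5 h6 hε1 hε2 hsmall
    have hn1 : ‖g e1‖ ≤ lam + 4 := norm_cross hlam k6 k7 k8 k9
    have hn2 : ‖g e2‖ ≤ lam + 4 := norm_cross hlam l6 l7 l8 l9
    obtain ⟨hli, hV1⟩ := hlip _ _ hn1 hn2
    have hV2 := (hlip _ _ hn2 hn1).2
    have hpe := pair_estimate hlam ha (p := p) (K := K) h0 h1 hη0 hη1 k1 k2 l2 hθ1 k4 l4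
      (low := 2 / Real.pi * ((m - 4 / lam) * |θ'| / 2 * |e1 - e2|)) (by positivity) hlow
      hV1 hV2 k5 l5 hCB
    have h9 : 2 / Real.pi * ((m - 4 / lam) * |θ'| / 2 * |e1 - e2|) / M = A / M * |e1 - e2| := by
      rw [hA]; ring
    rw [← hM, h9, Real.mul_rpow (by positivity) hde.le] at hpe
    rw [div_mul_eq_mul_div, div_le_iff₀ hCt0]
    have h10 : (CB + Λ * CB) * dist (orb a (g e1) (p + 1)) (orb a (g e2) (p + 1)) ≤
        (CB + Λ * CB) * (CL * dist (g e1) (g e2)) :=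
      mul_le_mul_of_nonneg_left hli (by positivity)
    calc M * (A / M) ^ κ * |e1 - e2| ^ κ = M * ((A / M) ^ κ * |e1 - e2| ^ κ) := by ring
      _ ≤ _ := hpe
      _ ≤ _ := h10
      _ = dist (g e1) (g e2) * Ct := by rw [hCt]; ring

end Pool.Agent.Sturm82
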