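import Pool.Agent.Sturm82.LeafAlg

set_option autoImplicit false

namespace Pool.Agent.Sturm82

open Complex

lemma exists_tau {lam θ : ℝ} (hs : Real.sin θ ≠ 0) {u : ℝ × ℝ × ℝ} (h1 : u.1 = 2 * Real.cos θ)
    (hsf : surf u = 4 + lam ^ 2) : ∃ ψ, u = tau lam θ ψ := by
  obtain ⟨x, y, w⟩ := u
  simp only at h1
  subst h1
  simp only [surf] at hsf
  have hC := Cf_pos lam θ
  have hCS := Cf_sq lam θ
  have h2 : Sf lam θ ^ 2 * (4 * Real.sin θ ^ 2) = lam ^ 2 := by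
    unfold Sf; field_simp; ring
  have h3 := Real.sin_sq_add_cos_sq θ
  set c := y / (2 * Cf lam θ) with hc
  set s := (Real.cos θ * y - w) / (2 * Cf lam θ * Real.sin θ) with hs'
  have hcs : c ^ 2 + s ^ 2 = 1 := by
    have e : c ^ 2 + s ^ 2 = (y ^ 2 * Real.sin θ ^ 2 + (Real.cos θ * y - w) ^ 2) /
        (4 * Cf lam θ ^ 2 * Real.sin θ ^ 2) := by
      rw [hc, hs']; field_simp; ring
    rw [e, div_eq_one_iff_eq (by positivity), hCS]
    linear_combination hsf + (y ^ 2 - 4) * h3 - h2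
  have hn : ‖(⟨c, s⟩ : ℂ)‖ = 1 := by
    rw [← Real.sqrt_one, ← hcs, Complex.norm_def, Complex.normSq_mk]
    ring_nf
  have hz : (⟨c, s⟩ : ℂ) ≠ 0 := by
    intro h; rw [h] at hn; simp at hn
  refine ⟨Complex.arg ⟨c, s⟩, ?_⟩
  have hcos : Real.cos (Complex.arg ⟨c, s⟩) = c := by
    rw [Complex.cos_arg hz, hn]; simp
  have hsin : Real.sin (Complex.arg ⟨c, s⟩) = s := by
    rw [Complex.sin_arg, hn]; simp
  simp only [tau, Real.cos_add, hcos, hsin, Prod.mk.injEq, true_and]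
  constructor
  · rw [hc]; field_simp
  · rw [hc, hs']; field_simp; ring

lemma re_sin_pos {θ : ℂ} (h0 : 0 < θ.re) (h1 : θ.re < Real.pi) : 0 < (sin θ).re := by
  have e2 : (sin θ).re = Real.sin θ.re * Real.cosh θ.im := by
    rw [Complex.sin_eq]
    simp [← Complex.ofReal_cos, ← Complex.ofReal_sin,
      ← Complex.ofReal_cosh, ← Complex.ofReal_sinh]
  rw [e2]
  exact mul_pos (Real.sin_pos_of_pos_of_lt_pi h0 h1) (Real.cosh_pos _)

lemma sin_ne_of_re {θ : ℂ} (h0 : 0 < θ.re) (h1 : θ.re < Real.pi) : sin θ ≠ 0 := by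
  intro h
  have := re_sin_pos h0 h1
  rw [h] at this
  simp at this

lemma prod_ne {lam : ℝ} (hlam : 0 < lam) {θ : ℂ} (h0 : 0 < θ.re) (h1 : θ.re < Real.pi) :
    1 + (lam : ℂ) ^ 2 / (4 * sin θ ^ 2) ≠ 0 := by
  intro h
  have hs := sin_ne_of_re h0 h1
  have hre := re_sin_pos h0 h1
  have h4 : (4 * sin θ ^ 2) ≠ 0 := mul_ne_zero (by norm_num) (pow_ne_zero 2 hs)
  have h2 : 4 * sin θ ^ 2 + (lam : ℂ) ^ 2 = 0 := by
    have := congrArg (· * (4 * sin θ ^ 2)) h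
    simp only [zero_mul] at this
    rw [← this]
    field_simp
  generalize sin θ = w at *
  have h5 := congrArg Complex.im h2
  have h6 := congrArg Complex.re h2
  simp [pow_two] at h5 h6
  have him : w.im = 0 := by
    have : 8 * w.re * w.im = 0 := by linarith
    rcases mul_eq_zero.mp this with h | h
    · nlinarith
    · exact h
  rw [him] at h6
  nlinarith

lemma normSq_sgo_real {lam θ : ℝ} (hs : Real.sin θ ≠ 0) {u : ℝ × ℝ × ℝ}
    (h1 : u.2.1 = 2 * Real.cos θ) (hsf : surf u = 4 + lam ^ 2) :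
    normSq (sgo θ (tmap ofRealHom u)) = 1 + Sf lam θ ^ 2 := by
  obtain ⟨x, y, w⟩ := u
  simp only at h1
  subst h1
  simp only [surf] at hsf
  have h3 := Real.sin_sq_add_cos_sq θ
  simp only [sgo, tmap, ofRealHom_eq_coe]
  rw [map_div₀, normSq_mul, normSq_mul, normSq_I]
  have e1 : normSq ((x : ℂ) * exp (θ * I) - w) = 4 * Real.sin θ ^ 2 + lam ^ 2 := by
    rw [exp_mul_I, ← ofReal_cos, ← ofReal_sin]
    simp only [normSq_apply, sub_re, sub_im, mul_re, mul_im, add_re, add_im, ofReal_re, ofReal_im,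
      I_re, I_im]
    linear_combination hsf + (x ^ 2 - 4) * h3
  have e2 : normSq (2 : ℂ) = 4 := by
    rw [show (2 : ℂ) = ((2 : ℝ) : ℂ) by norm_num, normSq_ofReal]; norm_num
  have e3 : normSq (sin (θ : ℂ)) = Real.sin θ ^ 2 := by
    rw [← ofReal_sin, normSq_ofReal]; ring
  rw [e1, e2, e3, Sf]
  field_simp
  ring

/-- the constant `α = e^{iθ'}` -/
lemma exp_sub_inv_ne {θ' : ℝ} (hs : Real.sin θ' ≠ 0) :
    exp (θ' * I) - (exp (θ' * I))⁻¹ ≠ 0 := by
  rw [← exp_neg, exp_sub_exp, ← ofReal_sin]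
  exact mul_ne_zero (mul_ne_zero two_ne_zero I_ne_zero) (by exact_mod_cast hs)

lemma surf_alpha {lam θ' : ℝ} (hs : Real.sin θ' ≠ 0) :
    (exp (θ' * I) + (exp (θ' * I))⁻¹) ^ 2 -
      (Cf lam θ' : ℂ) ^ 2 * (exp (θ' * I) - (exp (θ' * I))⁻¹) ^ 2 = 4 + (lam : ℂ) ^ 2 := by
  rw [← exp_neg, exp_sub_exp, exp_add_exp, four_sin_sq, ← ofReal_sin, ← ofReal_cos]
  have h3 := Real.sin_sq_add_cos_sq θ'
  have hCS := Cf_sq lam θ'
  have h2 : Sf lam θ' ^ 2 * (4 * Real.sin θ' ^ 2) = lam ^ 2 := by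
    unfold Sf; field_simp; ring
  have : (2 * Real.cos θ') ^ 2 - Cf lam θ' ^ 2 * -(4 * Real.sin θ' ^ 2) = 4 + lam ^ 2 := by
    rw [hCS]; linear_combination h2 + 4 * h3
  exact_mod_cast this

lemma Vz_surf {lam θ' : ℝ} (hs : Real.sin θ' ≠ 0) {z : ℂ} (hz : z ≠ 0) :
    surf (Vz (exp (θ' * I)) (Cf lam θ') z) = 4 + (lam : ℂ) ^ 2 := by
  rw [← surf_alpha (lam := lam) hs]
  simp only [Vz, surf, mul_inv]
  have h1 : exp (θ' * I) * (exp (θ' * I))⁻¹ = 1 := mul_inv_cancel₀ (exp_ne_zero _)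
  have h2 : z * z⁻¹ = 1 := mul_inv_cancel₀ hz
  generalize (exp (θ' * I))⁻¹ = β at *
  generalize exp (θ' * I) = α at *
  generalize z⁻¹ = y at *
  have key : (α + β) ^ 2 + ((Cf lam θ' : ℂ) * (z + y)) ^ 2 + 
      ((Cf lam θ' : ℂ) * (α * z + β * y)) ^ 2 -
      (α + β) * ((Cf lam θ' : ℂ) * (z + y)) * ((Cf lam θ' : ℂ) * (α * z + β * y)) =
      (α + β) ^ 2 + (Cf lam θ' : ℂ) ^ 2 * ((z ^ 2 + y ^ 2) * (1 - α * β)
        + 2 * (z * y) + 2 * (z * y) * (α * β) - (z * y) * (α ^ 2 + β ^ 2)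
        - 2 * (α * β) * (z * y)) := by ring
  rw [key, h1, h2]
  linear_combination (-2 * (Cf lam θ' : ℂ) ^ 2) * h1

section leaf

variable {lam : ℝ} (hlam : 0 < lam) {a : ℕ → ℕ} (ha : ∀ n, 1 ≤ a n) (n K : ℕ)

lemma ball_re {c0 r : ℝ} (h0 : r ≤ c0) (h1 : c0 + r ≤ Real.pi) {θ : ℂ}
    (hθ : θ ∈ Metric.ball (c0 : ℂ) r) : 0 < θ.re ∧ θ.re < Real.pi := by
  rw [Metric.mem_ball, Complex.dist_eq] at hθ
  have h2 : |θ.re - c0| ≤ ‖θ - c0‖ := by
    have := Complex.abs_re_le_norm (θ - c0)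
    simpa using this
  have h3 := abs_lt.mp (lt_of_le_of_lt h2 hθ)
  constructor <;> linarith

lemma ball_im {c0 r : ℝ} {θ : ℂ}
    (hθ : θ ∈ Metric.ball (c0 : ℂ) r) : |θ.im| < r := by
  rw [Metric.mem_ball, Complex.dist_eq] at hθ
  have h2 : |θ.im| ≤ ‖θ - c0‖ := by
    have := Complex.abs_im_le_norm (θ - c0)
    simpa using this
  linarith

lemma ofReal_mem_ball {c0 r θ : ℝ} (h : |θ - c0| < r) : (θ : ℂ) ∈ Metric.ball (c0 : ℂ) r := by
  rw [Metric.mem_ball, Complex.dist_eq, ← ofReal_sub, Complex.norm_real]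
  exact h

/-- bound for `σ` through domination -/
lemma sigma_bound (ha : ∀ n, 1 ≤ a n) {c0 r : ℝ} (hr : 0 < r) (h0 : r ≤ c0)
    (h1 : c0 + r ≤ Real.pi) {s1 : ℝ}
    (hs1 : ∀ θ ∈ Metric.ball (c0 : ℂ) r, ‖(lam : ℂ) / (2 * sin θ)‖ ≤ s1) {θ σ : ℂ}
    (hθ : θ ∈ Metric.ball (c0 : ℂ) r) (hσ : σ ≠ 0) {R : ℝ} (hR : 0 ≤ R)
    (hK : ‖(orb (fun j => a (n + j)) (Wc lam θ σ) (K + 1)).2.1‖ ≤ R) :
    ‖σ‖ ≤ Real.exp (a n * r) * Tb (Real.exp r) s1 R := by
  have hre := ball_re h0 h1 hθ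
  have him := ball_im hθ
  have hsin := sin_ne_of_re hre.1 hre.2
  rw [orb_succ', step_Wc] at hK
  have hs10 : 0 ≤ s1 := le_trans (norm_nonneg _) (hs1 θ hθ)
  have hnorm : ∀ x : ℝ, ‖exp (x * θ * I)‖ = Real.exp (-(x * θ.im)) := by
    intro x
    rw [Complex.norm_exp]
    congr 1
    simp
  have hd := dom_bound (K := Real.exp r) (s1 := s1) (R := R) (α := exp (-(θ * I)))
    (p := σ * exp (-((a (n + 0) : ℕ) * θ * I))) (d := sgt lam θ σ * exp ((a (n + 0) : ℕ) * θ * I))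
    (s := (lam : ℂ) / (2 * sin θ)) (Real.one_le_exp hr.le) hs10 hR (exp_ne_zero _) ?_ ?_ ?_
    (hs1 θ hθ) (a := fun j => a (n + (j + 1))) (fun j => ha _) K hK
  · have h2 := hd.1
    simp only [add_zero] at h2
    rw [norm_mul] at h2
    have h3 : ‖exp (-((a n : ℕ) * θ * I))‖ = Real.exp (a n * θ.im) := by
      rw [Complex.norm_exp]
      congr 1
      simp
    rw [h3] at h2
    have h4 : ‖σ‖ = Real.exp (-(a n * θ.im)) * (‖σ‖ * Real.exp (a n * θ.im)) := by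
      rw [mul_comm ‖σ‖, ← mul_assoc, ← Real.exp_add]
      simp
    rw [h4]
    have h5 : Real.exp (-(a n * θ.im)) ≤ Real.exp (a n * r) := by
      apply Real.exp_le_exp.mpr
      have h6 : -θ.im ≤ r := by
        have := (abs_lt.mp him).1; linarith
      have h7 : (0 : ℝ) ≤ a n := Nat.cast_nonneg _
      nlinarith
    exact mul_le_mul h5 h2 (by positivity) (Real.exp_pos _).le
  · have := hnorm (-1)
    have e : exp (-(θ * I)) = exp (((-1 : ℝ) : ℂ) * θ * I) := by push_cast; ring_nf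
    rw [e, this]
    apply Real.exp_le_exp.mpr
    have := (abs_lt.mp him).2; linarith
  · have := hnorm (-1)
    have e : exp (-(θ * I)) = exp (((-1 : ℝ) : ℂ) * θ * I) := by push_cast; ring_nf
    rw [e, this, ← Real.exp_neg]
    apply Real.exp_le_exp.mpr
    have := (abs_lt.mp him).1; linarith
  · have e1 : exp (-((a (n + 0) : ℕ) * θ * I)) * exp ((a (n + 0) : ℕ) * θ * I) = 1 := by
      rw [← exp_add]; simp
    have h2 : σ * sgt lam θ σ = 1 + (lam : ℂ) ^ 2 / (4 * sin θ ^ 2) := by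
      unfold sgt; field_simp
    have h3 : ((lam : ℂ) / (2 * sin θ)) ^ 2 = (lam : ℂ) ^ 2 / (4 * sin θ ^ 2) := by
      rw [div_pow, mul_pow]; norm_num
    rw [h3, ← h2]
    linear_combination (σ * sgt lam θ σ) * e1

include hlam ha in
/-- **Leaf theorem**: the level set `x_N = const` is a holomorphic graph over a disc in `θ_n`. -/
theorem exists_leaf {c0 r : ℝ} (hr : 0 < r) (h0 : r ≤ c0)
    (h1 : c0 + r ≤ Real.pi) {s1 : ℝ}
    (hs1 : ∀ θ ∈ Metric.ball (c0 : ℂ) r, ‖(lam : ℂ) / (2 * sin θ)‖ ≤ s1)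
    {v : ℝ × ℝ × ℝ} (hsf : surf v = 4 + lam ^ 2) {θ0 : ℝ} (hθ0 : |θ0 - c0| < r)
    (hv : v.2.1 = 2 * Real.cos θ0)
    (hN : |(orb (fun j => a (n + j)) v (K + 1)).2.1| < 2) :
    ∃ σ : ℂ → ℂ, DifferentiableOn ℂ σ (Metric.ball (c0 : ℂ) r) ∧
      Wc lam θ0 (σ θ0) = tmap ofRealHom v ∧
      (∀ θ ∈ Metric.ball (c0 : ℂ) r, σ θ ≠ 0 ∧
        (orb (fun j => a (n + j)) (Wc lam θ (σ θ)) (K + 1)).2.1 =
          ((orb (fun j => a (n + j)) v (K + 1)).2.1 : ℝ) ∧
        ‖σ θ‖ ≤ Real.exp (a n * r) * Tb (Real.exp r) s1 2) ∧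
      (∀ θ : ℝ, |θ - c0| < r → normSq (σ θ) = 1 + Sf lam θ ^ 2) := by
  -- level N data
  set c' := (orb (fun j => a (n + j)) v (K + 1)).2.1 with hc'
  set θ' := Real.arccos (c' / 2) with hθ'
  have hcos' : Real.cos θ' = c' / 2 := by
    rw [hθ']
    apply Real.cos_arccos <;> [have := (abs_lt.mp hN).1; have := (abs_lt.mp hN).2] <;> linarith
  have hsin' : Real.sin θ' ≠ 0 := by
    rw [hθ', Real.sin_arccos]
    apply ne_of_gt
    apply Real.sqrt_pos.mpr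
    have := abs_lt.mp hN
    nlinarith
  set VN := orb (fun j => a (n + j)) v (K + 1) with hVN
  have hVNsf : surf VN = 4 + lam ^ 2 := by rw [hVN, surf_orb, hsf]
  obtain ⟨ψ', hψ'⟩ := exists_tau (lam := lam) (θ := θ') hsin' (u := flip VN)
    (by simp only [flip]; rw [hcos', ← hc']; ring) (by rw [surf_flip, hVNsf])
  set a' := rdig a (n + (K + 1)) with ha'
  have ha1 : ∀ j, 1 ≤ a' j := fun j => ha _
  have hback : orb a' (flip VN) (K + 1) = flip v := orb_rev a v n (K + 1)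
  -- initial point of the lift
  have hinit : leafF a' K (exp (θ' * I)) (Cf lam θ') (exp (ψ' * I)) = 2 * cos (θ0 : ℂ) := by
    rw [leafF_real, ← hψ']
    have h2 : (orb a' (flip VN) K).2.1 = (orb a' (flip VN) (K + 1)).1 := rfl
    rw [h2, hback]
    simp only [flip]
    rw [hv]
    push_cast
    rfl
  obtain ⟨g, hg1, hg2, hg3⟩ := exists_lift hlam hsin' ha1 K hr (fun θ hθ => ball_re h0 h1 hθ)
    (ofReal_mem_ball hθ0) (exp_ne_zero (ψ' * I)) hinit
  -- the level n triple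
  let V : ℂ → ℂ × ℂ × ℂ := fun θ => flip (orb a' (Vz (exp (θ' * I)) (Cf lam θ') (g θ)) (K + 1))
  have hV21 : ∀ θ ∈ Metric.ball (c0 : ℂ) r, (V θ).2.1 = 2 * cos θ := by
    intro θ hθ
    rw [← (hg3 θ hθ).2]
    rfl
  have hVsf : ∀ θ ∈ Metric.ball (c0 : ℂ) r, surf (V θ) = 4 + (lam : ℂ) ^ 2 := by
    intro θ hθ
    simp only [V]
    rw [surf_flip, surf_orb, Vz_surf hsin' (hg3 θ hθ).1]
  have hVN' : ∀ θ ∈ Metric.ball (c0 : ℂ) r,
      orb (fun j => a (n + j)) (V θ) (K + 1) = flip (Vz (exp (θ' * I)) (Cf lam θ') (g θ)) := by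
    intro θ hθ
    have := orb_rev' a (flip (Vz (exp (θ' * I)) (Cf lam θ') (g θ))) n (K + 1)
    rw [flip_flip] at this
    exact this
  have hW : ∀ θ ∈ Metric.ball (c0 : ℂ) r, sgo θ (V θ) ≠ 0 ∧ Wc lam θ (sgo θ (V θ)) = V θ := by
    intro θ hθ
    have hre := ball_re h0 h1 hθ
    exact Wc_sgo (sin_ne_of_re hre.1 hre.2) (hV21 θ hθ) (hVsf θ hθ) (prod_ne hlam hre.1 hre.2)
  have hlevel : ∀ θ ∈ Metric.ball (c0 : ℂ) r,
      (orb (fun j => a (n + j)) (Wc lam θ (sgo θ (V θ))) (K + 1)).2.1 = (c' : ℂ) := by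
    intro θ hθ
    rw [(hW θ hθ).2, hVN' θ hθ]
    simp only [flip, Vz]
    rw [← exp_neg, exp_add_exp, ← ofReal_cos, hcos']
    push_cast
    ring
  refine ⟨fun θ => sgo θ (V θ), ?_, ?_, ?_, ?_⟩
  · -- differentiability
    intro θ hθ
    have hre := ball_re h0 h1 hθ
    have hgd : DifferentiableAt ℂ g θ := (hg1 θ hθ).differentiableAt (Metric.isOpen_ball.mem_nhds hθ)
    have hz := (hg3 θ hθ).1
    have h2 : DifferentiableAt ℂ (fun t => Vz (exp (θ' * I)) (Cf lam θ') (g t)) θ :=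
      (((contDiffAt_Vz (exp_ne_zero _) hz (n := 1)).differentiableAt (by norm_num))).comp θ hgd
    have h3 : DifferentiableAt ℂ V θ := by
      have h4 : Differentiable ℂ (fun v : ℂ × ℂ × ℂ => flip (orb a' v (K + 1))) :=
        ((contDiff_flip (n := 1)).comp (contDiff_orb a' (K + 1))).differentiable (by norm_num)
      exact (h4 _).comp θ h2
    have h5 : DifferentiableAt ℂ (fun t => (V t).1) θ := differentiable_fst.differentiableAt.comp θ h3
    have h6 : DifferentiableAt ℂ (fun t => (V t).2.2) θ :=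
      (differentiable_snd.differentiableAt.comp (V θ) (differentiable_snd.differentiableAt)).comp θ h3
    have hsin := sin_ne_of_re hre.1 hre.2
    refine DifferentiableAt.differentiableWithinAt ?_
    unfold sgo
    refine DifferentiableAt.fun_div ?_ ?_ (mul_ne_zero (mul_ne_zero two_ne_zero I_ne_zero) hsin)
    · refine (h5.mul ?_).sub h6
      fun_prop
    · fun_prop
  · -- initial condition
    have hθ := ofReal_mem_ball hθ0
    simp only
    rw [(hW _ hθ).2]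
    simp only [V]
    rw [hg2, ← real_chart, ← orb_map, ← flip_map, ← hψ', hback, flip_flip]
  · intro θ hθ
    refine ⟨(hW θ hθ).1, hlevel θ hθ, ?_⟩
    refine sigma_bound n K ha hr h0 h1 hs1 hθ (hW θ hθ).1 zero_le_two ?_
    rw [hlevel θ hθ, Complex.norm_real]
    exact hN.le
  · intro θ hθr
    have hθ := ofReal_mem_ball hθr
    have hre := ball_re h0 h1 hθ
    have hz := (hg3 θ hθ).1
    have hval : leafF a' K (exp (θ' * I)) (Cf lam θ') (g θ) = ((2 * Real.cos θ : ℝ) : ℂ) := by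
      rw [(hg3 θ hθ).2]; push_cast; rfl
    have hunit := leafF_unit K ha1 hz (t := 2 * Real.cos θ) (by
      rw [abs_mul, abs_two]
      have := Real.abs_cos_le_one θ
      linarith) hval
    have hz1 : ‖g θ‖ = 1 := by
      rw [Complex.normSq_eq_norm_sq] at hunit
      have := norm_nonneg (g θ)
      nlinarith
    have hexp : g θ = exp ((Complex.arg (g θ) : ℝ) * I) := by
      have := Complex.norm_mul_exp_arg_mul_I (g θ)
      rw [hz1] at this
      simpa using this.symm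
    have hVreal : V θ = tmap ofRealHom
        (flip (orb a' (tau lam θ' (Complex.arg (g θ))) (K + 1))) := by
      simp only [V]
      rw [flip_map, orb_map, real_chart, ← hexp]
    simp only
    rw [hVreal]
    have hsin : Real.sin θ ≠ 0 := by
      have := sin_ne_of_re hre.1 hre.2
      rw [← ofReal_sin] at this
      exact_mod_cast this
    apply normSq_sgo_real hsin
    · have := hV21 θ hθ
      rw [hVreal] at this
      simp only [tmap, ofRealHom_eq_coe] at this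
      rw [← ofReal_cos] at this
      exact_mod_cast this
    · rw [surf_flip, surf_orb, surf_tau hsin']


include hlam ha in
/-- uniqueness of leaves -/
theorem leaf_unique {c0 r : ℝ} (h0 : r ≤ c0)
    (h1 : c0 + r ≤ Real.pi) {σ1 σ2 : ℂ → ℂ} (hc1 : ContinuousOn σ1 (Metric.ball (c0 : ℂ) r))
    (hc2 : ContinuousOn σ2 (Metric.ball (c0 : ℂ) r)) {c' : ℝ} (hc' : |c'| < 2)
    (h1σ : ∀ θ ∈ Metric.ball (c0 : ℂ) r, σ1 θ ≠ 0 ∧
        (orb (fun j => a (n + j)) (Wc lam θ (σ1 θ)) (K + 1)).2.1 = (c' : ℂ))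
    (h2σ : ∀ θ ∈ Metric.ball (c0 : ℂ) r, σ2 θ ≠ 0 ∧
        (orb (fun j => a (n + j)) (Wc lam θ (σ2 θ)) (K + 1)).2.1 = (c' : ℂ))
    {θ1 : ℂ} (hθ1 : θ1 ∈ Metric.ball (c0 : ℂ) r) (h3 : σ1 θ1 = σ2 θ1) :
    ∀ θ ∈ Metric.ball (c0 : ℂ) r, σ1 θ = σ2 θ := by
  set θ' := Real.arccos (c' / 2) with hθ'
  have hcos' : Real.cos θ' = c' / 2 := by
    rw [hθ']
    apply Real.cos_arccos <;> [have := (abs_lt.mp hc').1; have := (abs_lt.mp hc').2] <;> linarith
  have hsin' : Real.sin θ' ≠ 0 := by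
    rw [hθ', Real.sin_arccos]
    apply ne_of_gt
    apply Real.sqrt_pos.mpr
    have := abs_lt.mp hc'
    nlinarith
  set a' := rdig a (n + (K + 1)) with ha'
  have ha1 : ∀ j, 1 ≤ a' j := fun j => ha _
  have hα0 : exp (θ' * I) ≠ 0 := exp_ne_zero _
  have hα2 := exp_sub_inv_ne hsin'
  have hC0 : (Cf lam θ' : ℂ) ≠ 0 := by exact_mod_cast (Cf_pos lam θ').ne'
  -- the map to the chart at level N
  let U : (ℂ → ℂ) → ℂ → ℂ × ℂ × ℂ := fun σ θ => 
    flip (orb (fun j => a (n + j)) (Wc lam θ (σ θ)) (K + 1))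
  let G : (ℂ → ℂ) → ℂ → ℂ := fun σ θ => zof (exp (θ' * I)) (Cf lam θ') (U σ θ)
  have key : ∀ σ : ℂ → ℂ, ContinuousOn σ (Metric.ball (c0 : ℂ) r) →
      (∀ θ ∈ Metric.ball (c0 : ℂ) r, σ θ ≠ 0 ∧
        (orb (fun j => a (n + j)) (Wc lam θ (σ θ)) (K + 1)).2.1 = (c' : ℂ)) →
      ContinuousOn (G σ) (Metric.ball (c0 : ℂ) r) ∧
      (∀ θ ∈ Metric.ball (c0 : ℂ) r, G σ θ ≠ 0 ∧
        leafF a' K (exp (θ' * I)) (Cf lam θ') (G σ θ) = 2 * cos θ) ∧
      (∀ θ ∈ Metric.ball (c0 : ℂ) r, σ θ = 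
        sgo θ (flip (orb a' (Vz (exp (θ' * I)) (Cf lam θ') (G σ θ)) (K + 1)))) := by
    intro σ hc hσ
    have hU1 : ∀ θ ∈ Metric.ball (c0 : ℂ) r, 
        G σ θ ≠ 0 ∧ Vz (exp (θ' * I)) (Cf lam θ') (G σ θ) = U σ θ := by
      intro θ hθ
      have hre := ball_re h0 h1 hθ
      refine Vz_zof hα0 hα2 hC0 ?_ ?_
      · simp only [U, flip]
        rw [(hσ θ hθ).2, ← exp_neg, exp_add_exp, ← ofReal_cos, hcos']
        push_cast
        ring
      · rw [surf_alpha hsin']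
        simp only [U]
        rw [surf_flip, surf_orb, surf_Wc (sin_ne_of_re hre.1 hre.2) (hσ θ hθ).1]
    have hback : ∀ θ, orb a' (U σ θ) (K + 1) = flip (Wc lam θ (σ θ)) := fun θ =>
      orb_rev a (Wc lam θ (σ θ)) n (K + 1)
    refine ⟨?_, ?_, ?_⟩
    · have hcW : ContinuousOn (fun θ => Wc lam θ (σ θ)) (Metric.ball (c0 : ℂ) r) := by
        unfold Wc sgt
        have hsgt : ContinuousOn (fun θ => (1 + (lam : ℂ) ^ 2 / (4 * sin θ ^ 2)) / σ θ)
            (Metric.ball (c0 : ℂ) r) := by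
          refine ContinuousOn.div ?_ hc (fun θ hθ => (hσ θ hθ).1)
          refine continuousOn_const.add (ContinuousOn.div continuousOn_const ?_ ?_)
          · fun_prop
          · intro θ hθ
            have hre := ball_re h0 h1 hθ
            exact mul_ne_zero (by norm_num) (pow_ne_zero 2 (sin_ne_of_re hre.1 hre.2))
        refine (hc.add hsgt).prodMk (ContinuousOn.prodMk (by fun_prop) ((hc.mul ?_).add
          (hsgt.mul ?_)))
        · fun_prop
        · fun_prop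
      have hcU : ContinuousOn (U σ) (Metric.ball (c0 : ℂ) r) := by
        have h4 : Continuous (fun v : ℂ × ℂ × ℂ => flip (orb (fun j => a (n + j)) v (K + 1))) :=
          ((contDiff_flip (𝕜 := ℂ) (n := 0)).comp (contDiff_orb _ (K + 1))).continuous
        exact h4.comp_continuousOn hcW
      have h5 : Continuous (fun u : ℂ × ℂ × ℂ => zof (exp (θ' * I)) (Cf lam θ') u) := by
        unfold zof
        fun_prop
      exact h5.comp_continuousOn hcU
    · intro θ hθ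
      refine ⟨(hU1 θ hθ).1, ?_⟩
      unfold leafF
      rw [(hU1 θ hθ).2]
      have h2 : (orb a' (U σ θ) K).2.1 = (orb a' (U σ θ) (K + 1)).1 := rfl
      rw [h2, hback]
      rfl
    · intro θ hθ
      have hre := ball_re h0 h1 hθ
      rw [(hU1 θ hθ).2, hback, flip_flip, sgo_Wc (sin_ne_of_re hre.1 hre.2)]
  obtain ⟨k1, k2, k3⟩ := key σ1 hc1 h1σ
  obtain ⟨l1, l2, l3⟩ := key σ2 hc2 h2σ
  have hG1 : G σ1 θ1 = G σ2 θ1 := by
    simp only [G, U, h3]
  have := lift_unique hlam hsin' ha1 K (fun θ hθ => ball_re h0 h1 hθ) k1 l1 k2 l2 hθ1 hG1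
  intro θ hθ
  rw [k3 θ hθ, l3 θ hθ, this θ hθ]

end leaf

end Pool.Agent.Sturm82
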