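import Pool.Agent.Sturm82.Lift

set_option autoImplicit false

namespace Pool.Agent.Sturm82

open Complex

/-- partner of `σ`: `σ σ̃ = 1 + λ²/(4 sin² θ)` -/
noncomputable def sgt (lam : ℝ) (θ σ : ℂ) : ℂ := (1 + (lam : ℂ) ^ 2 / (4 * sin θ ^ 2)) / σ

/-- the triple with parameters `(θ, σ)` -/
noncomputable def Wc (lam : ℝ) (θ σ : ℂ) : ℂ × ℂ × ℂ :=
  (σ + sgt lam θ σ, 2 * cos θ, σ * exp (-(θ * I)) + sgt lam θ σ * exp (θ * I))

/-- recover `σ` from the triple -/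
noncomputable def sgo (θ : ℂ) (v : ℂ × ℂ × ℂ) : ℂ := (v.1 * exp (θ * I) - v.2.2) / (2 * I * sin θ)

lemma exp_sub_exp (θ : ℂ) : exp (θ * I) - exp (-(θ * I)) = 2 * I * sin θ := by
  rw [exp_mul_I, ← neg_mul, exp_mul_I, cos_neg, sin_neg]
  ring

lemma exp_add_exp (θ : ℂ) : exp (θ * I) + exp (-(θ * I)) = 2 * cos θ := by
  rw [exp_mul_I, ← neg_mul, exp_mul_I, cos_neg, sin_neg]
  ring

lemma exp_mul_exp_neg (θ : ℂ) : exp (θ * I) * exp (-(θ * I)) = 1 := by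
  rw [← exp_add]; simp

lemma sgo_Wc {lam : ℝ} {θ σ : ℂ} (hs : sin θ ≠ 0) : sgo θ (Wc lam θ σ) = σ := by
  have h2 : (2 * I * sin θ) ≠ 0 := mul_ne_zero (mul_ne_zero two_ne_zero I_ne_zero) hs
  unfold sgo Wc
  rw [div_eq_iff h2, ← exp_sub_exp]
  ring

lemma four_sin_sq (θ : ℂ) : (2 * I * sin θ) ^ 2 = -(4 * sin θ ^ 2) := by
  rw [mul_pow, mul_pow, I_sq]; ring

lemma sgo_mul {lam : ℝ} {θ : ℂ} {v : ℂ × ℂ × ℂ} (hs : sin θ ≠ 0) (hv : v.2.1 = 2 * cos θ)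
    (hsf : surf v = 4 + (lam : ℂ) ^ 2) :
    sgo θ v * ((v.2.2 - v.1 * exp (-(θ * I))) / (2 * I * sin θ)) =
      1 + (lam : ℂ) ^ 2 / (4 * sin θ ^ 2) := by
  obtain ⟨x, y, w⟩ := v
  simp only at hv
  subst hv
  simp only [surf] at hsf
  have h4 : (4 * sin θ ^ 2) ≠ 0 := mul_ne_zero (by norm_num) (pow_ne_zero 2 hs)
  unfold sgo
  simp only
  rw [div_mul_div_comm, ← pow_two, four_sin_sq, div_eq_iff (neg_ne_zero.mpr h4)]
  have h5 := exp_mul_exp_neg θ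
  have h6 := exp_add_exp θ
  have h7 := sin_sq_add_cos_sq θ
  have e1 : (x * exp (θ * I) - w) * (w - x * exp (-(θ * I))) =
      x * w * (exp (θ * I) + exp (-(θ * I))) - x ^ 2 * (exp (θ * I) * exp (-(θ * I))) - w ^ 2 := by
    ring
  rw [e1, h5, h6]
  have e2 : (1 + (lam : ℂ) ^ 2 / (4 * sin θ ^ 2)) * -(4 * sin θ ^ 2) =
      -(4 * sin θ ^ 2 + (lam : ℂ) ^ 2) := by
    field_simp
  rw [e2]
  linear_combination - hsf + 4 * h7

lemma Wc_sgo {lam : ℝ} {θ : ℂ} {v : ℂ × ℂ × ℂ} (hs : sin θ ≠ 0) (hv : v.2.1 = 2 * cos θ)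
    (hsf : surf v = 4 + (lam : ℂ) ^ 2) (hne : 1 + (lam : ℂ) ^ 2 / (4 * sin θ ^ 2) ≠ 0) :
    sgo θ v ≠ 0 ∧ Wc lam θ (sgo θ v) = v := by
  have h1 := sgo_mul hs hv hsf
  have h0 : sgo θ v ≠ 0 := by
    intro h
    rw [h, zero_mul] at h1
    exact hne h1.symm
  refine ⟨h0, ?_⟩
  have h2 : sgt lam θ (sgo θ v) = (v.2.2 - v.1 * exp (-(θ * I))) / (2 * I * sin θ) := by
    unfold sgt
    rw [div_eq_iff h0, ← h1]
    ring
  have h3 : (2 * I * sin θ) ≠ 0 := mul_ne_zero (mul_ne_zero two_ne_zero I_ne_zero) hs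
  unfold Wc
  rw [h2]
  obtain ⟨x, y, w⟩ := v
  simp only at hv
  subst hv
  unfold sgo
  simp only [Prod.mk.injEq, true_and]
  have h5 := exp_mul_exp_neg θ
  constructor
  · rw [← add_div, div_eq_iff h3, ← exp_sub_exp]
    ring
  · rw [div_mul_eq_mul_div, div_mul_eq_mul_div, ← add_div, div_eq_iff h3, ← exp_sub_exp]
    linear_combination (0 : ℂ) * h5

lemma surf_Wc {lam : ℝ} {θ σ : ℂ} (hs : sin θ ≠ 0) (hσ : σ ≠ 0) :
    surf (Wc lam θ σ) = 4 + (lam : ℂ) ^ 2 := by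
  have h1 : σ * sgt lam θ σ = 1 + (lam : ℂ) ^ 2 / (4 * sin θ ^ 2) := by
    unfold sgt; field_simp
  have h2 : (1 + (lam : ℂ) ^ 2 / (4 * sin θ ^ 2)) * (4 * sin θ ^ 2) =
      4 * sin θ ^ 2 + (lam : ℂ) ^ 2 := by field_simp
  have h5 := exp_mul_exp_neg θ
  have h6 := exp_add_exp θ
  have h7 := sin_sq_add_cos_sq θ
  have h8 : (exp (θ * I) - exp (-(θ * I))) ^ 2 = -(4 * sin θ ^ 2) := by
    rw [exp_sub_exp, four_sin_sq]
  simp only [surf, Wc]
  generalize sgt lam θ σ = τ at *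
  generalize exp (θ * I) = e at *
  generalize exp (-(θ * I)) = f at *
  rw [← h6]
  have key : (σ + τ) ^ 2 + (e + f) ^ 2 + (σ * f + τ * e) ^ 2 - (σ + τ) * (e + f) * (σ * f + τ * e)
      = (e + f) ^ 2 - (σ * τ) * (e - f) ^ 2 + (σ ^ 2 + τ ^ 2) * (1 - e * f) 
        + 2 * σ * τ * (1 - e * f) := by ring
  rw [key, h1, h8, h5, h6]
  linear_combination h2 + 4 * h7

lemma tseq_exp (p q θ : ℂ) (k : ℕ) :
    tseq (p + q) (2 * cos θ) (p * exp (-(θ * I)) + q * exp (θ * I)) k =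
      p * exp (-(k * θ * I)) + q * exp (k * θ * I) := by
  induction k using Nat.twoStepInduction with
  | zero => simp
  | one => simp
  | more k ih1 ih2 =>
    rw [tseq_succ_succ, ih1, ih2, ← exp_add_exp]
    push_cast
    have e1 : exp (-((k + 1) * θ * I)) = exp (-(k * θ * I)) * exp (-(θ * I)) := by
      rw [← exp_add]; ring_nf
    have e2 : exp ((k + 1) * θ * I) = exp (k * θ * I) * exp (θ * I) := by
      rw [← exp_add]; ring_nf
    have e3 : exp (-((k + 2) * θ * I)) = exp (-(k * θ * I)) * exp (-(θ * I)) ^ 2 := by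
      rw [← exp_nat_mul, ← exp_add]; push_cast; ring_nf
    have e4 : exp ((k + 2) * θ * I) = exp (k * θ * I) * exp (θ * I) ^ 2 := by
      rw [← exp_nat_mul, ← exp_add]; push_cast; ring_nf
    rw [e1, e2, e3, e4]
    have h5 := exp_mul_exp_neg θ
    linear_combination (p * exp (-(k * θ * I)) + q * exp (k * θ * I)) * h5

/-- one forward step in the chart -/
lemma step_Wc (lam : ℝ) (θ σ : ℂ) (m : ℕ) :
    step m (Wc lam θ σ) =
      (exp (-(θ * I)) + (exp (-(θ * I)))⁻¹,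
        σ * exp (-(m * θ * I)) + sgt lam θ σ * exp (m * θ * I),
        exp (-(θ * I)) * (σ * exp (-(m * θ * I))) +
          (exp (-(θ * I)))⁻¹ * (sgt lam θ σ * exp (m * θ * I))) := by
  have h1 := tseq_exp σ (sgt lam θ σ) θ
  simp only [step, Wc]
  rw [h1, h1]
  refine Prod.ext ?_ (Prod.ext rfl ?_)
  · simp only
    rw [← exp_neg, neg_neg, ← exp_add_exp]
    ring
  · simp only
    rw [← exp_neg, neg_neg]
    push_cast
    have e1 : exp (-((m + 1) * θ * I)) = exp (-(m * θ * I)) * exp (-(θ * I)) := by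
      rw [← exp_add]; ring_nf
    have e2 : exp ((m + 1) * θ * I) = exp (m * θ * I) * exp (θ * I) := by
      rw [← exp_add]; ring_nf
    rw [e1, e2]
    ring

/-- inverse of the complex chart `Vz` -/
noncomputable def zof (α C : ℂ) (u : ℂ × ℂ × ℂ) : ℂ := (u.2.2 - α⁻¹ * u.2.1) / (C * (α - α⁻¹))

lemma zof_Vz {α C z : ℂ} (hα : α ≠ 0) (hα2 : α - α⁻¹ ≠ 0) (hC : C ≠ 0) (hz : z ≠ 0) :
    zof α C (Vz α C z) = z := by
  unfold zof Vz
  simp only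
  rw [div_eq_iff (mul_ne_zero hC hα2), mul_inv]
  have h1 : α * α⁻¹ = 1 := mul_inv_cancel₀ hα
  have h2 : z * z⁻¹ = 1 := mul_inv_cancel₀ hz
  ring

lemma Vz_zof {α C : ℂ} {u : ℂ × ℂ × ℂ} (hα : α ≠ 0) (hα2 : α - α⁻¹ ≠ 0) (hC : C ≠ 0)
    (hu : u.1 = α + α⁻¹) (hsf : surf u = (α + α⁻¹) ^ 2 - C ^ 2 * (α - α⁻¹) ^ 2) :
    zof α C u ≠ 0 ∧ Vz α C (zof α C u) = u := by
  obtain ⟨x, y, w⟩ := u
  simp only at hu
  subst hu
  simp only [surf] at hsf
  have h1 : α * α⁻¹ = 1 := mul_inv_cancel₀ hα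
  have hprod : (w - α⁻¹ * y) * (α * y - w) = C ^ 2 * (α - α⁻¹) ^ 2 := by
    linear_combination - hsf - (y ^ 2) * h1
  have hz : zof α C (α + α⁻¹, y, w) * ((α * y - w) / (C * (α - α⁻¹))) = 1 := by
    unfold zof
    simp only
    rw [div_mul_div_comm, hprod, div_eq_one_iff_eq
      (mul_ne_zero (mul_ne_zero hC hα2) (mul_ne_zero hC hα2))]
    ring
  have hz0 : zof α C (α + α⁻¹, y, w) ≠ 0 := by
    intro h; rw [h, zero_mul] at hz; exact zero_ne_one hz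
  have hzi : (zof α C (α + α⁻¹, y, w))⁻¹ = (α * y - w) / (C * (α - α⁻¹)) :=
    inv_eq_of_mul_eq_one_right hz
  refine ⟨hz0, ?_⟩
  unfold Vz
  rw [mul_inv, hzi]
  unfold zof
  simp only [Prod.mk.injEq, true_and]
  constructor
  · rw [← add_div, mul_div_assoc', div_eq_iff (mul_ne_zero hC hα2)]
    ring
  · rw [mul_div_assoc', mul_div_assoc', ← add_div, mul_div_assoc',
      div_eq_iff (mul_ne_zero hC hα2)]
    linear_combination (C * w * (0 : ℂ)) * h1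

end Pool.Agent.Sturm82
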