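import Pool.Agent.Sturm82.Dom

set_option autoImplicit false

namespace Pool.Agent.Sturm82

open Matrix Topology Set

section smooth
variable {𝕜 : Type*} [NontriviallyNormedField 𝕜]

lemma contDiff_tseq (k : ℕ) {n : WithTop ℕ∞} :
    ContDiff 𝕜 n (fun v : 𝕜 × 𝕜 × 𝕜 => tseq v.1 v.2.1 v.2.2 k) := by
  induction k using Nat.twoStepInduction with
  | zero => simp only [tseq_zero]; fun_prop
  | one => simp only [tseq_one]; fun_prop
  | more k ih1 ih2 =>
    simp only [tseq_succ_succ]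
    exact ((contDiff_fst.comp contDiff_snd).mul ih2).sub ih1

lemma contDiff_step (a : ℕ) {n : WithTop ℕ∞} :
    ContDiff 𝕜 n (fun v : 𝕜 × 𝕜 × 𝕜 => step a v) := by
  unfold step
  exact (contDiff_fst.comp contDiff_snd).prodMk ((contDiff_tseq a).prodMk (contDiff_tseq (a + 1)))

lemma contDiff_orb (a : ℕ → ℕ) (k : ℕ) {n : WithTop ℕ∞} :
    ContDiff 𝕜 n (fun v : 𝕜 × 𝕜 × 𝕜 => orb a v k) := by
  induction k with
  | zero => exact contDiff_id
  | succ k ih =>
    simp only [orb_succ]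
    exact (contDiff_step (a k)).comp ih

lemma contDiff_flip {n : WithTop ℕ∞} : ContDiff 𝕜 n (fun v : 𝕜 × 𝕜 × 𝕜 => flip v) := by
  unfold flip
  fun_prop

lemma continuous_orb (a : ℕ → ℕ) (k : ℕ) : Continuous (fun v : 𝕜 × 𝕜 × 𝕜 => orb a v k) :=
  (contDiff_orb a k (n := 0)).continuous

end smooth

/-- leaf function in the complex chart -/
noncomputable def leafF (a : ℕ → ℕ) (k : ℕ) (α C z : ℂ) : ℂ := (orb a (Vz α C z) k).2.1

lemma contDiffAt_Vz {α C z : ℂ} (hα : α ≠ 0) (hz : z ≠ 0) {n : WithTop ℕ∞} :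
    ContDiffAt ℂ n (fun z => Vz α C z) z := by
  unfold Vz
  have h1 : α * z ≠ 0 := mul_ne_zero hα hz
  refine contDiffAt_const.prodMk ((contDiffAt_const.mul (contDiffAt_id.add ?_)).prodMk
    (contDiffAt_const.mul ((contDiffAt_const.mul contDiffAt_id).add ?_)))
  · exact contDiffAt_id.inv hz
  · exact (contDiffAt_const.mul contDiffAt_id).inv h1

lemma contDiffAt_leafF {a : ℕ → ℕ} {k : ℕ} {α C z : ℂ} (hα : α ≠ 0) (hz : z ≠ 0)
    {n : WithTop ℕ∞} : ContDiffAt ℂ n (leafF a k α C) z := by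
  unfold leafF
  have h1 := ((contDiff_orb a k).contDiffAt).comp z (contDiffAt_Vz (C := C) hα hz (n := n))
  exact (contDiff_fst.contDiffAt.comp z (contDiff_snd.contDiffAt.comp z h1))

/-- the slit plane avoiding `(-∞,-2] ∪ [2,∞)` -/
def Om : Set ℂ := {w | w.im = 0 → |w.re| < 2}

lemma real_chart {lam θ ψ : ℝ} :
    tmap Complex.ofRealHom (tau lam θ ψ) =
      Vz (Complex.exp (θ * Complex.I)) (Cf lam θ) (Complex.exp (ψ * Complex.I)) := by
  simp only [tmap, tau, Vz, Complex.ofRealHom_eq_coe, Prod.mk.injEq, ← Complex.exp_neg,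
    ← Complex.exp_add]
  refine ⟨?_, ?_, ?_⟩
  · push_cast
    rw [Complex.two_cos]
    ring_nf
  · push_cast
    rw [mul_comm 2, mul_assoc, Complex.two_cos]
    ring_nf
  · push_cast
    rw [mul_comm 2, mul_assoc, Complex.two_cos]
    ring_nf

lemma leafF_real {a : ℕ → ℕ} {k : ℕ} {lam θ ψ : ℝ} :
    leafF a k (Complex.exp (θ * Complex.I)) (Cf lam θ) (Complex.exp (ψ * Complex.I)) =
      (((orb a (tau lam θ ψ) k).2.1 : ℝ) : ℂ) := by
  unfold leafF
  rw [← real_chart, ← orb_map]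
  rfl

lemma normSq_exp_I (θ : ℝ) : Complex.normSq (Complex.exp (θ * Complex.I)) = 1 := by
  rw [Complex.normSq_eq_norm_sq, Complex.norm_exp_ofReal_mul_I]; norm_num

section leaf

variable {lam : ℝ} (hlam : 0 < lam) {θ' : ℝ} (hs : Real.sin θ' ≠ 0) {a : ℕ → ℕ}
  (ha : ∀ n, 1 ≤ a n) (k : ℕ)

/-- values in `[-2,2]` only on the unit circle -/
lemma leafF_unit {z : ℂ} (ha : ∀ n, 1 ≤ a n) (hz : z ≠ 0) {t : ℝ} (ht : |t| ≤ 2)
    (h : leafF a k (Complex.exp (θ' * Complex.I)) (Cf lam θ') z = (t : ℂ)) :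
    Complex.normSq z = 1 := by
  by_contra hne
  obtain ⟨f', h1, h2, h3⟩ := expand_ne (Cf_sq lam θ') (normSq_exp_I θ') ha k hz hne
  exact h3 t ht h

include hlam hs ha in
/-- derivative does not vanish over the slit plane -/
lemma leafF_deriv_ne {z : ℂ} (hz : z ≠ 0)
    (h : leafF a k (Complex.exp (θ' * Complex.I)) (Cf lam θ') z ∈ Om) :
    deriv (leafF a k (Complex.exp (θ' * Complex.I)) (Cf lam θ')) z ≠ 0 := by
  by_cases hne : Complex.normSq z = 1
  · -- unit circle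
    have hz1 : ‖z‖ = 1 := by
      rw [Complex.normSq_eq_norm_sq] at hne
      have := norm_nonneg z
      nlinarith
    obtain ⟨ψ, rfl⟩ : ∃ ψ : ℝ, z = Complex.exp (ψ * Complex.I) := by
      refine ⟨Complex.arg z, ?_⟩
      have := Complex.norm_mul_exp_arg_mul_I z
      rw [hz1] at this
      simpa using this.symm
    have hα : Complex.exp (θ' * Complex.I) ≠ 0 := Complex.exp_ne_zero _
    have hd : DifferentiableAt ℂ (leafF a k (Complex.exp (θ' * Complex.I)) (Cf lam θ'))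
        (Complex.exp (ψ * Complex.I)) :=
      (contDiffAt_leafF hα hz (n := 1)).differentiableAt (by norm_num)
    rw [leafF_real] at h
    have hlt := h (Complex.ofReal_im _)
    rw [Complex.ofReal_re] at hlt
    obtain ⟨F', h1, h2, -⟩ := lemmaD hlam (θ := fun _ => θ') (ψ := fun s => s)
      (hasDerivAt_const ψ θ') (hasDerivAt_id' ψ) hs le_rfl (by simp) ha k
    intro hzero
    have h3 : HasDerivAt (fun s : ℝ => leafF a k (Complex.exp (θ' * Complex.I)) (Cf lam θ')
        (Complex.exp (s * Complex.I))) 0 ψ := by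
      have h4 := hd.hasDerivAt
      rw [hzero] at h4
      have h5 : HasDerivAt (fun s : ℝ => Complex.exp (s * Complex.I))
          (Complex.exp (ψ * Complex.I) * (1 * Complex.I)) ψ :=
        ((Complex.ofRealCLM.hasDerivAt (x := ψ)).mul_const Complex.I).cexp
      have h6 := h4.scomp ψ h5
      simpa [Function.comp_def] using h6
    have h6 : HasDerivAt (fun s : ℝ => (((orb a (tau lam θ' s) k).2.1 : ℝ) : ℂ)) (F' : ℂ) ψ :=
      h1.ofReal_comp
    have h7 : (fun s : ℝ => leafF a k (Complex.exp (θ' * Complex.I)) (Cf lam θ')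
        (Complex.exp (s * Complex.I))) = fun s : ℝ => (((orb a (tau lam θ' s) k).2.1 : ℝ) : ℂ) := by
      funext s
      exact leafF_real
    rw [h7] at h3
    have h8 := h6.unique h3
    have h9 : F' = 0 := by exact_mod_cast h8
    have h10 := h2 hlt
    rw [h9, abs_zero] at h10
    have h11 : 0 < 4 - (orb a (tau lam θ' ψ) k).2.1 ^ 2 := by
      have := abs_lt.mp hlt
      nlinarith
    have h12 : 0 < √(4 - (orb a (tau lam θ' ψ) k).2.1 ^ 2) *
        (Cf lam θ' * (1 - sig0 lam θ' * 0)) := by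
      have := Cf_pos lam θ'
      have h13 := Real.sqrt_pos.mpr h11
      simp only [mul_zero, sub_zero, mul_one]
      positivity
    linarith
  · obtain ⟨f', h1, h2, h3⟩ := expand_ne (Cf_sq lam θ') (normSq_exp_I θ') ha k hz hne
    have : deriv (leafF a k (Complex.exp (θ' * Complex.I)) (Cf lam θ')) z = f' := h1.deriv
    rw [this]
    exact h2

end leaf


section cover

variable {lam : ℝ} (hlam : 0 < lam) {θ' : ℝ} (hs : Real.sin θ' ≠ 0) {a : ℕ → ℕ}
  (ha : ∀ n, 1 ≤ a n) (k : ℕ)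

include ha in
lemma leafF_bound (lam θ' : ℝ) {R : ℝ} (hR : 0 ≤ R) : ∃ T : ℝ, 0 < T ∧ ∀ z : ℂ, z ≠ 0 →
    ‖leafF a k (Complex.exp (θ' * Complex.I)) (Cf lam θ') z‖ ≤ R → T⁻¹ ≤ ‖z‖ ∧ ‖z‖ ≤ T := by
  have hα : ‖Complex.exp (θ' * Complex.I)‖ = 1 := Complex.norm_exp_ofReal_mul_I θ'
  have hC1 := one_le_Cf lam θ'
  have hCpos := Cf_pos lam θ'
  refine ⟨Tb 1 |Sf lam θ'| R, by unfold Tb; positivity, ?_⟩
  intro z hz hzR
  have h := dom_bound (K := 1) (s1 := |Sf lam θ'|) (R := R) (α := Complex.exp (θ' * Complex.I))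
    (p := Cf lam θ' * z) (d := Cf lam θ' * z⁻¹) (s := Sf lam θ') le_rfl (abs_nonneg _) hR
    (Complex.exp_ne_zero _) hα.le (by rw [hα, inv_one]) ?_ (by simp) ha k ?_
  · obtain ⟨h1, h2⟩ := h
    have hzpos : 0 < ‖z‖ := norm_pos_iff.mpr hz
    rw [norm_mul, Complex.norm_real, Real.norm_eq_abs, abs_of_pos hCpos] at h1 h2
    rw [norm_inv] at h2
    have hT : 0 < Tb 1 |Sf lam θ'| R := by unfold Tb; positivity
    constructor
    · rw [inv_le_comm₀ hT hzpos]
      refine le_trans ?_ h2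
      exact le_mul_of_one_le_left (by positivity) hC1
    · refine le_trans ?_ h1
      exact le_mul_of_one_le_left hzpos.le hC1
  · have := Cf_sq lam θ'
    have h3 : (Cf lam θ' : ℂ) ^ 2 = 1 + (Sf lam θ' : ℂ) ^ 2 := by exact_mod_cast this
    rw [← h3]
    field_simp
  · refine le_trans (le_of_eq ?_) hzR
    unfold leafF Vz
    congr 6
    · ring
    · rw [mul_inv]; ring

/-- the leaf function on the punctured plane -/
noncomputable def pF (a : ℕ → ℕ) (k : ℕ) (lam θ' : ℝ) (z : {z : ℂ // z ≠ 0}) : ℂ :=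
  leafF a k (Complex.exp (θ' * Complex.I)) (Cf lam θ') z.1

lemma continuous_pF (a : ℕ → ℕ) (k : ℕ) (lam θ' : ℝ) : Continuous (pF a k lam θ') := by
  rw [continuous_iff_continuousAt]
  intro z
  have h := (contDiffAt_leafF (a := a) (k := k) (C := (Cf lam θ' : ℂ))
    (Complex.exp_ne_zero (θ' * Complex.I)) z.2 (n := 0)).continuousAt
  exact h.comp continuous_subtype_val.continuousAt

include ha in
lemma isClosedMap_pF (lam θ' : ℝ) : IsProperMap (pF a k lam θ') := by
  rw [isProperMap_iff_isCompact_preimage]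
  refine ⟨continuous_pF a k lam θ', ?_⟩
  intro K hK
  obtain ⟨R, hR⟩ := hK.isBounded.exists_norm_le
  obtain ⟨T, hT, hb⟩ := leafF_bound ha k lam θ' (R := max R 0) (le_max_right _ _)
  rw [Subtype.isCompact_iff]
  have hann : IsCompact (Metric.closedBall (0 : ℂ) T \ Metric.ball 0 T⁻¹) :=
    (isCompact_closedBall _ _).diff Metric.isOpen_ball
  refine hann.of_isClosed_subset (s := _) ?_ ?_
  · have hcont : ContinuousOn (leafF a k (Complex.exp (θ' * Complex.I)) (Cf lam θ'))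
        (Metric.closedBall (0 : ℂ) T \ Metric.ball 0 T⁻¹) := by
      intro z hz
      have hz0 : z ≠ 0 := by
        rintro rfl
        apply hz.2
        simpa using hT
      exact ((contDiffAt_leafF (Complex.exp_ne_zero _) hz0 (n := 0)).continuousAt).continuousWithinAt
    have h1 := hcont.preimage_isClosed_of_isClosed hann.isClosed hK.isClosed
    convert! h1 using 1
    ext z
    constructor
    · rintro ⟨⟨w, hw⟩, hwK, rfl⟩
      have hwK' : leafF a k (Complex.exp (θ' * Complex.I)) (Cf lam θ') w ∈ K := hwK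
      obtain ⟨h2, h3⟩ := hb w hw ((hR _ hwK').trans (le_max_left _ _))
      exact ⟨⟨by simpa using h3, by simpa using h2⟩, hwK'⟩
    · rintro ⟨⟨h2, h3⟩, h4⟩
      have hz0 : z ≠ 0 := by
        rintro rfl
        apply h3
        simpa using hT
      exact ⟨⟨z, hz0⟩, h4, rfl⟩
  · rintro z ⟨⟨w, hw⟩, hwK, rfl⟩
    have hwK' : leafF a k (Complex.exp (θ' * Complex.I)) (Cf lam θ') w ∈ K := hwK
    obtain ⟨h2, h3⟩ := hb w hw ((hR _ hwK').trans (le_max_left _ _))
    exact ⟨by simpa using h3, by simpa using h2⟩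

include hlam hs ha in
lemma isLocalHomeomorphOn_pF : IsLocalHomeomorphOn (pF a k lam θ') (pF a k lam θ' ⁻¹' Om) := by
  have h1 : IsLocalHomeomorph (Subtype.val : {z : ℂ // z ≠ 0} → ℂ) :=
    (isOpen_ne.isOpenEmbedding_subtypeVal).isLocalHomeomorph
  have h2 : IsLocalHomeomorphOn (leafF a k (Complex.exp (θ' * Complex.I)) (Cf lam θ'))
      {z | z ≠ 0 ∧ leafF a k (Complex.exp (θ' * Complex.I)) (Cf lam θ') z ∈ Om} := by
    intro z hz
    have hst := ((contDiffAt_leafF (a := a) (k := k) (C := (Cf lam θ' : ℂ))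
      (Complex.exp_ne_zero (θ' * Complex.I)) hz.1 (n := 1)).hasStrictDerivAt (by norm_num))
    have hne := leafF_deriv_ne hlam hs ha k hz.1 hz.2
    exact ⟨_, (hst.hasStrictFDerivAt_equiv hne).mem_toOpenPartialHomeomorph_source, by simp⟩
  refine IsLocalHomeomorphOn.comp (t := {z | z ≠ 0 ∧ leafF a k (Complex.exp (θ' * Complex.I))
    (Cf lam θ') z ∈ Om}) h2 ?_ ?_
  · exact (isLocalHomeomorph_iff_isLocalHomeomorphOn_univ.mp h1).mono (Set.subset_univ _)
  · intro z hz
    exact ⟨z.2, hz⟩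

include hlam hs ha in
theorem isCoveringMapOn_pF : IsCoveringMapOn (pF a k lam θ') Om := by
  have hprop := isClosedMap_pF ha k lam θ'
  have hloc := isLocalHomeomorphOn_pF hlam hs ha k
  refine hprop.isClosedMap.isCoveringMapOn_of_isLocalHomeomorphOn ?_ hloc
  intro w hw
  have hc : IsCompact (pF a k lam θ' ⁻¹' {w}) := hprop.isCompact_preimage isCompact_singleton
  refine hc.finite ?_
  refine IsDiscrete.of_openPartialHomeomorph (pF a k lam θ') subset_rfl ?_
  intro e he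
  have hmem : e ∈ pF a k lam θ' ⁻¹' Om := by
    have : pF a k lam θ' e = w := he
    simp only [Set.mem_preimage, this]
    exact hw
  obtain ⟨φ, h1, h2⟩ := hloc e hmem
  exact ⟨φ, h1, h2.symm⟩

end cover


section lift

variable {lam : ℝ} (hlam : 0 < lam) {θ' : ℝ} (hs : Real.sin θ' ≠ 0) {a : ℕ → ℕ}
  (ha : ∀ n, 1 ≤ a n) (k : ℕ)

lemma two_cos_mem_Om {θ : ℂ} (h0 : 0 < θ.re) (h1 : θ.re < Real.pi) :
    2 * Complex.cos θ ∈ Om := by
  intro him
  have hsin : 0 < Real.sin θ.re := Real.sin_pos_of_pos_of_lt_pi h0 h1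
  have e1 : (2 * Complex.cos θ).im = -(2 * (Real.sin θ.re * Real.sinh θ.im)) := by
    rw [show (2 : ℂ) = ((2 : ℝ) : ℂ) by norm_num, Complex.im_ofReal_mul, Complex.cos_eq]
    simp [Complex.cos_ofReal_re, ← Complex.ofReal_cos, ← Complex.ofReal_sin,
      ← Complex.ofReal_cosh, ← Complex.ofReal_sinh]
  have e2 : (2 * Complex.cos θ).re = 2 * (Real.cos θ.re * Real.cosh θ.im) := by
    rw [show (2 : ℂ) = ((2 : ℝ) : ℂ) by norm_num, Complex.re_ofReal_mul, Complex.cos_eq]
    simp [← Complex.ofReal_cos, ← Complex.ofReal_sin,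
      ← Complex.ofReal_cosh, ← Complex.ofReal_sinh]
  rw [e1] at him
  have h3 : Real.sinh θ.im = 0 := by
    have h4 : 2 * (Real.sin θ.re * Real.sinh θ.im) = 0 := by linarith
    rcases mul_eq_zero.mp h4 with h | h
    · norm_num at h
    · rcases mul_eq_zero.mp h with h | h
      · exact absurd h hsin.ne'
      · exact h
  have h5 : θ.im = 0 := Real.sinh_eq_zero.mp h3
  rw [e2, h5, Real.cosh_zero, mul_one, abs_lt]
  have h6 : Real.cos θ.re < 1 := by
    nlinarith [Real.sin_sq_add_cos_sq θ.re, sq_pos_of_pos hsin, Real.cos_le_one θ.re]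
  have h7 : -1 < Real.cos θ.re := by
    nlinarith [Real.sin_sq_add_cos_sq θ.re, sq_pos_of_pos hsin, Real.neg_one_le_cos θ.re]
  constructor <;> linarith

include hlam hs ha in
/-- existence of holomorphic inverse branches on discs in the strip -/
theorem exists_lift {c : ℂ} {r : ℝ} (hr : 0 < r)
    (hB : ∀ θ ∈ Metric.ball c r, 0 < θ.re ∧ θ.re < Real.pi) {θ0 z0 : ℂ}
    (hθ0 : θ0 ∈ Metric.ball c r) (hz0 : z0 ≠ 0)
    (h0 : leafF a k (Complex.exp (θ' * Complex.I)) (Cf lam θ') z0 = 2 * Complex.cos θ0) :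
    ∃ g : ℂ → ℂ, DifferentiableOn ℂ g (Metric.ball c r) ∧ g θ0 = z0 ∧
      ∀ θ ∈ Metric.ball c r, g θ ≠ 0 ∧
        leafF a k (Complex.exp (θ' * Complex.I)) (Cf lam θ') (g θ) = 2 * Complex.cos θ := by
  have hcov := isCoveringMapOn_pF hlam hs ha k
  have : ContractibleSpace (Metric.ball c r) := Metric.contractibleSpace_ball hr
  have : LocallyPathConnectedSpace (Metric.ball c r) := Metric.isOpen_ball.locallyPathConnectedSpace
  let f : C(Metric.ball c r, ℂ) := ⟨fun θ => 2 * Complex.cos θ.1, by fun_prop⟩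
  obtain ⟨F, ⟨hF0, hF1⟩, -⟩ := hcov.existsUnique_continuousMap_lifts f (a₀ := ⟨θ0, hθ0⟩)
    (e₀ := ⟨z0, hz0⟩) h0 (fun θ => two_cos_mem_Om (hB θ.1 θ.2).1 (hB θ.1 θ.2).2)
  classical
  let g : ℂ → ℂ := fun θ => if h : θ ∈ Metric.ball c r then (F ⟨θ, h⟩).1 else 0
  have hg : ∀ θ (h : θ ∈ Metric.ball c r), g θ = (F ⟨θ, h⟩).1 := fun θ h => dif_pos h
  have hlift : ∀ θ ∈ Metric.ball c r, g θ ≠ 0 ∧
        leafF a k (Complex.exp (θ' * Complex.I)) (Cf lam θ') (g θ) = 2 * Complex.cos θ := by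
    intro θ hθ
    rw [hg θ hθ]
    exact ⟨(F ⟨θ, hθ⟩).2, congrFun hF1 ⟨θ, hθ⟩⟩
  have hcont : ContinuousOn g (Metric.ball c r) := by
    rw [continuousOn_iff_continuous_domRestrict]
    have : (Metric.ball c r).domRestrict g = fun θ => (F θ).1 := by
      funext θ
      exact hg θ.1 θ.2
    rw [this]
    exact continuous_subtype_val.comp F.continuous
  refine ⟨g, ?_, ?_, hlift⟩
  · intro θ hθ
    have hnh : Metric.ball c r ∈ 𝓝 θ := Metric.isOpen_ball.mem_nhds hθ
    obtain ⟨h1, h2⟩ := hlift θ hθ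
    have hst := ((contDiffAt_leafF (a := a) (k := k) (C := (Cf lam θ' : ℂ))
      (Complex.exp_ne_zero (θ' * Complex.I)) h1 (n := 1)).hasStrictDerivAt (by norm_num))
    have hne := leafF_deriv_ne hlam hs ha k h1
      (by rw [h2]; exact two_cos_mem_Om (hB θ hθ).1 (hB θ hθ).2)
    -- local inverse
    have hga : ContinuousAt g θ := hcont.continuousAt hnh
    have hinv := hst.eventually_left_inverse hne
    have h3 : ∀ᶠ t in 𝓝 θ, (hst.localInverse _ _ _ hne)
        (leafF a k (Complex.exp (θ' * Complex.I)) (Cf lam θ') (g t)) = g t := hga.eventually hinv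
    have h4 : ∀ᶠ t in 𝓝 θ, g t = (hst.localInverse _ _ _ hne) (2 * Complex.cos t) := by
      filter_upwards [h3, hnh] with t ht htb
      rw [← ht, (hlift t htb).2, ← (hlift t htb).2, ht]
    have h5 : HasStrictDerivAt (hst.localInverse _ _ _ hne)
        (deriv (leafF a k (Complex.exp (θ' * Complex.I)) (Cf lam θ')) (g θ))⁻¹ 
        (2 * Complex.cos θ) := by
      have := hst.to_localInverse hne
      rwa [h2] at this
    have h6 : DifferentiableAt ℂ (fun t => (hst.localInverse _ _ _ hne) (2 * Complex.cos t)) θ := by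
      have h7 : DifferentiableAt ℂ (fun t => 2 * Complex.cos t) θ := by fun_prop
      exact DifferentiableAt.comp θ h5.hasDerivAt.differentiableAt h7
    exact (h6.congr_of_eventuallyEq h4).differentiableWithinAt
  · rw [hg θ0 hθ0, hF0]

include hlam hs ha in
/-- uniqueness of lifts -/
theorem lift_unique {c : ℂ} {r : ℝ}
    (hB : ∀ θ ∈ Metric.ball c r, 0 < θ.re ∧ θ.re < Real.pi) {g1 g2 : ℂ → ℂ}
    (hc1 : ContinuousOn g1 (Metric.ball c r)) (hc2 : ContinuousOn g2 (Metric.ball c r))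
    (h1 : ∀ θ ∈ Metric.ball c r, g1 θ ≠ 0 ∧
        leafF a k (Complex.exp (θ' * Complex.I)) (Cf lam θ') (g1 θ) = 2 * Complex.cos θ)
    (h2 : ∀ θ ∈ Metric.ball c r, g2 θ ≠ 0 ∧
        leafF a k (Complex.exp (θ' * Complex.I)) (Cf lam θ') (g2 θ) = 2 * Complex.cos θ)
    {θ1 : ℂ} (hθ1 : θ1 ∈ Metric.ball c r) (h3 : g1 θ1 = g2 θ1) :
    ∀ θ ∈ Metric.ball c r, g1 θ = g2 θ := by
  have hcov := isCoveringMapOn_pF hlam hs ha k
  have hpre : IsPreconnected (Metric.ball c r) := (convex_ball c r).isPreconnected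
  have : PreconnectedSpace (Metric.ball c r) := Subtype.preconnectedSpace hpre
  have hcm := hcov.isCoveringMap_restrictPreimage
  let G1 : Metric.ball c r → (pF a k lam θ') ⁻¹' Om := fun θ => ⟨⟨g1 θ.1, (h1 θ.1 θ.2).1⟩, by
    have : pF a k lam θ' ⟨g1 θ.1, (h1 θ.1 θ.2).1⟩ = 2 * Complex.cos θ.1 := (h1 θ.1 θ.2).2
    simp only [Set.mem_preimage, this]
    exact two_cos_mem_Om (hB θ.1 θ.2).1 (hB θ.1 θ.2).2⟩
  let G2 : Metric.ball c r → (pF a k lam θ') ⁻¹' Om := fun θ => ⟨⟨g2 θ.1, (h2 θ.1 θ.2).1⟩, by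
    have : pF a k lam θ' ⟨g2 θ.1, (h2 θ.1 θ.2).1⟩ = 2 * Complex.cos θ.1 := (h2 θ.1 θ.2).2
    simp only [Set.mem_preimage, this]
    exact two_cos_mem_Om (hB θ.1 θ.2).1 (hB θ.1 θ.2).2⟩
  have hG1 : Continuous G1 := by
    refine Continuous.subtype_mk (Continuous.subtype_mk ?_ _) _
    exact continuousOn_iff_continuous_domRestrict.mp hc1
  have hG2 : Continuous G2 := by
    refine Continuous.subtype_mk (Continuous.subtype_mk ?_ _) _
    exact continuousOn_iff_continuous_domRestrict.mp hc2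
  have heq := hcm.eq_of_comp_eq hG1 hG2 (by
    funext θ
    apply Subtype.ext
    have e1 : pF a k lam θ' ⟨g1 θ.1, (h1 θ.1 θ.2).1⟩ = 2 * Complex.cos θ.1 := (h1 θ.1 θ.2).2
    have e2 : pF a k lam θ' ⟨g2 θ.1, (h2 θ.1 θ.2).1⟩ = 2 * Complex.cos θ.1 := (h2 θ.1 θ.2).2
    simp only [Function.comp, Set.restrictPreimage_coe]
    exact e1.trans e2.symm) ⟨θ1, hθ1⟩ (by
      apply Subtype.ext
      apply Subtype.ext
      exact h3)
  intro θ hθ
  have := congrFun heq ⟨θ, hθ⟩
  have h4 := congrArg (fun x => (x.1.1 : ℂ)) this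
  exact h4

end lift

end Pool.Agent.Sturm82
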