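import Pool.Agent.Sturm82.Defs

set_option autoImplicit false
open MeasureTheory Set

namespace Pool.Agent.Sturm82.Meas

/-! ### Growth of `tseq` and the escape lemma -/

lemma tseq_abs_step (x y z : ℝ) (k : ℕ) :
    |y| * |tseq x y z (k+1)| - |tseq x y z k| ≤ |tseq x y z (k+2)| := by
  have h : tseq x y z (k+2) = y * tseq x y z (k+1) - tseq x y z k := rfl
  rw [h, ← abs_mul]
  have := abs_sub_abs_le_abs_sub (y * tseq x y z (k+1)) (tseq x y z k)
  linarith

lemma tseq_incr_step {x y z : ℝ} (hy : 2 ≤ |y|) {k : ℕ}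
    (h : |tseq x y z k| < |tseq x y z (k+1)|) :
    |tseq x y z (k+1)| < |tseq x y z (k+2)| := by
  have h1 := tseq_abs_step x y z k
  have h2 : 2 * |tseq x y z (k+1)| ≤ |y| * |tseq x y z (k+1)| :=
    mul_le_mul_of_nonneg_right hy (abs_nonneg _)
  linarith

lemma tseq_incr {x y z : ℝ} (hy : 2 ≤ |y|) (h : |x| < |z|) (k : ℕ) :
    |tseq x y z k| < |tseq x y z (k+1)| := by
  induction k with
  | zero => exact h
  | succ k ih => exact tseq_incr_step hy ih

lemma tseq_ge_one {x y z : ℝ} (hy : 2 ≤ |y|) (h : |x| < |z|) (k : ℕ) :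
    |z| ≤ |tseq x y z (k+1)| := by
  induction k with
  | zero => exact le_rfl
  | succ k ih => exact ih.trans (tseq_incr hy h (k+1)).le

lemma tseq_last_incr {x y z : ℝ} (hy : 2 ≤ |y|) (m : ℕ)
    (h : |x| < |tseq x y z (m+1)|) : |tseq x y z m| < |tseq x y z (m+1)| := by
  induction m with
  | zero => exact h
  | succ m ih =>
    by_contra hc
    push Not at hc
    have h1 := ih (lt_of_lt_of_le h hc)
    exact absurd (tseq_incr_step hy h1) (not_lt.mpr hc)

/-- The escape region. -/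
def Esc (v : ℝ × ℝ × ℝ) : Prop := 2 < |v.1| ∧ 2 < |v.2.1| ∧ |v.1| < |v.2.2| ∧ |v.2.1| < |v.2.2|

lemma Esc_step {v : ℝ × ℝ × ℝ} (hv : Esc v) {a : ℕ} (ha : 1 ≤ a) : Esc (step a v) := by
  obtain ⟨x, y, z⟩ := v
  obtain ⟨h1, h2, h3, h4⟩ := hv
  simp only at h1 h2 h3 h4
  obtain ⟨b, rfl⟩ : ∃ b, a = b + 1 := ⟨a - 1, by omega⟩
  have hy : 2 ≤ |y| := h2.le
  have e1 := tseq_ge_one hy h3 b
  have e2 := tseq_incr hy h3 (b+1)
  refine ⟨h2, ?_, ?_, ?_⟩
  · show 2 < |tseq x y z (b+1)|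
    linarith
  · show |y| < |tseq x y z (b+1+1)|
    linarith
  · exact e2

lemma Esc_entry {v : ℝ × ℝ × ℝ} {a : ℕ} (ha : 1 ≤ a) (hx : |v.1| ≤ 2) (hy : 2 < |v.2.1|)
    (hs : 2 < |(step a v).2.1|) : Esc (step a v) := by
  obtain ⟨x, y, z⟩ := v
  obtain ⟨b, rfl⟩ : ∃ b, a = b + 1 := ⟨a - 1, by omega⟩
  simp only at hx hy
  have hs' : 2 < |tseq x y z (b+1)| := hs
  have e1 := tseq_last_incr hy.le b (lt_of_le_of_lt hx hs')
  have e2 := tseq_abs_step x y z b
  have e3 : (|y| - 1) * |tseq x y z (b+1)| < |tseq x y z (b+2)| := by nlinarith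
  have e4 : (|y| - 1) * 2 ≤ (|y| - 1) * |tseq x y z (b+1)| :=
    mul_le_mul_of_nonneg_left hs'.le (by linarith)
  have e5 : 1 * |tseq x y z (b+1)| ≤ (|y| - 1) * |tseq x y z (b+1)| :=
    mul_le_mul_of_nonneg_right (by linarith) (abs_nonneg _)
  refine ⟨hy, hs, ?_, ?_⟩
  · show |y| < |tseq x y z (b+1+1)|
    linarith
  · show |tseq x y z (b+1)| < |tseq x y z (b+1+1)|
    linarith

lemma orb_fst (a : ℕ → ℕ) (v : ℝ × ℝ × ℝ) (n : ℕ) : (orb a v (n+1)).1 = (orb a v n).2.1 := rfl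

lemma Esc_orb {lam : ℝ} {a : ℕ → ℕ} (ha : ∀ n, 1 ≤ a n) {E : ℝ} (n : ℕ)
    (h1 : 2 < |X lam a E n|) (h2 : 2 < |X lam a E (n+1)|) :
    Esc (orb a (2, E, E - lam) (n+1)) := by
  induction n with
  | zero =>
    refine Esc_entry (v := (2, E, E - lam)) (ha 0) ?_ h1 h2
    simp
  | succ n ih =>
    by_cases hn : 2 < |X lam a E n|
    · exact Esc_step (ih hn h1) (ha _)
    · push Not at hn
      exact Esc_entry (v := orb a (2, E, E - lam) (n+1)) (ha (n+1)) hn h1 h2

/-- The `n`-th approximation. -/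
def BS (lam : ℝ) (a : ℕ → ℕ) (n : ℕ) : Set ℝ :=
  {E | |X lam a E n| ≤ 2 ∨ |X lam a E (n+1)| ≤ 2}

lemma Sig_eq (lam : ℝ) (a : ℕ → ℕ) : Sig lam a = ⋂ n, BS lam a n := by
  ext E; simp [Sig, BS]

lemma BS_succ_subset {lam : ℝ} {a : ℕ → ℕ} (ha : ∀ n, 1 ≤ a n) (n : ℕ) :
    BS lam a (n+1) ⊆ BS lam a n := by
  intro E hE
  by_contra hc
  have hc' : 2 < |X lam a E n| ∧ 2 < |X lam a E (n+1)| := by
    simpa [BS, not_or, not_le] using hc
  have h1 := Esc_orb ha n hc'.1 hc'.2
  have h2 : Esc (orb a (2, E, E - lam) (n+2)) := Esc_step h1 (ha _)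
  have h3 : 2 < |X lam a E (n+2)| := h2.2.1
  rcases hE with h | h
  · exact absurd h (not_le.mpr hc'.2)
  · exact absurd h (not_le.mpr h3)

lemma BS_antitone {lam : ℝ} {a : ℕ → ℕ} (ha : ∀ n, 1 ≤ a n) : Antitone (BS lam a) :=
  antitone_nat_of_succ_le (fun n => BS_succ_subset ha n)

lemma tseq_continuous {x y z : ℝ → ℝ} (hx : Continuous x) (hy : Continuous y) (hz : Continuous z)
    (k : ℕ) : Continuous (fun E => tseq (x E) (y E) (z E) k) ∧
      Continuous (fun E => tseq (x E) (y E) (z E) (k+1)) := by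
  induction k with
  | zero => exact ⟨hx, hz⟩
  | succ k ih => exact ⟨ih.2, (hy.mul ih.2).sub ih.1⟩

lemma orb_continuous (lam : ℝ) (a : ℕ → ℕ) (n : ℕ) :
    Continuous (fun E : ℝ => orb a (2, E, E - lam) n) := by
  induction n with
  | zero => exact continuous_const.prodMk (continuous_id.prodMk (continuous_id.sub continuous_const))
  | succ n ih =>
    have hx := continuous_fst.comp ih
    have hy := (continuous_fst.comp continuous_snd).comp ih
    have hz := (continuous_snd.comp continuous_snd).comp ih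
    have := tseq_continuous hx hy hz (a n)
    exact hy.prodMk (this.1.prodMk this.2)

lemma X_continuous (lam : ℝ) (a : ℕ → ℕ) (n : ℕ) : Continuous (fun E : ℝ => X lam a E n) :=
  (continuous_fst.comp continuous_snd).comp (orb_continuous lam a n)

lemma BS_isClosed (lam : ℝ) (a : ℕ → ℕ) (n : ℕ) : IsClosed (BS lam a n) := by
  have h1 : IsClosed {E : ℝ | |X lam a E n| ≤ 2} :=
    isClosed_le (X_continuous lam a n).abs continuous_const
  have h2 : IsClosed {E : ℝ | |X lam a E (n+1)| ≤ 2} :=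
    isClosed_le (X_continuous lam a (n+1)).abs continuous_const
  exact h1.union h2

lemma BS_zero_bounded {lam : ℝ} (hlam : 0 < lam) {a : ℕ → ℕ} (ha : ∀ n, 1 ≤ a n) :
    BS lam a 0 ⊆ Icc (-(lam+3)) (lam+3) := by
  intro E hE
  rw [mem_Icc, ← abs_le]
  by_contra hc
  push Not at hc
  have h1 : 2 < |E| := by linarith
  have h2 : 2 < |E - lam| := by
    have := abs_sub_abs_le_abs_sub E lam
    rw [abs_of_pos hlam] at this
    linarith
  obtain ⟨b, hb⟩ : ∃ b, a 0 = b + 1 := ⟨a 0 - 1, by have := ha 0; omega⟩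
  have h3 : 2 < |X lam a E 1| := by
    have : X lam a E 1 = tseq 2 E (E - lam) (b+1) := by
      show tseq 2 E (E - lam) (a 0) = _
      rw [hb]
    rw [this]
    refine lt_of_lt_of_le h2 (tseq_ge_one h1.le ?_ b)
    simpa using h2
  rcases hE with h | h
  · exact absurd h (not_le.mpr h1)
  · exact absurd h (not_le.mpr h3)

lemma BS_isCompact {lam : ℝ} (hlam : 0 < lam) {a : ℕ → ℕ} (ha : ∀ n, 1 ≤ a n) (n : ℕ) :
    IsCompact (BS lam a n) :=
  isCompact_Icc.of_isClosed_subset (BS_isClosed lam a n)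
    ((BS_antitone ha (Nat.zero_le n)).trans (BS_zero_bounded hlam ha))

lemma Sig_isCompact {lam : ℝ} (hlam : 0 < lam) {a : ℕ → ℕ} (ha : ∀ n, 1 ≤ a n) :
    IsCompact (Sig lam a) := by
  rw [Sig_eq]
  exact (BS_isCompact hlam ha 0).of_isClosed_subset (isClosed_iInter (BS_isClosed lam a))
    (iInter_subset _ 0)

lemma Sig_subset_open_iff {lam : ℝ} (hlam : 0 < lam) {a : ℕ → ℕ} (ha : ∀ n, 1 ≤ a n)
    {U : Set ℝ} (hU : IsOpen U) : Sig lam a ⊆ U ↔ ∃ n, BS lam a n ⊆ U := by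
  constructor
  · intro h
    refine exists_subset_nhds_of_isCompact' (V := BS lam a) ?_ (BS_isCompact hlam ha)
      (BS_isClosed lam a) ?_
    · intro i j
      exact ⟨max i j, BS_antitone ha (le_max_left _ _), BS_antitone ha (le_max_right _ _)⟩
    · intro x hx
      rw [← Sig_eq] at hx
      exact hU.mem_nhds (h hx)
  · rintro ⟨n, hn⟩
    rw [Sig_eq]
    exact (iInter_subset _ n).trans hn

/-! ### Dependence on the digits -/

lemma orb_congr {a b : ℕ → ℕ} (v : ℝ × ℝ × ℝ) (n : ℕ) (h : ∀ i < n, a i = b i) :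
    orb a v n = orb b v n := by
  induction n with
  | zero => rfl
  | succ n ih =>
    show step (a n) (orb a v n) = step (b n) (orb b v n)
    rw [ih (fun i hi => h i (by omega)), h n (by omega)]

lemma BS_congr {lam : ℝ} {a b : ℕ → ℕ} (n : ℕ) (h : ∀ i < n + 1, a i = b i) :
    BS lam a n = BS lam b n := by
  have h1 : ∀ E, X lam a E n = X lam b E n := fun E => by
    unfold X; rw [orb_congr _ n (fun i hi => h i (by omega))]
  have h2 : ∀ E, X lam a E (n+1) = X lam b E (n+1) := fun E => by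
    unfold X; rw [orb_congr _ (n+1) h]
  ext E
  simp only [BS, h1, h2]

/-! ### Digits -/

lemma measurable_gauss : Measurable gauss := by
  unfold gauss
  exact measurable_fract.comp measurable_inv

lemma measurable_dig (n : ℕ) : Measurable (fun x => dig x n) := by
  unfold dig
  exact Nat.measurable_floor.comp (measurable_inv.comp (measurable_gauss.iterate n))

lemma gauss_mem {x : ℝ} (hi : Irrational x) :
    gauss x ∈ Ioo (0:ℝ) 1 ∧ Irrational (gauss x) := by
  have h1 : Irrational (gauss x) := by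
    unfold gauss
    have : Irrational x⁻¹ := hi.inv
    rw [Int.fract]
    exact this.sub_intCast _
  refine ⟨⟨?_, Int.fract_lt_one _⟩, h1⟩
  refine lt_of_le_of_ne (Int.fract_nonneg _) ?_
  intro h0
  exact h1.ne_zero h0.symm

lemma gauss_iterate_mem {x : ℝ} (hx : x ∈ Ioo (0:ℝ) 1) (hi : Irrational x) (n : ℕ) :
    gauss^[n] x ∈ Ioo (0:ℝ) 1 ∧ Irrational (gauss^[n] x) := by
  induction n with
  | zero => exact ⟨hx, hi⟩
  | succ n ih =>
    rw [Function.iterate_succ_apply']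
    exact gauss_mem ih.2

lemma one_le_dig {x : ℝ} (hx : x ∈ Ioo (0:ℝ) 1) (hi : Irrational x) (n : ℕ) : 1 ≤ dig x n := by
  obtain ⟨h, -⟩ := gauss_iterate_mem hx hi n
  unfold dig
  rw [Nat.one_le_floor_iff]
  exact (one_le_inv₀ h.1).mpr h.2.le

/-- For fixed `n` and `U`, the set of `α` with `BS lam (dig α) n ⊆ U` is measurable. -/
lemma measurableSet_BS_subset (lam : ℝ) (n : ℕ) (U : Set ℝ) :
    MeasurableSet {α : ℝ | BS lam (dig α) n ⊆ U} := by
  let f : ℝ → (Fin (n+1) → ℕ) := fun α i => dig α i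
  have hf : Measurable f := measurable_pi_lambda _ (fun i => measurable_dig i)
  let ext : (Fin (n+1) → ℕ) → (ℕ → ℕ) := fun d i => if h : i < n + 1 then d ⟨i, h⟩ else 0
  have : {α : ℝ | BS lam (dig α) n ⊆ U} = f ⁻¹' {d | BS lam (ext d) n ⊆ U} := by
    ext α
    have : BS lam (dig α) n = BS lam (ext (f α)) n := by
      apply BS_congr
      intro i hi
      show dig α i = if h : i < n + 1 then f α ⟨i, h⟩ else 0
      rw [dif_pos hi]
    simp only [mem_preimage, mem_ofPred_eq, this]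
  rw [this]
  exact hf (MeasurableSet.of_discrete)

end Pool.Agent.Sturm82.Meas
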