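import Pool.Agent.Sturm82.Crossing

set_option autoImplicit false

namespace Pool.Agent.Sturm82

open Set Complex Topology

lemma sin_Icc_bound {c0 θ : ℝ} (h : |θ - c0| ≤ Real.sin c0 / 2) :
    Real.sin c0 / 2 ≤ Real.sin θ ∧ Real.sin θ ≤ 3 / 2 * Real.sin c0 := by
  have h1 : |Real.sin θ - Real.sin c0| ≤ |θ - c0| := by
    have := Real.abs_sin_sub_sin_le θ c0
    exact this
  have h2 := abs_le.mp (h1.trans h)
  constructor <;> linarith

lemma ball_facts {c0 : ℝ} (h0 : 0 < c0) (h1 : c0 < Real.pi) :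
    0 < Real.sin c0 / 2 ∧ Real.sin c0 / 2 ≤ c0 ∧ c0 + Real.sin c0 / 2 ≤ Real.pi := by
  have hs := Real.sin_pos_of_pos_of_lt_pi h0 h1
  have h2 := Real.sin_lt h0
  have h3 := Real.sin_lt (x := Real.pi - c0) (by linarith)
  rw [Real.sin_pi_sub] at h3
  refine ⟨by linarith, by linarith, by linarith⟩

lemma s1_bound {lam : ℝ} (hlam : 0 < lam) {c0 : ℝ} (h0 : 0 < c0) (h1 : c0 < Real.pi) :
    ∀ θ ∈ Metric.ball (c0 : ℂ) (Real.sin c0 / 2), ‖(lam : ℂ) / (2 * sin θ)‖ ≤ lam / Real.sin c0 := by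
  intro θ hθ
  have hs := Real.sin_pos_of_pos_of_lt_pi h0 h1
  obtain ⟨hb0, hb1, hb2⟩ := ball_facts h0 h1
  have hre := ball_re hb1 hb2 hθ
  have h2 : |θ.re - c0| ≤ Real.sin c0 / 2 := by
    rw [Metric.mem_ball, Complex.dist_eq] at hθ
    have := Complex.abs_re_le_norm (θ - c0)
    simp only [sub_re, ofReal_re] at this
    linarith
  have h3 := (sin_Icc_bound h2).1
  have h4 : Real.sin c0 / 2 ≤ ‖sin θ‖ := by
    have e2 : (sin θ).re = Real.sin θ.re * Real.cosh θ.im := by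
      rw [Complex.sin_eq]
      simp [← Complex.ofReal_cos, ← Complex.ofReal_sin,
        ← Complex.ofReal_cosh, ← Complex.ofReal_sinh]
    have h5 : (sin θ).re ≤ ‖sin θ‖ := (le_abs_self _).trans (Complex.abs_re_le_norm _)
    have h6 := Real.one_le_cosh θ.im
    have h7 : 0 < Real.sin θ.re := by linarith
    rw [e2] at h5
    nlinarith
  rw [norm_div, norm_mul, Complex.norm_real, Real.norm_eq_abs, abs_of_pos hlam]
  have h8 : ‖(2 : ℂ)‖ = 2 := by simp
  rw [h8]
  apply div_le_div_of_nonneg_left hlam.le hs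
  linarith

/-- real part of a complex triple -/
noncomputable def reT : (ℂ × ℂ × ℂ) →L[ℝ] (ℝ × ℝ × ℝ) :=
  reCLM.prodMap (reCLM.prodMap reCLM)

lemma reT_tmap (u : ℝ × ℝ × ℝ) : reT (tmap ofRealHom u) = u := by
  obtain ⟨x, y, z⟩ := u
  simp [reT, tmap]

/-- the bound for `σ` -/
noncomputable def Bd (lam c0 : ℝ) (m : ℕ) : ℝ :=
  Real.exp (m * (Real.sin c0 / 2)) * Tb (Real.exp (Real.sin c0 / 2)) (lam / Real.sin c0) 2

/-- what a leaf satisfies -/
structure IsLeaf (lam : ℝ) (b : ℕ → ℕ) (p K : ℕ) (c0 : ℝ) (c' : ℝ) (σ : ℂ → ℂ) : Prop where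
  diff : DifferentiableOn ℂ σ (Metric.ball (c0 : ℂ) (Real.sin c0 / 2))
  ne : ∀ θ ∈ Metric.ball (c0 : ℂ) (Real.sin c0 / 2), σ θ ≠ 0
  lev : ∀ θ ∈ Metric.ball (c0 : ℂ) (Real.sin c0 / 2),
    (orb (fun j => b (p + j)) (Wc lam θ (σ θ)) (K + 1)).2.1 = (c' : ℂ)
  bdd : ∀ θ ∈ Metric.ball (c0 : ℂ) (Real.sin c0 / 2), ‖σ θ‖ ≤ Bd lam c0 (b p)
  real : ∀ θ : ℝ, |θ - c0| < Real.sin c0 / 2 → normSq (σ θ) = 1 + Sf lam θ ^ 2

/-- angle function of a leaf with its slope bound -/
lemma IsLeaf.angle {lam : ℝ} (hlam : 0 < lam) {b : ℕ → ℕ} (hb : ∀ n, 1 ≤ b n) {p K : ℕ} {c0 c' : ℝ}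
    (h0 : 0 < c0) (h1 : c0 < Real.pi) (hc' : |c'| < 2) {σ : ℂ → ℂ}
    (hL : IsLeaf lam b p K c0 c' σ) :
    ∃ ψ : ℝ → ℝ, ∀ θ : ℝ, |θ - c0| < Real.sin c0 / 2 →
      σ θ = Cf lam θ * exp (ψ θ * I) ∧ HasDerivAt ψ (deriv σ θ / σ θ).im θ ∧
      Wc lam θ (σ θ) = tmap ofRealHom (flip (tau lam θ (ψ θ))) ∧
      (orb (fun j => b (p + j)) (flip (tau lam θ (ψ θ))) (K + 1)).2.1 = c' ∧
      b p - 2 / lam ≤ (deriv σ θ / σ θ).im := by
  obtain ⟨hb0, hb1, hb2⟩ := ball_facts h0 h1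
  obtain ⟨ψ, hψ⟩ := exists_angle_leaf hb0 hL.diff hL.real
  have hsin : ∀ θ : ℝ, |θ - c0| < Real.sin c0 / 2 → 0 < Real.sin θ := by
    intro θ hθ
    have := (sin_Icc_bound hθ.le).1
    linarith
  have hW : ∀ θ : ℝ, |θ - c0| < Real.sin c0 / 2 →
      Wc lam θ (σ θ) = tmap ofRealHom (flip (tau lam θ (ψ θ))) := by
    intro θ hθ
    rw [(hψ θ hθ).1, Wc_real (hsin θ hθ).ne']
  have hc : ∀ θ : ℝ, |θ - c0| < Real.sin c0 / 2 →
      (orb (fun j => b (p + j)) (flip (tau lam θ (ψ θ))) (K + 1)).2.1 = c' := by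
    intro θ hθ
    have := hL.lev θ (ofReal_mem_ball hθ)
    rw [hW θ hθ, ← orb_map] at this
    simp only [tmap, ofRealHom_eq_coe] at this
    exact_mod_cast this
  refine ⟨ψ, fun θ hθ => ⟨(hψ θ hθ).1, (hψ θ hθ).2, hW θ hθ, hc θ hθ, ?_⟩⟩
  have hnear : ∀ᶠ t in 𝓝 θ, |t - c0| < Real.sin c0 / 2 := by
    have : Continuous fun t : ℝ => |t - c0| := by fun_prop
    exact this.continuousAt.eventually_lt continuousAt_const hθ
  have hF : HasDerivAt (fun s => (orb (fun j => b (p + j)) (flip (tau lam s (ψ s)))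
      (K + 1)).2.1) 0 θ := by
    refine (hasDerivAt_const θ c').congr_of_eventuallyEq ?_
    filter_upwards [hnear] with s hs
    exact hc s hs
  have := slope_future hlam (hasDerivAt_id' θ) (hψ θ hθ).2 (hsin θ hθ).ne' zero_le_one
    (a := fun j => b (p + j)) (fun n => hb _) K hF (by rw [hc θ hθ]; exact hc')
  simp only [add_zero, mul_one] at this
  have h3 := sig0_le hlam θ
  linarith

/-- leaf through a given real point -/
lemma exists_isLeaf {lam : ℝ} (hlam : 0 < lam) {b : ℕ → ℕ} (hb : ∀ n, 1 ≤ b n) {p K : ℕ}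
    {c0 : ℝ} (h0 : 0 < c0) (h1 : c0 < Real.pi) {v : ℝ × ℝ × ℝ} (hsf : surf v = 4 + lam ^ 2)
    {θ0 : ℝ} (hθ0 : |θ0 - c0| < Real.sin c0 / 2) (hv : v.2.1 = 2 * Real.cos θ0)
    (hN : |(orb (fun j => b (p + j)) v (K + 1)).2.1| < 2) :
    ∃ σ : ℂ → ℂ, IsLeaf lam b p K c0 (orb (fun j => b (p + j)) v (K + 1)).2.1 σ ∧
      Wc lam θ0 (σ θ0) = tmap ofRealHom v := by
  obtain ⟨hb0, hb1, hb2⟩ := ball_facts h0 h1
  obtain ⟨σ, h2, h3, h4, h5⟩ := exists_leaf hlam hb p K hb0 hb1 hb2 (s1_bound hlam h0 h1) hsf hθ0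
    hv hN
  exact ⟨σ, ⟨h2, fun θ hθ => (h4 θ hθ).1, fun θ hθ => (h4 θ hθ).2.1, fun θ hθ => (h4 θ hθ).2.2,
    h5⟩, h3⟩


lemma stepInv_map {R S : Type*} [CommRing R] [CommRing S] (f : R →+* S) (a : ℕ) (v : R × R × R) :
    tmap f (stepInv a v) = stepInv a (tmap f v) := by
  unfold stepInv
  rw [flip_map, step_map, flip_map]

lemma orb_rev0 {R : Type*} [CommRing R] (b : ℕ → ℕ) (v : R × R × R) (p : ℕ) :
    orb (rdig b p) (flip (orb b v p)) p = flip v := by
  have := orb_rev b v 0 p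
  simpa using this

lemma orb_rev0' {R : Type*} [CommRing R] (b : ℕ → ℕ) (w : R × R × R) (p : ℕ) :
    orb b (flip (orb (rdig b p) (flip w) p)) p = w := by
  have := orb_rev' b w 0 p
  simpa using this

lemma differentiable_stepInv (m : ℕ) :
    Differentiable ℂ (fun v : ℂ × ℂ × ℂ => stepInv m v) := by
  unfold stepInv
  exact ((contDiff_flip (𝕜 := ℂ) (n := 1)).comp ((contDiff_step m).comp
    contDiff_flip)).differentiable (by norm_num)

/-- the level-zero triple along a leaf, in terms of the chart at level `p+1` -/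
noncomputable def lev0 {R : Type*} [CommRing R] (a : ℕ → ℕ) (p : ℕ) (w : R × R × R) : R × R × R :=
  stepInv (a 0) (flip (orb (rdig (fun j => a (j + 1)) p) (flip w) p))

lemma lev0_orb {R : Type*} [CommRing R] (a : ℕ → ℕ) (p : ℕ) (w : R × R × R) :
    orb a (lev0 a p w) (p + 1) = w := by
  rw [orb_succ', lev0, step_stepInv, orb_rev0']

lemma lev0_map {R S : Type*} [CommRing R] [CommRing S] (f : R →+* S) (a : ℕ → ℕ) (p : ℕ)
    (w : R × R × R) : tmap f (lev0 a p w) = lev0 a p (tmap f w) := by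
  unfold lev0
  rw [stepInv_map, flip_map, orb_map, flip_map]

lemma surf_lev0 {R : Type*} [CommRing R] (a : ℕ → ℕ) (p : ℕ) (w : R × R × R) :
    surf (lev0 a p w) = surf w := by
  unfold lev0 stepInv
  rw [surf_flip, surf_step, surf_flip, surf_flip, surf_orb, surf_flip]

lemma differentiable_lev0 (a : ℕ → ℕ) (p : ℕ) :
    Differentiable ℂ (fun v : ℂ × ℂ × ℂ => lev0 a p v) := by
  unfold lev0
  have h1 : Differentiable ℂ (fun v : ℂ × ℂ × ℂ => flip v) :=
    (contDiff_flip (𝕜 := ℂ) (n := 1)).differentiable (by norm_num)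
  have h2 : Differentiable ℂ (fun v : ℂ × ℂ × ℂ => orb (rdig (fun j => a (j + 1)) p) v p) :=
    (contDiff_orb _ p (n := 1)).differentiable (by norm_num)
  exact (differentiable_stepInv (a 0)).comp (h1.comp (h2.comp h1))

/-- **Crossing point of a leaf.** -/
theorem exists_cross {lam : ℝ} (hlam : 0 < lam) {a : ℕ → ℕ} (ha : ∀ n, 1 ≤ a n) (h2 : 2 ≤ a 0)
    {p K : ℕ} {c0 η : ℝ} (h0 : 0 < c0) (h1 : c0 < Real.pi) (hη0 : 0 < η) (hη1 : η < 1)
    (hm : 6 * Real.pi ≤ η * (lam * a (p + 1) - 4)) {e θe : ℝ}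
    (hθe : |θe - c0| < η * (Real.sin c0 / 2) / 2) {c' : ℝ} (hc' : |c'| < 2) {σ : ℂ → ℂ}
    (hL : IsLeaf lam (fun j => a (j + 1)) p K c0 c' σ)
    (hσ : Wc lam θe (σ θe) = tmap ofRealHom (orb (fun j => a (j + 1)) (2, e, e - lam) p)) :
    ∃ (q : ℝ) (g : ℝ × ℝ × ℝ), |q - c0| < η * (Real.sin c0 / 2) ∧
      Wc lam q (σ q) = tmap ofRealHom (orb a g (p + 1)) ∧ |g.1| = 2 ∧ surf g = 4 + lam ^ 2 ∧
      0 ≤ g.2.1 ∧ g.2.1 < 2 ∧ (orb a g (p + K + 2)).2.1 = c' := by
  obtain ⟨hb0, hb1, hb2⟩ := ball_facts h0 h1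
  set ρ := Real.sin c0 / 2 with hρ
  have hsc : 0 < Real.sin c0 := by linarith
  obtain ⟨ψ, hψ⟩ := hL.angle hlam (fun n => ha _) h0 h1 hc'
  rw [← hρ] at hψ
  have hpi := Real.pi_pos
  set m : ℝ := (a (p + 1) : ℝ) with hmdef
  have hlm : 0 < lam * m - 4 := by
    by_contra hcon
    push Not at hcon
    nlinarith
  -- the complex and the real level 0 triple
  set U : ℂ → ℂ × ℂ × ℂ := fun θ => lev0 a p (Wc lam θ (σ θ)) with hU
  have hWd : DifferentiableOn ℂ (fun θ => Wc lam θ (σ θ)) (Metric.ball (c0 : ℂ) ρ) := by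
    intro θ hθ
    have hre := ball_re hb1 hb2 hθ
    have hsin := sin_ne_of_re hre.1 hre.2
    have hσd : DifferentiableAt ℂ σ θ := (hL.diff θ hθ).differentiableAt (Metric.isOpen_ball.mem_nhds hθ)
    have h4 : (4 * sin θ ^ 2) ≠ 0 := mul_ne_zero (by norm_num) (pow_ne_zero 2 hsin)
    have hsd : DifferentiableAt ℂ (fun θ => sgt lam θ (σ θ)) θ := by
      unfold sgt
      refine DifferentiableAt.fun_div ?_ hσd (hL.ne θ hθ)
      refine DifferentiableAt.const_add _ (DifferentiableAt.fun_div (by fun_prop) (by fun_prop) h4)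
    have he1 : DifferentiableAt ℂ (fun θ : ℂ => exp (-(θ * I))) θ := by fun_prop
    have he2 : DifferentiableAt ℂ (fun θ : ℂ => exp (θ * I)) θ := by fun_prop
    have hc2 : DifferentiableAt ℂ (fun θ : ℂ => 2 * cos θ) θ := by fun_prop
    refine DifferentiableAt.differentiableWithinAt ?_
    unfold Wc
    exact (hσd.add hsd).prodMk (hc2.prodMk ((hσd.mul he1).add (hsd.mul he2)))
  have hUd : DifferentiableOn ℂ U (Metric.ball (c0 : ℂ) ρ) := by
    intro θ hθ
    exact ((differentiable_lev0 a p) _).comp_differentiableWithinAt θ (hWd θ hθ)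
  have hUd' : ContinuousOn (deriv U) (Metric.ball (c0 : ℂ) ρ) :=
    (hUd.deriv Metric.isOpen_ball).continuousOn
  set u : ℝ → ℝ × ℝ × ℝ := fun t => reT (U t) with hu
  set u' : ℝ → ℝ × ℝ × ℝ := fun t => reT (deriv U t) with hu'
  have hud : ∀ t : ℝ, |t - c0| < ρ → HasDerivAt u (u' t) t := by
    intro t ht
    have hb := ofReal_mem_ball ht
    have h3 : HasDerivAt U (deriv U t) (t : ℂ) :=
      ((hUd t hb).differentiableAt (Metric.isOpen_ball.mem_nhds hb)).hasDerivAt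
    have h4 : HasDerivAt (fun s : ℝ => U s) (deriv U t) t := by
      have := h3.scomp t (ofRealCLM.hasDerivAt (x := t))
      simpa [Function.comp_def] using this
    exact reT.hasFDerivAt.comp_hasDerivAt t h4
  have hureal : ∀ t : ℝ, |t - c0| < ρ → U t = tmap ofRealHom (u t) ∧
      u t = lev0 a p (flip (tau lam t (ψ t))) := by
    intro t ht
    have h3 : U t = tmap ofRealHom (lev0 a p (flip (tau lam t (ψ t)))) := by
      simp only [hU]
      rw [(hψ t ht).2.2.1, lev0_map]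
    have h4 : u t = lev0 a p (flip (tau lam t (ψ t))) := by
      simp only [hu]
      rw [h3, reT_tmap]
    exact ⟨by rw [h3, h4], h4⟩
  have hu21 : ∀ t : ℝ, |t - c0| < ρ → (u t).2.1 =
      (orb (rdig (fun j => a (j + 1)) p) (tau lam t (ψ t)) p).2.1 := by
    intro t ht
    rw [(hureal t ht).2]
    unfold lev0 stepInv
    rw [flip_flip, flip_flip]
    rfl
  -- derivative estimates
  set κ : ℝ := (lam * m - 4) / (3 * Real.sin c0) with hκdef
  have hκ : 0 < κ := by positivity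
  have hder : ∀ t : ℝ, |t - c0| < ρ →
      (|(u t).2.1| < 2 → κ * √(4 - (u t).2.1 ^ 2) ≤ |(u' t).2.1|) ∧
      (|(u t).2.1| = 2 → (u' t).2.1 ≠ 0) := by
    intro t ht
    obtain ⟨-, hψd, -, -, hslope⟩ := hψ t ht
    have hsinb := sin_Icc_bound ht.le
    have hsint : 0 < Real.sin t := by linarith [hsinb.1]
    have hsg := sig0_le hlam t
    have hbm : ((fun j => a (j + 1)) p : ℝ) = m := rfl
    have hslope' : m - 2 / lam ≤ (deriv σ t / σ t).im := hslope
    have hgap : (lam * m - 4) / lam ≤ (deriv σ t / σ t).im - sig0 lam t * 1 := by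
      have : (lam * m - 4) / lam = m - 2 / lam - 2 / lam := by field_simp; ring
      rw [this]; linarith
    have hgap0 : 0 < (lam * m - 4) / lam := by positivity
    obtain ⟨F', hF, hF1, hF2⟩ := lemmaD hlam (hasDerivAt_id' t) hψd hsint.ne' zero_le_one
      (by linarith) (a := rdig (fun j => a (j + 1)) p) (fun n => ha _) p
    have hnear : ∀ᶠ s in 𝓝 t, |s - c0| < ρ := by
      have : Continuous fun s : ℝ => |s - c0| := by fun_prop
      exact this.continuousAt.eventually_lt continuousAt_const ht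
    have hF' : F' = (u' t).2.1 := by
      have h3 := hd_snd_fst (hud t ht)
      refine hF.unique (h3.congr_of_eventuallyEq ?_)
      filter_upwards [hnear] with s hs
      exact (hu21 s hs).symm
    rw [hu21 t ht, ← hF']
    refine ⟨fun h => ?_, hF2⟩
    refine le_trans ?_ (hF1 h)
    rw [mul_comm]
    refine mul_le_mul_of_nonneg_left ?_ (Real.sqrt_nonneg _)
    have hCf : lam / (3 * Real.sin c0) ≤ Cf lam t := by
      refine le_trans ?_ (le_trans (le_abs_self _) (abs_Sf_le_Cf lam t))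
      unfold Sf
      apply div_le_div_of_nonneg_left hlam.le (by positivity)
      linarith [hsinb.2]
    calc κ = lam / (3 * Real.sin c0) * ((lam * m - 4) / lam) := by
          rw [hκdef]; field_simp
      _ ≤ Cf lam t * ((deriv σ t / σ t).im - sig0 lam t * 1) :=
          mul_le_mul hCf hgap hgap0.le (Cf_pos lam t).le
  -- starting point
  have hθe' : |θe - c0| < ρ := by
    refine hθe.trans ?_
    nlinarith
  have hstart : flip (tau lam θe (ψ θe)) = orb (fun j => a (j + 1)) (2, e, e - lam) p := by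
    apply tmap_inj
    rw [← (hψ θe hθe').2.2.1, hσ]
  have hstart2 : (u θe).2.1 = 2 := by
    rw [hu21 θe hθe']
    have : tau lam θe (ψ θe) = flip (orb (fun j => a (j + 1)) (2, e, e - lam) p) := by
      rw [← hstart, flip_flip]
    rw [this, orb_rev0]
    rfl
  have hne0 : (u' θe).2.1 ≠ 0 := (hder θe hθe').2 (by rw [hstart2]; norm_num)
  -- direction
  obtain ⟨ε, hε, hεneg⟩ : ∃ ε : ℝ, |ε| = 1 ∧ ε * (u' θe).2.1 < 0 := by
    rcases lt_or_gt_of_ne hne0 with h | h
    · exact ⟨1, by simp, by linarith⟩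
    · exact ⟨-1, by simp, by linarith⟩
  set L : ℝ := η * ρ / 2 with hLdef
  set δ : ℝ := (1 - η) * ρ with hδdef
  have hL0 : 0 < L := by positivity
  have hδ0 : 0 < δ := mul_pos (by linarith) hb0
  have hin : ∀ t ∈ Ioo (-δ) (L + δ), |θe + ε * t - c0| < ρ := by
    intro t ht
    have h3 : |ε * t| < L + δ := by
      rw [abs_mul, hε, one_mul, abs_lt]
      constructor
      · linarith [ht.1]
      · exact ht.2
    have h4 : |θe + ε * t - c0| ≤ |θe - c0| + |ε * t| := by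
      have : θe + ε * t - c0 = (θe - c0) + ε * t := by ring
      rw [this]; exact abs_add_le _ _
    have h5 : L + L + δ = ρ := by rw [hLdef, hδdef]; ring
    linarith
  have hcross : ∃ q ∈ Icc 0 L, |(u (θe + ε * q)).1| = 2 ∧ 0 ≤ (u (θe + ε * q)).2.1 ∧
      (u (θe + ε * q)).2.1 < 2 := by
    refine crossing hlam ha h2 (p + K + 1) (L := L) (δ := δ) (κ := κ)
      (c' := c') hL0 hδ0 hκ ?_ (v := fun t => u (θe + ε * t))
      (v' := fun t => ε • u' (θe + ε * t)) ?_ ?_ ?_ ?_ hc' ?_ ?_ ?_ ?_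
    · rw [hκdef, hLdef, hρ]
      have e3 : (lam * m - 4) / (3 * Real.sin c0) * (η * (Real.sin c0 / 2) / 2) =
          η * (lam * m - 4) / 12 := by field_simp; ring
      rw [e3]
      linarith
    · intro t ht
      have h3 := hud _ (hin t ht)
      have h4 : HasDerivAt (fun t : ℝ => θe + ε * t) ε t := by
        simpa using ((hasDerivAt_id t).const_mul ε).const_add θe
      exact h3.scomp t h4
    · have hc1 : Continuous fun t : ℝ => (((θe + ε * t : ℝ)) : ℂ) := by fun_prop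
      have hc2 : ContinuousOn (fun t : ℝ => deriv U ((θe + ε * t : ℝ) : ℂ)) (Ioo (-δ) (L + δ)) :=
        hUd'.comp hc1.continuousOn (fun t ht => ofReal_mem_ball (hin t ht))
      exact (reT.continuous.comp_continuousOn hc2).const_smul ε
    · intro t ht
      have hq0' := hin t ht
      rw [(hureal _ hq0').2, surf_lev0, surf_flip]
      apply surf_tau
      have := (sin_Icc_bound hq0'.le).1
      exact (by linarith : 0 < Real.sin (θe + ε * t)).ne'
    · intro t ht
      have hq0' := hin t ht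
      rw [(hureal _ hq0').2]
      have e1 : p + K + 1 + 1 = (p + 1) + (K + 1) := by ring
      rw [e1, orb_add, lev0_orb]
      have := (hψ _ hq0').2.2.2.1
      have e2 : (fun j => a (p + 1 + j)) = fun j => (fun j => a (j + 1)) (p + j) := by
        funext j; congr 1; ring
      rw [e2]
      exact this
    · simp only [mul_zero, add_zero]
      exact hstart2
    · simp only [mul_zero, add_zero, Prod.smul_fst, Prod.smul_snd, smul_eq_mul]
      exact hεneg
    · intro t ht h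
      have hq0' := hin t ⟨by linarith [ht.1], by linarith [ht.2]⟩
      simp only [Prod.smul_fst, Prod.smul_snd, smul_eq_mul]
      refine mul_ne_zero ?_ ((hder _ hq0').2 h)
      intro h3
      rw [h3, abs_zero] at hε
      exact zero_ne_one hε
    · intro t ht h
      have hq0' := hin t ⟨by linarith [ht.1], by linarith [ht.2]⟩
      simp only [Prod.smul_fst, Prod.smul_snd, smul_eq_mul]
      rw [abs_mul, hε, one_mul]
      exact (hder _ hq0').1 h
  obtain ⟨q0, hq0, hg1, hg2, hg3⟩ := hcross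
  have hq0' : |θe + ε * q0 - c0| < ρ := hin q0 ⟨by linarith [hq0.1], by linarith [hq0.2]⟩
  refine ⟨θe + ε * q0, u (θe + ε * q0), ?_, ?_, hg1, ?_, hg2, hg3, ?_⟩
  · have h4 : |θe + ε * q0 - c0| ≤ |θe - c0| + |ε * q0| := by
      have : θe + ε * q0 - c0 = (θe - c0) + ε * q0 := by ring
      rw [this]; exact abs_add_le _ _
    have h5 : |ε * q0| ≤ L := by
      rw [abs_mul, hε, one_mul, abs_of_nonneg hq0.1]
      exact hq0.2
    have h6 : L + L = η * ρ := by rw [hLdef]; ring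
    linarith
  · rw [(hureal _ hq0').2, lev0_orb, (hψ _ hq0').2.2.1]
  · rw [(hureal _ hq0').2, surf_lev0, surf_flip]
    apply surf_tau
    have := (sin_Icc_bound hq0'.le).1
    exact (by linarith : 0 < Real.sin (θe + ε * q0)).ne'
  · rw [(hureal _ hq0').2]
    have e1 : p + K + 2 = (p + 1) + (K + 1) := by ring
    rw [e1, orb_add, lev0_orb]
    have := (hψ _ hq0').2.2.2.1
    have e2 : (fun j => a (p + 1 + j)) = fun j => (fun j => a (j + 1)) (p + j) := by
      funext j; congr 1; ring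
    rw [e2]
    exact this

end Pool.Agent.Sturm82
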