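import Pool.Agent.Sturm82.Leaf

set_option autoImplicit false

namespace Pool.Agent.Sturm82

open Real

/-- Lemma D with reversed time. -/
theorem lemmaD_rev {lam : ℝ} (hlam : 0 < lam) {θ ψ : ℝ → ℝ} {θ' ψ' t : ℝ}
    (hθ : HasDerivAt θ θ' t) (hψ : HasDerivAt ψ ψ' t) (hs : sin (θ t) ≠ 0) (h0 : θ' ≤ 0)
    (h1 : ψ' < sig0 lam (θ t) * θ') {a : ℕ → ℕ} (ha : ∀ n, 1 ≤ a n) (k : ℕ) :
    ∃ F', HasDerivAt (fun s => (orb a (tau lam (θ s) (ψ s)) k).2.1) F' t ∧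
      (|(orb a (tau lam (θ t) (ψ t)) k).2.1| < 2 →
        √(4 - (orb a (tau lam (θ t) (ψ t)) k).2.1 ^ 2) *
          (Cf lam (θ t) * (sig0 lam (θ t) * θ' - ψ')) ≤ |F'|) ∧
      (|(orb a (tau lam (θ t) (ψ t)) k).2.1| = 2 → F' ≠ 0) := by
  have hneg : HasDerivAt (fun s : ℝ => -s) (-1) (-t) := (hasDerivAt_id' (-t)).fun_neg
  have hθ2 : HasDerivAt (fun s => θ (-s)) (-θ') (-t) := by
    have h2 : HasDerivAt θ θ' (- -t) := by rwa [neg_neg]
    exact (h2.scomp (-t) hneg).congr_deriv (by simp)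
  have hψ2 : HasDerivAt (fun s => ψ (-s)) (-ψ') (-t) := by
    have h2 : HasDerivAt ψ ψ' (- -t) := by rwa [neg_neg]
    exact (h2.scomp (-t) hneg).congr_deriv (by simp)
  obtain ⟨F', h2, h3, h4⟩ := lemmaD hlam hθ2 hψ2 (by simpa using hs) (by linarith)
    (by simp only [neg_neg]; linarith) ha k
  simp only [neg_neg] at h3 h4
  refine ⟨-F', ?_, ?_, ?_⟩
  · have hneg' : HasDerivAt (fun s : ℝ => -s) (-1) t := (hasDerivAt_id' t).fun_neg
    have := h2.scomp t hneg'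
    simpa [Function.comp_def] using this
  · intro h
    rw [abs_neg]
    refine le_trans (le_of_eq ?_) (h3 h)
    ring
  · intro h
    exact neg_ne_zero.mpr (h4 h)

lemma tseq_cos (C θ ψ : ℝ) (k : ℕ) :
    tseq (2 * C * cos ψ) (2 * cos θ) (2 * C * cos (ψ - θ)) k = 2 * C * cos (ψ - k * θ) := by
  induction k using Nat.twoStepInduction with
  | zero => simp
  | one => simp
  | more k ih1 ih2 =>
    rw [tseq_succ_succ, ih1, ih2]
    push_cast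
    have e1 : cos (ψ - (k + 2) * θ) = cos (ψ - (k + 1) * θ - θ) := by ring_nf
    have e2 : cos (ψ - k * θ) = cos (ψ - (k + 1) * θ + θ) := by ring_nf
    rw [e1, e2, cos_sub (ψ - (k + 1) * θ) θ, cos_add (ψ - (k + 1) * θ) θ]
    ring

lemma flip_tau (lam θ ψ : ℝ) :
    flip (tau lam θ ψ) = (2 * Cf lam θ * cos ψ, 2 * cos θ, 2 * Cf lam θ * cos (ψ - θ)) := by
  simp only [flip, tau, Prod.mk.injEq, true_and]
  rw [cos_add, cos_sub]
  ring

lemma step_flip_tau (lam θ ψ : ℝ) (m : ℕ) :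
    step m (flip (tau lam θ ψ)) = tau lam (-θ) (ψ - m * θ) := by
  rw [flip_tau]
  simp only [step, tseq_cos, tau, cos_neg, Cf_neg, Prod.mk.injEq, true_and]
  push_cast
  ring_nf

/-- slope of level curves of future traces -/
theorem slope_future {lam : ℝ} (hlam : 0 < lam) {θ ψ : ℝ → ℝ} {θ' ψ' t : ℝ}
    (hθ : HasDerivAt θ θ' t) (hψ : HasDerivAt ψ ψ' t) (hs : sin (θ t) ≠ 0) (h0 : 0 ≤ θ')
    {a : ℕ → ℕ} (ha : ∀ n, 1 ≤ a n) (K : ℕ)
    (hF : HasDerivAt (fun s => (orb a (flip (tau lam (θ s) (ψ s))) (K + 1)).2.1) 0 t)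
    (hF1 : |(orb a (flip (tau lam (θ t) (ψ t))) (K + 1)).2.1| < 2) :
    (a 0 - sig0 lam (θ t)) * θ' ≤ ψ' := by
  by_contra hcon
  push Not at hcon
  simp only [orb_succ', step_flip_tau] at hF hF1
  have hθ2 : HasDerivAt (fun s => -θ s) (-θ') t := hθ.fun_neg
  have hψ2 : HasDerivAt (fun s => ψ s - (a 0 : ℝ) * θ s) (ψ' - a 0 * θ') t :=
    hψ.fun_sub (hθ.const_mul _)
  obtain ⟨F', h2, h3, h4⟩ := lemmaD_rev hlam hθ2 hψ2 (by simpa using hs) (by linarith)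
    (by simp only [sig0_neg]; nlinarith) (a := fun j => a (j + 1)) (fun n => ha _) K
  have h5 := h2.unique hF
  have h6 := h3 hF1
  rw [h5, abs_zero] at h6
  have h7 : 0 < 4 - (orb (fun j => a (j + 1)) (tau lam (-θ t) (ψ t - (a 0 : ℝ) * θ t)) K).2.1 ^ 2 := by
    have := abs_lt.mp hF1
    nlinarith
  have h8 := Real.sqrt_pos.mpr h7
  have h9 := Cf_pos lam (-θ t)
  have h10 : 0 < sig0 lam (-θ t) * -θ' - (ψ' - a 0 * θ') := by
    rw [sig0_neg]; nlinarith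
  have : 0 < √(4 - (orb (fun j => a (j + 1)) (tau lam (-θ t) (ψ t - (a 0 : ℝ) * θ t)) K).2.1 ^ 2) *
          (Cf lam (-θ t) * (sig0 lam (-θ t) * -θ' - (ψ' - a 0 * θ'))) := by positivity
  linarith

/-- slope of level curves `x = ±2` of past traces -/
theorem slope_past {lam : ℝ} (hlam : 0 < lam) {θ ψ : ℝ → ℝ} {θ' ψ' t : ℝ}
    (hθ : HasDerivAt θ θ' t) (hψ : HasDerivAt ψ ψ' t) (hs : sin (θ t) ≠ 0)
    {a : ℕ → ℕ} (ha : ∀ n, 1 ≤ a n) (k : ℕ)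
    (hF : HasDerivAt (fun s => (orb a (tau lam (θ s) (ψ s)) k).2.1) 0 t)
    (hF1 : |(orb a (tau lam (θ t) (ψ t)) k).2.1| = 2) :
    (0 ≤ θ' → ψ' ≤ sig0 lam (θ t) * θ') ∧ (θ' ≤ 0 → sig0 lam (θ t) * θ' ≤ ψ') := by
  constructor
  · intro h0
    by_contra hcon
    push Not at hcon
    obtain ⟨F', h2, h3, h4⟩ := lemmaD hlam hθ hψ hs h0 hcon ha k
    exact h4 hF1 (h2.unique hF)
  · intro h0
    by_contra hcon
    push Not at hcon
    obtain ⟨F', h2, h3, h4⟩ := lemmaD_rev hlam hθ hψ hs h0 hcon ha k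
    exact h4 hF1 (h2.unique hF)

end Pool.Agent.Sturm82
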