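import Pool.Agent.Sturm82.SpecTrace

/-!
Continued fraction arithmetic: denominators, best approximation, periodicity of the Sturmian word
and the product formula for the transfer matrices.
-/

set_option autoImplicit false

namespace Pool.Agent.Sturm82.Spec

/-! ### Gauss iterates -/

theorem gauss_mem {x : ℝ} (hx : Irrational x) :
    0 < gauss x ∧ gauss x < 1 ∧ Irrational (gauss x) := by
  have hi : Irrational x⁻¹ := hx.inv
  have hf : Irrational (gauss x) := by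
    unfold gauss
    rw [Int.fract]
    exact hi.sub_intCast _
  refine ⟨?_, Int.fract_lt_one _, hf⟩
  exact lt_of_le_of_ne (Int.fract_nonneg _) (fun h => hf.ne_zero h.symm)

theorem gauss_iter_mem {α : ℝ} (h0 : 0 < α) (h1 : α < 1) (hα : Irrational α) (n : ℕ) :
    0 < gauss^[n] α ∧ gauss^[n] α < 1 ∧ Irrational (gauss^[n] α) := by
  induction n with
  | zero => exact ⟨h0, h1, hα⟩
  | succ n ih =>
    rw [Function.iterate_succ_apply']
    exact gauss_mem ih.2.2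

theorem dig_add {α : ℝ} (h0 : 0 < α) (h1 : α < 1) (hα : Irrational α) (n : ℕ) :
    (gauss^[n] α)⁻¹ = dig α n + gauss^[n + 1] α := by
  have h := gauss_iter_mem h0 h1 hα n
  rw [Function.iterate_succ_apply', dig, gauss]
  have hnn : 0 ≤ (gauss^[n] α)⁻¹ := (inv_pos.mpr h.1).le
  have e : ((⌊(gauss^[n] α)⁻¹⌋₊ : ℕ) : ℝ) = ((⌊(gauss^[n] α)⁻¹⌋ : ℤ) : ℝ) := by
    rw [← natCast_floor_eq_intCast_floor hnn]
  rw [e, Int.floor_add_fract]

theorem one_le_dig {α : ℝ} (h0 : 0 < α) (h1 : α < 1) (hα : Irrational α) (n : ℕ) :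
    1 ≤ dig α n := by
  have h := gauss_iter_mem h0 h1 hα n
  rw [dig]
  apply Nat.le_floor
  rw [Nat.cast_one]
  exact (one_lt_inv₀ h.1).mpr h.2.1 |>.le

/-! ### Convergents -/

/-- denominators, `Q 0 = q_{-1} = 0`, `Q 1 = q_0 = 1`. -/
def Q (a : ℕ → ℕ) : ℕ → ℕ
  | 0 => 0
  | 1 => 1
  | (n + 2) => a n * Q a (n + 1) + Q a n

/-- numerators, `P 0 = p_{-1} = 1`, `P 1 = p_0 = 0`. -/
def P (a : ℕ → ℕ) : ℕ → ℕ
  | 0 => 1
  | 1 => 0
  | (n + 2) => a n * P a (n + 1) + P a n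

/-- `D n = q_{n-1} α - p_{n-1}` -/
noncomputable def D (α : ℝ) (n : ℕ) : ℝ := Q (dig α) n * α - P (dig α) n

theorem Q_ge {a : ℕ → ℕ} (ha : ∀ n, 1 ≤ a n) (n : ℕ) : n ≤ Q a (n + 1) ∧ 1 ≤ Q a (n + 1) := by
  suffices h : (n ≤ Q a (n + 1) ∧ 1 ≤ Q a (n + 1)) ∧
      (n + 1 ≤ Q a (n + 2) ∧ 1 ≤ Q a (n + 2)) from h.1
  induction n with
  | zero =>
    refine ⟨⟨Nat.zero_le _, le_refl _⟩, ?_, ?_⟩ <;>
    · simp only [Q]; have := ha 0; omega
  | succ n ih =>
    refine ⟨ih.2, ?_⟩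
    have h1 : Q a (n + 1 + 2) = a (n + 1) * Q a (n + 2) + Q a (n + 1) := rfl
    have h2 : Q a (n + 2) ≤ a (n + 1) * Q a (n + 2) := Nat.le_mul_of_pos_left _ (ha _)
    rw [h1]
    constructor <;> omega

theorem Q_pos {a : ℕ → ℕ} (ha : ∀ n, 1 ≤ a n) (n : ℕ) : 1 ≤ Q a (n + 1) := (Q_ge ha n).2

theorem Q_le_succ {a : ℕ → ℕ} (ha : ∀ n, 1 ≤ a n) (n : ℕ) : Q a n ≤ Q a (n + 1) := by
  rcases n with _ | n
  · exact Nat.zero_le _
  · have h2 : Q a (n + 1) ≤ a n * Q a (n + 1) := Nat.le_mul_of_pos_left _ (ha _)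
    show Q a (n + 1) ≤ a n * Q a (n + 1) + Q a n
    omega

theorem Q_mono {a : ℕ → ℕ} (ha : ∀ n, 1 ≤ a n) : Monotone (Q a) :=
  monotone_nat_of_le_succ (Q_le_succ ha)

theorem det_QP (a : ℕ → ℕ) (n : ℕ) :
    ((Q a (n + 1) : ℤ) * P a n - Q a n * P a (n + 1)) = (-1) ^ n := by
  induction n with
  | zero => simp [Q, P]
  | succ n ih =>
    have h1 : (Q a (n + 1 + 1) : ℤ) = a n * Q a (n + 1) + Q a n := by
      rw [Q]; push_cast; ring
    have h2 : (P a (n + 1 + 1) : ℤ) = a n * P a (n + 1) + P a n := by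
      rw [P]; push_cast; ring
    rw [h1, h2, pow_succ, ← ih]
    ring

section

variable {α : ℝ} (h0 : 0 < α) (h1 : α < 1) (hα : Irrational α)
include h0 h1 hα

theorem D_succ (n : ℕ) : D α (n + 1) = -(gauss^[n] α) * D α n := by
  induction n with
  | zero => simp [D, Q, P]
  | succ n ih =>
    have e : D α (n + 2) = dig α n * D α (n + 1) + D α n := by
      simp only [D, Q, P]; push_cast; ring
    have hg := gauss_iter_mem h0 h1 hα n
    have hd := dig_add h0 h1 hα n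
    have hD : D α n = -(gauss^[n] α)⁻¹ * D α (n + 1) := by
      rw [ih]; field_simp [hg.1.ne']
    rw [e, hD, hd]
    ring

theorem D_ne_zero (n : ℕ) : D α n ≠ 0 := by
  induction n with
  | zero => simp [D, Q, P]
  | succ n ih =>
    rw [D_succ h0 h1 hα]
    exact mul_ne_zero (neg_ne_zero.mpr (gauss_iter_mem h0 h1 hα n).1.ne') ih

/-- `D n > 0` for odd `n`. -/
theorem D_odd (n : ℕ) : 0 < D α (2 * n + 1) ∧ D α (2 * n) < 0 ∧ D α (2 * n + 1) < 1 := by
  induction n with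
  | zero => simp [D, Q, P, h0, h1]
  | succ n ih =>
    have e1 := D_succ h0 h1 hα (2 * n + 1)
    have e2 := D_succ h0 h1 hα (2 * n + 1 + 1)
    have g1 := gauss_iter_mem h0 h1 hα (2 * n + 1)
    have g2 := gauss_iter_mem h0 h1 hα (2 * n + 1 + 1)
    have hneg : D α (2 * n + 1 + 1) < 0 := by
      rw [e1]; nlinarith [ih.1, g1.1]
    refine ⟨?_, hneg, ?_⟩
    · show 0 < D α (2 * n + 1 + 1 + 1)
      rw [e2]; nlinarith [g2.1]
    · show D α (2 * n + 1 + 1 + 1) < 1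
      rw [e2, e1]
      have h3 : gauss^[2 * n + 1 + 1] α * gauss^[2 * n + 1] α < 1 := by
        nlinarith [g1.1, g1.2.1, g2.1, g2.2.1]
      have h4 : gauss^[2 * n + 1 + 1] α * gauss^[2 * n + 1] α * D α (2 * n + 1) < 1 := by
        have : 0 < gauss^[2 * n + 1 + 1] α * gauss^[2 * n + 1] α := mul_pos g2.1 g1.1
        nlinarith [ih.1, ih.2.2]
      nlinarith

/-- best approximation -/
theorem best_approx (N : ℕ) (n m : ℤ) (hn : n ≠ 0) (hlt : |n| < Q (dig α) (N + 1)) :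
    |D α N| ≤ |(n : ℝ) * α - m| := by
  set s : ℤ := (-1) ^ N with hs
  have hdet := det_QP (dig α) N
  rw [← hs] at hdet
  have hss : s * s = 1 := by rw [hs, ← mul_pow]; norm_num
  set x : ℤ := -s * (n * P (dig α) (N + 1) - m * Q (dig α) (N + 1)) with hx
  set y : ℤ := s * (n * P (dig α) N - m * Q (dig α) N) with hy
  have en : n = x * Q (dig α) N + y * Q (dig α) (N + 1) := by
    rw [hx, hy]
    linear_combination (-n) * hss + (-s * n) * hdet
  have em : m = x * P (dig α) N + y * P (dig α) (N + 1) := by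
    rw [hx, hy]
    linear_combination (-m) * hss + (-s * m) * hdet
  have hQ1 : (1 : ℤ) ≤ Q (dig α) (N + 1) := by
    exact_mod_cast Q_pos (one_le_dig h0 h1 hα) N
  have hQ0 : (0 : ℤ) ≤ Q (dig α) N := by positivity
  have hval : (n : ℝ) * α - m = D α N * (x - gauss^[N] α * y) := by
    have e1 := D_succ h0 h1 hα N
    have : (n : ℝ) * α - m = x * D α N + y * D α (N + 1) := by
      have en' : (n : ℝ) = x * Q (dig α) N + y * Q (dig α) (N + 1) := by exact_mod_cast en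
      have em' : (m : ℝ) = x * P (dig α) N + y * P (dig α) (N + 1) := by exact_mod_cast em
      rw [en', em', D, D]; ring
    rw [this, e1]; ring
  have hg := gauss_iter_mem h0 h1 hα N
  have hxy : (1 ≤ x ∧ y ≤ 0) ∨ (x ≤ -1 ∧ 0 ≤ y) := by
    rcases abs_lt.mp hlt with ⟨hl, hr⟩
    rcases lt_trichotomy x 0 with hx0 | hx0 | hx0
    · right
      refine ⟨by omega, ?_⟩
      by_contra hc
      push Not at hc
      have h3 : x * Q (dig α) N ≤ 0 := mul_nonpos_of_nonpos_of_nonneg hx0.le hQ0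
      have h4 : y * Q (dig α) (N + 1) ≤ -1 * Q (dig α) (N + 1) :=
        mul_le_mul_of_nonneg_right (by omega) (by omega)
      linarith
    · exfalso
      rw [hx0, zero_mul, zero_add] at en
      rcases lt_trichotomy y 0 with hy0 | hy0 | hy0
      · have h4 : y * Q (dig α) (N + 1) ≤ -1 * Q (dig α) (N + 1) :=
          mul_le_mul_of_nonneg_right (by omega) (by omega)
        linarith
      · rw [hy0, zero_mul] at en; exact hn en
      · have h4 : 1 * Q (dig α) (N + 1) ≤ y * (Q (dig α) (N + 1) : ℤ) :=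
          mul_le_mul_of_nonneg_right (by omega) (by omega)
        linarith
    · left
      refine ⟨by omega, ?_⟩
      by_contra hc
      push Not at hc
      have h3 : 0 ≤ x * Q (dig α) N := mul_nonneg hx0.le hQ0
      have h4 : 1 * Q (dig α) (N + 1) ≤ y * (Q (dig α) (N + 1) : ℤ) :=
        mul_le_mul_of_nonneg_right (by omega) (by omega)
      linarith
  have habs : 1 ≤ |(x : ℝ) - gauss^[N] α * y| := by
    rcases hxy with ⟨hx1, hy1⟩ | ⟨hx1, hy1⟩
    · have hx1' : (1 : ℝ) ≤ x := by exact_mod_cast hx1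
      have hy1' : (y : ℝ) ≤ 0 := by exact_mod_cast hy1
      have : gauss^[N] α * y ≤ 0 := mul_nonpos_of_nonneg_of_nonpos hg.1.le hy1'
      rw [le_abs]; left; linarith
    · have hx1' : (x : ℝ) ≤ -1 := by exact_mod_cast hx1
      have hy1' : (0 : ℝ) ≤ y := by exact_mod_cast hy1
      have : 0 ≤ gauss^[N] α * y := mul_nonneg hg.1.le hy1'
      rw [le_abs]; right; linarith
  rw [hval, abs_mul]
  exact le_mul_of_one_le_right (abs_nonneg _) habs

/-- floor identity -/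
theorem floor_add_Q (N : ℕ) (n : ℤ) (hn : n ≠ 0) (hlt : |n| < Q (dig α) (N + 1))
    (hn' : n + Q (dig α) N ≠ 0) :
    ⌊((n + Q (dig α) N : ℤ) : ℝ) * α⌋ = ⌊(n : ℝ) * α⌋ + P (dig α) N := by
  have b1 := best_approx h0 h1 hα N n ⌊(n : ℝ) * α⌋ hn hlt
  have b2 := best_approx h0 h1 hα N n (⌊(n : ℝ) * α⌋ + 1) hn hlt
  have f1 := Int.floor_le ((n : ℝ) * α)
  have f2 := Int.lt_floor_add_one ((n : ℝ) * α)
  push_cast at b2
  rw [abs_of_nonneg (show 0 ≤ (n : ℝ) * α - ⌊(n : ℝ) * α⌋ by linarith)] at b1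
  rw [abs_of_nonpos (show (n : ℝ) * α - (⌊(n : ℝ) * α⌋ + 1) ≤ 0 by linarith)] at b2
  have hD : D α N = Q (dig α) N * α - P (dig α) N := rfl
  rw [Int.floor_eq_iff]
  push_cast
  refine ⟨?_, ?_⟩
  · have := neg_abs_le (D α N)
    nlinarith
  · have h3 := le_abs_self (D α N)
    have h4 : ((n : ℝ) + Q (dig α) N) * α ≤ ⌊(n : ℝ) * α⌋ + P (dig α) N + 1 := by nlinarith
    refine lt_of_le_of_ne h4 ?_
    intro heq
    have hirr : Irrational (((n + Q (dig α) N : ℤ) : ℝ) * α) := hα.intCast_mul hn'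
    apply hirr.ne_int (⌊(n : ℝ) * α⌋ + P (dig α) N + 1)
    push_cast
    exact heq

theorem floor_Q_odd (N : ℕ) :
    ⌊((0 + Q (dig α) (2 * N + 1) : ℤ) : ℝ) * α⌋ = ⌊((0 : ℤ) : ℝ) * α⌋ + P (dig α) (2 * N + 1) := by
  have hD : D α (2 * N + 1) = Q (dig α) (2 * N + 1) * α - P (dig α) (2 * N + 1) := rfl
  have h := D_odd h0 h1 hα N
  rw [Int.floor_eq_iff]
  push_cast
  rw [zero_mul, Int.floor_zero]
  push_cast
  constructor <;> nlinarith [h.1, h.2.2]

end

/-- The Sturmian sequence. -/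
noncomputable def sv (α : ℝ) (n : ℤ) : ℤ := ⌊((n : ℝ) + 1) * α⌋ - ⌊(n : ℝ) * α⌋

section

variable {α : ℝ} (h0 : 0 < α) (h1 : α < 1) (hα : Irrational α)
include h0 h1 hα

theorem sv_add_Q (N : ℕ) (n : ℤ) (hn : 1 ≤ n) (hn2 : n + 2 ≤ Q (dig α) (N + 1)) :
    sv α (n + Q (dig α) N) = sv α n := by
  have hq : (0 : ℤ) ≤ Q (dig α) N := by positivity
  have e1 := floor_add_Q h0 h1 hα N n (by omega) (by rw [abs_lt]; constructor <;> omega) (by omega)
  have e2 := floor_add_Q h0 h1 hα N (n + 1) (by omega) (by rw [abs_lt]; constructor <;> omega)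
    (by omega)
  rw [sv, sv]
  have c1 : (((n + Q (dig α) N : ℤ) : ℝ) + 1) = ((n + 1 + Q (dig α) N : ℤ) : ℝ) := by
    push_cast; ring
  have c2 : ((n : ℝ) + 1) = ((n + 1 : ℤ) : ℝ) := by push_cast; ring
  rw [c1, c2, e1, e2]
  ring

theorem sv_add_Q_odd (N : ℕ) (n : ℤ) (hn : -(Q (dig α) (2 * N + 1) : ℤ) < n)
    (hn2 : n + 2 ≤ Q (dig α) (2 * N + 1 + 1)) :
    sv α (n + Q (dig α) (2 * N + 1)) = sv α n := by
  have hmono : (Q (dig α) (2 * N + 1) : ℤ) ≤ Q (dig α) (2 * N + 1 + 1) := by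
    exact_mod_cast Q_le_succ (one_le_dig h0 h1 hα) _
  have key : ∀ m : ℤ, -(Q (dig α) (2 * N + 1) : ℤ) < m → m < Q (dig α) (2 * N + 1 + 1) →
      ⌊((m + Q (dig α) (2 * N + 1) : ℤ) : ℝ) * α⌋ = ⌊(m : ℝ) * α⌋ + P (dig α) (2 * N + 1) := by
    intro m hm1 hm2
    by_cases hm0 : m = 0
    · subst hm0; exact floor_Q_odd h0 h1 hα N
    · exact floor_add_Q h0 h1 hα _ m hm0 (by rw [abs_lt]; constructor <;> omega) (by omega)
  have e1 := key n hn (by omega)
  have e2 := key (n + 1) (by omega) (by omega)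
  rw [sv, sv]
  have c1 : (((n + Q (dig α) (2 * N + 1) : ℤ) : ℝ) + 1) = ((n + 1 + Q (dig α) (2 * N + 1) : ℤ) : ℝ) := by
    push_cast; ring
  have c2 : ((n : ℝ) + 1) = ((n + 1 : ℤ) : ℝ) := by push_cast; ring
  rw [c1, c2, e1, e2]
  ring

theorem dig_zero_mul : (dig α 0 : ℝ) * α < 1 ∧ 1 < ((dig α 0 : ℝ) + 1) * α := by
  have h := dig_add h0 h1 hα 0
  have hg := gauss_iter_mem h0 h1 hα 1
  simp only [Function.iterate_zero, id_eq, zero_add] at h
  have h2 : α⁻¹ * α = 1 := inv_mul_cancel₀ h0.ne'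
  rw [h] at h2
  constructor
  · nlinarith [hg.1]
  · nlinarith [hg.2.1]

theorem floor_small (n : ℤ) (hn : 0 ≤ n) (hn2 : n ≤ dig α 0) : ⌊(n : ℝ) * α⌋ = 0 := by
  have h := dig_zero_mul h0 h1 hα
  have hn' : (0 : ℝ) ≤ n := by exact_mod_cast hn
  have hn2' : (n : ℝ) ≤ dig α 0 := by exact_mod_cast hn2
  rw [Int.floor_eq_zero_iff]
  refine ⟨by positivity, ?_⟩
  nlinarith

theorem sv_small (n : ℤ) (hn : 0 ≤ n) (hn2 : n + 1 ≤ dig α 0) : sv α n = 0 := by
  have e1 := floor_small h0 h1 hα n hn (by omega)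
  have e2 := floor_small h0 h1 hα (n + 1) (by omega) (by omega)
  rw [sv, e1]
  push_cast at e2
  rw [e2, sub_zero]

theorem sv_dig : sv α (dig α 0 : ℤ) = 1 := by
  have h := dig_zero_mul h0 h1 hα
  have e1 := floor_small h0 h1 hα (dig α 0 : ℤ) (by positivity) (le_refl _)
  have e2 : ⌊(((dig α 0 : ℤ) : ℝ) + 1) * α⌋ = 1 := by
    rw [Int.floor_eq_iff]
    push_cast
    constructor
    · exact h.2.le
    · nlinarith
  rw [sv, e1, e2, sub_zero]

theorem sv_Q3 : sv α (Q (dig α) 3 : ℤ) = 0 := by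
  have hD : D α 3 = Q (dig α) 3 * α - P (dig α) 3 := rfl
  have e0 : D α 1 = α := by simp [D, Q, P]
  have e1 := D_succ h0 h1 hα 1
  have e2 := D_succ h0 h1 hα 2
  have g1 := gauss_iter_mem h0 h1 hα 1
  have g2 := gauss_iter_mem h0 h1 hα 2
  have hd := dig_add h0 h1 hα 0
  have hd1 : (1 : ℝ) ≤ dig α 0 := by exact_mod_cast one_le_dig h0 h1 hα 0
  simp only [Function.iterate_zero, id_eq, zero_add] at hd
  have h2 : α⁻¹ * α = 1 := inv_mul_cancel₀ h0.ne'
  rw [hd] at h2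
  have hD3 : D α 3 = gauss^[2] α * gauss^[1] α * α := by
    rw [show (3 : ℕ) = 2 + 1 from rfl, e2, show (2 : ℕ) = 1 + 1 from rfl, e1, e0]; ring
  have hpos : 0 < D α 3 := by rw [hD3]; exact mul_pos (mul_pos g2.1 g1.1) h0
  have hlt : D α 3 + α < 1 := by
    rw [hD3, ← h2]
    have h3 : gauss^[2] α * gauss^[1] α < gauss^[1] α := by nlinarith [g1.1, g2.2.1]
    have h4 : gauss^[2] α * gauss^[1] α * α < gauss^[1] α * α := mul_lt_mul_of_pos_right h3 h0
    nlinarith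
  have f1 : ⌊((Q (dig α) 3 : ℤ) : ℝ) * α⌋ = P (dig α) 3 := by
    rw [Int.floor_eq_iff]
    push_cast
    constructor <;> nlinarith
  have f2 : ⌊(((Q (dig α) 3 : ℤ) : ℝ) + 1) * α⌋ = P (dig α) 3 := by
    rw [Int.floor_eq_iff]
    push_cast
    constructor <;> nlinarith
  rw [sv, f1, f2, sub_self]

end

end Pool.Agent.Sturm82.Spec
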