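import Pool.Agent.Sturm82.SpecProd

/-!
The periodic (cycle) Jacobi matrix: eigenvalues have trace two, and lower bound for `H - E`.
-/

set_option autoImplicit false

namespace Pool.Agent.Sturm82.Spec

open Matrix

/-- Lower bound for a hermitian matrix whose eigenvalues are far from `E`. -/
theorem herm_lower {n : Type*} [Fintype n] [DecidableEq n] (A : Matrix n n ℂ)
    (hA : A.IsHermitian) (E ε : ℝ) (hε : 0 ≤ ε)
    (h : ∀ (μ : ℝ) (v : n → ℂ), v ≠ 0 → A *ᵥ v = (μ : ℂ) • v → ε ≤ |μ - E|) (φ : n → ℂ) :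
    ε ^ 2 * ∑ i, ‖φ i‖ ^ 2 ≤ ∑ i, ‖(A *ᵥ φ) i - E * φ i‖ ^ 2 := by
  set b := hA.eigenvectorBasis with hb
  set x : EuclideanSpace ℂ n := WithLp.toLp 2 φ with hx
  set y : EuclideanSpace ℂ n := WithLp.toLp 2 (A *ᵥ φ - (E : ℂ) • φ) with hy
  have h1 : ∑ i, ‖φ i‖ ^ 2 = ‖x‖ ^ 2 := by
    rw [EuclideanSpace.norm_sq_eq]
  have h2 : ∑ i, ‖(A *ᵥ φ) i - E * φ i‖ ^ 2 = ‖y‖ ^ 2 := by
    rw [EuclideanSpace.norm_sq_eq]
    rfl
  have hyx : y = Matrix.toEuclideanLin A x - (E : ℂ) • x := rfl
  have hsym := Matrix.isSymmetric_toEuclideanLin_iff.mpr hA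
  have hbi : ∀ i, Matrix.toEuclideanLin A (b i) = ((hA.eigenvalues i : ℝ) : ℂ) • b i := by
    intro i
    have := hA.mulVec_eigenvectorBasis i
    rw [Matrix.toLpLin_apply]
    apply (WithLp.ofLp_injective 2)
    simpa using this
  have hin : ∀ i, inner ℂ (b i) y = ((hA.eigenvalues i - E : ℝ) : ℂ) * inner ℂ (b i) x := by
    intro i
    rw [hyx, inner_sub_right, ← hsym (b i) x, hbi i, inner_smul_left, inner_smul_right]
    simp only [Complex.conj_ofReal]
    push_cast
    ring
  rw [h1, h2, ← b.sum_sq_norm_inner_right x, ← b.sum_sq_norm_inner_right y, Finset.mul_sum]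
  apply Finset.sum_le_sum
  intro i _
  rw [hin i, norm_mul, mul_pow]
  apply mul_le_mul_of_nonneg_right _ (by positivity)
  rw [Complex.norm_real, Real.norm_eq_abs]
  have hne : (b i : n → ℂ) ≠ 0 := by
    intro h0
    have : b i = 0 := by
      apply (WithLp.ofLp_injective 2)
      exact h0
    have hn := b.orthonormal.ne_zero i
    exact hn this
  have := h (hA.eigenvalues i) (b i) hne (by
    have := hA.mulVec_eigenvectorBasis i
    simpa using this)
  exact pow_le_pow_left₀ hε this 2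

section Cycle

variable (q : ℕ) [NeZero q]

/-- The periodic Jacobi matrix with potential `c`. -/
def cyc (c : ℕ → ℝ) : Matrix (ZMod q) (ZMod q) ℂ := fun i j =>
  (if j = i + 1 then 1 else 0) + (if j = i - 1 then 1 else 0) + (if j = i then (c i.val : ℂ) else 0)

omit [NeZero q] in
theorem cyc_herm (c : ℕ → ℝ) : (cyc q c).IsHermitian := by
  ext i j
  rw [Matrix.conjTranspose_apply, cyc, cyc]
  have e1 : (i = j + 1) ↔ (j = i - 1) := ⟨fun h => by rw [h]; ring, fun h => by rw [h]; ring⟩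
  have e2 : (i = j - 1) ↔ (j = i + 1) := ⟨fun h => by rw [h]; ring, fun h => by rw [h]; ring⟩
  have hs : ∀ p : Prop, ∀ [Decidable p], star (if p then (1 : ℂ) else 0) = if p then 1 else 0 := by
    intro p _
    split_ifs <;> simp
  have hd : star (if i = j then (c j.val : ℂ) else 0) = if j = i then (c i.val : ℂ) else 0 := by
    by_cases h : i = j
    · subst h; simp
    · rw [if_neg h, if_neg (fun hh => h hh.symm), star_zero]
  rw [star_add, star_add, hs, hs, hd]
  simp only [e1, e2]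
  ring

theorem cyc_mulVec (c : ℕ → ℝ) (φ : ZMod q → ℂ) (i : ZMod q) :
    (cyc q c *ᵥ φ) i = φ (i + 1) + φ (i - 1) + c i.val * φ i := by
  rw [Matrix.mulVec, dotProduct]
  simp only [cyc, add_mul, ite_mul, one_mul, zero_mul, Finset.sum_add_distrib,
    Finset.sum_ite_eq', Finset.mem_univ, if_true]

/-- the transfer vector is propagated by `W` -/
theorem transfer_vec {R : Type*} [CommRing R] (g : ℕ → Matrix (Fin 2) (Fin 2) R)
    (z : ℕ → (Fin 2 → R)) (n : ℕ) (h : ∀ k, k < n → z (k + 1) = g k *ᵥ z k) :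
    z n = W g 0 n *ᵥ z 0 := by
  induction n with
  | zero => simp [W]
  | succ n ih =>
    rw [h n (Nat.lt_succ_self n), ih (fun k hk => h k (Nat.lt_succ_of_lt hk)), W,
      ← Matrix.mulVec_mulVec, zero_add]

/-- an eigenvector of the cycle matrix gives trace two. -/
theorem cyc_eig_trace (c : ℕ → ℝ) (μ : ℝ) (φ : ZMod q → ℂ) (hφ : φ ≠ 0)
    (h : cyc q c *ᵥ φ = (μ : ℂ) • φ) (hdet : (W (fun k => Tm ((μ : ℂ) - c k)) 0 q).det = 1) :
    (W (fun k => Tm ((μ : ℂ) - c k)) 0 q).trace = 2 := by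
  set g : ℕ → Matrix (Fin 2) (Fin 2) ℂ := fun k => Tm ((μ : ℂ) - c k) with hg
  set z : ℕ → (Fin 2 → ℂ) := fun k => ![φ (k : ZMod q), φ ((k : ZMod q) - 1)] with hz
  have hstep : ∀ k, k < q → z (k + 1) = g k *ᵥ z k := by
    intro k hk
    have h1 := congrFun h (k : ZMod q)
    rw [cyc_mulVec, Pi.smul_apply, ZMod.val_natCast_of_lt hk, smul_eq_mul] at h1
    simp only [hz, hg, Tm]
    ext i
    fin_cases i
    · simp [Matrix.mulVec, dotProduct, Fin.sum_univ_two]
      linear_combination h1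
    · simp [Matrix.mulVec, dotProduct, Fin.sum_univ_two]
  have hq := transfer_vec g z q hstep
  have hqz : z q = z 0 := by simp [hz]
  rw [hqz] at hq
  have hz0 : z 0 ≠ 0 := by
    intro h0
    apply hφ
    have hall : ∀ k, k ≤ q → z k = 0 := by
      intro k
      induction k with
      | zero => intro _; exact h0
      | succ k ih => intro hk; rw [hstep k (by omega), ih (by omega), Matrix.mulVec_zero]
    funext i
    have := congrFun (hall i.val (ZMod.val_lt i).le) 0
    simpa [hz] using this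
  set w := W g 0 q with hw
  have hker : (w - 1) *ᵥ z 0 = 0 := by
    rw [Matrix.sub_mulVec, Matrix.one_mulVec, ← hq, sub_self]
  have hdet0 : (w - 1).det = 0 := by
    by_contra hne
    exact hz0 (Matrix.eq_zero_of_mulVec_eq_zero hne hker)
  rw [Matrix.det_fin_two] at hdet hdet0
  rw [Matrix.trace_fin_two]
  simp at hdet0
  linear_combination -hdet0 + hdet

end Cycle

end Pool.Agent.Sturm82.Spec
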