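import Pool.Agent.Sturm82.SpecLp

/-!
The spectrum is contained in the trace set.
-/

set_option autoImplicit false

namespace Pool.Agent.Sturm82.Spec

open Matrix

theorem sum_zmod (q : ℕ) [NeZero q] (f : ℕ → ℝ) :
    ∑ i : ZMod q, f i.val = ∑ k ∈ Finset.range q, f k := by
  obtain _ | n := q
  · exact absurd rfl (NeZero.ne 0)
  · exact Fin.sum_univ_eq_sum_range f (n + 1)

theorem cycle_compare (q : ℕ) [NeZero q] (c : ℕ → ℝ) (V : ℤ → ℝ) (ψ : ℤ → ℂ) (L s : ℕ)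
    (hs : L + 2 ≤ s) (hq : s + L + 2 ≤ q) (hψ : ∀ n, ψ n ≠ 0 → |n| ≤ L)
    (hc : ∀ k : ℕ, k < q → |(k : ℤ) + 1 - s| ≤ L → c k = V ((k : ℤ) + 1 - s)) (E : ℝ) (i : ZMod q) :
    (cyc q c *ᵥ (fun i => ψ ((i.val : ℤ) + 1 - s))) i - E * ψ ((i.val : ℤ) + 1 - s) =
      ψ ((i.val : ℤ) + 1 - s + 1) + ψ ((i.val : ℤ) + 1 - s - 1)
        + V ((i.val : ℤ) + 1 - s) * ψ ((i.val : ℤ) + 1 - s) - E * ψ ((i.val : ℤ) + 1 - s) := by
  have h0 : ∀ n : ℤ, (L : ℤ) < |n| → ψ n = 0 := by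
    intro n hn
    by_contra hne
    have := hψ n hne
    omega
  have hi := ZMod.val_lt i
  rw [cyc_mulVec]
  have hcast : ((i.val : ℕ) : ZMod q) = i := ZMod.natCast_zmod_val i
  -- right neighbour
  have h1 : ψ (((i + 1).val : ℤ) + 1 - s) = ψ ((i.val : ℤ) + 1 - s + 1) := by
    by_cases hlt : i.val + 1 < q
    · have : (i + 1).val = i.val + 1 := by
        have e : i + 1 = ((i.val + 1 : ℕ) : ZMod q) := by push_cast; rw [hcast]
        rw [e, ZMod.val_natCast_of_lt hlt]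
      rw [this]
      congr 1
      push_cast
      ring
    · have hiq : i.val + 1 = q := by omega
      have : (i + 1).val = 0 := by
        have e : i + 1 = ((i.val + 1 : ℕ) : ZMod q) := by push_cast; rw [hcast]
        rw [e, hiq, ZMod.natCast_self, ZMod.val_zero]
      rw [this, h0, h0]
      · rw [lt_abs]; left; omega
      · rw [lt_abs]; right; omega
  have h2 : ψ (((i - 1).val : ℤ) + 1 - s) = ψ ((i.val : ℤ) + 1 - s - 1) := by
    by_cases hpos : 1 ≤ i.val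
    · have : (i - 1).val = i.val - 1 := by
        have e : i - 1 = ((i.val - 1 : ℕ) : ZMod q) := by
          rw [Nat.cast_sub hpos, hcast, Nat.cast_one]
        rw [e, ZMod.val_natCast_of_lt (by omega)]
      rw [this]
      congr 1
      omega
    · have hi0 : i.val = 0 := by omega
      have : (i - 1).val = q - 1 := by
        have e : i - 1 = ((q - 1 : ℕ) : ZMod q) := by
          rw [Nat.cast_sub (by omega), ZMod.natCast_self, Nat.cast_one, ← hcast, hi0]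
          simp
        rw [e, ZMod.val_natCast_of_lt (by omega)]
      rw [this, hi0, h0, h0]
      · rw [lt_abs]; right; omega
      · rw [lt_abs]; left; omega
  have h3 : (c i.val : ℂ) * ψ ((i.val : ℤ) + 1 - s) =
      (V ((i.val : ℤ) + 1 - s) : ℂ) * ψ ((i.val : ℤ) + 1 - s) := by
    by_cases hle : |(i.val : ℤ) + 1 - s| ≤ L
    · rw [hc i.val hi hle]
    · rw [h0 _ (by omega), mul_zero, mul_zero]
  rw [h1, h2, h3]

theorem lower_of_cycle (T : L2 →L[ℂ] L2) (V : ℤ → ℝ)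
    (hT : ∀ (u : L2) (n : ℤ), (T u) n = u (n + 1) + u (n - 1) + (V n : ℂ) * u n)
    (E ε : ℝ) (hε : 0 < ε) (u : L2) (q : ℕ) [NeZero q] (c : ℕ → ℝ) (L s : ℕ)
    (hs : L + 2 ≤ s) (hq : s + L + 2 ≤ q) (hψ : ∀ n, u n ≠ 0 → |n| ≤ L)
    (hc : ∀ k : ℕ, k < q → |(k : ℤ) + 1 - s| ≤ L → c k = V ((k : ℤ) + 1 - s))
    (heig : ∀ (μ : ℝ) (v : ZMod q → ℂ), v ≠ 0 → cyc q c *ᵥ v = (μ : ℂ) • v → ε ≤ |μ - E|) :
    ε * ‖u‖ ≤ ‖T u - (E : ℂ) • u‖ := by
  have key := herm_lower (cyc q c) (cyc_herm q c) E ε hε.le heig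
    (fun i => u ((i.val : ℤ) + 1 - s))
  have hcomp := cycle_compare q c V (fun n => u n) L s hs hq hψ hc E
  set e : ℕ ↪ ℤ := ⟨fun k => (k : ℤ) + 1 - s, fun a b h => by simpa using h⟩ with he
  have h1 : ‖u‖ ^ 2 = ∑ k ∈ Finset.range q, ‖u ((k : ℤ) + 1 - s)‖ ^ 2 := by
    rw [L2_norm_sq, tsum_eq_sum (s := (Finset.range q).map e), Finset.sum_map]
    · rfl
    · intro n hn
      have : u n = 0 := by
        by_contra hne
        have hL := hψ n hne
        rw [abs_le] at hL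
        apply hn
        rw [Finset.mem_map]
        refine ⟨(n + s - 1).toNat, ?_, ?_⟩
        · rw [Finset.mem_range]; omega
        · show (((n + s - 1).toNat : ℤ)) + 1 - s = n
          omega
      rw [this]; simp
  have h2 : ∑ k ∈ Finset.range q, ‖(T u - (E : ℂ) • u) ((k : ℤ) + 1 - s)‖ ^ 2 ≤
      ‖T u - (E : ℂ) • u‖ ^ 2 := by
    have := sum_le_hasSum ((Finset.range q).map e) (fun i _ => by positivity)
      (L2_hasSum_sq (T u - (E : ℂ) • u))
    rw [Finset.sum_map] at this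
    exact this
  have h3 : ∀ i : ZMod q, (cyc q c *ᵥ (fun i => u ((i.val : ℤ) + 1 - s))) i
      - E * u ((i.val : ℤ) + 1 - s) = (T u - (E : ℂ) • u) ((i.val : ℤ) + 1 - s) := by
    intro i
    rw [hcomp i]
    show _ = (T u) ((i.val : ℤ) + 1 - s) - (E : ℂ) * u ((i.val : ℤ) + 1 - s)
    rw [hT]
  have h4 : ε ^ 2 * ‖u‖ ^ 2 ≤ ‖T u - (E : ℂ) • u‖ ^ 2 := by
    rw [h1, ← sum_zmod q (fun k => ‖u ((k : ℤ) + 1 - s)‖ ^ 2)]
    refine key.trans ?_
    rw [← sum_zmod q (fun k => ‖(T u - (E : ℂ) • u) ((k : ℤ) + 1 - s)‖ ^ 2)] at h2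
    refine le_trans (le_of_eq ?_) h2
    apply Finset.sum_congr rfl
    intro i _
    rw [h3 i]
  rw [← mul_pow] at h4
  exact (pow_le_pow_iff_left₀ (by positivity) (norm_nonneg _) two_ne_zero).mp h4

theorem not_mem_spectrum (lam : ℝ) (α : ℝ) (h0 : 0 < α) (h1 : α < 1)
    (hα : Irrational α) (T : L2 →L[ℂ] L2)
    (hT : ∀ (u : L2) (n : ℤ), (T u) n = u (n + 1) + u (n - 1) + ((lam * (sv α n : ℝ) : ℝ) : ℂ) * u n)
    (E : ℝ) (hE : E ∉ Sig lam (dig α)) : (E : ℂ) ∉ spectrum ℂ T := by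
  have ha := one_le_dig h0 h1 hα
  obtain ⟨ε, hε, N0, hN0⟩ := exists_escape_nhd lam (dig α) ha E hE
  apply not_mem_spectrum_of_bound T (fun n => lam * (sv α n : ℝ)) hT E ε hε
  intro u hu
  obtain ⟨L, hL⟩ : ∃ L : ℕ, ∀ n, u n ≠ 0 → |n| ≤ L := by
    obtain ⟨B, hB⟩ := (hu.image (fun n : ℤ => |n|)).bddAbove
    refine ⟨B.toNat, fun n hn => ?_⟩
    have := hB ⟨n, hn, rfl⟩
    simp only at this
    omega
  -- shift
  set j := L + 2 with hj
  set s := Q (dig α) (2 * j + 1) with hs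
  have hsL : L + 2 ≤ s := le_trans (by omega) (Q_ge ha (2 * j)).1
  -- cycle length
  set N := N0 + s + L + 2 with hN
  set q := Q (dig α) (N + 2) with hq
  have hqL : s + L + 2 ≤ q := le_trans (by omega) (Q_ge ha (N + 1)).1
  have : NeZero q := ⟨by omega⟩
  refine lower_of_cycle T (fun n => lam * (sv α n : ℝ)) hT E ε hε u q
    (fun k => lam * (sv α ((k : ℤ) + 1) : ℝ)) L s hsL hqL hL ?_ ?_
  · intro k hk hkL
    rw [abs_le] at hkL
    have hmono : (Q (dig α) (2 * j + 1) : ℤ) ≤ Q (dig α) (2 * j + 1 + 1) := by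
      exact_mod_cast Q_le_succ ha _
    have := sv_add_Q_odd h0 h1 hα j ((k : ℤ) + 1 - s) (by omega) (by omega)
    rw [← hs] at this
    rw [← this]
    congr 3
    ring
  · intro μ v hv hev
    by_contra hcon
    push Not at hcon
    have h2 := hN0 μ hcon (N + 1) (by omega)
    have hg : (fun k : ℕ => Tm ((μ : ℂ) - ((lam * (sv α ((k : ℤ) + 1) : ℝ) : ℝ) : ℂ))) =
        gS (lam : ℂ) (μ : ℂ) α := by
      funext k
      rw [gS]
      push_cast
      rfl
    have hp := prod_formula h0 h1 hα (lam : ℂ) (μ : ℂ) N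
    have htr := cyc_eig_trace q (fun k => lam * (sv α ((k : ℤ) + 1) : ℝ)) μ v hv hev (by
      rw [hg, hp]; exact det_MM _ _ _ _)
    rw [hg, hp, show N + 2 = (N + 1) + 1 from rfl, trace_MM_complex] at htr
    have h3 : X lam (dig α) μ (N + 1) = 2 := by exact_mod_cast htr
    rw [h3] at h2
    norm_num at h2

end Pool.Agent.Sturm82.Spec
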