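import Pool.Agent.Sturm82.SpecCycle

/-!
Hilbert space part: criteria for (non-)membership in the spectrum of a Jacobi operator on `ℓ²(ℤ)`.
-/

set_option autoImplicit false

namespace Pool.Agent.Sturm82.Spec

/-- `ℓ²(ℤ)` -/
abbrev L2 : Type := lp (fun _ : ℤ => ℂ) 2

theorem L2_hasSum_sq (u : L2) : HasSum (fun n => ‖u n‖ ^ 2) (‖u‖ ^ 2) := by
  have h := lp.hasSum_norm (p := 2) (by norm_num) u
  simpa using h

theorem L2_norm_sq (u : L2) : ‖u‖ ^ 2 = ∑' n, ‖u n‖ ^ 2 := (L2_hasSum_sq u).tsum_eq.symm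

theorem L2_exists_of_finite (ψ : ℤ → ℂ) (h : {n | ψ n ≠ 0}.Finite) :
    ∃ u : L2, ∀ n, u n = ψ n := by
  have hm : Memℓp (E := fun _ : ℤ => ℂ) ψ 2 := (memℓp_zero h).of_exponent_ge zero_le
  exact ⟨⟨ψ, hm⟩, fun n => rfl⟩

theorem algMap_apply (z : ℂ) (u : L2) : (algebraMap ℂ (L2 →L[ℂ] L2) z) u = z • u := rfl

section

variable (T : L2 →L[ℂ] L2) (V : ℤ → ℝ)

theorem bound_all (E ε : ℝ)
    (h : ∀ u : L2, {n | u n ≠ 0}.Finite → ε * ‖u‖ ≤ ‖T u - (E : ℂ) • u‖) (u : L2) :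
    ε * ‖u‖ ≤ ‖T u - (E : ℂ) • u‖ := by
  have hs := lp.hasSum_single (p := 2) (by norm_num) u
  have h1 : Filter.Tendsto (fun s : Finset ℤ => ε * ‖∑ i ∈ s, lp.single (E := fun _ : ℤ => ℂ) 2 i (u i)‖)
      Filter.atTop (nhds (ε * ‖u‖)) := (hs.norm).const_mul ε
  have h2 : Filter.Tendsto (fun s : Finset ℤ => ‖T (∑ i ∈ s, lp.single (E := fun _ : ℤ => ℂ) 2 i (u i))
      - (E : ℂ) • (∑ i ∈ s, lp.single (E := fun _ : ℤ => ℂ) 2 i (u i))‖)
      Filter.atTop (nhds ‖T u - (E : ℂ) • u‖) :=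
    (((T.continuous.tendsto u).comp hs).sub (Filter.Tendsto.const_smul hs _)).norm
  refine le_of_tendsto_of_tendsto' h1 h2 (fun s => h _ ?_)
  apply (s.finite_toSet).subset
  intro n hn
  by_contra hns
  apply hn
  rw [lp.coeFn_sum, Finset.sum_apply]
  apply Finset.sum_eq_zero
  intro i hi
  rw [lp.single_apply_ne]
  rintro rfl
  exact hns hi

theorem mem_spectrum_of_approx (E : ℝ)
    (h : ∀ δ : ℝ, 0 < δ → ∃ u : L2, u ≠ 0 ∧ ‖T u - (E : ℂ) • u‖ ≤ δ * ‖u‖) :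
    (E : ℂ) ∈ spectrum ℂ T := by
  rw [spectrum.mem_iff]
  rintro ⟨B, hB⟩
  set C : L2 →L[ℂ] L2 := ((B⁻¹ : (L2 →L[ℂ] L2)ˣ) : L2 →L[ℂ] L2) with hC
  have hinv : ∀ u : L2, C (T u - (E : ℂ) • u) = -u := by
    intro u
    have e1 : T u - (E : ℂ) • u = -((B : L2 →L[ℂ] L2) u) := by
      rw [hB, sub_apply, algMap_apply, neg_sub]
    have e2 : C ((B : L2 →L[ℂ] L2) u) = u := by
      have : (C * (B : L2 →L[ℂ] L2)) u = u := by
        rw [hC, Units.inv_mul]; rfl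
      exact this
    rw [e1, map_neg, e2]
  obtain ⟨u, hu, hle⟩ := h (1 / (2 * (‖C‖ + 1))) (by positivity)
  have h1 : ‖u‖ ≤ ‖C‖ * ‖T u - (E : ℂ) • u‖ := by
    have := C.le_opNorm (T u - (E : ℂ) • u)
    rw [hinv u, norm_neg] at this
    exact this
  have hpos : 0 < ‖u‖ := norm_pos_iff.mpr hu
  have h2 : ‖C‖ * ‖T u - (E : ℂ) • u‖ ≤ ‖C‖ * (1 / (2 * (‖C‖ + 1)) * ‖u‖) :=
    mul_le_mul_of_nonneg_left hle (norm_nonneg _)
  have h3 : ‖C‖ * (1 / (2 * (‖C‖ + 1)) * ‖u‖) < ‖u‖ := by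
    have h4 : ‖C‖ * (1 / (2 * (‖C‖ + 1))) < 1 := by
      rw [mul_one_div, div_lt_one (by positivity)]
      linarith [norm_nonneg C]
    calc ‖C‖ * (1 / (2 * (‖C‖ + 1)) * ‖u‖) = ‖C‖ * (1 / (2 * (‖C‖ + 1))) * ‖u‖ := by ring
      _ < 1 * ‖u‖ := mul_lt_mul_of_pos_right h4 hpos
      _ = ‖u‖ := one_mul _
  linarith

variable (hT : ∀ (u : L2) (n : ℤ), (T u) n = u (n + 1) + u (n - 1) + (V n : ℂ) * u n)
include hT

theorem T_single (k n : ℤ) : (T (lp.single (E := fun _ : ℤ => ℂ) 2 k (1 : ℂ))) n =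
    (if n = k - 1 then 1 else 0) + (if n = k + 1 then 1 else 0) + (if n = k then (V k : ℂ) else 0) := by
  rw [hT]
  have hs : ∀ m : ℤ, (lp.single (E := fun _ : ℤ => ℂ) 2 k (1 : ℂ)) m = if m = k then 1 else 0 := by
    intro m
    by_cases h : m = k
    · subst h; rw [lp.single_apply_self, if_pos rfl]
    · rw [lp.single_apply_ne _ _ _ h, if_neg h]
  rw [hs, hs, hs]
  have e1 : (n + 1 = k) ↔ (n = k - 1) := by omega
  have e2 : (n - 1 = k) ↔ (n = k + 1) := by omega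
  simp only [e1, e2]
  by_cases h : n = k
  · subst h; simp
  · simp [h]

/-- `T e_k = e_{k-1} + e_{k+1} + V_k e_k` -/
theorem T_single' (k : ℤ) : T (lp.single (E := fun _ : ℤ => ℂ) 2 k (1 : ℂ)) =
    lp.single (E := fun _ : ℤ => ℂ) 2 (k - 1) (1 : ℂ) + lp.single (E := fun _ : ℤ => ℂ) 2 (k + 1) (1 : ℂ)
      + lp.single (E := fun _ : ℤ => ℂ) 2 k (V k : ℂ) := by
  apply Subtype.ext
  funext n
  have hs : ∀ (c : ℂ) (j m : ℤ), (lp.single (E := fun _ : ℤ => ℂ) 2 j c) m = if m = j then c else 0 := by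
    intro c j m
    by_cases h : m = j
    · subst h; rw [lp.single_apply_self, if_pos rfl]
    · rw [lp.single_apply_ne _ _ _ h, if_neg h]
  have h1 := T_single T V hT k n
  rw [lp.coeFn_add, lp.coeFn_add, Pi.add_apply, Pi.add_apply, hs, hs, hs]
  exact h1

theorem orth_range (E : ℝ) (y : L2)
    (hy : ∀ u : L2, inner ℂ (T u - (E : ℂ) • u) y = 0) : T y - (E : ℂ) • y = 0 := by
  apply Subtype.ext
  funext k
  have h := hy (lp.single (E := fun _ : ℤ => ℂ) 2 k (1 : ℂ))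
  rw [T_single' T V hT k, inner_sub_left, inner_add_left, inner_add_left, inner_smul_left,
    lp.inner_single_left, lp.inner_single_left, lp.inner_single_left, lp.inner_single_left] at h
  simp at h
  show (T y) k - (E : ℂ) * y k = 0
  rw [hT]
  linear_combination h

theorem not_mem_spectrum_of_bound (E ε : ℝ) (hε : 0 < ε)
    (h : ∀ u : L2, {n | u n ≠ 0}.Finite → ε * ‖u‖ ≤ ‖T u - (E : ℂ) • u‖) :
    (E : ℂ) ∉ spectrum ℂ T := by
  have hb := bound_all T E ε h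
  rw [spectrum.mem_iff, not_not, ContinuousLinearMap.isUnit_iff_bijective,
    ContinuousLinearMap.bijective_iff_dense_range_and_antilipschitz]
  have happ : ∀ u : L2, (algebraMap ℂ (L2 →L[ℂ] L2) (E : ℂ) - T) u = -(T u - (E : ℂ) • u) := by
    intro u
    rw [sub_apply, algMap_apply, neg_sub]
  constructor
  · rw [Submodule.topologicalClosure_eq_top_iff, Submodule.eq_bot_iff]
    intro y hy
    have h1 : T y - (E : ℂ) • y = 0 := by
      apply orth_range T V hT E y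
      intro u
      have h2 := hy ((algebraMap ℂ (L2 →L[ℂ] L2) (E : ℂ) - T) u) ⟨u, rfl⟩
      rw [happ, inner_neg_left, neg_eq_zero] at h2
      exact h2
    have h2 := hb y
    rw [h1, norm_zero] at h2
    have h3 : ‖y‖ ≤ 0 := by
      by_contra hc
      push Not at hc
      have := mul_pos hε hc
      linarith
    exact norm_le_zero_iff.mp h3
  · refine ⟨⟨ε⁻¹, (inv_pos.mpr hε).le⟩, ?_⟩
    refine ContinuousLinearMap.antilipschitz_of_bound _ (fun u => ?_)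
    rw [happ, norm_neg]
    show ‖u‖ ≤ ε⁻¹ * ‖T u - (E : ℂ) • u‖
    have := hb u
    rw [inv_mul_eq_div, le_div_iff₀ hε]
    linarith

end

end Pool.Agent.Sturm82.Spec
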