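import Pool.Agent.Sturm82.SpecArith

/-!
The product formula: `T(E - λ v(q_N)) ⋯ T(E - λ v(1)) = M_N`.
-/

set_option autoImplicit false

namespace Pool.Agent.Sturm82.Spec

open Matrix

section

variable {R : Type*} [CommRing R]

/-- one-step transfer matrix -/
def Tm (x : R) : Matrix (Fin 2) (Fin 2) R := !![x, -1; 1, 0]

/-- ordered product `g (s + n - 1) * ... * g s` -/
def W (g : ℕ → Matrix (Fin 2) (Fin 2) R) (s : ℕ) : ℕ → Matrix (Fin 2) (Fin 2) R
  | 0 => 1
  | (n + 1) => g (s + n) * W g s n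

theorem W_add (g : ℕ → Matrix (Fin 2) (Fin 2) R) (s m n : ℕ) :
    W g s (m + n) = W g (s + m) n * W g s m := by
  induction n with
  | zero => simp [W]
  | succ n ih => rw [← add_assoc, W, ih, W, mul_assoc, add_assoc]

theorem W_congr (g : ℕ → Matrix (Fin 2) (Fin 2) R) (s t n : ℕ)
    (h : ∀ i, i < n → g (s + i) = g (t + i)) : W g s n = W g t n := by
  induction n with
  | zero => rfl
  | succ n ih =>
    rw [W, W, ih (fun i hi => h i (Nat.lt_succ_of_lt hi)), h n (Nat.lt_succ_self n)]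

/-- iterated periodicity -/
theorem per_iter {β : Type*} (g : ℕ → β) (q L : ℕ) (h : ∀ k, k < L → g (k + q) = g k) (j : ℕ) (k : ℕ)
    (hk : k + j * q < L + q) : g (k + j * q) = g k := by
  induction j with
  | zero => simp
  | succ j ih =>
    have e : k + (j + 1) * q = k + j * q + q := by ring
    rw [e] at hk ⊢
    rw [h _ (by omega), ih (by omega)]

theorem W_pow (g : ℕ → Matrix (Fin 2) (Fin 2) R) (q L : ℕ) (h : ∀ k, k < L → g (k + q) = g k)
    (j : ℕ) (hj : j * q ≤ L + q) : W g 0 (j * q) = (W g 0 q) ^ j := by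
  induction j with
  | zero => simp [W]
  | succ j ih =>
    have e : (j + 1) * q = j * q + q := by ring
    rw [e] at hj ⊢
    rw [W_add, ih (by omega), pow_succ']
    congr 1
    apply W_congr
    intro i hi
    have := per_iter g q L h j i (by omega)
    rw [show 0 + j * q + i = i + j * q by ring, this, zero_add]

/-- the transfer matrices along the Sturmian sequence, `gS k` corresponds to site `k + 1` -/
noncomputable def gS (lam E : R) (α : ℝ) (k : ℕ) : Matrix (Fin 2) (Fin 2) R :=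
  Tm (E - lam * ((sv α ((k : ℤ) + 1) : ℤ) : R))

theorem Tm_pow_W (x : R) (g : ℕ → Matrix (Fin 2) (Fin 2) R) (n : ℕ)
    (h : ∀ k, k < n → g k = Tm x) : W g 0 n = Tm x ^ n := by
  induction n with
  | zero => simp [W]
  | succ n ih =>
    rw [W, ih (fun k hk => h k (by omega)), zero_add, h n (by omega), pow_succ']

end

section

variable {R : Type*} [CommRing R] {α : ℝ} (h0 : 0 < α) (h1 : α < 1) (hα : Irrational α)
include h0 h1 hα

theorem gS_add_Q (lam E : R) (N k : ℕ) (hk : k < Q (dig α) (N + 1) - 2) :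
    gS lam E α (k + Q (dig α) N) = gS lam E α k := by
  rw [gS, gS]
  have := sv_add_Q h0 h1 hα N ((k : ℤ) + 1) (by omega) (by omega)
  rw [← this]
  congr 5
  push_cast
  ring

theorem prod_one (lam E : R) : W (gS lam E α) 0 (Q (dig α) 2) = MM lam E (dig α) 2 := by
  obtain ⟨m, hm⟩ : ∃ m, dig α 0 = m + 1 :=
    ⟨dig α 0 - 1, by have := one_le_dig h0 h1 hα 0; omega⟩
  have hQ : Q (dig α) 2 = m + 1 := by simp [Q, hm]
  rw [hQ, W, Tm_pow_W E _ m]
  · have e1 : gS lam E α (0 + m) = MM lam E (dig α) 0 * MM lam E (dig α) 1 := by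
      have := sv_dig h0 h1 hα
      rw [gS]
      rw [show (((0 + m : ℕ) : ℤ) + 1) = (dig α 0 : ℤ) by rw [hm]; push_cast; ring, this]
      ext i j
      fin_cases i <;> fin_cases j <;>
        simp [Tm, MM, Matrix.mul_apply, Fin.sum_univ_two]
      ring
    rw [e1]
    have e2 : MM lam E (dig α) 2 = MM lam E (dig α) 0 * (MM lam E (dig α) 1) ^ (dig α 0) := rfl
    rw [e2, hm, pow_succ', mul_assoc]
    rfl
  · intro k hk
    have := sv_small h0 h1 hα ((k : ℤ) + 1) (by omega) (by omega)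
    rw [gS, this]
    simp

theorem prod_two (lam E : R) : W (gS lam E α) 0 (Q (dig α) 3) = MM lam E (dig α) 3 := by
  have hQ : Q (dig α) 3 = dig α 1 * Q (dig α) 2 + 1 := by simp [Q]
  have hq2 : 1 ≤ Q (dig α) 2 := Q_pos (one_le_dig h0 h1 hα) 1
  have hd := one_le_dig h0 h1 hα 1
  obtain ⟨m, hm⟩ : ∃ m, dig α 1 = m + 1 := ⟨dig α 1 - 1, by omega⟩
  have hs : gS lam E α (0 + dig α 1 * Q (dig α) 2) = MM lam E (dig α) 1 := by
    have := sv_Q3 h0 h1 hα
    rw [gS]
    rw [show (((0 + dig α 1 * Q (dig α) 2 : ℕ) : ℤ) + 1) = (Q (dig α) 3 : ℤ) by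
      rw [hQ]; push_cast; ring, this]
    simp [Tm, MM]
  have hp : W (gS lam E α) 0 (dig α 1 * Q (dig α) 2) = (W (gS lam E α) 0 (Q (dig α) 2)) ^ dig α 1 := by
    apply W_pow _ _ (Q (dig α) 3 - 2) (gS_add_Q h0 h1 hα lam E 2)
    have : m * Q (dig α) 2 + Q (dig α) 2 = dig α 1 * Q (dig α) 2 := by rw [hm]; ring
    omega
  rw [hQ, W, hs, hp, prod_one h0 h1 hα]
  rfl

/-- THE PRODUCT FORMULA. -/
theorem prod_formula (lam E : R) (N : ℕ) :
    W (gS lam E α) 0 (Q (dig α) (N + 2)) = MM lam E (dig α) (N + 2) := by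
  suffices h : W (gS lam E α) 0 (Q (dig α) (N + 2)) = MM lam E (dig α) (N + 2) ∧
      W (gS lam E α) 0 (Q (dig α) (N + 3)) = MM lam E (dig α) (N + 3) from h.1
  induction N with
  | zero => exact ⟨prod_one h0 h1 hα lam E, prod_two h0 h1 hα lam E⟩
  | succ N ih =>
    refine ⟨ih.2, ?_⟩
    set q := Q (dig α) (N + 3) with hq
    set r := Q (dig α) (N + 2) with hr
    set b := dig α (N + 2) with hb
    have hQ : Q (dig α) (N + 4) = b * q + r := rfl
    have hM : MM lam E (dig α) (N + 4) = MM lam E (dig α) (N + 2) * (MM lam E (dig α) (N + 3)) ^ b :=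
      rfl
    have hq2 : 2 ≤ q := le_trans (by omega) (Q_ge (one_le_dig h0 h1 hα) (N + 2)).1
    have hr1 : 1 ≤ r := Q_pos (one_le_dig h0 h1 hα) (N + 1)
    have hb1 : 1 ≤ b := one_le_dig h0 h1 hα (N + 2)
    obtain ⟨m, hm⟩ : ∃ m, b = m + 1 := ⟨b - 1, by omega⟩
    have hbq : m * q + q = b * q := by rw [hm]; ring
    have hper : ∀ k, k < Q (dig α) (N + 4) - 2 → gS lam E α (k + q) = gS lam E α k :=
      fun k hk => gS_add_Q h0 h1 hα lam E (N + 3) k hk
    have e1 : W (gS lam E α) 0 (b * q) = (W (gS lam E α) 0 q) ^ b :=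
      W_pow _ _ (Q (dig α) (N + 4) - 2) hper b (by omega)
    have e2 : W (gS lam E α) (0 + b * q) r = W (gS lam E α) 0 r := by
      apply W_congr
      intro i hi
      have := per_iter (gS lam E α) q _ hper b i (by omega)
      rw [show 0 + b * q + i = i + b * q by ring, this, zero_add]
    show W (gS lam E α) 0 (Q (dig α) (N + 4)) = MM lam E (dig α) (N + 4)
    rw [hQ, W_add, e1, e2, ih.1, ih.2, hM]

end

end Pool.Agent.Sturm82.Spec
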