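import Pool.Agent.Sturm82.Defs

/-!
Traces of the Sturmian transfer matrices and the escape lemma for the trace map.
-/

set_option autoImplicit false

namespace Pool.Agent.Sturm82.Spec

open Matrix

section Trace

variable {R : Type*} [CommRing R]

/-- The matrices `M_{n-1}` (index shifted by one): `MM 0 = M_{-1}`, `MM 1 = M_0`,
`MM (n+2) = MM n * MM (n+1) ^ (a n)`. -/
def MM (lam E : R) (a : ℕ → ℕ) : ℕ → Matrix (Fin 2) (Fin 2) R
  | 0 => !![1, -lam; 0, 1]
  | 1 => !![E, -1; 1, 0]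
  | (n + 2) => MM lam E a n * (MM lam E a (n + 1)) ^ (a n)

theorem det_MM (lam E : R) (a : ℕ → ℕ) (n : ℕ) : (MM lam E a n).det = 1 := by
  suffices h : (MM lam E a n).det = 1 ∧ (MM lam E a (n + 1)).det = 1 from h.1
  induction n with
  | zero => simp [MM, Matrix.det_fin_two]
  | succ n ih =>
    refine ⟨ih.2, ?_⟩
    rw [MM, Matrix.det_mul, Matrix.det_pow, ih.1, ih.2]
    simp

theorem sq_of_det_one (B : Matrix (Fin 2) (Fin 2) R) (hB : B.det = 1) :
    B * B = B.trace • B - 1 := by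
  rw [Matrix.det_fin_two] at hB
  ext i j
  fin_cases i <;> fin_cases j <;>
    simp [Matrix.mul_apply, Fin.sum_univ_two, Matrix.trace_fin_two]
  · linear_combination -hB
  · ring
  · ring
  · linear_combination -hB

theorem tseq_eq_trace (A B : Matrix (Fin 2) (Fin 2) R) (hB : B.det = 1) (k : ℕ) :
    tseq A.trace B.trace (A * B).trace k = (A * B ^ k).trace := by
  suffices h : tseq A.trace B.trace (A * B).trace k = (A * B ^ k).trace ∧
      tseq A.trace B.trace (A * B).trace (k + 1) = (A * B ^ (k + 1)).trace from h.1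
  induction k with
  | zero => simp [tseq]
  | succ k ih =>
    refine ⟨ih.2, ?_⟩
    have e : A * B ^ (k + 1 + 1) = B.trace • (A * B ^ (k + 1)) - A * B ^ k := by
      have : B ^ (k + 1 + 1) = B ^ k * (B * B) := by
        rw [pow_succ, pow_succ, mul_assoc]
      rw [this, sq_of_det_one B hB, mul_sub, mul_one, mul_sub, pow_succ, Matrix.mul_smul,
        Matrix.mul_smul]
    rw [e, Matrix.trace_sub, Matrix.trace_smul, smul_eq_mul, ← ih.1, ← ih.2]
    rfl

theorem orb_eq_trace (lam E : R) (a : ℕ → ℕ) (n : ℕ) :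
    orb a (2, E, E - lam) n =
      ((MM lam E a n).trace, (MM lam E a (n + 1)).trace,
        (MM lam E a n * MM lam E a (n + 1)).trace) := by
  induction n with
  | zero =>
    simp [orb, MM, Matrix.trace_fin_two]
    refine ⟨by norm_num, by ring⟩
  | succ n ih =>
    rw [orb, ih, step]
    dsimp only
    rw [tseq_eq_trace _ _ (det_MM _ _ _ _), tseq_eq_trace _ _ (det_MM _ _ _ _)]
    refine Prod.ext rfl (Prod.ext rfl ?_)
    dsimp only
    rw [Matrix.trace_mul_comm (MM lam E a (n + 1)) (MM lam E a (n + 1 + 1)), MM, mul_assoc,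
      ← pow_succ]

end Trace

section RingHom

variable {R S : Type*} [CommRing R] [CommRing S]

theorem tseq_map (f : R →+* S) (x y z : R) (k : ℕ) :
    f (tseq x y z k) = tseq (f x) (f y) (f z) k := by
  suffices h : f (tseq x y z k) = tseq (f x) (f y) (f z) k ∧
      f (tseq x y z (k + 1)) = tseq (f x) (f y) (f z) (k + 1) from h.1
  induction k with
  | zero => simp [tseq]
  | succ k ih =>
    refine ⟨ih.2, ?_⟩
    rw [tseq, tseq, map_sub, map_mul, ih.1, ih.2]

theorem orb_map (f : R →+* S) (a : ℕ → ℕ) (v : R × R × R) (n : ℕ) :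
    orb a (f v.1, f v.2.1, f v.2.2) n =
      (f (orb a v n).1, f (orb a v n).2.1, f (orb a v n).2.2) := by
  induction n with
  | zero => rfl
  | succ n ih =>
    rw [orb, ih, orb, step, step]
    dsimp only
    rw [tseq_map, tseq_map]

end RingHom

/-- the trace of the complex transfer matrix is the real number `X`. -/
theorem trace_MM_complex (lam : ℝ) (a : ℕ → ℕ) (E : ℝ) (n : ℕ) :
    (MM (lam : ℂ) (E : ℂ) a (n + 1)).trace = ((X lam a E n : ℝ) : ℂ) := by
  have h1 := orb_eq_trace (lam : ℂ) (E : ℂ) a n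
  have h2 := orb_map Complex.ofRealHom a (2, E, E - lam) n
  simp only [Complex.ofRealHom_eq_coe, Complex.ofReal_sub, Complex.ofReal_ofNat] at h2
  rw [h1] at h2
  have h3 := congrArg (fun v => v.2.1) h2
  exact h3

section Escape

/-- absolute-value convexity of `tseq` -/
theorem tseq_conv (x y z : ℝ) (hy : 2 ≤ |y|) (k : ℕ) :
    2 * |tseq x y z (k + 1)| ≤ |tseq x y z (k + 2)| + |tseq x y z k| := by
  have h1 : y * tseq x y z (k + 1) = tseq x y z (k + 2) + tseq x y z k := by
    rw [tseq]; ring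
  have h2 : |y| * |tseq x y z (k + 1)| ≤ |tseq x y z (k + 2)| + |tseq x y z k| := by
    rw [← abs_mul, h1]; exact abs_add_le _ _
  have h3 := mul_le_mul_of_nonneg_right hy (abs_nonneg (tseq x y z (k + 1)))
  linarith

theorem tseq_conv' (x y z : ℝ) (k : ℕ) :
    |y| * |tseq x y z (k + 1)| ≤ |tseq x y z (k + 2)| + |tseq x y z k| := by
  have h1 : y * tseq x y z (k + 1) = tseq x y z (k + 2) + tseq x y z k := by
    rw [tseq]; ring
  rw [← abs_mul, h1]; exact abs_add_le _ _

/-- the escape region -/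
def Esc (v : ℝ × ℝ × ℝ) : Prop :=
  2 < |v.1| ∧ 2 < |v.2.1| ∧ |v.1| < |v.2.2| ∧ |v.2.1| < |v.2.2|

theorem esc_incr (x y z : ℝ) (hy : 2 ≤ |y|) (h : |x| < |z|) (k : ℕ) :
    |tseq x y z k| < |tseq x y z (k + 1)| := by
  induction k with
  | zero => exact h
  | succ k ih => linarith [tseq_conv x y z hy k]

theorem esc_ge (x y z : ℝ) (hy : 2 ≤ |y|) (h : |x| < |z|) (k : ℕ) :
    |z| ≤ |tseq x y z (k + 1)| := by
  induction k with
  | zero => exact le_refl _
  | succ k ih => exact ih.trans (esc_incr x y z hy h (k + 1)).le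

theorem esc_step (v : ℝ × ℝ × ℝ) (hv : Esc v) (k : ℕ) (hk : 1 ≤ k) : Esc (step k v) := by
  obtain ⟨h1, h2, h3, h4⟩ := hv
  obtain ⟨j, rfl⟩ : ∃ j, k = j + 1 := ⟨k - 1, by omega⟩
  have g1 := esc_ge v.1 v.2.1 v.2.2 h2.le h3 j
  have g2 := esc_incr v.1 v.2.1 v.2.2 h2.le h3 (j + 1)
  refine ⟨h2, ?_, ?_, g2⟩
  · show 2 < |tseq v.1 v.2.1 v.2.2 (j + 1)|
    linarith
  · show |v.2.1| < |tseq v.1 v.2.1 v.2.2 (j + 1 + 1)|
    linarith

theorem back_le (x y z : ℝ) (hy : 2 ≤ |y|) (k : ℕ)
    (h : |tseq x y z (k + 1)| ≤ |tseq x y z k|) : |tseq x y z (k + 1)| ≤ |x| := by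
  induction k with
  | zero => exact h
  | succ k ih =>
    have h1 := tseq_conv x y z hy k
    have h2 := ih (by linarith)
    linarith

theorem esc_first (v : ℝ × ℝ × ℝ) (k : ℕ) (hk : 1 ≤ k) (h0 : |v.1| ≤ 2) (h1 : 2 < |v.2.1|)
    (h2 : 2 < |(step k v).2.1|) : Esc (step k v) := by
  obtain ⟨j, rfl⟩ : ∃ j, k = j + 1 := ⟨k - 1, by omega⟩
  obtain ⟨x, y, z⟩ := v
  simp only [step] at h0 h1 h2 ⊢
  have g0 : |tseq x y z j| < |tseq x y z (j + 1)| := by
    by_contra hcon
    push Not at hcon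
    have := back_le x y z h1.le j hcon
    linarith
  have g1 := tseq_conv' x y z j
  have g2 : (|y| - 1) * |tseq x y z (j + 1)| < |tseq x y z (j + 2)| := by
    nlinarith
  refine ⟨h1, h2, ?_, ?_⟩
  · show |y| < |tseq x y z (j + 1 + 1)|
    have : 2 * (|y| - 1) ≤ (|y| - 1) * |tseq x y z (j + 1)| := by nlinarith
    linarith
  · show |tseq x y z (j + 1)| < |tseq x y z (j + 1 + 1)|
    have : |tseq x y z (j + 1)| ≤ (|y| - 1) * |tseq x y z (j + 1)| := by nlinarith
    linarith

theorem orb_fst_succ (a : ℕ → ℕ) (v : ℝ × ℝ × ℝ) (n : ℕ) :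
    (orb a v (n + 1)).1 = (orb a v n).2.1 := rfl

theorem escape_orb (a : ℕ → ℕ) (ha : ∀ n, 1 ≤ a n) (v : ℝ × ℝ × ℝ) (hv : |v.1| ≤ 2) (n : ℕ)
    (h1 : 2 < |(orb a v n).2.1|) (h2 : 2 < |(orb a v (n + 1)).2.1|) :
    Esc (orb a v (n + 1)) := by
  induction n with
  | zero => exact esc_first v (a 0) (ha 0) hv h1 h2
  | succ n ih =>
    by_cases h : 2 < |(orb a v n).2.1|
    · exact esc_step _ (ih h h1) _ (ha _)
    · exact esc_first _ _ (ha _) (by rw [orb_fst_succ]; exact not_lt.mp h) h1 h2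

/-- ESCAPE LEMMA. -/
theorem escape (lam : ℝ) (a : ℕ → ℕ) (ha : ∀ n, 1 ≤ a n) (E : ℝ) (n : ℕ)
    (h1 : 2 < |X lam a E n|) (h2 : 2 < |X lam a E (n + 1)|) (j : ℕ) (hj : n ≤ j) :
    2 < |X lam a E j| := by
  rcases Nat.eq_or_lt_of_le hj with rfl | hj
  · exact h1
  · have h0 := escape_orb a ha (2, E, E - lam) (by norm_num) n h1 h2
    have key : ∀ i, Esc (orb a (2, E, E - lam) (n + 1 + i)) := by
      intro i
      induction i with
      | zero => exact h0
      | succ i ih => exact esc_step _ ih _ (ha _)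
    have := (key (j - (n + 1))).2.1
    rw [show n + 1 + (j - (n + 1)) = j by omega] at this
    exact this

end Escape

section Cont

theorem continuous_tseq {Y : Type*} [TopologicalSpace Y] (f g h : Y → ℝ) (hf : Continuous f)
    (hg : Continuous g) (hh : Continuous h) (k : ℕ) :
    Continuous (fun t => tseq (f t) (g t) (h t) k) := by
  suffices H : Continuous (fun t => tseq (f t) (g t) (h t) k) ∧
      Continuous (fun t => tseq (f t) (g t) (h t) (k + 1)) from H.1
  induction k with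
  | zero => exact ⟨hf, hh⟩
  | succ k ih =>
    refine ⟨ih.2, ?_⟩
    have : (fun t => tseq (f t) (g t) (h t) (k + 1 + 1)) =
        fun t => g t * tseq (f t) (g t) (h t) (k + 1) - tseq (f t) (g t) (h t) k := by
      funext t; rw [tseq]
    rw [this]
    exact (hg.mul ih.2).sub ih.1

theorem continuous_orb (lam : ℝ) (a : ℕ → ℕ) (n : ℕ) :
    Continuous (fun E : ℝ => orb a (2, E, E - lam) n) := by
  induction n with
  | zero =>
    exact continuous_const.prodMk (continuous_id.prodMk (continuous_id.sub continuous_const))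
  | succ n ih =>
    refine (continuous_fst.comp (continuous_snd.comp ih)).prodMk (Continuous.prodMk ?_ ?_)
    · exact continuous_tseq _ _ _ (continuous_fst.comp ih)
        (continuous_fst.comp (continuous_snd.comp ih))
        (continuous_snd.comp (continuous_snd.comp ih)) _
    · exact continuous_tseq _ _ _ (continuous_fst.comp ih)
        (continuous_fst.comp (continuous_snd.comp ih))
        (continuous_snd.comp (continuous_snd.comp ih)) _

theorem continuous_X (lam : ℝ) (a : ℕ → ℕ) (n : ℕ) : Continuous (fun E : ℝ => X lam a E n) :=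
  continuous_fst.comp (continuous_snd.comp (continuous_orb lam a n))

end Cont

/-- If `E ∉ Sig` then near `E` all late traces are larger than two. -/
theorem exists_escape_nhd (lam : ℝ) (a : ℕ → ℕ) (ha : ∀ n, 1 ≤ a n) (E : ℝ)
    (hE : E ∉ Sig lam a) :
    ∃ ε : ℝ, 0 < ε ∧ ∃ N : ℕ, ∀ E' : ℝ, |E' - E| < ε → ∀ j, N ≤ j → 2 < |X lam a E' j| := by
  simp only [Sig, Set.mem_ofPred_eq, not_forall, not_or, not_le] at hE
  obtain ⟨N, h1, h2⟩ := hE
  have hopen : IsOpen {E' : ℝ | 2 < |X lam a E' N| ∧ 2 < |X lam a E' (N + 1)|} :=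
    (isOpen_lt continuous_const (continuous_X lam a N).abs).inter
      (isOpen_lt continuous_const (continuous_X lam a (N + 1)).abs)
  obtain ⟨ε, hε, hb⟩ := Metric.isOpen_iff.mp hopen E ⟨h1, h2⟩
  refine ⟨ε, hε, N, fun E' hE' j hj => ?_⟩
  have := hb (show E' ∈ Metric.ball E ε by rw [Metric.mem_ball, Real.dist_eq]; exact hE')
  exact escape lam a ha E' N this.1 this.2 j hj

/-- If `E ∈ Sig` then infinitely many traces are at most two. -/
theorem exists_small_trace (lam : ℝ) (a : ℕ → ℕ) (E : ℝ) (hE : E ∈ Sig lam a) (N : ℕ) :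
    ∃ n, N ≤ n ∧ |X lam a E n| ≤ 2 := by
  rcases hE N with h | h
  · exact ⟨N, le_refl _, h⟩
  · exact ⟨N + 1, Nat.le_succ _, h⟩

end Pool.Agent.Sturm82.Spec
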