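import Pool.Agent.Sturm82.Defs

set_option autoImplicit false

namespace Pool.Agent.Sturm82

open Matrix

section ring
variable {R : Type*} [CommRing R]

@[simp] lemma tseq_zero (x y z : R) : tseq x y z 0 = x := rfl
@[simp] lemma tseq_one (x y z : R) : tseq x y z 1 = z := rfl
lemma tseq_succ_succ (x y z : R) (k : ℕ) :
    tseq x y z (k + 2) = y * tseq x y z (k + 1) - tseq x y z k := rfl

/-- the polynomial `x² + y² + z² - x y z` -/
def surf (v : R × R × R) : R := v.1 ^ 2 + v.2.1 ^ 2 + v.2.2 ^ 2 - v.1 * v.2.1 * v.2.2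

lemma tseq_surf (x y z : R) (k : ℕ) :
    surf (tseq x y z k, y, tseq x y z (k + 1)) = surf (x, y, z) := by
  induction k with
  | zero => rfl
  | succ k ih =>
    rw [← ih]
    simp only [surf, tseq_succ_succ]
    ring

lemma surf_step (a : ℕ) (v : R × R × R) : surf (step a v) = surf v := by
  obtain ⟨x, y, z⟩ := v
  have := tseq_surf x y z a
  rw [← this]
  simp only [surf, step]
  ring

lemma surf_orb (a : ℕ → ℕ) (v : R × R × R) (n : ℕ) : surf (orb a v n) = surf v := by
  induction n with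
  | zero => rfl
  | succ n ih => rw [orb, surf_step, ih]

/-- the involution `(x,y,z) ↦ (y,x,xy-z)` conjugating `step` with its inverse -/
def flip (v : R × R × R) : R × R × R := (v.2.1, v.1, v.1 * v.2.1 - v.2.2)

@[simp] lemma flip_flip (v : R × R × R) : flip (flip v) = v := by
  obtain ⟨x, y, z⟩ := v
  simp only [flip, Prod.mk.injEq, true_and]
  ring

lemma surf_flip (v : R × R × R) : surf (flip v) = surf v := by
  obtain ⟨x, y, z⟩ := v
  simp only [surf, flip]
  ring

def stepInv (a : ℕ) (v : R × R × R) : R × R × R := flip (step a (flip v))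

lemma tseq_rev (x y z : R) (k j : ℕ) :
    tseq (tseq x y z (k + 1)) y (tseq x y z k) j = 
      if j ≤ k + 1 then tseq x y z (k + 1 - j)
      else tseq (tseq x y z (k + 1)) y (tseq x y z k) j := by
  induction j using Nat.strong_induction_on with
  | _ j ih =>
    split_ifs with hj
    · match j, hj, ih with
      | 0, _, _ => simp
      | 1, _, _ => simp
      | (j + 2), hj, ih =>
        rw [tseq_succ_succ, ih (j + 1) (by omega), ih j (by omega), if_pos (by omega),
          if_pos (by omega)]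
        obtain ⟨l, rfl⟩ : ∃ l, k = j + 1 + l := ⟨k - (j + 1), by omega⟩
        have e1 : j + 1 + l + 1 - (j + 1) = l + 1 := by omega
        have e2 : j + 1 + l + 1 - j = l + 2 := by omega
        have e3 : j + 1 + l + 1 - (j + 2) = l := by omega
        rw [e1, e2, e3, tseq_succ_succ]
        ring
    · rfl

lemma tseq_rev' (x y z : R) (k j : ℕ) (h : j ≤ k + 1) :
    tseq (tseq x y z (k + 1)) y (tseq x y z k) j = tseq x y z (k + 1 - j) := by
  rw [tseq_rev, if_pos h]

lemma tseq_shift (x y z : R) (k : ℕ) :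
    tseq z y (y * z - x) k = tseq x y z (k + 1) := by
  induction k using Nat.twoStepInduction with
  | zero => rfl
  | one => simp [tseq_succ_succ]
  | more k ih1 ih2 => rw [tseq_succ_succ, ih1, ih2, ← tseq_succ_succ]

lemma stepInv_step (a : ℕ) (v : R × R × R) : stepInv a (step a v) = v := by
  obtain ⟨x, y, z⟩ := v
  have h := tseq_rev' x y z a
  have hs : ∀ j, tseq (tseq x y z a) y (y * tseq x y z a - tseq x y z (a + 1)) j =
      tseq (tseq x y z (a + 1)) y (tseq x y z a) (j + 1) :=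
    fun j => tseq_shift (tseq x y z (a + 1)) y (tseq x y z a) j
  simp only [stepInv, step, flip]
  rw [hs, hs]
  have h1 := h (a + 1) le_rfl
  simp only [Nat.sub_self, tseq_zero] at h1
  have h2 : tseq (tseq x y z (a + 1)) y (tseq x y z a) a = z := by
    rw [h a (by omega)]
    simp
  rw [h1, tseq_succ_succ, h1, h2]
  simp only [Prod.mk.injEq, true_and]
  ring

lemma step_stepInv (a : ℕ) (v : R × R × R) : step a (stepInv a v) = v := by
  have := congrArg flip (stepInv_step a (flip v))
  simpa [stepInv] using this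

/-- words `P_0 = A, P_1 = B, P_{k+2} = P_k P_{k+1}^{a_k}` -/
def wd (A B : Matrix (Fin 2) (Fin 2) R) (a : ℕ → ℕ) : ℕ → Matrix (Fin 2) (Fin 2) R
  | 0 => A
  | 1 => B
  | (k + 2) => wd A B a k * wd A B a (k + 1) ^ (a k)

lemma wd_succ_succ (A B : Matrix (Fin 2) (Fin 2) R) (a : ℕ → ℕ) (k : ℕ) :
    wd A B a (k + 2) = wd A B a k * wd A B a (k + 1) ^ (a k) := rfl

lemma det_wd {A B : Matrix (Fin 2) (Fin 2) R} (hA : A.det = 1) (hB : B.det = 1) (a : ℕ → ℕ)
    (k : ℕ) : (wd A B a k).det = 1 := by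
  induction k using Nat.twoStepInduction with
  | zero => exact hA
  | one => exact hB
  | more k ih1 ih2 => rw [wd_succ_succ, det_mul, det_pow, ih1, ih2]; simp

lemma sq_eq_of_det_one {B : Matrix (Fin 2) (Fin 2) R} (hB : B.det = 1) :
    B * B = B.trace • B - 1 := by
  rw [Matrix.det_fin_two] at hB
  ext i j
  fin_cases i <;> fin_cases j <;>
    simp [Matrix.mul_apply, Fin.sum_univ_two, Matrix.trace_fin_two] <;>
    first | (linear_combination (-1 : R) * hB) | ring

lemma trace_mul_pow {A B : Matrix (Fin 2) (Fin 2) R} (hB : B.det = 1) (k : ℕ) :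
    (A * B ^ k).trace = tseq A.trace B.trace (A * B).trace k := by
  induction k using Nat.twoStepInduction with
  | zero => simp
  | one => simp
  | more k ih1 ih2 =>
    rw [tseq_succ_succ, ← ih1, ← ih2]
    have : A * B ^ (k + 2) = B.trace • (A * B ^ (k + 1)) - A * B ^ k := by
      have e : B ^ (k + 2) = B ^ k * (B * B) := by rw [pow_succ, pow_succ, mul_assoc]
      rw [e, sq_eq_of_det_one hB, mul_sub, mul_sub, mul_one]
      rw [Matrix.mul_smul, Matrix.mul_smul, ← pow_succ]
    rw [this, trace_sub, trace_smul, smul_eq_mul]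

lemma orb_wd {A B : Matrix (Fin 2) (Fin 2) R} (hA : A.det = 1) (hB : B.det = 1) (a : ℕ → ℕ)
    (k : ℕ) : orb a (A.trace, B.trace, (A * B).trace) k =
      ((wd A B a k).trace, (wd A B a (k + 1)).trace, (wd A B a k * wd A B a (k + 1)).trace) := by
  induction k with
  | zero => rfl
  | succ k ih =>
    rw [orb, ih]
    simp only [step]
    have hd := det_wd hA hB a (k + 1)
    rw [← trace_mul_pow hd, ← trace_mul_pow hd, ← wd_succ_succ]
    congr 2
    rw [pow_succ, ← mul_assoc, ← wd_succ_succ, trace_mul_comm]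

end ring

/-! compatibility with ring homs -/
section hom
variable {R S : Type*} [CommRing R] [CommRing S] (f : R →+* S)

def tmap (v : R × R × R) : S × S × S := (f v.1, f v.2.1, f v.2.2)

lemma tseq_map (x y z : R) (k : ℕ) : f (tseq x y z k) = tseq (f x) (f y) (f z) k := by
  induction k using Nat.twoStepInduction with
  | zero => rfl
  | one => rfl
  | more k ih1 ih2 => rw [tseq_succ_succ, tseq_succ_succ, map_sub, map_mul, ih1, ih2]

lemma step_map (a : ℕ) (v : R × R × R) : tmap f (step a v) = step a (tmap f v) := by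
  simp only [tmap, step, tseq_map]

lemma orb_map (a : ℕ → ℕ) (v : R × R × R) (n : ℕ) : tmap f (orb a v n) = orb a (tmap f v) n := by
  induction n with
  | zero => rfl
  | succ n ih => rw [orb, step_map, ih, orb]

lemma flip_map (v : R × R × R) : tmap f (flip v) = flip (tmap f v) := by
  simp only [tmap, flip, map_sub, map_mul]

lemma surf_map (v : R × R × R) : f (surf v) = surf (tmap f v) := by
  simp only [tmap, surf, map_sub, map_mul, map_add, map_pow]

end hom


section updown
variable {R : Type*} [CommRing R]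

lemma orb_succ (a : ℕ → ℕ) (v : R × R × R) (n : ℕ) : orb a v (n + 1) = step (a n) (orb a v n) := rfl

lemma orb_succ' (a : ℕ → ℕ) (v : R × R × R) (n : ℕ) :
    orb a v (n + 1) = orb (fun j => a (j + 1)) (step (a 0) v) n := by
  induction n with
  | zero => rfl
  | succ n ih => rw [orb_succ, ih, orb_succ]

lemma orb_add (a : ℕ → ℕ) (v : R × R × R) (n k : ℕ) :
    orb a v (n + k) = orb (fun j => a (n + j)) (orb a v n) k := by
  induction k with
  | zero => rfl
  | succ k ih => rw [← add_assoc, orb_succ, ih, orb_succ]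

lemma orb_fst (a : ℕ → ℕ) (v : R × R × R) (n : ℕ) : (orb a v (n + 1)).1 = (orb a v n).2.1 := rfl

/-- reversed digits -/
def rdig (a : ℕ → ℕ) (N j : ℕ) : ℕ := a (N - 1 - j)

lemma step_flip (a : ℕ) (w : R × R × R) : step a (flip w) = flip (stepInv a w) := by
  simp [stepInv]

/-- going up `k` levels from level `n` and coming back -/
lemma orb_rev (a : ℕ → ℕ) (v : R × R × R) (n k : ℕ) :
    orb (rdig a (n + k)) (flip (orb (fun j => a (n + j)) v k)) k = flip v := by
  induction k with
  | zero => rfl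
  | succ k ih =>
    rw [orb_succ']
    have h1 : rdig a (n + (k + 1)) 0 = a (n + k) := by
      unfold rdig; congr 1
    have h2 : (fun j => rdig a (n + (k + 1)) (j + 1)) = rdig a (n + k) := by
      funext j; unfold rdig; congr 1; omega
    rw [h1, h2, step_flip, orb_succ, stepInv_step, ih]

/-- going down `k` levels from level `n+k` and coming back -/
lemma orb_rev' (a : ℕ → ℕ) (w : R × R × R) (n k : ℕ) :
    orb (fun j => a (n + j)) (flip (orb (rdig a (n + k)) (flip w) k)) k = w := by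
  induction k generalizing w with
  | zero => simp [orb]
  | succ k ih =>
    rw [orb_succ' (rdig a (n + (k + 1)))]
    have h1 : rdig a (n + (k + 1)) 0 = a (n + k) := by
      unfold rdig; congr 1
    have h2 : (fun j => rdig a (n + (k + 1)) (j + 1)) = rdig a (n + k) := by
      funext j; unfold rdig; congr 1; omega
    rw [h1, h2, step_flip, orb_succ, ih, step_stepInv]

end updown

/-! ### Escape lemma -/
section escape

lemma tseq_convex (x y z : ℝ) (k : ℕ) :
    |y| * |tseq x y z (k + 1)| ≤ |tseq x y z (k + 2)| + |tseq x y z k| := by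
  rw [tseq_succ_succ, ← abs_mul]
  have := abs_sub_abs_le_abs_sub (y * tseq x y z (k + 1)) (tseq x y z k)
  linarith

lemma tseq_grow {x y z : ℝ} (hy : 2 ≤ |y|) {j : ℕ} (h : |tseq x y z j| < |tseq x y z (j + 1)|)
    {i : ℕ} (hi : j ≤ i) : |tseq x y z i| < |tseq x y z (i + 1)| := by
  induction i, hi using Nat.le_induction with
  | base => exact h
  | succ i hi ih =>
    have h1 := tseq_convex x y z i
    have h2 : 2 * |tseq x y z (i + 1)| ≤ |y| * |tseq x y z (i + 1)| :=
      mul_le_mul_of_nonneg_right hy (abs_nonneg _)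
    have : i + 1 + 1 = i + 2 := rfl
    rw [this]
    linarith

lemma tseq_mono {x y z : ℝ} (hy : 2 ≤ |y|) {j : ℕ} (h : |tseq x y z j| < |tseq x y z (j + 1)|)
    {i l : ℕ} (hi : j ≤ i) (hl : i ≤ l) : |tseq x y z i| ≤ |tseq x y z l| := by
  induction l, hl using Nat.le_induction with
  | base => exact le_rfl
  | succ l hl ih => exact ih.trans (tseq_grow hy h (hi.trans hl)).le

/-- the escape region -/
def Esc (v : ℝ × ℝ × ℝ) : Prop :=
  2 < |v.1| ∧ 2 < |v.2.1| ∧ |v.1| < |v.2.2| ∧ |v.2.1| < |v.2.2|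

lemma Esc.step {v : ℝ × ℝ × ℝ} (h : Esc v) {a : ℕ} (ha : 1 ≤ a) : Esc (step a v) := by
  obtain ⟨x, y, z⟩ := v
  obtain ⟨h1, h2, h3, h4⟩ := h
  simp only at h1 h2 h3 h4
  have hg : |tseq x y z 0| < |tseq x y z (0 + 1)| := by simpa using h3
  have h5 := tseq_mono h2.le hg (Nat.zero_le 1) ha
  have h6 := tseq_grow h2.le hg (Nat.zero_le a)
  simp only [tseq_one] at h5
  refine ⟨h2, ?_, ?_, h6⟩
  · simp only [Sturm82.step]
    linarith
  · simp only [Sturm82.step]
    linarith

lemma Esc.enter {v : ℝ × ℝ × ℝ} {a : ℕ} (ha : 1 ≤ a) (h1 : |v.1| ≤ 2) (h2 : 2 < |v.2.1|)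
    (h3 : 2 < |(Sturm82.step a v).2.1|) : Esc (Sturm82.step a v) := by
  obtain ⟨x, y, z⟩ := v
  simp only [Sturm82.step] at h1 h2 h3
  have hex : ∃ j, j < a ∧ |tseq x y z j| < |tseq x y z (j + 1)| := by
    by_contra hcon
    push Not at hcon
    have : ∀ i, i ≤ a → |tseq x y z i| ≤ |tseq x y z 0| := by
      intro i
      induction i with
      | zero => intro _; exact le_rfl
      | succ i ih => intro hi; exact (hcon i (by omega)).trans (ih (by omega))
    have := this a le_rfl
    simp only [tseq_zero] at this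
    linarith
  obtain ⟨j, hj, hj'⟩ := hex
  obtain ⟨b, rfl⟩ : ∃ b, a = b + 1 := ⟨a - 1, by omega⟩
  have h4 := tseq_grow h2.le hj' (i := b) (by omega)
  have h5 := tseq_grow h2.le hj' (i := b + 1) (by omega)
  have h6 := tseq_convex x y z b
  refine ⟨h2, h3, ?_, h5⟩
  simp only [Sturm82.step]
  have e : b + 1 + 1 = b + 2 := rfl
  rw [e]
  nlinarith [abs_nonneg (tseq x y z b)]

variable {a : ℕ → ℕ} (ha : ∀ n, 1 ≤ a n) {v : ℝ × ℝ × ℝ}
include ha

lemma esc_of (hv : |v.1| ≤ 2 ∨ |v.2.1| ≤ 2) (n : ℕ) (h1 : 2 < |(orb a v n).2.1|)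
    (h2 : 2 < |(orb a v (n + 1)).2.1|) : Esc (orb a v (n + 1)) := by
  induction n with
  | zero =>
    refine Esc.enter (ha 0) ?_ h1 h2
    rcases hv with h | h
    · exact h
    · exact absurd h1 (not_lt.mpr h)
  | succ n ih =>
    by_cases h : 2 < |(orb a v n).2.1|
    · exact (ih h h1).step (ha (n + 1))
    · push Not at h
      exact Esc.enter (ha (n + 1)) h h1 h2

lemma esc_forever (n j : ℕ) (h : Esc (orb a v n)) (hj : n ≤ j) : Esc (orb a v j) := by
  induction j, hj using Nat.le_induction with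
  | base => exact h
  | succ j hj ih => exact ih.step (ha j)

lemma escape (hv : |v.1| ≤ 2 ∨ |v.2.1| ≤ 2) {n : ℕ} (h1 : 2 < |(orb a v n).2.1|)
    (h2 : 2 < |(orb a v (n + 1)).2.1|) {j : ℕ} (hj : n ≤ j) : 2 < |(orb a v j).2.1| := by
  rcases Nat.eq_or_lt_of_le hj with rfl | hj
  · exact h1
  · exact (esc_forever ha (n + 1) j (esc_of ha hv n h1 h2) hj).2.1

/-- nesting -/
lemma nest (hv : |v.1| ≤ 2 ∨ |v.2.1| ≤ 2) {n N : ℕ} (hN : |(orb a v N).2.1| ≤ 2) (hn : n ≤ N) :
    |(orb a v n).2.1| ≤ 2 ∨ |(orb a v (n + 1)).2.1| ≤ 2 := by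
  by_contra h
  push Not at h
  exact absurd (escape ha hv h.1 h.2 hn) (not_lt.mpr hN)

end escape

/-! ### sign symmetry -/
section sign

def Sg (v w : ℝ × ℝ × ℝ) : Prop :=
  ∃ e f : ℝ, |e| = 1 ∧ |f| = 1 ∧ w = (e * v.1, f * v.2.1, e * f * v.2.2)

lemma tseq_sign {e f : ℝ} (hf : f ^ 2 = 1) (x y z : ℝ) (k : ℕ) :
    tseq (e * x) (f * y) (e * f * z) k = e * f ^ k * tseq x y z k := by
  induction k using Nat.twoStepInduction with
  | zero => simp
  | one => simp
  | more k ih1 ih2 =>
    rw [tseq_succ_succ, ih1, ih2, tseq_succ_succ]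
    have : f ^ (k + 2) = f ^ k * f ^ 2 := by ring
    have h3 : f ^ (k + 1) = f ^ k * f := by ring
    rw [this, h3, hf]
    linear_combination (e * f ^ k * y * tseq x y z (k + 1)) * hf

lemma Sg.step {v w : ℝ × ℝ × ℝ} (h : Sg v w) (a : ℕ) : Sg (step a v) (step a w) := by
  obtain ⟨e, f, he, hf, rfl⟩ := h
  have hf2 : f ^ 2 = 1 := by rw [← sq_abs, hf]; norm_num
  refine ⟨f, e * f ^ a, hf, by rw [abs_mul, abs_pow, he, hf]; simp, ?_⟩
  simp only [Sturm82.step, tseq_sign hf2]
  refine Prod.ext rfl (Prod.ext rfl ?_)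
  simp only
  rw [pow_succ]
  ring

lemma Sg.orb {v w : ℝ × ℝ × ℝ} (h : Sg v w) (a : ℕ → ℕ) (n : ℕ) :
    Sg (Sturm82.orb a v n) (Sturm82.orb a w n) := by
  induction n with
  | zero => exact h
  | succ n ih => exact ih.step (a n)

lemma Sg.abs_eq {v w : ℝ × ℝ × ℝ} (h : Sg v w) : |w.2.1| = |v.2.1| := by
  obtain ⟨e, f, he, hf, rfl⟩ := h
  simp [abs_mul, hf]

lemma Sg.abs_orb {v w : ℝ × ℝ × ℝ} (h : Sg v w) (a : ℕ → ℕ) (n : ℕ) :
    |(Sturm82.orb a w n).2.1| = |(Sturm82.orb a v n).2.1| := (h.orb a n).abs_eq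

end sign

end Pool.Agent.Sturm82
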